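import Pool.Agent.Mg.Fb3b911a.G1879f9

section

/-! Virtually abelian groups: the bias of the length modulo `p`. -/

namespace Pool.Agent.MP_b3b911_al.VA

open Filter Topology Pointwise

variable {G : Type*} [Group G]

theorem biasB_pt {n : ℕ} {L : Lat G n} {Γ : Geo L} {Δ : Des Γ} {T : Set G} {K m ω e : ℤ}
    {φ : Zn n → Zn n →+ ℝ} (hO : Δ.Out T K m ω e φ) {p r : ℕ} (hr : r < p) {α : Zn n}
    (hα : α ∈ Γ.O) {Dm Dp : Fin L.N → ℕ} (h6 : ∀ f, Dm f ≤ 6)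
    (hlo : ∀ l : List G, 6 ≤ l.length → (l.length + 1) % p = r → Δ.NT (L.ρ l.prod⁻¹ α) →
      Dm (L.cl l.prod) ≤ cost L Δ.dT α l)
    (hup : ∀ (j : ℕ) (g : G), 6 ≤ j → (j + 2) % p = r → Δ.NT (L.ρ g⁻¹ α) →
      ∃ (r₁ r₂ : G) (l : List G), l.length = j ∧ Path L Δ.Tp (L.ρ r₁⁻¹ α) l ∧
        L.cl (r₁ * l.prod * r₂) = L.cl g ∧
        Δ.df r₁ α + Δ.df r₂ (L.ρ (r₁ * l.prod)⁻¹ α) ≤ Dp (L.cl g))
    {g : G} (hN : Δ.NT (L.ρ g⁻¹ α))
    (hR : Rep (Cyc L T Set.univ) (φ α) (L.P (L.ι (-(2 * K) • α) * g)))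
    (hbig : 10 * m < Γ.B α (L.P g)) (k : ℤ)
    (h1 : (r + k * p - 1) * m - ω * Dm (L.cl g) + e < Γ.B α (L.P g))
    (h2 : Γ.B α (L.P g) ≤ (r + k * p) * m - ω * Dp (L.cl g) - e) : len T g % p = r := by
  obtain ⟨hω, hm⟩ := hO.m_pos
  have he := hO.e0
  have hm0 := hO.m0
  have h3 : (0 : ℤ) ≤ ω * Dp (L.cl g) := by positivity
  have h4 : (10 : ℤ) < r + k * p := lt_of_mul_lt_mul_right (by linarith) hm.le
  obtain ⟨j, hj⟩ : ∃ j : ℕ, (r : ℤ) + k * p = j + 2 := ⟨(r + k * p - 2).toNat, by omega⟩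
  have hj6 : 8 ≤ j := by omega
  have hmod : (j + 2) % p = r := by
    have : ((j + 2 : ℕ) : ℤ) % p = r := by
      push_cast
      rw [← hj, Int.add_mul_emod_self_right]
      exact Int.emod_eq_of_lt (by positivity) (by exact_mod_cast hr)
    exact_mod_cast this
  rw [hj] at h1 h2
  obtain ⟨r₁, r₂, l, e1, e2, e3, e4⟩ := hup j g (by omega) hmod hN
  have h5 : ω * Dm (L.cl g) ≤ ω * 6 :=
    mul_le_mul_of_nonneg_left (by exact_mod_cast h6 _) hω.le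
  have h7 : ω * (Δ.df r₁ α + Δ.df r₂ (L.ρ (r₁ * l.prod)⁻¹ α) : ℕ) ≤ ω * Dp (L.cl g) :=
    mul_le_mul_of_nonneg_left (by exact_mod_cast e4) hω.le
  have hin := hO.up α hα g r₁ r₂ l hR e2 e3 (by rw [e1]; linarith) (by rw [e1]; linarith)
  rw [e1, hO.gen.mem_pow_iff] at hin
  have hnot : ¬ len T g ≤ j + 1 := fun h => by
    obtain ⟨l', a1, a2, rfl⟩ := mem_pow_iff_list.1 (hO.gen.mem_pow_iff.2 h)
    have b1 := hlo l' (by omega) (by rw [a1]; exact hmod) hN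
    have b2 := hO.low α hα l' a2
    have b3 : ω * Dm (L.cl l'.prod) ≤ ω * cost L Δ.dT α l' :=
      mul_le_mul_of_nonneg_left (by exact_mod_cast b1) hω.le
    rw [a1] at b2
    push_cast at b2
    linarith
  rw [show len T g = j + 2 by omega, hmod]

theorem biasB_same {n : ℕ} (L : Lat G n) (μ : Mean G) (R : Set G)
    (hR : ∀ a, ∀ᶠ g in μ.ae, g ∈ R ↔ g * a ∈ R) (f f' : Fin L.N) :
    μ.D (R ∩ {g | L.cl g = f}) = μ.D (R ∩ {g | L.cl g = f'}) := by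
  rw [← μ.right ((L.rep f)⁻¹ * L.rep f') (R ∩ {g | L.cl g = f'})]
  refine μ.congr_ae ((hR ((L.rep f)⁻¹ * L.rep f')).mono fun g hg => and_congr hg ?_)
  have := L.cl_mul_right_iff ((L.rep f)⁻¹ * L.rep f') g (L.rep f)
  rw [mul_inv_cancel_left, L.cl_rep, L.cl_rep] at this
  exact this.symm

theorem biasB_arith {δ X F N p m ω e σ s : ℝ} (hδ : 0 < δ) (hF : F ≤ N) (hp : 2 ≤ p)
    (hm : 0 < m) (he : 0 ≤ e) (hσ : 0 < σ) (hN : 0 < N) (hω : 4 * N * (e + σ) < ω) (hs : 1 ≤ s)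
    (h : (F * (m - 2 * e - σ) + ω * s) * δ ≤ (p * m + σ) * X) : F * δ < p * X := by
  by_contra hc
  have h0 : 0 < 4 * N * (e + σ) := by positivity
  have h1 : (p * m + σ) * (p * X) ≤ (p * m + σ) * (F * δ) :=
    mul_le_mul_of_nonneg_left (not_lt.1 hc) (by positivity)
  have h2 : p * ((F * (m - 2 * e - σ) + ω * s) * δ) ≤ p * ((p * m + σ) * X) :=
    mul_le_mul_of_nonneg_left h (by positivity)
  have h3 : (p * (F * (m - 2 * e - σ) + ω * s)) * δ ≤ ((p * m + σ) * F) * δ := by linarith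
  have h4 := le_of_mul_le_mul_right h3 hδ
  have h5 : F * (p * (2 * e + σ) + σ) ≤ N * (p * (2 * e + σ) + σ) :=
    mul_le_mul_of_nonneg_right hF (by positivity)
  have h6 : p * (4 * N * (e + σ)) < p * ω := mul_lt_mul_of_pos_left hω (by positivity)
  have h7 : p * ω * 1 ≤ p * ω * s := mul_le_mul_of_nonneg_left hs (by nlinarith)
  have h8 : N * σ * 2 ≤ N * σ * p := mul_le_mul_of_nonneg_left hp (by positivity)
  have h9 : 0 ≤ N * e * p := by positivity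
  have h10 : 0 ≤ N * σ := by positivity
  nlinarith

theorem biasB_stmt (hS : SlabStmt G) (hW : WinStmt G) : BiasBStmt G := by
  intro n L Γ Δ T K m ω e φ μ p r hO hR hP hOsc α hα hNT
  obtain ⟨hp, hr, -, hall⟩ := hOsc
  obtain ⟨Dm, Dp, h6, hlo, hup, hsum⟩ := hall α hα hNT
  obtain ⟨S, hSm, hsum⟩ : ∃ S : Finset (Fin L.N), (∀ f, f ∈ S ↔ Δ.NT (L.ρ (L.rep f)⁻¹ α)) ∧
      ∑ f ∈ S, Dp f < ∑ f ∈ S, Dm f := ⟨_, fun f => by simp, hsum⟩
  obtain ⟨hω, hm⟩ := hO.m_pos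
  have he := hO.e0
  have hm0 := hO.m0
  have hv := hO.vert α hα
  have hβ := Γ.β_pos
  have hN : (0 : ℝ) < L.N := by exact_mod_cast L.N_pos
  have hNz : (0 : ℤ) < L.N := by exact_mod_cast L.N_pos
  have hmr : (0 : ℝ) < m := by exact_mod_cast hm
  have hcl : ∀ g, Δ.NT (L.ρ g⁻¹ α) ↔ L.cl g ∈ S := fun g => by
    rw [hSm, L.ρ_inv_congr (L.ρ_rep g)]
  set R := Reg L T (φ α)
  set δ := μ.D (R ∩ {g | L.cl g = L.cl 1})
  have hsame : ∀ f, μ.D (R ∩ {g | L.cl g = f}) = δ := fun f =>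
    biasB_same L μ R (hR.right _ hv) f _
  have hδ : 0 < δ := by
    have h1 := μ.sum_fiber Finset.univ L.cl R fun _ _ => Finset.mem_univ _
    simp only [hsame, Finset.sum_const, Finset.card_univ, Fintype.card_fin, nsmul_eq_mul] at h1
    exact (mul_pos_iff_of_pos_left hN).1 (h1 ▸ hR.pos hP _ hv)
  have hne : φ α ≠ 0 := fun h => by
    have h1 := hO.hφ α α
    have h2 : (0 : ℝ) < Γ.B Γ.c0 Γ.c0 := by exact_mod_cast hβ
    rw [h, Γ.B_self hα, AddMonoidHom.zero_apply] at h1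
    exact absurd h1 (by positivity : (0 : ℝ) < L.N * Γ.B Γ.c0 Γ.c0 / m).ne
  have hbig : ∀ᶠ g in μ.ae, g ∈ R → 10 * m < Γ.B α (L.P g) :=
    (hS n L μ (φ α) (10 * L.N) hne).mono fun g hg hg' => by
      have h1 : (0 : ℝ) ≤ φ α (L.P g) := hg' 0 fun c _ => by simp
      rw [abs_of_nonneg h1, hO.hφ, lt_div_iff₀ hmr] at hg
      have h2 : (10 * m : ℝ) < Γ.B α (L.P g) := lt_of_mul_lt_mul_left (by linarith) hN.le
      exact_mod_cast h2
  have hone : ∀ f ∈ S, (((m + ω * (Dm f - Dp f) - 2 * e : ℤ) : ℝ) -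
      ((L.N * Γ.B Γ.c0 Γ.c0 : ℤ) : ℝ)) * δ ≤
      (((p * m : ℤ) : ℝ) + ((L.N * Γ.B Γ.c0 Γ.c0 : ℤ) : ℝ)) *
        μ.D ((R ∩ {g | L.cl g = f}) ∩ {g | len T g % p = r}) := fun f hf => by
    have hpz : (2 : ℤ) ≤ p := by exact_mod_cast hp
    have h1 := hW μ (R ∩ {g | L.cl g = f}) (L.ι α) (fun g => Γ.B α (L.P g))
      (L.N * Γ.B Γ.c0 Γ.c0) (p * m) ((r - 1) * m - ω * Dm f + e)
      (m + ω * (Dm f - Dp f) - 2 * e) (by positivity) (by positivity) (by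
        have a1 : ω * Dm f ≤ ω * 6 := mul_le_mul_of_nonneg_left (by exact_mod_cast h6 _) hω.le
        have a2 : (0 : ℤ) ≤ ω * Dp f := by positivity
        have a3 : 2 * m ≤ p * m := mul_le_mul_of_nonneg_right hpz hm.le
        linarith)
      (fun g => by
        rw [L.P_ι_mul, map_add, map_nsmul, Γ.B_self hα, nsmul_eq_mul, add_comm])
      ((hR.left _ hv α).mono fun g hg => and_congr hg (by simp [L.cl_ι_mul]))
    rw [hsame] at h1
    refine h1.trans (mul_le_mul_of_nonneg_left (μ.mono_ae ?_) (by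
      rw [← Int.cast_add]; exact_mod_cast (by positivity : (0 : ℤ) ≤ p * m + _)))
    filter_upwards [hbig, hR.rep _ hv (L.N • (-(2 * K) • α))] with g a1 a2 ⟨⟨b1, b2⟩, k, b3, b4⟩
    obtain rfl : L.cl g = f := b2
    exact ⟨⟨b1, rfl⟩, biasB_pt hO hr hα h6 hlo hup ((hcl g).2 hf)
      (by rw [L.P_ι_mul]; exact a2 b1) (a1 b1) k (by linarith) (by linarith)⟩
  have hY : ∀ Z : Set G, μ.D ({g | g ∈ R ∧ Δ.NT (L.ρ g⁻¹ α)} ∩ Z) =
      ∑ f ∈ S, μ.D ((R ∩ {g | L.cl g = f}) ∩ Z) := fun Z => by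
    rw [μ.sum_fiber S L.cl _ fun g hg => (hcl g).1 hg.1.2]
    refine Finset.sum_congr rfl fun f hf => congrArg _ ?_
    ext g
    exact ⟨fun h => ⟨⟨h.1.1.1, h.2⟩, h.1.2⟩,
      fun h => ⟨⟨⟨h.1.1, (hcl g).2 (by rw [show L.cl g = f from h.1.2]; exact hf)⟩, h.2⟩, h.1.2⟩⟩
  have hY1 := hY Set.univ
  simp only [Set.inter_univ, hsame, Finset.sum_const, nsmul_eq_mul] at hY1
  rw [hY1, hY]
  have hs := Finset.sum_le_sum hone
  rw [← Finset.mul_sum, ← Finset.sum_mul] at hs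
  refine biasB_arith (N := L.N) (m := m) (ω := ω) (e := e) (σ := L.N * Γ.B Γ.c0 Γ.c0)
    (s := ∑ f ∈ S, (Dm f : ℝ) - ∑ f ∈ S, (Dp f : ℝ)) hδ ?_ (by exact_mod_cast hp) hmr
    (by exact_mod_cast he) (by exact_mod_cast mul_pos hNz hβ) hN (by exact_mod_cast hO.ω0) ?_ ?_
  · exact_mod_cast (Finset.card_le_univ S).trans_eq (Fintype.card_fin _)
  · have : ((∑ f ∈ S, Dp f : ℕ) : ℝ) + 1 ≤ (∑ f ∈ S, Dm f : ℕ) := by exact_mod_cast hsum
    push_cast at this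
    linarith
  · push_cast at hs
    refine le_of_eq_of_le ?_ hs
    simp only [Finset.sum_sub_distrib, Finset.sum_add_distrib, Finset.sum_const, nsmul_eq_mul,
      ← Finset.mul_sum]
    ring

end Pool.Agent.MP_b3b911_al.VA

end

section

/-! Virtually abelian groups: the linear program. -/

namespace Pool.Agent.MP_b3b911_al.VA

open Filter Topology Pointwise

variable {n : ℕ}

theorem lp_small {C : Set (Zn n × ℕ)} (hC : C.Finite) {φ η : Zn n →+ ℝ} (hφ : Feas C φ)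
    (hη : ∀ c ∈ C, φ c.1 = c.2 → η c.1 ≤ 0) : ∃ t : ℝ, 0 < t ∧ Feas C (φ + t • η) := by
  have h : ∀ᶠ t in 𝓝[>] (0 : ℝ), ∀ c ∈ C, φ c.1 + t * η c.1 ≤ c.2 := by
    rw [hC.eventually_all]
    intro c hc
    by_cases ht : φ c.1 = c.2
    · filter_upwards [self_mem_nhdsWithin] with t htp
      have h1 := hη c hc ht
      have h2 : (0 : ℝ) < t := htp
      nlinarith
    · have hlt : φ c.1 < c.2 := lt_of_le_of_ne (hφ c hc) ht
      have hcont : Tendsto (fun t : ℝ => φ c.1 + t * η c.1) (𝓝[>] 0) (𝓝 (φ c.1 + 0 * η c.1)) :=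
        ((continuous_const.add (continuous_id.mul continuous_const)).tendsto 0).mono_left
          nhdsWithin_le_nhds
      rw [zero_mul, add_zero] at hcont
      exact (hcont.eventually (gt_mem_nhds hlt)).mono fun t h => h.le
  obtain ⟨t, h1, h2⟩ := (h.and self_mem_nhdsWithin).exists
  exact ⟨t, h2, fun c hc => by simpa using h1 c hc⟩

theorem lp_fin {C : Set (Zn n × ℕ)} (hC : C.Finite) : (Vert C).Finite := by
  refine Set.Finite.of_finite_image (f := fun φ : Zn n →+ ℝ => {c | c ∈ C ∧ φ c.1 = c.2})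
    (hC.finite_subsets.subset ?_) ?_
  · rintro _ ⟨φ, -, rfl⟩ c hc
    exact hc.1
  · intro φ hφ ψ _ h
    have h0 := hφ.2 (φ - ψ) fun c hc ht => by
      have h1 : c ∈ {c | c ∈ C ∧ φ c.1 = c.2} := ⟨hc, ht⟩
      have h2 : c ∈ {c : Zn n × ℕ | c ∈ C ∧ ψ c.1 = c.2} := by
        have h3 : {c : Zn n × ℕ | c ∈ C ∧ φ c.1 = c.2} = {c | c ∈ C ∧ ψ c.1 = c.2} := h
        rw [← h3]; exact h1
      simp [ht, h2.2]
    exact sub_eq_zero.1 h0

theorem lp_step {C : Set (Zn n × ℕ)} (hC : C.Finite) (hsym : ∀ c ∈ C, (-c.1, c.2) ∈ C)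
    (hsp : Span (Prod.fst '' C)) {φ η : Zn n →+ ℝ} (hφ : Feas C φ) (hne : η ≠ 0)
    (hη : ∀ c ∈ C, φ c.1 = c.2 → η c.1 = 0) : ∃ t : ℝ, 0 ≤ t ∧ Feas C (φ + t • η) ∧
      {c | c ∈ C ∧ (φ + t • η) c.1 ≠ c.2} ⊂ {c | c ∈ C ∧ φ c.1 ≠ c.2} := by
  have hS : {c | c ∈ C ∧ 0 < η c.1}.Nonempty := by
    by_contra hS
    refine hne (hsp η ?_)
    rintro _ ⟨c, hc, rfl⟩
    have h1 : ¬ 0 < η c.1 := fun h => hS ⟨c, hc, h⟩
    have h2 : ¬ 0 < η (-c.1) := fun h => hS ⟨(-c.1, c.2), hsym c hc, h⟩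
    rw [map_neg] at h2
    linarith [not_lt.1 h1, not_lt.1 h2]
  obtain ⟨d, ⟨hd, hdp⟩, hmin⟩ := Set.exists_min_image {c | c ∈ C ∧ 0 < η c.1}
    (fun c => ((c.2 : ℝ) - φ c.1) / η c.1) (hC.subset fun c hc => hc.1) hS
  have ht : 0 ≤ ((d.2 : ℝ) - φ d.1) / η d.1 := div_nonneg (sub_nonneg.2 (hφ d hd)) hdp.le
  refine ⟨_, ht, fun c hc => ?_, ?_, fun h => ?_⟩
  · have e : (φ + (((d.2 : ℝ) - φ d.1) / η d.1) • η) c.1 =
      φ c.1 + ((d.2 : ℝ) - φ d.1) / η d.1 * η c.1 := by simp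
    rw [e]
    by_cases hp : 0 < η c.1
    · have h1 := hmin c ⟨hc, hp⟩
      rw [le_div_iff₀ hp] at h1
      linarith
    · have h1 := hφ c hc
      have h2 := not_lt.1 hp
      nlinarith
  · rintro c ⟨hc, hn⟩
    refine ⟨hc, fun h => hn ?_⟩
    simp [hη c hc h, h]
  · have h1 : d ∈ {c : Zn n × ℕ | c ∈ C ∧ φ c.1 ≠ c.2} :=
      ⟨hd, fun h => hdp.ne' (hη d hd h)⟩
    refine (h h1).2 ?_
    have e : (φ + (((d.2 : ℝ) - φ d.1) / η d.1) • η) d.1 =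
      φ d.1 + ((d.2 : ℝ) - φ d.1) / η d.1 * η d.1 := by simp
    rw [e, div_mul_cancel₀ _ hdp.ne']
    ring

theorem lp_move {C : Set (Zn n × ℕ)} (hC : C.Finite) (hsym : ∀ c ∈ C, (-c.1, c.2) ∈ C)
    (hsp : Span (Prod.fst '' C)) (a : Zn n) (k : ℕ) : ∀ φ : Zn n →+ ℝ, Feas C φ →
      {c | c ∈ C ∧ φ c.1 ≠ c.2}.ncard = k → ∃ ψ ∈ Vert C, φ a ≤ ψ a := by
  induction k using Nat.strong_induction_on with
  | _ k ih =>
    intro φ hφ hk
    by_cases hv : φ ∈ Vert C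
    · exact ⟨φ, hv, le_rfl⟩
    have h1 : ∃ η : Zn n →+ ℝ, η ≠ 0 ∧ (∀ c ∈ C, φ c.1 = c.2 → η c.1 = 0) ∧ 0 ≤ η a := by
      by_contra hno
      refine hv ⟨hφ, fun η hη => ?_⟩
      by_contra hne
      rcases le_total 0 (η a) with h | h
      · exact hno ⟨η, hne, hη, h⟩
      · exact hno ⟨-η, neg_ne_zero.2 hne, fun c hc ht => by simp [hη c hc ht], by simpa using h⟩
    obtain ⟨η, hne, hη, ha⟩ := h1
    obtain ⟨t, ht, hf, hss⟩ := lp_step hC hsym hsp hφ hne hη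
    have hlt := Set.ncard_lt_ncard hss (hC.subset fun c hc => hc.1)
    obtain ⟨ψ, hψ, hle⟩ := ih _ (hk ▸ hlt) _ hf rfl
    refine ⟨ψ, hψ, le_trans ?_ hle⟩
    have e : (φ + t • η) a = φ a + t * η a := by simp
    rw [e]
    nlinarith

/-- the real vector of a lattice point -/
def lpJ (v : Zn n) : Fin n → ℝ := fun i => (v i : ℝ)

/-- the linear extension of an additive map -/
def lpE (η : Zn n →+ ℝ) : (Fin n → ℝ) →ₗ[ℝ] ℝ where
  toFun y := ∑ i, y i * η (Pi.single i 1)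
  map_add' x y := by simp [add_mul, Finset.sum_add_distrib]
  map_smul' r x := by simp [Finset.mul_sum, mul_assoc]

theorem lp_EJ (η : Zn n →+ ℝ) (v : Zn n) : lpE η (lpJ v) = η v := by
  have h : v = ∑ i, v i • (Pi.single i 1 : Zn n) := by
    ext j
    simp [Finset.sum_apply, Pi.single_apply]
  conv_rhs => rw [h, map_sum]
  change ∑ i, (v i : ℝ) * η (Pi.single i 1) = _
  refine Finset.sum_congr rfl fun i _ => ?_
  rw [map_zsmul, zsmul_eq_mul]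

/-- the restriction of a linear map to the lattice -/
def lpR (f : (Fin n → ℝ) →L[ℝ] ℝ) : Zn n →+ ℝ where
  toFun v := f (lpJ v)
  map_zero' := by
    have : lpJ (0 : Zn n) = 0 := by ext i; simp [lpJ]
    rw [this, map_zero]
  map_add' x y := by
    have : lpJ (x + y) = lpJ x + lpJ y := by ext i; simp [lpJ]
    rw [this, map_add]

theorem lp_rep {C : Set (Zn n × ℕ)} (hC : C.Finite) (hpos : ∀ c ∈ C, 0 < c.2) {φ : Zn n →+ ℝ}
    (hφ : Feas C φ) (a : Zn n) (hmax : ∀ ψ, Feas C ψ → ψ a ≤ φ a) : Rep C φ a := by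
  classical
  have key : ∀ η : Zn n →+ ℝ, (∀ c ∈ C, φ c.1 = c.2 → η c.1 ≤ 0) → η a ≤ 0 := by
    intro η hη
    obtain ⟨t, ht, hf⟩ := lp_small hC hφ hη
    have h1 := hmax _ hf
    have e : (φ + t • η) a = φ a + t * η a := by simp
    rw [e] at h1
    by_contra h
    nlinarith [mul_pos ht (not_le.1 h)]
  have h0f : Feas C 0 := fun c _ => by simp
  have h0 : 0 ≤ φ a := by simpa using hmax 0 h0f
  rcases h0.eq_or_lt with hz | hl
  · refine ⟨∅, fun _ => 0, by simp, fun η => ?_⟩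
    have k2 : ∀ η : Zn n →+ ℝ, η a ≤ 0 := by
      intro η
      obtain ⟨t, ht, hf⟩ := lp_small (φ := 0) (η := η) hC h0f fun c hc h => by
        have := hpos c hc
        have h2 : (0 : ℝ) < c.2 := by exact_mod_cast this
        simp only [AddMonoidHom.zero_apply] at h
        linarith
      have h1 := hmax _ hf
      have e : ((0 : Zn n →+ ℝ) + t • η) a = t * η a := by simp
      rw [e, ← hz] at h1
      by_contra h
      nlinarith [mul_pos ht (not_le.1 h)]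
    have h1 := k2 η
    have h2 := k2 (-η)
    simp only [AddMonoidHom.neg_apply] at h2
    simp only [Finset.sum_empty]
    linarith
  · set s : Finset (Zn n × ℕ) := (hC.subset (fun c (hc : c ∈ {c | c ∈ C ∧ φ c.1 = c.2}) => hc.1)).toFinset
      with hs
    have hms : ∀ c, c ∈ s ↔ c ∈ C ∧ φ c.1 = c.2 := fun c => by simp [hs]
    let M : (s → ℝ) →ₗ[ℝ] (Fin n → ℝ) :=
      { toFun := fun x => ∑ c : s, x c • (((c.1.2 : ℝ))⁻¹ • lpJ c.1.1)
        map_add' := fun x y => by simp [add_smul, Finset.sum_add_distrib]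
        map_smul' := fun r x => by simp [Finset.smul_sum, mul_smul] }
    have hM : ∀ x, M x = ∑ c : s, x c • (((c.1.2 : ℝ))⁻¹ • lpJ c.1.1) := fun _ => rfl
    have hconv : Convex ℝ (M '' stdSimplex ℝ s) := (convex_stdSimplex ℝ s).linear_image M
    have hcl : IsClosed (M '' stdSimplex ℝ s) :=
      ((isCompact_stdSimplex ℝ s).image M.continuous_of_finiteDimensional).isClosed
    by_cases hin : (φ a)⁻¹ • lpJ a ∈ M '' stdSimplex ℝ s
    · obtain ⟨x, hx, hxa⟩ := hin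
      refine ⟨s, fun c => if h : c ∈ s then φ a * (x ⟨c, h⟩ * ((c.2 : ℝ))⁻¹) else 0,
        fun c hc => ⟨((hms c).1 hc).1, ((hms c).1 hc).2, ?_⟩, fun η => ?_⟩
      · simp only [hc, dif_pos]
        have := hx.1 ⟨c, hc⟩
        positivity
      · have h1 := congrArg (lpE η) hxa
        rw [hM, map_sum, map_smul, lp_EJ] at h1
        simp only [map_smul, lp_EJ, smul_eq_mul] at h1
        have h2 : η a = φ a * ((φ a)⁻¹ * η a) := by field_simp
        rw [h2, ← h1, Finset.mul_sum, ← Finset.sum_coe_sort s]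
        refine Finset.sum_congr rfl fun c _ => ?_
        simp only [c.2, dif_pos]
        ring
    · exfalso
      obtain ⟨f, u, h1, h2⟩ := geometric_hahn_banach_point_closed hconv hcl hin
      have h3 := key (u • φ - lpR f) fun c hc ht => by
        have hcs : c ∈ s := (hms c).2 ⟨hc, ht⟩
        have h4 := h2 _ ⟨Pi.single ⟨c, hcs⟩ 1, single_mem_stdSimplex ℝ _, rfl⟩
        have h5 : M (Pi.single ⟨c, hcs⟩ 1) = ((c.2 : ℝ))⁻¹ • lpJ c.1 := by
          rw [hM, Finset.sum_eq_single ⟨c, hcs⟩]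
          · simp
          · intro b _ hb
            simp [Pi.single_eq_of_ne hb]
          · simp
        rw [h5, map_smul, smul_eq_mul] at h4
        have h6 : (0 : ℝ) < c.2 := by exact_mod_cast hpos c hc
        have e : (u • φ - lpR f) c.1 = u * c.2 - f (lpJ c.1) := by simp [lpR, ht]
        rw [e]
        rw [lt_inv_mul_iff₀ h6] at h4
        linarith
      have e : (u • φ - lpR f) a = u * φ a - f (lpJ a) := by simp [lpR]
      rw [e] at h3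
      rw [map_smul, smul_eq_mul, inv_mul_lt_iff₀ hl] at h1
      linarith

theorem lp_stmt : LPStmt := by
  intro n C hC hpos hsym hsp
  refine ⟨lp_fin hC, fun a => ?_⟩
  have h0f : Feas C 0 := fun c _ => by simp
  obtain ⟨ψ0, hψ0, -⟩ := lp_move hC hsym hsp a _ 0 h0f rfl
  obtain ⟨φ, hφ, hmax⟩ := Set.exists_max_image (Vert C) (fun φ => φ a) (lp_fin hC) ⟨ψ0, hψ0⟩
  refine ⟨φ, hφ, lp_rep hC hpos hφ.1 a fun ψ hψ => ?_⟩
  obtain ⟨χ, hχ, hle⟩ := lp_move hC hsym hsp a _ ψ hψ rfl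
  exact hle.trans (hmax χ hχ)

end Pool.Agent.MP_b3b911_al.VA

end

section

/-! Virtually abelian groups: the letters of the generating set attached to a table. -/

namespace Pool.Agent.MP_b3b911_al.VA

open Filter Topology Pointwise

variable {G : Type*} [Group G]

section

variable {n : ℕ} {L : Lat G n} {Γ : Geo L} {Δ : Des Γ} (π : Δ.Par)

theorem letter_dT_le (s : G) (c : Zn n) : Δ.dT s c ≤ Δ.df s c := by
  unfold Des.dT; split_ifs <;> simp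

theorem letter_dκ (r : G) (c : Zn n) :
    0 ≤ π.K - Δ.df r c * π.κ ∧ π.K - Δ.df r c * π.κ ≤ π.K := by
  have h1 : (Δ.df r c : ℤ) ≤ 3 := by exact_mod_cast Δ.df_le r c
  have h2 := π.K1_ge
  have h3 := π.κ_pos
  have h4 : (0 : ℤ) ≤ Δ.df r c := by positivity
  unfold Des.Par.K
  constructor <;> nlinarith

theorem letter_mul_le {i b β : ℤ} (h0 : 0 ≤ i) (h1 : i ≤ π.K) (hb : b ≤ β) (hβ : 0 ≤ β) :
    i * b ≤ π.K * β :=
  (mul_le_mul_of_nonneg_left hb h0).trans (mul_le_mul_of_nonneg_right h1 hβ)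

theorem letter_far {x : ℤ}
    (h : x ≤ L.N * (π.K * (Γ.B Γ.c0 Γ.c0 - 1) + π.E3) + π.E3) :
    x ≤ L.N * π.K * Γ.B Γ.c0 Γ.c0 - 3 * (L.N * π.κ * Γ.B Γ.c0 Γ.c0) := by
  have h1 := π.hK
  have h2 := π.E3_nonneg
  have h3 := Γ.β_pos
  have h4 : (1 : ℤ) ≤ L.N := by exact_mod_cast L.N_pos
  have h5 : (1 : ℤ) ≤ π.κ := π.κ_pos
  have h6 : 3 * (π.κ * Γ.B Γ.c0 Γ.c0) + 2 * π.E3 ≤ π.K := by
    unfold Des.Par.K; nlinarith
  have h7 := mul_le_mul_of_nonneg_left h6 (by omega : (0 : ℤ) ≤ L.N)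
  nlinarith

theorem letter_loop {c v : Zn n} (hc : c ∈ Γ.O) (hv : v ∈ π.loops) :
    L.N * Γ.B c v ≤ L.N * π.K * Γ.B Γ.c0 Γ.c0 - 3 * (L.N * π.κ * Γ.B Γ.c0 Γ.c0) := by
  have h1 := π.hK
  have h2 := π.E3_nonneg
  have h3 := Γ.β_pos
  have h5 : (1 : ℤ) ≤ π.κ := π.κ_pos
  have key : Γ.B c v ≤ π.K * Γ.B Γ.c0 Γ.c0 - 3 * (π.κ * Γ.B Γ.c0 Γ.c0) := by
    have h6 : π.κ * π.E3 ≤ π.K * Γ.B Γ.c0 Γ.c0 - 3 * (π.κ * Γ.B Γ.c0 Γ.c0) := by
      have : π.E3 ≤ (2 * π.K1 - 3) * Γ.B Γ.c0 Γ.c0 := by nlinarith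
      unfold Des.Par.K; nlinarith
    rcases hv with h | ⟨x, h, rfl⟩ | ⟨c1, h1', c2, h2', hne, rfl⟩
    · have := (abs_le.1 (π.h3 c hc v h)).2
      nlinarith
    · have := (abs_le.1 (π.h3 c hc x h)).2
      rw [map_nsmul, nsmul_eq_mul]
      nlinarith
    · have : Γ.B c c1 + Γ.B c c2 ≤ 2 * Γ.B Γ.c0 Γ.c0 - 1 := by
        by_cases e : c = c1
        · have := Γ.B_lt hc h2' (e ▸ hne)
          have := Γ.B_le hc h1'
          omega
        · have := Γ.B_lt hc h1' e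
          have := Γ.B_le hc h2'
          omega
      rw [map_nsmul, nsmul_eq_mul, map_add]
      push_cast
      have h7 : ((π.K1 : ℤ) + 1) * π.κ * (Γ.B c c1 + Γ.B c c2) ≤
          ((π.K1 : ℤ) + 1) * π.κ * (2 * Γ.B Γ.c0 Γ.c0 - 1) :=
        mul_le_mul_of_nonneg_left this (by positivity)
      have h8 : π.κ * (5 * Γ.B Γ.c0 Γ.c0) ≤ π.κ * ((π.K1 : ℤ) + 1) :=
        mul_le_mul_of_nonneg_left (by omega) (by omega)
      unfold Des.Par.K
      nlinarith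
  have := mul_le_mul_of_nonneg_left key (by positivity : (0 : ℤ) ≤ L.N)
  nlinarith

theorem letter_off {x a b : ℤ} {d : ℕ} (hd : d ≤ 3) (ha : |a| ≤ π.E3) (hb : |b| ≤ π.E3)
    (h : x ≤ L.N * π.K * Γ.B Γ.c0 Γ.c0 - 3 * (L.N * π.κ * Γ.B Γ.c0 Γ.c0)) :
    x ≤ π.m - π.ω * d + a - b ∧ x ≠ π.m + a - b := by
  have h1 := abs_le.1 ha
  have h2 := abs_le.1 hb
  have h3 := abs_le.1 π.abs_z
  have h4 := π.ω_pos
  have h5 : π.ω * d ≤ π.ω * 3 := mul_le_mul_of_nonneg_left (by exact_mod_cast hd) h4.le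
  have h6 : π.m = L.N * π.K * Γ.B Γ.c0 Γ.c0 + Δ.z := rfl
  have h7 : π.ω = L.N * π.κ * Γ.B Γ.c0 Γ.c0 - 4 * π.E3 := rfl
  have h8 := π.E3_nonneg
  constructor
  · linarith
  · intro e; linarith

end

theorem letter_stmt : LetterStmt G := by
  intro n L Γ Δ π α hα u s hs
  set c := L.ρ u⁻¹ α with hc
  have hcO : c ∈ Γ.O := Γ.ρ_mem hα _
  have huc : L.ρ u c = α := L.ρ_apply_inv _ _
  have hd : Δ.dT s c ≤ 3 := (letter_dT_le s c).trans (Δ.df_le s c)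
  have ha := π.abs_Pi hα (u * s)
  have hb := π.abs_Pi hα u
  have hβ := Γ.β_pos
  have hE := π.E3_nonneg
  have hN : (0 : ℤ) ≤ L.N := by positivity
  have off : Γ.B α (L.ρ u (L.P s)) ≤
      L.N * π.K * Γ.B Γ.c0 Γ.c0 - 3 * (L.N * π.κ * Γ.B Γ.c0 Γ.c0) →
      Γ.B α (L.ρ u (L.P s)) ≤ π.m - π.ω * Δ.dT s c +
        Γ.B α (Δ.Pi α (u * s)) - Γ.B α (Δ.Pi α u) ∧
      (Γ.B α (L.ρ u (L.P s)) = π.m + Γ.B α (Δ.Pi α (u * s)) - Γ.B α (Δ.Pi α u) →
        π.Top α u s) := fun h =>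
    ⟨(letter_off π hd ha hb h).1, fun e => absurd e (letter_off π hd ha hb h).2⟩
  rcases hs with ⟨v, hv, rfl⟩ | ⟨t, c', ht, v, hv, rfl⟩ | ⟨r, hr, c', hc', rfl⟩
  · apply off
    rw [Γ.B_ρ, L.P_ι, map_nsmul, nsmul_eq_mul]
    exact letter_loop π hcO hv
  · by_cases e : c = c'
    · subst e
      have h0 : Δ.dT (L.ι v * t) c = 0 := by
        unfold Des.dT; rw [if_pos ⟨t, ht, L.cl_ι_mul _ _⟩]
      have h1 : Γ.B α (L.ρ u (L.P (L.ι v * t))) = L.N * Γ.B c v + Δ.z +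
          Γ.B α (Δ.Pi α (u * (L.ι v * t))) - Γ.B α (Δ.Pi α u) := by
        rw [L.P_ι_mul, map_add, map_add, Δ.coc t c u ht, huc, Des.Pi_mul_ι, map_sub, map_add,
          Δ.hz α hα, Γ.B_ρ, map_nsmul, nsmul_eq_mul]
        ring
      have hm : π.m = L.N * π.K * Γ.B Γ.c0 Γ.c0 + Δ.z := rfl
      rw [h0, h1, hm]
      rcases hv with hv | ⟨i, i0, i1, rfl⟩
      · rw [π.B_th hcO hv]
        exact ⟨by push_cast; linarith, fun _ => ⟨t, c, v, ht, hv, rfl, huc⟩⟩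
      · rw [map_zsmul, Γ.B_self hcO, smul_eq_mul]
        have h2 := mul_le_mul_of_nonneg_left (letter_mul_le π i0 i1 le_rfl hβ.le) hN
        refine ⟨by push_cast; linarith, fun e => ⟨t, c, _, ht, ?_, rfl, huc⟩⟩
        have hN' : (0 : ℤ) < L.N := by exact_mod_cast L.N_pos
        have : (L.N * Γ.B Γ.c0 Γ.c0) * i = (L.N * Γ.B Γ.c0 Γ.c0) * π.K := by linarith
        rw [mul_left_cancel₀ (by positivity) this]
        exact π.K_mem_th c
    · apply off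
      apply letter_far
      have hlt := Γ.B_lt hcO (Δ.tO t c' ht) e
      have h1 := (abs_le.1 (π.h3 c hcO _ (π.h2t t c' ht))).2
      have h2 : Γ.B c v ≤ π.K * (Γ.B Γ.c0 Γ.c0 - 1) + π.E3 := by
        rcases hv with ⟨w, w1, -, rfl⟩ | ⟨i, i0, i1, rfl⟩
        · have := (abs_le.1 (π.h3 c hcO _ (w1.trans π.h12))).2
          have := letter_mul_le π π.K_pos.le le_rfl hlt (by omega)
          rw [map_add, map_zsmul, smul_eq_mul]
          linarith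
        · have := letter_mul_le π i0 i1 hlt (by omega)
          rw [map_zsmul, smul_eq_mul]
          linarith
      have := mul_le_mul_of_nonneg_left h2 hN
      rw [Γ.B_ρ, L.P_ι_mul, map_add, map_nsmul, nsmul_eq_mul]
      linarith
  · have h1 := (abs_le.1 (π.h3 c hcO _ hr)).2
    obtain ⟨d0, d1⟩ := letter_dκ π r c'
    by_cases e : c = c'
    · subst e
      have h0 := letter_dT_le (Δ := Δ) (L.ι ((π.K - Δ.df r c * π.κ) • c) * r) c
      rw [Δ.df_cl] at h0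
      have h2 : Γ.B α (L.ρ u (L.P (L.ι ((π.K - Δ.df r c * π.κ) • c) * r))) =
          L.N * ((π.K - Δ.df r c * π.κ) * Γ.B Γ.c0 Γ.c0) + Γ.B c (L.P r) := by
        rw [Γ.B_ρ, L.P_ι_mul, map_add, map_nsmul, nsmul_eq_mul, map_zsmul, Γ.B_self hcO,
          smul_eq_mul]
      have hm : π.m = L.N * π.K * Γ.B Γ.c0 Γ.c0 + Δ.z := rfl
      have hω : π.ω = L.N * π.κ * Γ.B Γ.c0 Γ.c0 - 4 * π.E3 := rfl
      have h3 : (1 : ℤ) ≤ Δ.df r c := by exact_mod_cast Δ.df_pos r c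
      have h4 := π.ω_pos
      have h5 := mul_le_mul_of_nonneg_left (Int.ofNat_le.2 h0) h4.le
      have h6 := abs_le.1 π.abs_z
      have h7 := abs_le.1 ha
      have h8 := abs_le.1 hb
      have h9 : Γ.B α (L.ρ u (L.P (L.ι ((π.K - Δ.df r c * π.κ) • c) * r))) ≤
          π.m - π.ω * Δ.df r c - 2 * π.E3 := by
        rw [h2, hm, hω]; nlinarith
      have h10 : π.ω ≤ π.ω * Δ.df r c := by nlinarith
      exact ⟨by linarith, fun e => by exfalso; linarith⟩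
    · apply off
      apply letter_far
      have hlt := Γ.B_lt hcO hc' e
      have h2 := letter_mul_le π d0 d1 hlt (by omega)
      have := mul_le_mul_of_nonneg_left (h2.trans (le_add_of_nonneg_right hE)) hN
      rw [Γ.B_ρ, L.P_ι_mul, map_add, map_nsmul, nsmul_eq_mul, map_zsmul, smul_eq_mul]
      linarith

section

variable {n : ℕ} {L : Lat G n} {Γ : Geo L} {Δ : Des Γ} (π : Δ.Par)

theorem letter_fin_loops : π.loops.Finite := by
  refine (((Γ.fin π.E2).union ((Γ.fin π.E2).image fun x => π.κ • x)).union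
    ((Γ.finite_O.prod Γ.finite_O).image fun c => ((π.K1 + 1) * π.κ) • (c.1 + c.2))).subset ?_
  rintro v (h | ⟨x, h, rfl⟩ | ⟨c, hc, c', hc', -, rfl⟩)
  · exact Or.inl (Or.inl h)
  · exact Or.inl (Or.inr ⟨x, h, rfl⟩)
  · exact Or.inr ⟨(c, c'), ⟨hc, hc'⟩, rfl⟩

theorem letter_fin_th (c : Zn n) : (π.th' c).Finite := by
  refine (((Γ.fin π.E1).image fun w => π.K • c + w).union
    ((Set.finite_Icc 0 π.K).image fun i => i • c)).subset ?_
  rintro v (⟨w, h, -, rfl⟩ | ⟨i, h1, h2, rfl⟩)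
  · exact Or.inl ⟨w, h, rfl⟩
  · exact Or.inr ⟨i, ⟨h1, h2⟩, rfl⟩

theorem letter_th_neg {c v : Zn n} (h : v ∈ π.th' c) : -v ∈ π.th' (-c) := by
  rcases h with ⟨w, h1, h2, rfl⟩ | ⟨i, h1, h2, rfl⟩
  · exact Or.inl ⟨-w, by simpa using h1, by simpa using h2, by rw [smul_neg]; abel⟩
  · exact Or.inr ⟨i, h1, h2, by rw [smul_neg]⟩

theorem letter_loops_neg {v : Zn n} (h : v ∈ π.loops) : -v ∈ π.loops := by
  rcases h with h | ⟨x, h, rfl⟩ | ⟨c, hc, c', hc', hne, rfl⟩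
  · exact Or.inl (by simpa using h)
  · exact Or.inr (Or.inl ⟨-x, by simpa using h, by rw [smul_neg]⟩)
  · exact Or.inr (Or.inr ⟨_, Γ.neg_mem hc, _, Γ.neg_mem hc', fun e => hne (neg_injective e), by
      rw [← neg_add, smul_neg]⟩)

theorem letter_E4 : 0 ≤ π.E4 :=
  le_trans (by positivity) (π.h4 _ Γ.c0_mem ⟨0, Γ.n_pos⟩ 1 1 1 (L.cl 1) (L.cl 1))

end

theorem gen_stmt : GenStmt G := by
  intro n L Γ Δ π
  have hinv : ∀ s ∈ π.T, s⁻¹ ∈ π.T := by
    rintro s (⟨v, hv, rfl⟩ | ⟨t, c, ht, v, hv, rfl⟩ | ⟨r, hr, c, hc, rfl⟩)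
    · exact Or.inl ⟨-v, letter_loops_neg π hv, (L.ι_neg v).symm⟩
    · exact Or.inr (Or.inl ⟨_, _, Δ.tinv t c ht, _, letter_th_neg π (π.th'_ρ hv t⁻¹),
        L.inv_ι_mul _ _⟩)
    · refine Or.inr (Or.inr ⟨r⁻¹, ?_, _, Γ.neg_mem (Γ.ρ_mem hc r⁻¹), ?_⟩)
      · rw [L.P_inv]; simpa [Γ.inv] using hr
      · rw [L.inv_ι_mul, Δ.df_inv, map_zsmul, smul_neg]
  refine ⟨?_, Or.inl ⟨0, Or.inl (by simpa using π.h10.trans π.h12), by simp⟩, hinv, ?_⟩
  · refine ((((letter_fin_loops π).image L.ι).union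
      (Δ.tfin.biUnion fun t _ => Γ.finite_O.biUnion fun c _ =>
        (letter_fin_th π c).image fun v => L.ι v * t)).union
      (((L.finite_P (Γ.fin π.E2)).prod Γ.finite_O).image
        fun x => L.ι ((π.K - Δ.df x.1 x.2 * π.κ) • x.2) * x.1)).subset ?_
    rintro s (⟨v, hv, rfl⟩ | ⟨t, c, ht, v, hv, rfl⟩ | ⟨r, hr, c, hc, rfl⟩)
    · exact Or.inl (Or.inl ⟨v, hv, rfl⟩)
    · refine Or.inl (Or.inr ?_)
      simp only [Set.mem_iUnion]
      exact ⟨t, ⟨c, ht⟩, c, Δ.tO t c ht, v, hv, rfl⟩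
    · exact Or.inr ⟨(r, c), ⟨hr, hc⟩, rfl⟩
  · let H : Subgroup G :=
      { carrier := {g | ∃ k, g ∈ π.T ^ k}
        one_mem' := ⟨0, by simp⟩
        mul_mem' := fun ⟨_, ha⟩ ⟨_, hb⟩ => ⟨_, mul_mem_pow ha hb⟩
        inv_mem' := fun ⟨_, ha⟩ => ⟨_, inv_mem_pow hinv ha⟩ }
    have h1 : ∀ s ∈ π.T, s ∈ H := fun s hs => ⟨1, by simpa using hs⟩
    have h2 : ∀ v, L.ι v ∈ H := by
      intro v
      let A : AddSubgroup (Zn n) :=
        { carrier := {v | L.ι v ∈ H}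
          zero_mem' := by simp
          add_mem' := fun {a b} ha hb => by
            change L.ι (a + b) ∈ H
            rw [L.ι_add]; exact H.mul_mem ha hb
          neg_mem' := fun {a} ha => by
            change L.ι (-a) ∈ H
            rw [L.ι_neg]; exact H.inv_mem ha }
      have : v ∈ A := by
        rw [← Finset.univ_sum_single v]
        refine A.sum_mem fun i _ => ?_
        have e : (Pi.single i (v i) : Zn n) = v i • Pi.single i 1 := by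
          rw [← Pi.single_smul, smul_eq_mul, mul_one]
        rw [e]
        exact A.zsmul_mem (h1 _ (Or.inl ⟨_, Or.inl (π.h2e i), rfl⟩)) _
      exact this
    intro g
    obtain ⟨v, hv⟩ := L.exists_rep g
    have h3 := π.h2r 0 (L.cl g) fun i => by simpa using letter_E4 π
    rw [L.ι_zero, one_mul] at h3
    have h4 := h1 _ (Or.inr (Or.inr ⟨_, h3, _, Γ.c0_mem, rfl⟩))
    have h5 : L.rep (L.cl g) ∈ H := (H.mul_mem_cancel_left (h2 _)).1 h4
    have h6 : g ∈ H := by rw [hv]; exact H.mul_mem (h2 v) h5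
    exact h6

end Pool.Agent.MP_b3b911_al.VA

end
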