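import Pool.Agent.Mg.Fb3b911a.G1879f9

section

/-! Virtually abelian groups: the vertices of the feasible set of the designed generating set. -/

namespace Pool.Agent.MP_b3b911_al.VA

open Filter Topology Pointwise

variable {G : Type*} [Group G]

theorem cls_far {a k ε η x μ i : ℝ} (ha : 0 ≤ a) (hk : 0 < k) (hη : (a + 1) * η = 1)
    (h1 : (a + 1) * k * (x + μ) < 1) (h2 : x ≤ μ) (i0 : 0 ≤ i) (i1 : i ≤ 2 * a * k)
    (hε : k * ε = 1) (hka : 20 * (a + 1) ≤ k) : i * x ≤ 1 - η ∧ 20 * ε ≤ η := by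
  have e0 : 0 < ε := by
    by_contra h
    nlinarith [not_lt.1 h]
  have η0 : 0 < η := by
    by_contra h
    nlinarith [not_lt.1 h]
  have e1 : 1 - η = a * η := by linarith
  constructor
  · rw [e1]
    rcases le_total x 0 with h | h
    · exact (mul_nonpos_of_nonneg_of_nonpos i0 h).trans (mul_nonneg ha η0.le)
    · have h3 : k * (x + μ) ≤ η := by
        by_contra h4
        nlinarith [not_le.1 h4]
      have h4 : k * (2 * x) ≤ η := (mul_le_mul_of_nonneg_left (by linarith) hk.le).trans h3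
      calc i * x ≤ 2 * a * k * x := mul_le_mul_of_nonneg_right i1 h
        _ = a * (k * (2 * x)) := by ring
        _ ≤ a * η := mul_le_mul_of_nonneg_left h4 ha
  · have h3 : 20 * (a + 1) * (ε * η) ≤ k * (ε * η) :=
      mul_le_mul_of_nonneg_right hka (mul_pos e0 η0).le
    calc 20 * ε = 20 * ε * ((a + 1) * η) := by rw [hη, mul_one]
      _ = 20 * (a + 1) * (ε * η) := by ring
      _ ≤ k * (ε * η) := h3
      _ = k * ε * η := by ring
      _ = η := by rw [hε, one_mul]

theorem cls_def {a k ε N μ d z : ℝ} (ha : 1 ≤ a) (hk : 0 < k) (hε : k * ε = 1) (e0 : 0 < ε)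
    (hka : 20 * (a + 1) ≤ k) (hN : 1 ≤ N) (hμ : 0 ≤ μ) (hd : 1 ≤ d) (hz : -ε ≤ z)
    (h : N * (2 * a * k * μ) + z ≤ N) : N * ((2 * a * k - d * k) * μ) + ε < N - 2 * ε := by
  have h0 : 0 ≤ N * k * μ := by positivity
  have h1 : N * ((2 * a * k - d * k) * μ) = 2 * a * (N * k * μ) - d * (N * k * μ) := by ring
  have h2 : N * (2 * a * k * μ) = 2 * a * (N * k * μ) := by ring
  have h3 : N * k * μ ≤ d * (N * k * μ) := le_mul_of_one_le_left h0 hd
  have h4 : 20 * (a + 1) * ε ≤ 1 := (mul_le_mul_of_nonneg_right hka e0.le).trans_eq hε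
  rw [h1]
  rw [h2] at h
  generalize N * k * μ = X at *
  rcases lt_or_ge (4 * ε) X with h5 | h5
  · linarith
  · have h6 : a * X ≤ a * (4 * ε) := mul_le_mul_of_nonneg_left h5 (by linarith)
    have h7 : 0 < a * ε := by positivity
    nlinarith

theorem cls_stmt : ClsStmt G := by
  intro n L Γ Δ π ψ hψ
  refine or_iff_not_imp_left.2 fun hno => ?_
  have hN0 := L.N_pos
  have hN : (1 : ℝ) ≤ L.N := by exact_mod_cast hN0
  have hk : (0 : ℝ) < π.κ := by exact_mod_cast π.κ_pos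
  have ha : (10 : ℝ) ≤ π.K1 := by exact_mod_cast π.K1_ge
  have hka : 20 * ((π.K1 : ℝ) + 1) ≤ π.κ := by exact_mod_cast π.hκ
  have hK : (π.K : ℝ) = 2 * π.K1 * π.κ := by simp [Des.Par.K]
  have hl : ∀ v ∈ π.loops, ψ v < 1 := fun v hv => by
    have h1 : L.ι v ∈ π.T := Or.inl ⟨v, hv, rfl⟩
    have h2 := hψ.1 (v, 1) ⟨one_pos, by dsimp only; omega, 1, trivial, v, by simp, by simpa⟩
    exact lt_of_le_of_ne (by simpa using h2) fun h => hno ⟨v, h1, h⟩
  obtain ⟨ε, hε⟩ : ∃ ε : ℝ, π.κ * ε = 1 := ⟨_, mul_inv_cancel₀ hk.ne'⟩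
  obtain ⟨η, hη⟩ : ∃ η : ℝ, (π.K1 + 1) * η = 1 := ⟨_, mul_inv_cancel₀ (by linarith)⟩
  have e0 : 0 < ε := by
    by_contra h
    nlinarith [not_lt.1 h]
  have e1 : ε < 1 := by
    by_contra h
    nlinarith [not_lt.1 h]
  have hs1 : ∀ x, Γ.B x x ≤ π.E2 → ψ x ≤ ε := fun x hx => by
    have h1 := hl _ (Or.inr (Or.inl ⟨x, hx, rfl⟩))
    rw [map_nsmul, nsmul_eq_mul, ← hε] at h1
    exact (lt_of_mul_lt_mul_left h1 hk.le).le
  have hs2 : ∀ x, Γ.B x x ≤ π.E2 → -ε ≤ ψ x := fun x hx => by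
    have h1 := hs1 (-x) (by simpa using hx)
    rw [map_neg] at h1
    linarith
  obtain ⟨α, hα, hm⟩ := Set.exists_max_image Γ.O ψ Γ.finite_O ⟨_, Γ.c0_mem⟩
  have hμ : 0 ≤ ψ α := by
    have h1 := hm _ (Γ.neg_mem hα)
    rw [map_neg] at h1
    linarith
  have far : ∀ c ∈ Γ.O, c ≠ α → ∀ i : ℤ, 0 ≤ i → i ≤ π.K →
      ψ (i • c) ≤ 1 - η ∧ 20 * ε ≤ η := fun c hc hne i i0 i1 => by
    have h1 := hl _ (Or.inr (Or.inr ⟨c, hc, α, hα, hne, rfl⟩))
    rw [map_nsmul, nsmul_eq_mul, map_add] at h1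
    rw [map_zsmul, zsmul_eq_mul]
    push_cast at h1
    exact cls_far (by linarith) hk hη h1 (hm c hc) (by exact_mod_cast i0)
      (by rw [← hK]; exact_mod_cast i1) hε hka
  have top : ∀ v ∈ π.th α, L.N * ψ v + ψ (Δ.Z α) ≤ L.N := fun v hv => by
    obtain ⟨k, x, k0, h1, h2⟩ := π.top_cycle hα
    have h3 := hψ.1 _ (h2 v hv)
    have h4 := congrArg ψ h1
    have k1 : (0 : ℝ) < k := by exact_mod_cast k0
    simp only [map_add, map_nsmul] at h3 h4
    simp only [nsmul_eq_mul] at h3 h4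
    refine le_of_mul_le_mul_left ?_ k1
    have h5 := mul_le_mul_of_nonneg_left h3 (zero_le_one.trans hN)
    linarith
  have topK := top _ (π.K_mem_th α)
  rw [map_zsmul, zsmul_eq_mul] at topK
  have key : ∀ u : G, ∀ s ∈ π.T, π.Top α u s ∨
      ψ (L.ρ u (L.P s)) < L.N + ψ (Δ.Pi α (u * s)) - ψ (Δ.Pi α u) := by
    intro u s hs
    have p1 := hs2 _ (π.h2P α hα (u * s))
    have p2 := hs1 _ (π.h2P α hα u)
    have gain : ∀ (v : Zn n) (r : G), ψ (L.ρ u (L.P (L.ι v * r))) =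
        L.N * ψ (L.ρ u v) + ψ (L.ρ u (L.P r)) := fun v r => by
      rw [L.P_ι_mul, map_add, map_nsmul, map_add, map_nsmul, nsmul_eq_mul]
    have off : ∀ (v : Zn n) (r : G), s = L.ι v * r → Γ.B (L.P r) (L.P r) ≤ π.E2 →
        ψ (L.ρ u v) ≤ 1 - η + ε → 20 * ε ≤ η →
        ψ (L.ρ u (L.P s)) < L.N + ψ (Δ.Pi α (u * s)) - ψ (Δ.Pi α u) := by
      intro v r e h1 h2 h3
      have h4 := hs1 (L.ρ u (L.P r)) (by rwa [Γ.inv])
      have h5 := mul_le_mul_of_nonneg_left h2 (zero_le_one.trans hN)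
      have h6 : 1 * (η - ε) ≤ L.N * (η - ε) := mul_le_mul_of_nonneg_right hN (by linarith)
      have h7 := gain v r
      rw [← e] at h7
      nlinarith
    rcases hs with ⟨v, hv, rfl⟩ | ⟨t, c, ht, v, hv, rfl⟩ | ⟨r, hr, c, hc, rfl⟩
    · right
      rw [L.P_ι, map_nsmul, map_nsmul, nsmul_eq_mul, L.conj, Δ.Pi_cl]
      have h1 := mul_lt_mul_of_pos_left (hl _ (π.loops_ρ hv u)) (zero_lt_one.trans_le hN)
      linarith
    · have hc := Γ.ρ_mem (Δ.tO t c ht) u
      by_cases e : L.ρ u c = α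
      · rcases hv with hv | ⟨i, i0, i1, rfl⟩
        · exact Or.inl ⟨t, c, v, ht, hv, rfl, e⟩
        · rcases i1.eq_or_lt with rfl | i2
          · exact Or.inl ⟨t, c, _, ht, π.K_mem_th c, rfl, e⟩
          · right
            rw [gain, Δ.coc t c u ht, Des.Pi_mul_ι, map_zsmul, e, map_zsmul, zsmul_eq_mul,
              map_sub, map_add]
            have i3 : (i : ℝ) < π.K := by exact_mod_cast i2
            rcases hμ.eq_or_lt with h | h
            · have := hs1 _ (π.h2Z α hα)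
              rw [← h]
              linarith
            · have := mul_lt_mul_of_pos_left (mul_lt_mul_of_pos_right i3 h)
                (zero_lt_one.trans_le hN)
              linarith
      · right
        have h0 := far _ hc e _ π.K_pos.le le_rfl
        refine off v t rfl (π.h2t t c ht) ?_ h0.2
        rcases π.th'_ρ hv u with ⟨w, h1, -, h2⟩ | ⟨i, i0, i1, h2⟩
        · rw [h2, map_add]
          exact add_le_add h0.1 (hs1 w (h1.trans π.h12))
        · rw [h2]
          linarith [(far _ hc e i i0 i1).1]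
    · right
      have d1 := Δ.df_pos r c
      have d3 := Δ.df_le r c
      by_cases e : L.ρ u c = α
      · have h4 := hs1 (L.ρ u (L.P r)) (by rwa [Γ.inv])
        have h5 := cls_def (d := Δ.df r c) (by linarith) hk hε e0 hka hN hμ
          (by exact_mod_cast d1) (hs2 _ (π.h2Z α hα)) (hK ▸ topK)
        rw [gain, map_zsmul, e, map_zsmul, zsmul_eq_mul]
        push_cast
        rw [hK]
        linarith
      · have k0 := π.κ_pos
        have k1 := π.K1_ge
        have h0 := far _ (Γ.ρ_mem hc u) e (π.K - Δ.df r c * π.κ) (by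
          have : (Δ.df r c : ℤ) ≤ 3 := by exact_mod_cast d3
          unfold Des.Par.K
          nlinarith) (by
          have : (0 : ℤ) ≤ Δ.df r c * π.κ := by positivity
          omega)
        refine off _ r rfl hr ?_ h0.2
        rw [map_zsmul]
        linarith [h0.1]
  refine ⟨α, hα, sub_eq_zero.1 (hψ.2 _ fun c hc e => ?_)⟩
  have h1 := (π.tight_Sum (α := α) ψ (fun u s hs => ?_) hc).2 e
  · rw [AddMonoidHom.sub_apply, h1.φ hα, e, sub_self]
  · rcases key u s hs with h | h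
    · refine ⟨?_, fun _ => h⟩
      obtain ⟨v, hv, e⟩ := h.P
      rw [e, map_sub, map_add, map_add, map_nsmul, nsmul_eq_mul]
      linarith [top v hv]
    · exact ⟨h.le, fun e => absurd e h.ne⟩

end Pool.Agent.MP_b3b911_al.VA

end

section

/-! Virtually abelian groups: the injection of deep elements into the next sphere. -/

namespace Pool.Agent.MP_b3b911_al.VA

open Filter Topology Pointwise

variable {G : Type*} [Group G]

/-- the set of large coordinates -/
def keyBig {m : ℕ} (R : ℕ) (y : Fin m → ℕ) : Finset (Fin m) :=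
  Finset.univ.filter fun i => R ≤ y i

theorem key_mem_big {m R : ℕ} {y : Fin m → ℕ} {i : Fin m} : i ∈ keyBig R y ↔ R ≤ y i := by
  simp [keyBig]

/-- independence of the vectors with index in `I` -/
def keyInd {n m : ℕ} (c : Fin m → Zn n) (I : Finset (Fin m)) : Prop :=
  ∀ a : Fin m → ℤ, (∀ i, i ∉ I → a i = 0) → ∑ i, a i • c i = 0 → ∀ i, a i = 0

theorem key_ext {n m : ℕ} (c : Fin m → Zn n) (I : Finset (Fin m)) (a : I → ℤ) :
    ∃ μ : Fin m → ℤ, (∀ i, i ∉ I → μ i = 0) ∧ (∀ i : I, μ i = a i) ∧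
      ∑ i, μ i • c i = ∑ i : I, a i • c i := by
  classical
  refine ⟨fun i => if h : i ∈ I then a ⟨i, h⟩ else 0, fun i hi => by simp [hi],
    fun i => by simp [i.2], ?_⟩
  rw [← Finset.sum_subset (Finset.subset_univ I) (fun i _ hi => by simp [hi]),
    ← Finset.sum_coe_sort I]
  exact Finset.sum_congr rfl fun i _ => by simp [i.2]

theorem keyInd.li {n m : ℕ} {c : Fin m → Zn n} {I : Finset (Fin m)} (h : keyInd c I) :
    LinearIndependent ℤ fun i : I => c i := by
  rw [Fintype.linearIndependent_iff]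
  intro a ha i
  obtain ⟨μ, h1, h2, h3⟩ := key_ext c I a
  rw [← h2 i]
  exact h μ h1 (h3.trans ha) i

theorem keyInd.card {n m : ℕ} {c : Fin m → Zn n} {I : Finset (Fin m)} (h : keyInd c I) :
    I.card ≤ n := by
  simpa using h.li.fintype_card_le_finrank

theorem keyInd.span {n m : ℕ} {c : Fin m → Zn n} {I : Finset (Fin m)} (h : keyInd c I)
    (hI : I.card = n) (v : Zn n) : ∃ (M : ℕ) (μ : Fin m → ℤ), 0 < M ∧ (∀ i, i ∉ I → μ i = 0) ∧
      M • v = ∑ i, μ i • c i := by
  have hn : ¬ LinearIndependent ℤ fun o : Option I => o.elim v fun i => c i := fun hl => by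
    have := hl.fintype_card_le_finrank
    simp at this
    omega
  rw [Fintype.linearIndependent_iff] at hn
  push Not at hn
  obtain ⟨a, ha, o, ho⟩ := hn
  rw [Fintype.sum_option] at ha
  simp only [Option.elim] at ha
  have h0 : a none ≠ 0 := fun h0 => by
    rw [h0, zero_smul, zero_add] at ha
    have := Fintype.linearIndependent_iff.1 h.li (fun i => a (some i)) ha
    cases o with
    | none => exact ho h0
    | some i => exact ho (this i)
  obtain ⟨μ, h1, -, h3⟩ := key_ext c I fun i => -(a none) * a (some i)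
  refine ⟨(a none).natAbs * (a none).natAbs, μ, by positivity, h1, ?_⟩
  rw [h3, ← natCast_zsmul, Nat.cast_mul, Int.natAbs_mul_self', mul_smul,
    eq_neg_of_add_eq_zero_left ha]
  simp only [mul_smul, neg_smul, smul_neg, Finset.smul_sum, Finset.sum_neg_distrib]

theorem keyInd.fn {n m : ℕ} {c : Fin m → Zn n} {I : Finset (Fin m)} (h : keyInd c I) (q : ℝ) :
    ∃ φ : Zn n →+ ℝ, ∀ i ∈ I, φ (c i) = q := by
  classical
  obtain ⟨f, hf⟩ := (Module.Baer.of_divisible ℝ).extension_property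
    (Fintype.linearCombination ℤ fun i : I => c i)
    (linearIndependent_iff_injective_fintypeLinearCombination.1 h.li)
    (Fintype.linearCombination ℤ fun _ : I => q)
  refine ⟨f.toAddMonoidHom, fun i hi => ?_⟩
  have := LinearMap.congr_fun hf (Pi.single ⟨i, hi⟩ 1)
  simpa using this

theorem key_val {n m : ℕ} {c : Fin m → Zn n} {I : Finset (Fin m)} {φ : Zn n →+ ℝ} {q : ℝ}
    (h : ∀ i ∈ I, φ (c i) = q) {μ : Fin m → ℤ} (hμ : ∀ i, i ∉ I → μ i = 0) :
    φ (∑ i, μ i • c i) = q * ∑ i, (μ i : ℝ) := by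
  rw [map_sum, Finset.mul_sum]
  refine Finset.sum_congr rfl fun i _ => ?_
  by_cases hi : i ∈ I
  · rw [map_zsmul, h i hi, zsmul_eq_mul, mul_comm]
  · simp [hμ i hi]

section

variable {n : ℕ} {L : Lat G n} {E : Set G} {l : G → ℕ} {m : ℕ} {c : Fin m → Zn n} {q : ℕ}
  {B : Finset G} {D : G → Set (Fin m → ℕ)} {R : ℕ}

theorem key_mv (hN : Norm L E l c q B D R) {b : G} {y y' : Fin m → ℕ} (hy : y ∈ D b)
    (h1 : ∀ i, R ≤ y i → R ≤ y' i) (h2 : ∀ i, ¬ R ≤ y i → y' i = y i) : y' ∈ D b := by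
  refine hN.trunc b y y' (fun i => ?_) hy
  by_cases hi : R ≤ y i
  · rw [min_eq_right hi, min_eq_right (h1 i hi)]
  · rw [h2 i hi]

theorem key_sum {y y' : Fin m → ℕ} {μ : Fin m → ℤ} (h : ∀ i, (y' i : ℤ) = y i + μ i) :
    ∑ i, μ i • c i + ∑ i, y i • c i = ∑ i, y' i • c i := by
  rw [← Finset.sum_add_distrib]
  refine Finset.sum_congr rfl fun i _ => ?_
  rw [← natCast_zsmul, ← natCast_zsmul, h i, add_smul, add_comm]

theorem key_ind (hN : Norm L E l c q B D R) {b : G} (hb : b ∈ B) {y : Fin m → ℕ}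
    (hy : y ∈ D b) : keyInd c (keyBig R y) := by
  intro a ha h0 i
  have ha' : ∀ i, ¬ R ≤ y i → a i = 0 := fun i hi => ha i fun h => hi (key_mem_big.1 h)
  have h1 : (fun i => y i + (a i).toNat) ∈ D b :=
    key_mv hN hy (fun i hi => by omega) fun i hi => by simp [ha' i hi]
  have h2 : (fun i => y i + (-a i).toNat) ∈ D b :=
    key_mv hN hy (fun i hi => by omega) fun i hi => by simp [ha' i hi]
  have h3 := key_sum (c := c) (y := fun i => y i + (-a i).toNat)
    (y' := fun i => y i + (a i).toNat) (μ := a) fun i => by push_cast; omega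
  rw [h0, zero_add] at h3
  have := congrFun (hN.uniq b hb _ h2 b hb _ h1 (by rw [h3])).2 i
  omega

/-- elements with large set `I` whose large coordinates are at least `S` -/
def keyDT (L : Lat G n) (c : Fin m → Zn n) (B : Finset G) (D : G → Set (Fin m → ℕ)) (R S : ℕ)
    (I : Finset (Fin m)) (g : G) : Prop :=
  ∃ b ∈ B, ∃ y ∈ D b, g = L.ι (∑ i, y i • c i) * b ∧ keyBig R y = I ∧ ∀ i ∈ I, S ≤ y i

theorem keyDT.mem (hN : Norm L E l c q B D R) {S : ℕ} {I : Finset (Fin m)} {g : G}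
    (h : keyDT L c B D R S I g) : g ∈ E := by
  obtain ⟨b, hb, y, hy, rfl, -⟩ := h
  exact (hN.val b hb y hy).1

theorem keyDT.move (hN : Norm L E l c q B D R) {S S' : ℕ} {I : Finset (Fin m)} {g : G}
    (h : keyDT L c B D R S I g) (hS : R ≤ S') {μ : Fin m → ℤ} (hμ : ∀ i, i ∉ I → μ i = 0)
    (hμ' : ∀ i ∈ I, (S' : ℤ) ≤ S + μ i) :
    keyDT L c B D R S' I (L.ι (∑ i, μ i • c i) * g) ∧
      (l (L.ι (∑ i, μ i • c i) * g) : ℝ) = l g + q * ∑ i, (μ i : ℝ) := by
  obtain ⟨b, hb, y, hy, rfl, rfl, h2⟩ := h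
  have e : ∀ i, (((y i + μ i).toNat : ℕ) : ℤ) = y i + μ i := fun i => by
    by_cases hi : i ∈ keyBig R y
    · have := hμ' i hi
      have := h2 i hi
      omega
    · rw [hμ i hi]; omega
  have k1 : ∀ i ∈ keyBig R y, S' ≤ (y i + μ i).toNat := fun i hi => by
    have := hμ' i hi
    have := h2 i hi
    omega
  have k2 : ∀ i, ¬ R ≤ y i → (y i + μ i).toNat = y i := fun i hi => by
    rw [hμ i fun h => hi (key_mem_big.1 h)]; omega
  have hy' : (fun i => (y i + μ i).toNat) ∈ D b :=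
    key_mv hN hy (fun i hi => hS.trans (k1 i (key_mem_big.2 hi))) k2
  rw [L.ι_mul_ι_mul, key_sum e]
  refine ⟨⟨b, hb, _, hy', rfl, ?_, k1⟩, ?_⟩
  · ext i
    rw [key_mem_big, key_mem_big]
    exact ⟨fun h => by_contra fun hi => hi (by rwa [k2 i hi] at h),
      fun h => hS.trans (k1 i (key_mem_big.2 h))⟩
  · rw [(hN.val b hb _ hy').2, (hN.val b hb _ hy).2]
    push_cast
    have : ∀ i, (((y i + μ i).toNat : ℕ) : ℝ) = y i + μ i := fun i => by exact_mod_cast e i
    simp only [this, Finset.sum_add_distrib]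
    ring

theorem key_step (hP : Pres L E l c q B) (j : Fin m) (M : ℕ) {g : G} (hg : g ∈ E) :
    L.ι (M • c j) * g ∈ E ∧ l (L.ι (M • c j) * g) ≤ l g + M * q := by
  induction M with
  | zero => simpa using hg
  | succ M ih =>
    have := hP.step j _ ih.1
    rw [L.ι_mul_ι_mul, ← succ_nsmul'] at this
    refine ⟨this.1, ?_⟩
    have h1 := this.2
    have h2 := ih.2
    rw [Nat.succ_mul]
    omega

theorem key_feas (hP : Pres L E l c q B) (hN : Norm L E l c q B D R) {I : Finset (Fin m)}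
    {g : G} (h : keyDT L c B D R R I g) (hI : I.card = n) {φ : Zn n →+ ℝ}
    (hφ : ∀ i ∈ I, φ (c i) = q) (j : Fin m) : φ (c j) ≤ q := by
  have hi : keyInd c I := by
    obtain ⟨b, hb, y, hy, -, rfl, -⟩ := h
    exact key_ind hN hb hy
  obtain ⟨M, μ, hM, h1, h2⟩ := hi.span hI (c j)
  set S := R + ∑ i, (μ i).natAbs with hS
  obtain ⟨k1, -⟩ := h.move hN (S' := S) (by omega)
    (μ := fun i => if i ∈ I then (∑ i, (μ i).natAbs : ℕ) else 0) (fun i hi => by simp [hi])
    (fun i hi => by simp only [hi, if_true, hS]; push_cast; omega)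
  obtain ⟨-, k2⟩ := k1.move hN (S' := R) le_rfl h1 (fun i _ => by
    have := Finset.single_le_sum (f := fun i => (μ i).natAbs) (fun _ _ => Nat.zero_le _)
      (Finset.mem_univ i)
    omega)
  rw [← key_val hφ h1, ← h2, map_nsmul, nsmul_eq_mul _ (φ _)] at k2
  have k3 : (_ : ℝ) ≤ _ := Nat.cast_le.2 (key_step hP j M (k1.mem hN)).2
  rw [k2] at k3
  push_cast at k3
  have hM' : (0 : ℝ) < M := by exact_mod_cast hM
  nlinarith

omit [Group G] in
theorem key_iter {T : G → G} (h : ∀ g ∈ E, T g ∈ E ∧ l (T g) ≤ l g + 1) (k : ℕ) {g : G}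
    (hg : g ∈ E) : T^[k] g ∈ E ∧ l (T^[k] g) ≤ l g + k := by
  induction k with
  | zero => simpa using hg
  | succ k ih =>
    rw [Function.iterate_succ_apply']
    have := h _ ih.1
    exact ⟨this.1, by omega⟩

theorem key_iter2 {T : G → G} (h : ∀ g ∈ E, T g ∈ E ∧ l (T g) ≤ l g + 1) {r : ℕ} {v : Zn n}
    (h2 : ∀ g ∈ E, T^[r] g = L.ι v * g) (k : ℕ) {g : G} (hg : g ∈ E) :
    T^[k * r] g = L.ι (k • v) * g := by
  induction k with
  | zero => simp
  | succ k ih =>
    rw [Nat.succ_mul, add_comm, Function.iterate_add_apply, h2 _ (key_iter h _ hg).1, ih,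
      L.ι_mul_ι_mul, succ_nsmul']

end

theorem key_stmt : KeyStmt G := by
  classical
  intro n L E l m c q B D R hP hN
  refine ⟨fun b hb y hy => (key_ind hN hb hy).card, fun hn => ?_⟩
  let Top : Finset (Fin m) → Prop := fun I => I.card = n ∧ ∃ g, keyDT L c B D R R I g
  have hind : ∀ I, Top I → keyInd c I := by
    rintro I ⟨-, g, b, hb, y, hy, -, rfl, -⟩
    exact key_ind hN hb hy
  choose! φ hφ using fun I (h : Top I) => (hind I h).fn q
  have hfe : ∀ I, Top I → ∀ j, φ I (c j) ≤ q := fun I h j => by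
    obtain ⟨g, hg⟩ := h.2
    exact key_feas hP hN hg h.1 (hφ I h) j
  have hsh : ∀ I, Top I → Shift L E l (φ I) := fun I h => by
    obtain ⟨i, hi⟩ : I.Nonempty := Finset.card_pos.1 (by rw [h.1]; exact hn)
    exact hP.shift _ (hfe I h) ⟨i, hφ I h i hi⟩
  choose! T r v hT using fun (ψ : Zn n →+ ℝ) (h : Shift L E l ψ) => h
  choose! M μ hM using fun I (h : Top I) => (hind I h).span h.1
  obtain ⟨A, hA1, hA2⟩ : ∃ A : ℕ, (∀ I i, (μ I (v (φ I)) i).natAbs ≤ A) ∧
      ∀ I j i, (μ I (c j) i).natAbs ≤ A := by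
    obtain ⟨A1, h1⟩ := (Set.finite_range fun x : Finset (Fin m) × Fin m =>
      (μ x.1 (v (φ x.1)) x.2).natAbs).bddAbove
    obtain ⟨A2, h2⟩ := (Set.finite_range fun x : Finset (Fin m) × Fin m × Fin m =>
      (μ x.1 (c x.2.1) x.2.2).natAbs).bddAbove
    exact ⟨max A1 A2, fun I i => le_max_of_le_left (h1 ⟨(I, i), rfl⟩),
      fun I j i => le_max_of_le_right (h2 ⟨(I, j, i), rfl⟩)⟩
  have hty : ∀ g ∈ Deep L c B D (R + A), ∃ I, Top I ∧ keyDT L c B D R (R + A) I g := by
    rintro g ⟨b, hb, y, hy, rfl, hc⟩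
    have h1 := (key_ind hN hb hy).card
    have h2 : keyBig (R + A) y ⊆ keyBig R y := fun i hi =>
      key_mem_big.2 (le_trans (Nat.le_add_right _ _) (key_mem_big.1 hi))
    have h3 : keyBig (R + A) y = keyBig R y :=
      Finset.eq_of_subset_of_card_le h2 (h1.trans hc)
    refine ⟨keyBig R y, ⟨le_antisymm h1 (hc.trans (Finset.card_le_card h2)), _, b, hb, y, hy, rfl,
      rfl, fun i hi => key_mem_big.1 hi⟩, b, hb, y, hy, rfl, rfl, fun i hi => ?_⟩
    rw [← h3] at hi
    exact key_mem_big.1 hi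
  have hlen : ∀ I g, Top I → keyDT L c B D R (R + A) I g → l (T (φ I) g) = l g + 1 := by
    intro I g h hg
    obtain ⟨-, t2, t3, -, t5, t6⟩ := hT _ (hsh I h)
    obtain ⟨m1, m2, m3⟩ := hM I h (v (φ I))
    have gE := hg.mem hN
    obtain ⟨-, k2⟩ := hg.move hN (S' := R) le_rfl m2 (fun i _ => by
      have := hA1 I i
      push_cast
      omega)
    rw [← key_val (hφ I h) m2, ← m3, map_nsmul, t3, ← key_iter2 t5 t6 _ gE, nsmul_eq_mul] at k2
    have k3 : l ((T (φ I))^[M I (v (φ I)) * r (φ I)] g) = l g + M I (v (φ I)) * r (φ I) := by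
      exact_mod_cast k2
    obtain ⟨s, hs⟩ : ∃ s, M I (v (φ I)) * r (φ I) = s + 1 :=
      Nat.exists_eq_succ_of_ne_zero (Nat.mul_pos m1 t2).ne'
    rw [hs, Function.iterate_succ_apply] at k3
    have k4 := (key_iter t5 s (t5 g gE).1).2
    have k5 := (t5 g gE).2
    omega
  choose! ty hty using hty
  refine ⟨R + A, Nat.le_add_right _ _, fun g => T (φ (ty g)) g, ?_, fun g hg => ⟨?_, ?_⟩⟩
  · intro x hx x' hx' e
    obtain ⟨h, hd⟩ := hty x hx
    obtain ⟨h', hd'⟩ := hty x' hx'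
    simp only at e
    generalize ty x = I at h hd e
    generalize ty x' = I' at h' hd' e
    obtain ⟨t1, -, -, t4, -, -⟩ := hT _ (hsh I h)
    obtain ⟨-, -, -, t4', t5', -⟩ := hT _ (hsh I' h')
    have hl : l x = l x' := by
      have h1 := hlen I x h hd
      have h2 := hlen I' x' h' hd'
      rw [e] at h1
      omega
    have hj : ∀ j ∈ I, φ I' (c j) = q := fun j hj => by
      obtain ⟨m1, m2, m3⟩ := hM I' h' (c j)
      obtain ⟨k1, k2⟩ := hd'.move hN (S' := R) le_rfl m2 (fun i _ => by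
        have := hA2 I' j i
        push_cast
        omega)
      rw [← key_val (hφ I' h') m2, ← m3, map_nsmul, nsmul_eq_mul _ (φ I' _)] at k2
      rw [← m3] at k1
      obtain ⟨k3, k4⟩ := hd.move hN (S' := R + A) (Nat.le_add_right _ _)
        (μ := Pi.single j (M I' (c j) : ℤ))
        (fun i hi => Pi.single_eq_of_ne (by rintro rfl; exact hi hj) _)
        (fun i _ => by
          by_cases hi : i = j
          · subst hi; simp
          · simp [hi])
      have e1 : ∑ i, (Pi.single j (M I' (c j) : ℤ) : Fin m → ℤ) i • c i = M I' (c j) • c j := by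
        simp [Pi.single_apply]
      have e2 : ∑ i, (((Pi.single j (M I' (c j) : ℤ) : Fin m → ℤ) i : ℤ) : ℝ) = M I' (c j) := by
        simp [Pi.single_apply]
      rw [e1] at k3 k4
      rw [e2] at k4
      have k5 := hlen I _ h k3
      rw [t4, e, ← t4'] at k5
      have k6 := (t5' _ (k1.mem hN)).2
      rw [k5] at k6
      have k7 : (_ : ℝ) ≤ _ := Nat.cast_le.2 (Nat.le_of_add_le_add_right k6)
      rw [k2, k4, hl] at k7
      have hM' : (0 : ℝ) < M I' (c j) := by exact_mod_cast m1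
      refine le_antisymm (hfe I' h' j) ?_
      nlinarith
    have hψ : φ I' = φ I := by
      refine AddMonoidHom.ext fun w => ?_
      obtain ⟨m1, m2, m3⟩ := hM I h w
      have a1 := key_val hj m2
      have a2 := key_val (hφ I h) m2
      rw [← m3, map_nsmul, nsmul_eq_mul] at a1 a2
      have hM' : (M I w : ℝ) ≠ 0 := by exact_mod_cast m1.ne'
      exact mul_left_cancel₀ hM' (a1.trans a2.symm)
    rw [hψ] at e
    exact t1 e
  · obtain ⟨h, hd⟩ := hty g hg
    exact ((hT _ (hsh _ h)).2.2.2.2.1 g (hd.mem hN)).1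
  · obtain ⟨h, hd⟩ := hty g hg
    exact hlen _ g h hd

end Pool.Agent.MP_b3b911_al.VA

end

section

/-! Existence of an invariant mean that is a limit of averages over balls. -/

namespace Pool.Agent.MP_b3b911_al.VA

open Filter Topology Pointwise

variable {G : Type*} [Group G]

theorem meanex_q (b : ℕ) : Tendsto (fun k : ℕ => ((k + b : ℕ) : ℝ) / k) atTop (𝓝 1) := by
  have h := (tendsto_inv_atTop_nhds_zero_nat (𝕜 := ℝ).const_mul (b : ℝ)).const_add 1
  rw [mul_zero, add_zero] at h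
  refine h.congr' ?_
  filter_upwards [eventually_gt_atTop 0] with k hk
  have hk' : (k : ℝ) ≠ 0 := by exact_mod_cast hk.ne'
  push_cast
  field_simp

theorem meanex_shift {m : ℕ} {f : ℕ → ℝ} {a : ℝ}
    (h : Tendsto (fun k : ℕ => f k / (k : ℝ) ^ m) atTop (𝓝 a)) (ha : 0 < a) (b : ℕ) :
    Tendsto (fun k : ℕ => (f (k + b) - f k) / f k) atTop (𝓝 0) := by
  have h1 := ((h.comp (tendsto_add_atTop_nat b)).mul ((meanex_q b).pow m)).sub h
  have h2 := h1.div h ha.ne'
  rw [one_pow, mul_one, sub_self, zero_div] at h2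
  refine h2.congr' ?_
  filter_upwards [eventually_gt_atTop 0] with k hk
  have hk' : (k : ℝ) ≠ 0 := by exact_mod_cast hk.ne'
  have hk'' : ((k + b : ℕ) : ℝ) ≠ 0 := by exact_mod_cast (by omega : k + b ≠ 0)
  simp only [Function.comp, Pi.div_apply]
  rw [div_pow, div_mul_div_cancel₀ (pow_ne_zero m hk''), ← sub_div,
    div_div_div_cancel_right₀ (pow_ne_zero m hk')]

theorem meanex_diff {m : ℕ} {f : ℕ → ℝ} {c e : ℝ} (h : Two (m + 1) f c e) :
    Tendsto (fun k : ℕ => (f (k + 1) - f k) / (k : ℝ) ^ m) atTop (𝓝 ((m + 1 : ℕ) * c)) := by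
  have h0 : Tendsto (fun k : ℕ => (f k - c * (k : ℝ) ^ (m + 1)) / (k : ℝ) ^ m) atTop (𝓝 e) := by
    refine Tendsto.congr (fun k => ?_) h
    rw [show ((m + 1 : ℕ) : ℤ) - 1 = (m : ℕ) by push_cast; ring, zpow_natCast]
  have h1 := ((h0.comp (tendsto_add_atTop_nat 1)).mul ((meanex_q 1).pow m)).sub h0
  have h2 := tendsto_finsetSum (Finset.range (m + 1)) fun i _ => (meanex_q 1).pow i
  have h3 := h1.add (h2.mul_const c)
  simp only [one_pow, mul_one, sub_self, zero_add, Finset.sum_const, Finset.card_range,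
    nsmul_eq_mul] at h3
  refine h3.congr' ?_
  filter_upwards [eventually_gt_atTop 0] with k hk
  have hk' : (k : ℝ) ≠ 0 := by exact_mod_cast hk.ne'
  have hk'' : ((k + 1 : ℕ) : ℝ) ≠ 0 := by exact_mod_cast (by omega : k + 1 ≠ 0)
  have e1 := mul_geom_sum (((k + 1 : ℕ) : ℝ) / k) (m + 1)
  have e2 : ((k + 1 : ℕ) : ℝ) / k - 1 = 1 / k := by
    push_cast
    field_simp
    ring
  have e3 : ∑ i ∈ Finset.range (m + 1), (((k + 1 : ℕ) : ℝ) / k) ^ i =
      (((k + 1 : ℕ) : ℝ) ^ (m + 1) - (k : ℝ) ^ (m + 1)) / (k : ℝ) ^ m := by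
    rw [e2, div_pow] at e1
    rw [← mul_right_inj' (one_div_ne_zero hk'), e1]
    field_simp
    ring
  simp only [Function.comp]
  rw [e3, div_pow, div_mul_div_cancel₀ (pow_ne_zero m hk'')]
  ring

section

variable {T : Set G} (hT : Gen T)
include hT

theorem meanex_fin (X : Set G) (k : ℕ) : {g | g ∈ X ∧ len T g ≤ k}.Finite :=
  (hT.finite_ball k).subset fun _ h => h.2

theorem meanex_add {X Y : Set G} (h : Disjoint X Y) (k : ℕ) :
    cnt (X ∪ Y) (len T) k = cnt X (len T) k + cnt Y (len T) k := by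
  unfold cnt
  rw [← Set.ncard_union_eq (h.mono (fun _ h => h.1) fun _ h => h.1) (meanex_fin hT X k)
    (meanex_fin hT Y k)]
  congr 1
  ext g
  simp only [Set.mem_ofPred_eq, Set.mem_union]
  tauto

theorem meanex_compl (X : Set G) (k : ℕ) :
    (cnt X (len T) k : ℝ) + cnt Xᶜ (len T) k = cnt Set.univ (len T) k := by
  rw [← Set.union_compl_self X, meanex_add hT disjoint_compl_right, Nat.cast_add]

theorem meanex_mono (X : Set G) {k k' : ℕ} (h : k ≤ k') :
    (cnt X (len T) k : ℝ) ≤ cnt X (len T) k' :=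
  Nat.cast_le.2 (Set.ncard_le_ncard (fun _ hg => ⟨hg.1, hg.2.trans h⟩) (meanex_fin hT X k'))

theorem meanex_pre (F : G → G) (hF : Function.Injective F) (a : ℕ)
    (h : ∀ x, len T (F x) ≤ len T x + a) (X : Set G) (k : ℕ) :
    (cnt (F ⁻¹' X) (len T) k : ℝ) ≤ cnt X (len T) k +
      (cnt Set.univ (len T) (k + a) - cnt Set.univ (len T) k) := by
  have h1 : (cnt (F ⁻¹' X) (len T) k : ℝ) ≤ cnt X (len T) (k + a) :=
    Nat.cast_le.2 (Set.ncard_le_ncard_of_injOn F
      (fun x hx => ⟨hx.1, (h x).trans (Nat.add_le_add_right hx.2 a)⟩) hF.injOn (meanex_fin hT X _))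
  have h2 := meanex_compl hT X k
  have h3 := meanex_compl hT X (k + a)
  have h4 := meanex_mono hT Xᶜ (Nat.le_add_right k a)
  linarith

theorem meanex_pos (k : ℕ) : (0 : ℝ) < cnt Set.univ (len T) k :=
  Nat.cast_pos.2 ((Set.ncard_pos (meanex_fin hT _ k)).2
    ⟨1, trivial, (len_le (k := 0) (by simp)).trans k.zero_le⟩)

theorem meanex_top [Infinite G] :
    Tendsto (fun k => (cnt Set.univ (len T) k : ℝ)) atTop atTop := by
  refine tendsto_atTop_atTop_of_monotone (fun _ _ h => meanex_mono hT _ h) fun b => ?_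
  obtain ⟨s, hs⟩ := Infinite.exists_subset_card_eq G ⌈b⌉₊
  refine ⟨s.sup (len T), (Nat.le_ceil b).trans (Nat.cast_le.2 ?_)⟩
  rw [← hs, ← Set.ncard_coe_finset]
  exact Set.ncard_le_ncard (fun g hg => ⟨trivial, Finset.le_sup hg⟩) (meanex_fin hT _ _)

theorem meanex_res (p r k : ℕ) :
    (cnt {g | len T g % p = r} (len T) (k + 1) : ℝ) = cnt {g | len T g % p = r} (len T) k +
      if (k + 1) % p = r then
        (cnt Set.univ (len T) (k + 1) : ℝ) - cnt Set.univ (len T) k else 0 := by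
  have key : ∀ X : Set G, (∀ g ∈ X, len T g ≠ k + 1) →
      cnt X (len T) (k + 1) = cnt X (len T) k := fun X hX => by
    unfold cnt
    congr 1
    ext g
    exact and_congr_right fun hg => by have := hX g hg; omega
  split_ifs with h
  · have h1 := key {g | len T g % p = r}ᶜ fun g hg e => hg (by simp [e, h])
    have h2 := meanex_compl hT {g | len T g % p = r} k
    have h3 := meanex_compl hT {g | len T g % p = r} (k + 1)
    rw [h1] at h3
    linarith
  · rw [key {g | len T g % p = r} fun g hg e => h (by rw [← e]; exact hg), add_zero]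

end

theorem mean_stmt : MeanStmt G := by
  intro T d c e hT hG hc h
  obtain ⟨β, hβ⟩ : ∃ β : ℕ → ℝ, β = fun k => (cnt Set.univ (len T) k : ℝ) := ⟨_, rfl⟩
  have bp : ∀ k, 0 < β k := fun k => hβ ▸ meanex_pos hT k
  have bt : Tendsto β atTop atTop := hβ ▸ meanex_top hT
  have bk : ∀ k, (cnt Set.univ (len T) k : ℝ) = β k := fun k => by rw [hβ]
  rw [← hβ] at h
  have hr := h.ratio
  obtain ⟨m, rfl⟩ : ∃ m, d = m + 1 := by
    refine Nat.exists_eq_succ_of_ne_zero ?_
    rintro rfl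
    simp only [pow_zero, div_one] at hr
    exact not_tendsto_atTop_of_tendsto_nhds hr bt
  let U : Ultrafilter ℕ := hyperfilter ℕ
  have hU : (U : Filter ℕ) ≤ atTop := Nat.hyperfilter_le_atTop
  have ex : ∀ X : Set G, ∃ x : ℝ, Tendsto (fun k => (cnt X (len T) k : ℝ) / β k) U (𝓝 x) :=
    fun X => by
    obtain ⟨x, -, hx⟩ := (isCompact_Icc (a := (0 : ℝ)) (b := 1)).ultrafilter_le_nhds
      (U.map fun k => (cnt X (len T) k : ℝ) / β k) (by
        rw [le_principal_iff]
        refine Ultrafilter.mem_map.2 (univ_mem' fun k => ⟨div_nonneg (Nat.cast_nonneg _) (bp k).le,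
          (div_le_one (bp k)).2 ?_⟩)
        have h1 := meanex_compl hT X k
        have h2 : (0 : ℝ) ≤ cnt Xᶜ (len T) k := Nat.cast_nonneg _
        rw [bk] at h1
        linarith)
    exact ⟨x, hx⟩
  choose D hD using ex
  have cmp : ∀ (X Y : Set G) (E : ℕ → ℝ), Tendsto (fun k => E k / β k) atTop (𝓝 0) →
      (∀ k, (cnt X (len T) k : ℝ) ≤ cnt Y (len T) k + E k) → D X ≤ D Y := fun X Y E h1 h2 => by
    have h3 := (hD Y).add (h1.mono_left hU)
    rw [add_zero] at h3
    refine le_of_tendsto_of_tendsto' (hD X) h3 fun k => ?_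
    rw [← add_div]
    exact div_le_div_of_nonneg_right (h2 k) (bp k).le
  have pre : ∀ (F : G → G) (a : ℕ), Function.Injective F → (∀ x, len T (F x) ≤ len T x + a) →
      ∀ X, D (F ⁻¹' X) ≤ D X := fun F a h1 h2 X =>
    cmp _ _ _ (meanex_shift hr hc a) fun k => by
      simpa only [bk] using meanex_pre hT F h1 a h2 X k
  have pre2 : ∀ (F : G ≃ G) (a b : ℕ), (∀ x, len T (F x) ≤ len T x + a) →
      (∀ x, len T (F.symm x) ≤ len T x + b) → ∀ X, D (F ⁻¹' X) = D X := fun F a b h1 h2 X => by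
    refine le_antisymm (pre F a F.injective h1 X) ?_
    have := pre F.symm b F.symm.injective h2 (F ⁻¹' X)
    rwa [Equiv.symm_preimage_preimage] at this
  let μ : Mean G :=
    { D := D
      nonneg := fun X => ge_of_tendsto' (hD X) fun k => div_nonneg (Nat.cast_nonneg _) (bp k).le
      add := fun X Y hXY => tendsto_nhds_unique (hD _) (((hD X).add (hD Y)).congr fun k => by
        rw [meanex_add hT hXY, Nat.cast_add, add_div])
      univ := tendsto_nhds_unique (hD _) (tendsto_const_nhds.congr fun k => by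
        rw [bk, div_self (bp k).ne'])
      left := fun g => pre2 (Equiv.mulLeft g) (len T g) (len T g⁻¹)
        (fun x => (hT.len_mul_le g x).trans (add_comm _ _).le)
        fun x => (hT.len_mul_le g⁻¹ x).trans (add_comm _ _).le
      right := fun g => pre2 (Equiv.mulRight g) (len T g) (len T g⁻¹)
        (fun x => hT.len_mul_le x g) fun x => hT.len_mul_le x g⁻¹
      inv := pre2 (Equiv.inv G) 0 0 (fun x => (hT.len_inv x).le) fun x => (hT.len_inv x).le }
  refine ⟨μ, fun p hp => ?_, fun X ε hε => ge_of_tendsto (hD X) (hU (hε.mono fun k hk => ?_))⟩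
  swap
  · rw [bk] at hk
    exact (le_div_iff₀ (bp k)).2 hk
  -- the sum of the differences of consecutive spheres is small
  have s0 : ∀ k, 0 ≤ β (k + 1) - β k := fun k => by
    have := meanex_mono hT Set.univ k.le_succ
    rw [bk, bk] at this
    exact sub_nonneg.2 this
  have hs := meanex_shift (meanex_diff h) (by positivity) 1
  have hs1 := meanex_diff h
  have o1 : (fun k => |β (k + 1 + 1) - β (k + 1) - (β (k + 1) - β k)|) =o[atTop]
      fun k => β (k + 1) - β k := by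
    refine Asymptotics.IsLittleO.abs_left ((Asymptotics.isLittleO_iff_tendsto' ?_).2 hs)
    filter_upwards [hs1.eventually (lt_mem_nhds (by positivity : 0 < ((m + 1 : ℕ) : ℝ) * c))]
      with k hk e
    rw [e, zero_div] at hk
    exact absurd hk (lt_irrefl _)
  have o2 := o1.sum_range s0 (by
    simp only [Finset.sum_range_sub]
    exact tendsto_atTop_add_const_right _ (-β 0) bt)
  simp only [Finset.sum_range_sub] at o2
  have o3 : Tendsto (fun n => (∑ k ∈ Finset.range n,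
      |β (k + 1 + 1) - β (k + 1) - (β (k + 1) - β k)|) / β n) atTop (𝓝 0) := by
    refine (o2.trans_isBigO (Asymptotics.IsBigO.of_bound' (Eventually.of_forall fun n => ?_))
      ).tendsto_div_nhds_zero
    have h1 := meanex_mono hT Set.univ n.zero_le
    rw [bk, bk] at h1
    rw [Real.norm_of_nonneg (sub_nonneg.2 h1), Real.norm_of_nonneg (bp n).le]
    linarith [bp 0]
  have step : ∀ r, r + 1 < p → D {g | len T g % p = r + 1} = D {g | len T g % p = r} := by
    intro r hr'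
    obtain ⟨A, hA⟩ : ∃ A : ℝ, A = |(cnt {g | len T g % p = r + 1} (len T) 1 : ℝ) -
      cnt {g | len T g % p = r} (len T) 0| := ⟨_, rfl⟩
    have b1 : ∀ n, |(cnt {g | len T g % p = r + 1} (len T) (n + 1) : ℝ) -
        cnt {g | len T g % p = r} (len T) n| ≤
        A + ∑ k ∈ Finset.range n, |β (k + 1 + 1) - β (k + 1) - (β (k + 1) - β k)| := by
      intro n
      induction n with
      | zero => simp [hA]
      | succ n ih =>
        have i1 : (n + 1 + 1) % p = r + 1 ↔ (n + 1) % p = r := by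
          have h1 := Nat.mod_lt (n + 1) hp
          rw [Nat.add_mod (n + 1) 1 p, Nat.mod_eq_of_lt (by omega : 1 < p)]
          rcases Nat.lt_or_ge ((n + 1) % p + 1) p with h2 | h2
          · rw [Nat.mod_eq_of_lt h2]; omega
          · rw [show (n + 1) % p + 1 = p by omega, Nat.mod_self]; omega
        rw [meanex_res hT p (r + 1) (n + 1), meanex_res hT p r n, Finset.sum_range_succ]
        simp only [bk, i1]
        have h1 := abs_nonneg (β (n + 1 + 1) - β (n + 1) - (β (n + 1) - β n))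
        have h2 := le_abs_self (β (n + 1 + 1) - β (n + 1) - (β (n + 1) - β n))
        have h3 := neg_abs_le (β (n + 1 + 1) - β (n + 1) - (β (n + 1) - β n))
        rw [abs_le] at ih ⊢
        split_ifs <;> constructor <;> linarith [ih.1, ih.2]
    have t1 := (bt.const_div_atTop A).add o3
    have t2 := t1.add (meanex_shift hr hc 1)
    simp only [add_zero, ← add_div] at t1 t2
    refine le_antisymm (cmp _ _ _ t1 fun k => ?_) (cmp _ _ _ t2 fun k => ?_)
    · linarith [(abs_le.1 (b1 k)).2, meanex_mono hT {g | len T g % p = r + 1} k.le_succ]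
    · have h1 := meanex_res hT p (r + 1) k
      have h2 := s0 k
      simp only [bk] at h1
      have h3 := (abs_le.1 (b1 k)).1
      split_ifs at h1 <;> linarith
  have all : ∀ r < p, D {g | len T g % p = r} = D {g | len T g % p = 0} := fun r hr' => by
    induction r with
    | zero => rfl
    | succ r ih => rw [step r hr', ih (by omega)]
  intro r hr'
  have h1 := μ.sum_fiber (Finset.range p) (fun g => len T g % p) Set.univ
    fun g _ => Finset.mem_range.2 (Nat.mod_lt _ hp)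
  simp only [Set.univ_inter] at h1 ⊢
  rw [h1, Finset.sum_congr rfl (g := fun _ => μ.D {g | len T g % p = r}) fun i hi =>
    (all i (Finset.mem_range.1 hi)).trans (all r hr').symm,
    Finset.sum_const, Finset.card_range, nsmul_eq_mul]

end Pool.Agent.MP_b3b911_al.VA

end

section

/-! Virtually abelian groups: the functionals of the bumps are vertices, and the upper bound. -/

namespace Pool.Agent.MP_b3b911_al.VA

open Filter Topology Pointwise

variable {G : Type*} [Group G]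

theorem vert_low (hL : LetterStmt G) {n : ℕ} {L : Lat G n} {Γ : Geo L} {Δ : Des Γ} (π : Δ.Par)
    {α : Zn n} (hα : α ∈ Γ.O) (l : List G) (hl : ∀ s ∈ l, s ∈ π.T) (u : G) :
    Γ.B α (L.ρ u (L.P l.prod)) ≤ l.length * π.m - π.ω * cost L Δ.dT (L.ρ u⁻¹ α) l +
      Γ.B α (Δ.Pi α (u * l.prod)) - Γ.B α (Δ.Pi α u) := by
  induction l generalizing u with
  | nil => simp [cost]
  | cons s l ih =>
    have a1 := (hL n L Γ Δ π α hα u s (hl s (by simp))).1
    have b1 := ih (fun t ht => hl t (by simp [ht])) (u * s)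
    have e : L.ρ u (L.P (s :: l).prod) = L.ρ u (L.P s) + L.ρ (u * s) (L.P l.prod) := by
      rw [List.prod_cons, L.P_mul, map_add, ← L.ρ_mul_apply]
    rw [mul_inv_rev, L.ρ_mul_apply s⁻¹ u⁻¹] at b1
    rw [e, map_add, List.prod_cons, ← mul_assoc, List.length_cons, cost]
    push_cast
    linarith

theorem vert_phi {n : ℕ} {L : Lat G n} {Γ : Geo L} {Δ : Des Γ} (π : Δ.Par) (α x : Zn n) :
    π.φ α x = L.N / π.m * Γ.B α x := by
  change (L.N : ℝ) * Γ.B α x / π.m = _
  ring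

theorem vert_stmt (hL : LetterStmt G) : VertStmt G := by
  intro n L Γ Δ π α hα
  have hm : (0 : ℝ) < π.m := by exact_mod_cast π.m_pos
  have hN : (0 : ℝ) < L.N := by exact_mod_cast L.N_pos
  have hq : (0 : ℝ) < L.N / π.m := div_pos hN hm
  have hqm : (L.N : ℝ) / π.m * π.m = L.N := div_mul_cancel₀ _ hm.ne'
  have key : ∀ c ∈ Cyc L π.T Set.univ,
      π.φ α c.1 ≤ c.2 ∧ (π.φ α c.1 = c.2 → π.Sum α c.1 c.2) := fun c hc => by
    refine π.tight_Sum (π.φ α) (fun u s hs => ?_) hc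
    obtain ⟨a1, a2⟩ := hL n L Γ Δ π α hα u s hs
    have a3 : 0 ≤ π.ω * Δ.dT s (L.ρ u⁻¹ α) := mul_nonneg π.ω_pos.le (Int.natCast_nonneg _)
    have e : (L.N : ℝ) + π.φ α (Δ.Pi α (u * s)) - π.φ α (Δ.Pi α u) =
        L.N / π.m * ((π.m + Γ.B α (Δ.Pi α (u * s)) - Γ.B α (Δ.Pi α u) : ℤ) : ℝ) := by
      rw [vert_phi, vert_phi]
      push_cast
      linear_combination -hqm
    rw [e, vert_phi]
    refine ⟨mul_le_mul_of_nonneg_left (Int.cast_le.2 (by linarith)) hq.le, fun h => a2 ?_⟩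
    exact_mod_cast mul_left_cancel₀ hq.ne' h
  refine ⟨fun l hl => ?_, ⟨fun c hc => (key c hc).1, fun η hη => ?_⟩, fun c hc => (key c hc).2⟩
  · have h1 := vert_low hL π hα l hl 1
    rw [inv_one, L.ρ_one_apply, L.ρ_one_apply] at h1
    have h2 := abs_le.1 (π.abs_Pi hα (1 * l.prod))
    have h3 := abs_le.1 (π.abs_Pi hα 1)
    have h4 := π.E3_nonneg
    linarith
  · obtain ⟨k, x, hk, hx, hc⟩ := π.top_cycle hα
    have hk' : (k : ℝ) ≠ 0 := by exact_mod_cast hk.ne'
    have tight : ∀ v ∈ π.th α, π.φ α (k • v + x) = k := fun v hv =>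
      Des.Par.Sum.φ hα ⟨List.replicate k v, by simp,
        fun w hw => by rw [List.eq_of_mem_replicate hw]; exact hv, by
          rw [List.map_replicate, List.sum_replicate, smul_add, smul_add, hx, smul_comm]⟩
    have zero : ∀ v ∈ π.th α, η (k • v + x) = 0 := fun v hv => hη _ (hc v hv) (tight v hv)
    have h0 := zero _ (π.K_mem_th α)
    have h1 : ∀ i, (Γ.B Γ.c0 Γ.c0 : ℝ) * η (Pi.single i 1) = Γ.B α (Pi.single i 1) * η α :=
      fun i => by
      have h2 := zero _ ⟨_, π.h1 α hα i, by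
        rw [map_sub, map_zsmul, map_zsmul, Γ.B_self hα, smul_eq_mul, smul_eq_mul]
        ring, rfl⟩
      simp only [map_add, map_nsmul, map_sub, map_zsmul] at h0 h2
      simp only [nsmul_eq_mul, zsmul_eq_mul] at h0 h2
      refine mul_left_cancel₀ hk' ?_
      linear_combination h2 - h0
    have h3 : ∀ y, (Γ.B Γ.c0 Γ.c0 : ℝ) * η y = Γ.B α y * η α := fun y => by
      rw [← Finset.univ_sum_single y, map_sum, map_sum, Int.cast_sum, Finset.mul_sum,
        Finset.sum_mul]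
      refine Finset.sum_congr rfl fun i _ => ?_
      rw [show (Pi.single i (y i) : Zn n) = y i • Pi.single i 1 by simp [← Pi.single_smul],
        map_zsmul, map_zsmul, zsmul_eq_mul, smul_eq_mul, Int.cast_mul]
      linear_combination (y i : ℝ) * h1 i
    have h4 : η α = 0 := by
      have h5 := h3 (k • π.K • α + x)
      have h6 := tight _ (π.K_mem_th α)
      rw [vert_phi] at h6
      rw [h0, mul_zero] at h5
      refine (mul_eq_zero.1 h5.symm).resolve_left fun h => hk' ?_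
      rw [← h6, h, mul_zero]
    have hβ : (Γ.B Γ.c0 Γ.c0 : ℝ) ≠ 0 := by exact_mod_cast Γ.β_pos.ne'
    refine AddMonoidHom.ext fun y => ?_
    have h7 := h3 y
    rw [h4, mul_zero] at h7
    exact (mul_eq_zero.1 h7).resolve_left hβ

theorem vert_ineq {K K1 κ E3 z D : ℤ} (hK : K = 2 * K1 * κ) (h1 : 10 ≤ K1) (hκ : 0 < κ)
    (h3 : 0 ≤ E3) (hz : |z| ≤ E3) (hD0 : 0 ≤ D) (hD : D ≤ 6) :
    z * (D * κ) ≤ K * (31 * E3 - 2 * z - 4 * E3 * D) := by
  obtain ⟨z1, z2⟩ := abs_le.1 hz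
  have a1 : z * D ≤ 6 * E3 := by nlinarith
  have a2 : 5 * E3 ≤ 31 * E3 - 2 * z - 4 * E3 * D := by nlinarith
  have a3 : 20 * κ ≤ K := by rw [hK]; nlinarith
  have a4 : z * (D * κ) ≤ 6 * E3 * κ := by nlinarith
  have a5 : 20 * κ * (5 * E3) ≤ K * (31 * E3 - 2 * z - 4 * E3 * D) :=
    mul_le_mul a3 a2 (by positivity) (by linarith)
  nlinarith [mul_nonneg h3 hκ.le]

theorem up_stmt (hV : VertStmt G) (hR : RoundStmt G) : UpStmt G := by
  intro n L Γ Δ π α hα g r₁ r₂ l hrep hpath hcl hlo hhi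
  have hN : (1 : ℤ) ≤ L.N := by exact_mod_cast L.N_pos
  have hBa : Γ.B α (L.P (L.ι (-(2 * π.K) • α) * g)) = Γ.B α (L.P g) - 2 * π.m + 2 * Δ.z := by
    rw [L.P_ι_mul, map_add, map_nsmul, map_zsmul, Γ.B_self hα, Des.Par.m, nsmul_eq_mul,
      smul_eq_mul]
    ring
  set c := L.ρ (r₁ * l.prod)⁻¹ α with hc
  have hD : Δ.df r₁ α + Δ.df r₂ c ≤ 6 := by
    have := Δ.df_le r₁ α
    have := Δ.df_le r₂ c
    omega
  obtain ⟨vs, hvl, hvs, hb⟩ := hR n L Γ Δ π α hα _ _ l.length (Δ.df r₁ α + Δ.df r₂ c)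
    (hV n L Γ Δ π α hα).2.2 hrep hD (by
      have h1 := abs_le.1 π.abs_z
      have h2 := π.m0
      have h3 := π.ω0
      have h4 := π.E3_nonneg
      have h5 := Γ.β_pos
      have h6 : π.E3 ≤ L.N * π.E3 := by nlinarith
      have h7 : (0 : ℤ) ≤ L.N * (L.N * Γ.B Γ.c0 Γ.c0) := by positivity
      rw [hBa]
      nlinarith) (by
      have h1 := vert_ineq (K := π.K) (D := ((Δ.df r₁ α + Δ.df r₂ c : ℕ) : ℤ)) rfl π.K1_ge π.κ_pos
        π.E3_nonneg π.abs_z (Int.natCast_nonneg _) (by exact_mod_cast hD)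
      have h2 : π.ω * ((Δ.df r₁ α + Δ.df r₂ c : ℕ) : ℤ) + 31 * π.E3 - 2 * Δ.z ≤
          l.length * π.m - Γ.B α (L.P (L.ι (-(2 * π.K) • α) * g)) := by
        rw [hBa]
        linarith
      refine le_trans ?_ (mul_le_mul_of_nonneg_left h2 π.K_pos.le)
      rw [Des.Par.m, Des.Par.ω]
      linarith)
  set u0 := L.rep (L.cl r₁) with hu0
  set r3 := L.rep (L.cl r₂) with hr3
  have ρ0 : L.ρ u0 = L.ρ r₁ := L.ρ_rep r₁
  obtain ⟨y, hy⟩ := (L.cl_eq (u0 * l.prod * r3) g).1
    ((L.cl_mul (L.cl_mul_right (L.cl_rep _) _) (L.cl_rep _)).trans hcl)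
  set x : Zn n := y - (2 * π.K - ((Δ.df r₁ α + Δ.df r₂ c : ℕ) : ℤ) * π.κ) • α - vs.sum with hx
  have hP := Des.path_P (α := α) (u := u0) (l := l) (by rw [L.ρ_inv_congr ρ0]; exact hpath)
  have hNx : L.N • x = (L.P (L.ι (-(2 * π.K) • α) * g) +
      (L.N * (Δ.df r₁ α + Δ.df r₂ c) * π.κ) • α - (L.N • vs.sum + l.length • Δ.Z α)) -
      L.P u0 - Δ.Pi α (u0 * l.prod) + Δ.Pi α u0 - L.ρ (u0 * l.prod) (L.P r3) := by
    have hPg := congrArg L.P hy
    rw [L.P_ι_mul, L.P_mul (u0 * l.prod), L.P_mul u0, hP] at hPg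
    rw [L.P_ι_mul, hPg, hx]
    funext i
    simp only [Pi.add_apply, Pi.sub_apply, Pi.smul_apply]
    simp only [smul_eq_mul, nsmul_eq_mul]
    push_cast
    ring
  have hxs : ∀ i, |x i| ≤ π.E4 := fun i => by
    have h1 := hb i
    have h2 := π.h4 α hα i (u0 * l.prod) u0 (u0 * l.prod) (L.cl r₁) (L.cl r₂)
    have h3 := congrFun hNx i
    rw [← hu0, ← hr3] at h2
    rw [Pi.sub_apply, Pi.add_apply, Pi.sub_apply, Pi.sub_apply, Pi.smul_apply, nsmul_eq_mul] at h3
    generalize (L.P (L.ι (-(2 * π.K) • α) * g) + (L.N * (Δ.df r₁ α + Δ.df r₂ c) * π.κ) • α -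
      (L.N • vs.sum + l.length • Δ.Z α)) i = A at h1 h3
    have h4 : (L.N : ℤ) * |x i| ≤ |A| + |L.P u0 i| + |Δ.Pi α (u0 * l.prod) i| + |Δ.Pi α u0 i| +
        |L.ρ (u0 * l.prod) (L.P r3) i| := by
      rw [← abs_of_nonneg (Int.natCast_nonneg L.N), ← abs_mul, h3]
      refine (abs_sub _ _).trans (add_le_add ((abs_add_le _ _).trans (add_le_add
        ((abs_sub _ _).trans (add_le_add (abs_sub _ _) le_rfl)) le_rfl)) le_rfl)
    have h5 : 0 ≤ 5 * |Δ.Z α i| + |L.P u0 i| + |Δ.Pi α (u0 * l.prod) i| + |Δ.Pi α u0 i| +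
        |L.ρ (u0 * l.prod) (L.P r3) i| := by positivity
    refine le_of_mul_le_mul_left ?_ (show (0 : ℤ) < L.N by linarith)
    have h6 := mul_le_mul_of_nonneg_left h2 (Int.natCast_nonneg L.N)
    nlinarith [mul_le_mul_of_nonneg_right hN h5]
  have hE4 : ∀ i, |(0 : Zn n) i| ≤ π.E4 := fun i => by
    simpa using (abs_nonneg _).trans (hxs i)
  have ρ1 : L.ρ (L.ι x * u0) = L.ρ r₁ := (L.ρ_ι_mul _ _).trans ρ0
  have d1 : Δ.df (L.ι x * u0) α = Δ.df r₁ α := by
    obtain ⟨v, hv⟩ := L.exists_rep r₁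
    rw [Δ.df_cl]
    conv_rhs => rw [hv, Δ.df_cl]
  have d2 : Δ.df r3 c = Δ.df r₂ c := by
    obtain ⟨v, hv⟩ := L.exists_rep r₂
    conv_rhs => rw [hv, Δ.df_cl]
  have s1 : L.ι ((π.K - Δ.df r₁ α * π.κ) • α) * (L.ι x * u0) ∈ π.T :=
    Or.inr (Or.inr ⟨L.ι x * u0, π.h2r x _ hxs, α, hα, by rw [d1]⟩)
  have s2 : L.ι ((π.K - Δ.df r₂ c * π.κ) • c) * r3 ∈ π.T :=
    Or.inr (Or.inr ⟨r3, by simpa using π.h2r 0 (L.cl r₂) hE4, c, Γ.ρ_mem hα _, by rw [d2]⟩)
  obtain ⟨g2, hg2, e2⟩ := π.path_lift (α := α) (u := L.ι x * u0) (l := l)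
    (by rw [L.ρ_inv_congr ρ1]; exact hpath) vs hvl hvs
  have ρ2 : L.ρ (u0 * l.prod) c = α := by
    rw [L.ρ_mul_apply, ρ0, ← L.ρ_mul_apply, hc, L.ρ_apply_inv]
  have e : L.ι ((π.K - Δ.df r₁ α * π.κ) • α) * (L.ι x * u0) * g2 *
      (L.ι ((π.K - Δ.df r₂ c * π.κ) • c) * r3) = g := by
    rw [mul_assoc (L.ι _), e2, mul_assoc (L.ι x), L.ι_mul_ι_mul, L.ι_mul_ι_mul, mul_assoc (L.ι _),
      L.mul_ι_mul, L.ι_mul_ι_mul, map_zsmul, ρ2]
    conv_rhs => rw [hy]
    congr 2
    rw [hx]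
    funext i
    simp only [Pi.add_apply, Pi.sub_apply, Pi.smul_apply, smul_eq_mul]
    push_cast
    ring
  rw [← e, show l.length + 2 = 1 + l.length + 1 by ring]
  exact mul_mem_pow (mul_mem_pow (by rwa [pow_one]) hg2) (by rwa [pow_one])

end Pool.Agent.MP_b3b911_al.VA

end

section

/-! Virtually abelian groups: windows of a function that is shifted by a translation. -/

namespace Pool.Agent.MP_b3b911_al.VA

open Filter Topology Pointwise

variable {G : Type*} [Group G]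

open Classical in
theorem win_mean (μ : Mean G) (Y : Set G) (X : ℕ → Set G) (Q J : ℕ)
    (h : ∀ g, Q ≤ ((Finset.range J).filter fun j => g ∈ X j).card) :
    Q * μ.D Y ≤ ∑ j ∈ Finset.range J, μ.D (Y ∩ X j) := by
  let f : G → Finset ℕ := fun g => (Finset.range J).filter fun j => g ∈ X j
  have hf : ∀ g, f g ∈ (Finset.range J).powerset := fun g =>
    Finset.mem_powerset.2 (Finset.filter_subset _ _)
  have h1 : ∀ j ∈ Finset.range J, μ.D (Y ∩ X j) = ∑ s ∈ (Finset.range J).powerset,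
      if j ∈ s then μ.D (Y ∩ {g | f g = s}) else 0 := by
    intro j hj
    rw [μ.sum_fiber _ f (Y ∩ X j) fun g _ => hf g]
    refine Finset.sum_congr rfl fun s _ => ?_
    split_ifs with hs
    · congr 1
      ext g
      refine ⟨fun hg => ⟨hg.1.1, hg.2⟩, fun hg => ⟨⟨hg.1, ?_⟩, hg.2⟩⟩
      have e : f g = s := hg.2
      rw [← e] at hs
      exact (Finset.mem_filter.1 hs).2
    · rw [← μ.empty]
      congr 1
      ext g
      refine ⟨fun hg => hs ?_, fun hg => hg.elim⟩
      have e : f g = s := hg.2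
      rw [← e]
      exact Finset.mem_filter.2 ⟨hj, hg.1.2⟩
  rw [Finset.sum_congr rfl h1, Finset.sum_comm, μ.sum_fiber _ f Y fun g _ => hf g, Finset.mul_sum]
  refine Finset.sum_le_sum fun s hs => ?_
  rw [← Finset.sum_filter, Finset.sum_const, nsmul_eq_mul, Finset.filter_mem_eq_inter,
    Finset.inter_eq_right.2 (Finset.mem_powerset.1 hs)]
  rcases (Y ∩ {g | f g = s}).eq_empty_or_nonempty with e | ⟨g, hg⟩
  · rw [e, μ.empty, mul_zero, mul_zero]
  · refine mul_le_mul_of_nonneg_right ?_ (μ.nonneg _)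
    have e : f g = s := hg.2
    rw [← e]
    exact_mod_cast h g

open Classical in
theorem win_count (φ σ M A b : ℤ) (Q J : ℕ) (hσ : 0 < σ) (hM : 0 < M) (hb : b ≤ M)
    (hQ : Q * σ ≤ b) (hJ : M ≤ J * σ) :
    Q ≤ ((Finset.range J).filter fun j : ℕ =>
      ∃ k : ℤ, A + k * M < φ + j * σ ∧ φ + j * σ ≤ A + b + k * M).card := by
  have h1 : ∀ i : ℕ, ∃ j : ℕ, j < J ∧ ∃ k : ℤ, A + i * σ + k * M < φ + j * σ ∧
      φ + j * σ ≤ A + i * σ + σ + k * M := by
    intro i
    obtain ⟨k, hk1, hk2⟩ : ∃ k : ℤ, φ - σ ≤ A + i * σ + k * M ∧ A + i * σ + k * M < φ - σ + M := by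
      refine ⟨-((A + i * σ - (φ - σ)) / M), ?_, ?_⟩
      · have := Int.emod_nonneg (A + i * σ - (φ - σ)) hM.ne'
        rw [Int.emod_def] at this
        linarith
      · have := Int.emod_lt_of_pos (A + i * σ - (φ - σ)) hM
        rw [Int.emod_def] at this
        linarith
    set x := A + i * σ + k * M with hx
    have h0 : 0 ≤ (x - φ + σ) / σ := Int.ediv_nonneg (by linarith) hσ.le
    obtain ⟨j, hj⟩ := Int.eq_ofNat_of_zero_le h0
    have h2 := Int.emod_nonneg (x - φ + σ) hσ.ne'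
    have h3 := Int.emod_lt_of_pos (x - φ + σ) hσ
    rw [Int.emod_def, hj] at h2 h3
    refine ⟨j, ?_, k, by linarith, by linarith⟩
    have h4 : (j : ℤ) * σ < J * σ := by linarith
    exact_mod_cast lt_of_mul_lt_mul_right h4 hσ.le
  choose f hf k hk1 hk2 using h1
  have h5 : ∀ i : ℕ, i < Q → 0 ≤ (i : ℤ) * σ ∧ (i : ℤ) * σ + σ ≤ b := by
    intro i hi
    have h6 : (i : ℤ) + 1 ≤ Q := by exact_mod_cast hi
    refine ⟨by positivity, ?_⟩
    nlinarith
  rw [← Finset.card_range Q]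
  refine Finset.card_le_card_of_injOn f (fun i hi => ?_) fun i hi i' hi' e => ?_
  · have := h5 i (Finset.mem_range.1 (Finset.mem_coe.1 hi))
    exact Finset.mem_coe.2 (Finset.mem_filter.2 ⟨Finset.mem_range.2 (hf i), k i,
      by linarith [hk1 i], by linarith [hk2 i]⟩)
  · have a1 := h5 i (Finset.mem_range.1 (Finset.mem_coe.1 hi))
    have a2 := h5 i' (Finset.mem_range.1 (Finset.mem_coe.1 hi'))
    have b1 := hk1 i
    have b2 := hk2 i
    have b3 := hk1 i'
    have b4 := hk2 i'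
    rw [← e] at b3 b4
    have c1 : k i * M < (k i' + 1) * M := by linarith
    have c2 : k i' * M < (k i + 1) * M := by linarith
    have c3 := lt_of_mul_lt_mul_right c1 hM.le
    have c4 := lt_of_mul_lt_mul_right c2 hM.le
    have c5 : k i = k i' := by omega
    rw [← c5] at b3 b4
    have d1 : (i : ℤ) * σ < (i' + 1) * σ := by linarith
    have d2 : (i' : ℤ) * σ < (i + 1) * σ := by linarith
    have d3 := lt_of_mul_lt_mul_right d1 hσ.le
    have d4 := lt_of_mul_lt_mul_right d2 hσ.le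
    omega

theorem win_stmt : WinStmt G := by
  classical
  intro μ Y a Φ σ M A b hσ hM hb hΦ hY
  set W := {g | ∃ k : ℤ, A + k * M < Φ g ∧ Φ g ≤ A + b + k * M} with hW
  have hσR : (0 : ℝ) < σ := by exact_mod_cast hσ
  have hMR : (0 : ℝ) < M := by exact_mod_cast hM
  rcases le_or_gt b 0 with hb0 | hb0
  · have h1 : (b : ℝ) ≤ 0 := by exact_mod_cast hb0
    exact (mul_nonpos_of_nonpos_of_nonneg (by linarith) (μ.nonneg _)).trans
      (mul_nonneg (by linarith) (μ.nonneg _))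
  obtain ⟨Q, hQ⟩ := Int.eq_ofNat_of_zero_le (Int.ediv_nonneg hb0.le hσ.le)
  obtain ⟨J, hJ⟩ := Int.eq_ofNat_of_zero_le
    (Int.ediv_nonneg (by linarith : 0 ≤ M + σ - 1) hσ.le)
  have q1 := Int.emod_nonneg b hσ.ne'
  have q2 := Int.emod_lt_of_pos b hσ
  have j1 := Int.emod_nonneg (M + σ - 1) hσ.ne'
  have j2 := Int.emod_lt_of_pos (M + σ - 1) hσ
  rw [Int.emod_def, hQ] at q1 q2
  rw [Int.emod_def, hJ] at j1 j2
  have h1 : ∀ (j : ℕ) g, Φ (a ^ j * g) = Φ g + j * σ := by
    intro j g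
    induction j with
    | zero => simp
    | succ j ih =>
      rw [pow_succ', mul_assoc, hΦ, ih]
      push_cast
      ring
  have h2 : ∀ j : ℕ, ∀ᶠ g in μ.ae, g ∈ Y ↔ a ^ j * g ∈ Y := by
    intro j
    induction j with
    | zero => simp
    | succ j ih =>
      filter_upwards [ih, μ.ae_left hY (a ^ j)] with g h3 h4
      rw [pow_succ', mul_assoc]
      exact h3.trans h4
  have h3 : ∀ j : ℕ, μ.D (Y ∩ {g | a ^ j * g ∈ W}) = μ.D (Y ∩ W) := by
    intro j
    rw [← μ.left (a ^ j) (Y ∩ W)]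
    exact μ.congr_ae ((h2 j).mono fun g hg => and_congr_left' hg)
  have h4 := win_mean μ Y (fun j => {g | a ^ j * g ∈ W}) Q J fun g => by
    refine (win_count (Φ g) σ M A b Q J hσ hM hb (by linarith) (by linarith)).trans
      (Finset.card_le_card fun j hj => ?_)
    rw [Finset.mem_filter] at hj ⊢
    refine ⟨hj.1, ?_⟩
    change ∃ k : ℤ, A + k * M < Φ (a ^ j * g) ∧ Φ (a ^ j * g) ≤ A + b + k * M
    rw [h1]
    exact hj.2
  simp only [h3, Finset.sum_const, Finset.card_range, nsmul_eq_mul] at h4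
  have h5 : (b : ℝ) - σ ≤ σ * Q := by
    have : b - σ ≤ σ * Q := by linarith
    exact_mod_cast this
  have h6 : (σ : ℝ) * J ≤ M + σ := by
    have : σ * J ≤ M + σ := by linarith
    exact_mod_cast this
  calc ((b : ℝ) - σ) * μ.D Y ≤ σ * Q * μ.D Y := mul_le_mul_of_nonneg_right h5 (μ.nonneg _)
    _ = σ * (Q * μ.D Y) := mul_assoc _ _ _
    _ ≤ σ * (J * μ.D (Y ∩ W)) := mul_le_mul_of_nonneg_left h4 hσR.le
    _ = σ * J * μ.D (Y ∩ W) := (mul_assoc _ _ _).symm
    _ ≤ _ := mul_le_mul_of_nonneg_right h6 (μ.nonneg _)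

end Pool.Agent.MP_b3b911_al.VA

end
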