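import Mathlib
import Pool.Agent.MP_b3b911_al.Defs

section

/-! Virtually abelian groups: definitions. -/

namespace Pool.Agent.MP_b3b911_al.VA

open Filter Topology Pointwise

/-- the lattice -/
abbrev Zn (n : ℕ) : Type := Fin n → ℤ

/-- a normal lattice of index `N` in `G`, with the action `ρ` and the position cocycle `P` -/
structure Lat (G : Type*) [Group G] (n : ℕ) where
  ι : Zn n → G
  ρ : G →* Module.End ℤ (Zn n)
  P : G → Zn n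
  N : ℕ
  cl : G → Fin N
  rep : Fin N → G
  ι_add : ∀ v w, ι (v + w) = ι v * ι w
  conj : ∀ g v, g * ι v = ι (ρ g v) * g
  P_mul : ∀ g h, P (g * h) = P g + ρ g (P h)
  P_ι : ∀ v, P (ι v) = N • v
  pow_N : ∀ g, ∃ v, g ^ N = ι v
  cl_eq : ∀ g h, cl g = cl h ↔ ∃ v, h = ι v * g
  cl_rep : ∀ f, cl (rep f) = f

variable {G : Type*} [Group G] {n : ℕ}

/-- finite symmetric generating sets that contain `1` -/
structure Gen (T : Set G) : Prop where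
  fin : T.Finite
  one : (1 : G) ∈ T
  inv : ∀ s ∈ T, s⁻¹ ∈ T
  all : ∀ g, ∃ k, g ∈ T ^ k

/-- word length -/
noncomputable def len (T : Set G) (g : G) : ℕ := sInf {k | g ∈ T ^ k}

/-- two term expansion -/
def Two (d : ℕ) (f : ℕ → ℝ) (c e : ℝ) : Prop :=
  Tendsto (fun k : ℕ => (f k - c * (k : ℝ) ^ d) / (k : ℝ) ^ ((d : ℤ) - 1)) atTop (𝓝 e)

/-- quasi-polynomials -/
def QP (L r : ℕ) (f : ℕ → ℝ) : Prop :=
  ∀ a : ℕ, ∃ p : Polynomial ℝ, p.natDegree ≤ r ∧ ∀ᶠ k : ℕ in atTop, k % L = a → f k = p.eval (k : ℝ)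

/-- counting function -/
noncomputable def cnt (E : Set G) (l : G → ℕ) (k : ℕ) : ℕ := {g | g ∈ E ∧ l g ≤ k}.ncard

/-- feasible functionals -/
def Feas (C : Set (Zn n × ℕ)) (φ : Zn n →+ ℝ) : Prop := ∀ c ∈ C, φ c.1 ≤ c.2

/-- a map that raises the length by at most one and has a translation as a power -/
def Shift (L : Lat G n) (E : Set G) (l : G → ℕ) (φ : Zn n →+ ℝ) : Prop :=
  ∃ (T : G → G) (q : ℕ) (v : Zn n), Function.Injective T ∧ 0 < q ∧ φ v = q ∧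
    (∀ w g, T (L.ι w * g) = L.ι w * T g) ∧ (∀ g ∈ E, T g ∈ E ∧ l (T g) ≤ l g + 1) ∧
    ∀ g ∈ E, T^[q] g = L.ι v * g

/-- a length function governed by finitely many translations -/
structure Sys (L : Lat G n) (E : Set G) (l : G → ℕ) (C : Set (Zn n × ℕ)) : Prop where
  fin : C.Finite
  pos : ∀ c ∈ C, 0 < c.2
  step : ∀ c ∈ C, ∀ g ∈ E, L.ι c.1 * g ∈ E ∧ l (L.ι c.1 * g) ≤ l g + c.2
  gen : ∃ B : Set G, B.Finite ∧ ∀ g ∈ E, ∃ b ∈ B, ∃ x ∈ AddSubmonoid.closure C,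
    g = L.ι x.1 * b ∧ x.2 ≤ l g
  shift : ∀ φ : Zn n →+ ℝ, Feas C φ → (∃ c ∈ C, φ c.1 = c.2) → Shift L E l φ

/-- exact presentation with translations of equal weight `q` -/
structure Pres (L : Lat G n) (E : Set G) (l : G → ℕ) {m : ℕ} (c : Fin m → Zn n) (q : ℕ)
    (B : Finset G) : Prop where
  pos : 0 < q
  sub : ∀ b ∈ B, b ∈ E
  step : ∀ i, ∀ g ∈ E, L.ι (c i) * g ∈ E ∧ l (L.ι (c i) * g) ≤ l g + q
  gen : ∀ g ∈ E, ∃ b ∈ B, ∃ y : Fin m → ℕ, g = L.ι (∑ i, y i • c i) * b ∧ l g = l b + q * ∑ i, y i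
  shift : ∀ φ : Zn n →+ ℝ, (∀ i, φ (c i) ≤ q) → (∃ i, φ (c i) = q) → Shift L E l φ

/-- membership in `D` only depends on the truncation at level `R` -/
def Trunc {m : ℕ} (D : Set (Fin m → ℕ)) (R : ℕ) : Prop :=
  ∀ y y' : Fin m → ℕ, (∀ i, min (y i) R = min (y' i) R) → y ∈ D → y' ∈ D

/-- unique normal forms -/
structure Norm (L : Lat G n) (E : Set G) (l : G → ℕ) {m : ℕ} (c : Fin m → Zn n) (q : ℕ)
    (B : Finset G) (D : G → Set (Fin m → ℕ)) (R : ℕ) : Prop where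
  trunc : ∀ b, Trunc (D b) R
  val : ∀ b ∈ B, ∀ y ∈ D b, L.ι (∑ i, y i • c i) * b ∈ E ∧
    l (L.ι (∑ i, y i • c i) * b) = l b + q * ∑ i, y i
  ex : ∀ g ∈ E, ∃ b ∈ B, ∃ y ∈ D b, g = L.ι (∑ i, y i • c i) * b
  uniq : ∀ b ∈ B, ∀ y ∈ D b, ∀ b' ∈ B, ∀ y' ∈ D b',
    L.ι (∑ i, y i • c i) * b = L.ι (∑ i, y' i • c i) * b' → b = b' ∧ y = y'

/-- short cycles at the states in `U` -/
def Cyc (L : Lat G n) (T U : Set G) : Set (Zn n × ℕ) :=
  {c | 0 < c.2 ∧ c.2 ≤ 2 * L.N ∧ ∃ u ∈ U, ∃ v, c.1 = L.ρ u v ∧ L.ι v ∈ T ^ c.2}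

/-- words of length `k` with a letter that acts nontrivially -/
def W1 (L : Lat G n) (T : Set G) (k : ℕ) : Set G :=
  {g | ∃ (a b : ℕ) (x s y : G), a + 1 + b = k ∧ x ∈ T ^ a ∧ s ∈ T ∧ L.ρ s ≠ 1 ∧ y ∈ T ^ b ∧
    g = x * s * y}

/-- length in such words -/
noncomputable def len1 (L : Lat G n) (T : Set G) (g : G) : ℕ := sInf {k | g ∈ W1 L T k}

/-- the letters that act trivially -/
def T0 (L : Lat G n) (T : Set G) : Set G := {s | s ∈ T ∧ L.ρ s = 1}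

/-- the subgroup they generate -/
def E0 (L : Lat G n) (T : Set G) : Set G := {g | ∃ k, g ∈ T0 L T ^ k}

/-- the condition of the classification -/
def Good (L : Lat G n) : Prop :=
  (∀ g h, L.ρ g ≠ 1 → L.ρ h ≠ 1 → L.ρ (g * h) = 1) ∧
    ((∀ g, L.ρ g ≠ 1 → L.ρ g = -1) ∨ ∀ g h, L.ρ g = 1 → L.ρ h = 1 → g * h = h * g)

/-- vertices of the feasible set -/
def Vert (C : Set (Zn n × ℕ)) : Set (Zn n →+ ℝ) :=
  {φ | Feas C φ ∧ ∀ η : Zn n →+ ℝ, (∀ c ∈ C, φ c.1 = c.2 → η c.1 = 0) → η = 0}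

/-- `a` lies in the cone spanned by the tight vectors -/
def Rep (C : Set (Zn n × ℕ)) (φ : Zn n →+ ℝ) (a : Zn n) : Prop :=
  ∃ (s : Finset (Zn n × ℕ)) (x : Zn n × ℕ → ℝ), (∀ c ∈ s, c ∈ C ∧ φ c.1 = c.2 ∧ 0 ≤ x c) ∧
    ∀ η : Zn n →+ ℝ, η a = ∑ c ∈ s, x c * η c.1

/-- the region where `φ` is the largest feasible functional -/
def Reg (L : Lat G n) (T : Set G) (φ : Zn n →+ ℝ) : Set G :=
  {g | ∀ η, Feas (Cyc L T Set.univ) η → η (L.P g) ≤ φ (L.P g)}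

/-- invariant means -/
structure Mean (G : Type*) [Group G] where
  D : Set G → ℝ
  nonneg : ∀ X, 0 ≤ D X
  add : ∀ X Y, Disjoint X Y → D (X ∪ Y) = D X + D Y
  univ : D Set.univ = 1
  left : ∀ g X, D ((fun x => g * x) ⁻¹' X) = D X
  right : ∀ g X, D ((fun x => x * g) ⁻¹' X) = D X
  inv : ∀ X, D ((fun x => x⁻¹) ⁻¹' X) = D X

namespace Mean

variable (μ : Mean G)

theorem mono {X Y : Set G} (h : X ⊆ Y) : μ.D X ≤ μ.D Y := by
  have := μ.add X (Y \ X) Set.disjoint_sdiff_right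
  rw [Set.union_sdiff_cancel h] at this
  linarith [μ.nonneg (Y \ X)]

theorem union_le (X Y : Set G) : μ.D (X ∪ Y) ≤ μ.D X + μ.D Y := by
  have := μ.add X (Y \ X) Set.disjoint_sdiff_right
  rw [Set.union_sdiff_self] at this
  linarith [μ.mono (Set.sdiff_subset (s := Y) (t := X))]

theorem empty : μ.D ∅ = 0 := by
  have := μ.add ∅ ∅ (Set.disjoint_empty _)
  rw [Set.union_self] at this
  linarith

/-- the filter of sets of full mean -/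
def ae : Filter G where
  sets := {X | μ.D Xᶜ = 0}
  univ_sets := by simpa using μ.empty
  sets_of_superset := fun {X Y} hX h => le_antisymm
    ((μ.mono (Set.compl_subset_compl.2 h)).trans (le_of_eq hX)) (μ.nonneg _)
  inter_sets := fun {X Y} hX hY => le_antisymm (by
    have h1 : μ.D Xᶜ = 0 := hX
    have h2 : μ.D Yᶜ = 0 := hY
    rw [Set.compl_inter]
    linarith [μ.union_le Xᶜ Yᶜ]) (μ.nonneg _)

/-- the length is equidistributed modulo `p` in `Y` -/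
def Eqd (l : G → ℕ) (p : ℕ) (Y : Set G) : Prop :=
  ∀ r < p, p * μ.D (Y ∩ {g | l g % p = r}) = μ.D Y

end Mean

/-- an invariant form and a generic vector -/
structure Geo (L : Lat G n) where
  B : Zn n →+ Zn n →+ ℤ
  c0 : Zn n
  symm : ∀ x y, B x y = B y x
  inv : ∀ g x y, B (L.ρ g x) (L.ρ g y) = B x y
  pos : ∀ x, x ≠ 0 → 0 < B x x
  fin : ∀ E : ℤ, {x | B x x ≤ E}.Finite
  ne : c0 ≠ 0
  gen1 : ∀ g, L.ρ g c0 = c0 → L.ρ g = 1
  gen2 : ∀ g, L.ρ g c0 = -c0 → L.ρ g = -1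

variable {L : Lat G n}

/-- the nodes -/
def Geo.O (Γ : Geo L) : Set (Zn n) := {c | ∃ g, c = L.ρ g Γ.c0 ∨ c = -L.ρ g Γ.c0}

/-- paths of letters allowed by `Tp`, starting at the node `c` -/
def Path (L : Lat G n) (Tp : G → Zn n → Prop) : Zn n → List G → Prop
  | _, [] => True
  | c, t :: l => Tp t c ∧ Path L Tp (L.ρ t⁻¹ c) l

/-- the cost of a word that starts at the node `c` -/
def cost (L : Lat G n) (d : G → Zn n → ℕ) : Zn n → List G → ℕ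
  | _, [] => 0
  | c, s :: l => d s c + cost L d (L.ρ s⁻¹ c) l

/-- a table of free letters and of costs -/
structure Des (Γ : Geo L) where
  Tp : G → Zn n → Prop
  Z : Zn n → Zn n
  Pi : Zn n → G → Zn n
  z : ℤ
  df : G → Zn n → ℕ
  nx : Zn n → G
  tfin : {t | ∃ c, Tp t c}.Finite
  tO : ∀ t c, Tp t c → c ∈ Γ.O
  tinv : ∀ t c, Tp t c → Tp t⁻¹ (-L.ρ t⁻¹ c)
  hz : ∀ α ∈ Γ.O, Γ.B α (Z α) = z
  coc : ∀ t c u, Tp t c → L.ρ u (L.P t) = Z (L.ρ u c) + Pi (L.ρ u c) (u * t) - Pi (L.ρ u c) u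
  Pi_cl : ∀ α v u, Pi α (L.ι v * u) = Pi α u
  cyc : ∀ α ∈ Γ.O, ∃ (u : G) (l : List G) (v : Zn n), 0 < l.length ∧ l.length ≤ 2 * L.N ∧
    Path L Tp (L.ρ u⁻¹ α) l ∧ l.prod = L.ι v
  df_cl : ∀ v g c, df (L.ι v * g) c = df g c
  df_pos : ∀ g c, 1 ≤ df g c
  df_le : ∀ g c, df g c ≤ 3
  df_inv : ∀ g c, df g⁻¹ (-L.ρ g⁻¹ c) = df g c
  nx_tp : ∀ t c, Tp t c → Tp (nx c) c ∧ ∃ t', Tp t' (L.ρ (nx c)⁻¹ c)
  nx_inj : ∀ t c t' c', Tp t c → Tp t' c' → L.ρ (nx c)⁻¹ c = L.ρ (nx c')⁻¹ c' → c = c'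

namespace Des

variable {Γ : Geo L} (Δ : Des Γ)

open Classical in
/-- the cost of a letter at a node -/
noncomputable def dT (s : G) (c : Zn n) : ℕ :=
  if ∃ t, Δ.Tp t c ∧ L.cl s = L.cl t then 0 else Δ.df s c

/-- nodes without free letters -/
def NT (c : Zn n) : Prop := ∀ t, ¬ Δ.Tp t c

open Classical in
/-- the costs depend on the length modulo `p` -/
def Osc (p r : ℕ) : Prop :=
  2 ≤ p ∧ r < p ∧ (∃ α ∈ Γ.O, Δ.NT α) ∧ ∀ α ∈ Γ.O, Δ.NT α → ∃ Dm Dp : Fin L.N → ℕ,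
    (∀ f, Dm f ≤ 6) ∧
    (∀ l : List G, 6 ≤ l.length → (l.length + 1) % p = r → Δ.NT (L.ρ l.prod⁻¹ α) →
      Dm (L.cl l.prod) ≤ cost L Δ.dT α l) ∧
    (∀ (j : ℕ) (g : G), 6 ≤ j → (j + 2) % p = r → Δ.NT (L.ρ g⁻¹ α) →
      ∃ (r₁ r₂ : G) (l : List G), l.length = j ∧ Path L Δ.Tp (L.ρ r₁⁻¹ α) l ∧
        L.cl (r₁ * l.prod * r₂) = L.cl g ∧
        Δ.df r₁ α + Δ.df r₂ (L.ρ (r₁ * l.prod)⁻¹ α) ≤ Dp (L.cl g)) ∧
    ∑ f with Δ.NT (L.ρ (L.rep f)⁻¹ α), Dp f < ∑ f with Δ.NT (L.ρ (L.rep f)⁻¹ α), Dm f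

/-- what is used of the generating set attached to a table -/
structure Out (T : Set G) (K m ω e : ℤ) (φ : Zn n → Zn n →+ ℝ) : Prop where
  gen : Gen T
  hm : m = L.N * K * Γ.B Γ.c0 Γ.c0 + Δ.z
  e0 : 0 ≤ e
  ω0 : 4 * L.N * (e + L.N * Γ.B Γ.c0 Γ.c0) < ω
  m0 : 8 * ω ≤ m
  hφ : ∀ α x, φ α x = L.N * Γ.B α x / m
  vert : ∀ α ∈ Γ.O, φ α ∈ Vert (Cyc L T Set.univ)
  cls : ∀ ψ ∈ Vert (Cyc L T Set.univ), (∃ v, L.ι v ∈ T ∧ ψ v = 1) ∨ ∃ α ∈ Γ.O, ψ = φ α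
  top : ∀ t c, Δ.Tp t c → L.ι (K • c) * t ∈ T
  low : ∀ α ∈ Γ.O, ∀ l : List G, (∀ s ∈ l, s ∈ T) →
    Γ.B α (L.P l.prod) ≤ l.length * m - ω * cost L Δ.dT α l + e
  up : ∀ α ∈ Γ.O, ∀ (g r₁ r₂ : G) (l : List G),
    Rep (Cyc L T Set.univ) (φ α) (L.P (L.ι (-(2 * K) • α) * g)) → Path L Δ.Tp (L.ρ r₁⁻¹ α) l →
    L.cl (r₁ * l.prod * r₂) = L.cl g → ((l.length : ℤ) - 2) * m ≤ Γ.B α (L.P g) →
    Γ.B α (L.P g) ≤ (l.length + 2) * m -
      ω * (Δ.df r₁ α + Δ.df r₂ (L.ρ (r₁ * l.prod)⁻¹ α) : ℕ) - e → g ∈ T ^ (l.length + 2)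

/-- the numerical parameters -/
structure Par where
  E1 : ℤ
  E2 : ℤ
  E3 : ℤ
  E4 : ℤ
  K1 : ℕ
  κ : ℕ
  h1 : ∀ α ∈ Γ.O, ∀ i, let w := Γ.B Γ.c0 Γ.c0 • Pi.single i 1 - Γ.B α (Pi.single i 1) • α
    Γ.B w w ≤ E1
  h10 : 0 ≤ E1
  h12 : E1 ≤ E2
  h2e : ∀ i, Γ.B (Pi.single i 1) (Pi.single i 1) ≤ E2
  h2t : ∀ t c, Δ.Tp t c → Γ.B (L.P t) (L.P t) ≤ E2
  h2Z : ∀ α ∈ Γ.O, Γ.B (Δ.Z α) (Δ.Z α) ≤ E2
  h2P : ∀ α ∈ Γ.O, ∀ u, Γ.B (Δ.Pi α u) (Δ.Pi α u) ≤ E2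
  h2r : ∀ (x : Zn n) f, (∀ i, |x i| ≤ E4) →
    Γ.B (L.P (L.ι x * L.rep f)) (L.P (L.ι x * L.rep f)) ≤ E2
  h3 : ∀ α ∈ Γ.O, ∀ x, Γ.B x x ≤ E2 → |Γ.B α x| ≤ E3
  h4 : ∀ α ∈ Γ.O, ∀ i u u' u'' f f', ∑ w ∈ (Γ.fin E1).toFinset, |w i| + |α i| + 5 * |Δ.Z α i| +
    |Δ.Pi α u i| + |Δ.Pi α u' i| + |L.P (L.rep f) i| + |L.ρ u'' (L.P (L.rep f')) i| ≤ E4
  hK : 5 * Γ.B Γ.c0 Γ.c0 + 5 * E3 + 5 ≤ K1
  hκ : 20 * (K1 + 1) ≤ κ
  hκ' : 200 * L.N * (E3 + L.N * Γ.B Γ.c0 Γ.c0) < κ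

variable {Δ} (π : Δ.Par)

/-- the height of the bumps -/
def Par.K : ℤ := 2 * π.K1 * π.κ

/-- vectors of the letters in the lattice -/
def Par.loops : Set (Zn n) :=
  {v | Γ.B v v ≤ π.E2 ∨ (∃ x, Γ.B x x ≤ π.E2 ∧ v = π.κ • x) ∨
    ∃ c ∈ Γ.O, ∃ c' ∈ Γ.O, c ≠ c' ∧ v = ((π.K1 + 1) * π.κ) • (c + c')}

/-- the top of a bump -/
def Par.th (c : Zn n) : Set (Zn n) := {v | ∃ w, Γ.B w w ≤ π.E1 ∧ Γ.B c w = 0 ∧ v = π.K • c + w}

/-- the top and the axis of a bump -/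
def Par.th' (c : Zn n) : Set (Zn n) := π.th c ∪ {v | ∃ i : ℤ, 0 ≤ i ∧ i ≤ π.K ∧ v = i • c}

/-- the generating set -/
def Par.T : Set G :=
  {s | (∃ v ∈ π.loops, s = L.ι v) ∨ (∃ t c, Δ.Tp t c ∧ ∃ v ∈ π.th' c, s = L.ι v * t) ∨
    ∃ r, Γ.B (L.P r) (L.P r) ≤ π.E2 ∧ ∃ c ∈ Γ.O, s = L.ι ((π.K - Δ.df r c * π.κ) • c) * r}

/-- the rate -/
def Par.m : ℤ := L.N * π.K * Γ.B Γ.c0 Γ.c0 + Δ.z

/-- the unit of cost -/
def Par.ω : ℤ := L.N * π.κ * Γ.B Γ.c0 Γ.c0 - 4 * π.E3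

/-- the functional of a bump -/
noncomputable def Par.φ (α : Zn n) : Zn n →+ ℝ where
  toFun x := L.N * Γ.B α x / π.m
  map_zero' := by simp
  map_add' x y := by simp [mul_add, add_div]

/-- `a` is a sum of `k` vectors from the top of the bump at `α` -/
def Par.Sum (α : Zn n) (a : Zn n) (k : ℕ) : Prop :=
  ∃ l : List (Zn n), l.length = k ∧ (∀ v ∈ l, v ∈ π.th α) ∧
    L.N • a = (l.map fun v => L.N • v + Δ.Z α).sum

end Des

end Pool.Agent.MP_b3b911_al.VA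

end

section

/-! Virtually abelian groups: basic facts on lattices and word length. -/

namespace Pool.Agent.MP_b3b911_al.VA

open Filter Topology Pointwise

variable {G : Type*} [Group G] {n : ℕ}

namespace Lat

variable (L : Lat G n)

@[simp] theorem ι_zero : L.ι 0 = 1 := by
  have h := L.ι_add 0 0
  rw [add_zero] at h
  exact (mul_eq_left.1 h.symm)

theorem ι_neg (v : Zn n) : L.ι (-v) = (L.ι v)⁻¹ := by
  have h := L.ι_add (-v) v
  rw [neg_add_cancel, ι_zero] at h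
  exact eq_inv_of_mul_eq_one_left h.symm

theorem ι_nsmul (k : ℕ) (v : Zn n) : L.ι (k • v) = L.ι v ^ k := by
  induction k with
  | zero => simp
  | succ k ih => rw [succ_nsmul, L.ι_add, ih, pow_succ]

theorem ι_comm (v w : Zn n) : L.ι v * L.ι w = L.ι w * L.ι v := by
  rw [← L.ι_add, ← L.ι_add, add_comm]

theorem ι_mul_ι_mul (v w : Zn n) (g : G) : L.ι v * (L.ι w * g) = L.ι (v + w) * g := by
  rw [L.ι_add, mul_assoc]

theorem N_pos : 0 < L.N := (L.cl 1).pos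

theorem nsmul_inj {v w : Zn n} (h : L.N • v = L.N • w) : v = w := by
  funext i
  have := congrFun h i
  simp only [Pi.smul_apply, nsmul_eq_mul] at this
  exact mul_left_cancel₀ (by exact_mod_cast L.N_pos.ne') this

theorem ι_inj {v w : Zn n} (h : L.ι v = L.ι w) : v = w := by
  apply L.nsmul_inj
  rw [← L.P_ι, ← L.P_ι, h]

@[simp] theorem ρ_ι (v : Zn n) : L.ρ (L.ι v) = 1 := by
  refine LinearMap.ext fun w => ?_
  have h := L.conj (L.ι v) w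
  rw [L.ι_comm] at h
  exact (L.ι_inj (mul_right_cancel h)).symm

theorem ρ_mul_apply (g h : G) (v : Zn n) : L.ρ (g * h) v = L.ρ g (L.ρ h v) := by
  rw [map_mul]; rfl

@[simp] theorem ρ_one_apply (v : Zn n) : L.ρ 1 v = v := by rw [map_one]; rfl

@[simp] theorem ρ_inv_apply (g : G) (v : Zn n) : L.ρ g⁻¹ (L.ρ g v) = v := by
  rw [← ρ_mul_apply, inv_mul_cancel, ρ_one_apply]

@[simp] theorem ρ_apply_inv (g : G) (v : Zn n) : L.ρ g (L.ρ g⁻¹ v) = v := by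
  rw [← ρ_mul_apply, mul_inv_cancel, ρ_one_apply]

theorem ρ_ι_mul (v : Zn n) (g : G) : L.ρ (L.ι v * g) = L.ρ g := by
  rw [map_mul, ρ_ι, one_mul]

theorem ρ_mul_ι (v : Zn n) (g : G) : L.ρ (g * L.ι v) = L.ρ g := by
  rw [map_mul, ρ_ι, mul_one]

theorem ρ_inv_congr {g h : G} (e : L.ρ g = L.ρ h) : L.ρ g⁻¹ = L.ρ h⁻¹ := by
  refine LinearMap.ext fun w => ?_
  have : L.ρ g⁻¹ (L.ρ g (L.ρ h⁻¹ w)) = L.ρ h⁻¹ w := L.ρ_inv_apply _ _
  rwa [e, ρ_apply_inv] at this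

theorem ρ_inv_eq_one {g : G} : L.ρ g⁻¹ = 1 ↔ L.ρ g = 1 := by
  constructor
  · intro h
    have := L.ρ_inv_congr (g := g⁻¹) (h := 1) (by rw [h, map_one])
    simpa using this
  · intro h
    have := L.ρ_inv_congr (g := g) (h := 1) (by rw [h, map_one])
    simpa using this

theorem conj' (g : G) (v : Zn n) : L.ι v * g = g * L.ι (L.ρ g⁻¹ v) := by
  rw [L.conj, ρ_apply_inv]

theorem mul_ι_mul (u : G) (v : Zn n) (g : G) : u * (L.ι v * g) = L.ι (L.ρ u v) * (u * g) := by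
  rw [← mul_assoc, L.conj, mul_assoc]

theorem inv_ι_mul (v : Zn n) (g : G) : (L.ι v * g)⁻¹ = L.ι (-L.ρ g⁻¹ v) * g⁻¹ := by
  rw [mul_inv_rev, ← ι_neg, L.conj, map_neg]

@[simp] theorem P_one : L.P 1 = 0 := by
  have := L.P_ι 0
  simpa using this

theorem P_inv (g : G) : L.P g⁻¹ = -L.ρ g⁻¹ (L.P g) := by
  have := L.P_mul g⁻¹ g
  rw [inv_mul_cancel, P_one] at this
  exact eq_neg_of_add_eq_zero_left this.symm

theorem P_ι_mul (v : Zn n) (g : G) : L.P (L.ι v * g) = L.N • v + L.P g := by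
  rw [L.P_mul, L.P_ι, ρ_ι]; rfl

theorem P_mul_ι (g : G) (v : Zn n) : L.P (g * L.ι v) = L.P g + L.N • L.ρ g v := by
  rw [L.P_mul, L.P_ι, map_nsmul]

theorem P_pow {g : G} (h : L.ρ g = 1) (k : ℕ) : L.P (g ^ k) = k • L.P g := by
  induction k with
  | zero => simp
  | succ k ih => rw [pow_succ', L.P_mul, ih, h, succ_nsmul']; rfl

theorem pow_N_eq {g : G} (h : L.ρ g = 1) : g ^ L.N = L.ι (L.P g) := by
  obtain ⟨v, hv⟩ := L.pow_N g
  have := L.P_pow h L.N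
  rw [hv, L.P_ι] at this
  rw [hv, L.nsmul_inj this]

theorem cl_ι_mul (v : Zn n) (g : G) : L.cl (L.ι v * g) = L.cl g :=
  ((L.cl_eq g _).2 ⟨v, rfl⟩).symm

theorem cl_mul_ι (g : G) (v : Zn n) : L.cl (g * L.ι v) = L.cl g := by
  rw [L.conj, cl_ι_mul]

theorem cl_mul_left {g h : G} (e : L.cl g = L.cl h) (u : G) : L.cl (u * g) = L.cl (u * h) := by
  obtain ⟨v, rfl⟩ := (L.cl_eq _ _).1 e
  rw [mul_ι_mul, cl_ι_mul]

theorem cl_mul_right {g h : G} (e : L.cl g = L.cl h) (u : G) : L.cl (g * u) = L.cl (h * u) := by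
  obtain ⟨v, rfl⟩ := (L.cl_eq _ _).1 e
  rw [mul_assoc, cl_ι_mul]

theorem cl_mul {g h g' h' : G} (e : L.cl g = L.cl g') (e' : L.cl h = L.cl h') :
    L.cl (g * h) = L.cl (g' * h') := (L.cl_mul_left e' g).trans (L.cl_mul_right e h')

theorem cl_inv {g h : G} (e : L.cl g = L.cl h) : L.cl g⁻¹ = L.cl h⁻¹ := by
  obtain ⟨v, rfl⟩ := (L.cl_eq _ _).1 e
  rw [inv_ι_mul, cl_ι_mul]

theorem cl_mul_left_iff (u g h : G) : L.cl (u * g) = L.cl (u * h) ↔ L.cl g = L.cl h :=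
  ⟨fun e => by simpa using L.cl_mul_left e u⁻¹, fun e => L.cl_mul_left e u⟩

theorem cl_mul_right_iff (u g h : G) : L.cl (g * u) = L.cl (h * u) ↔ L.cl g = L.cl h :=
  ⟨fun e => by simpa using L.cl_mul_right e u⁻¹, fun e => L.cl_mul_right e u⟩

theorem cl_inv_iff (g h : G) : L.cl g⁻¹ = L.cl h⁻¹ ↔ L.cl g = L.cl h :=
  ⟨fun e => by simpa using L.cl_inv e, fun e => L.cl_inv e⟩

theorem cl_eq_one {g : G} : L.cl g = L.cl 1 ↔ ∃ v, g = L.ι v := by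
  rw [eq_comm, L.cl_eq]; simp

theorem ρ_of_cl {g h : G} (e : L.cl g = L.cl h) : L.ρ g = L.ρ h := by
  obtain ⟨v, rfl⟩ := (L.cl_eq _ _).1 e
  rw [ρ_ι_mul]

theorem exists_rep (g : G) : ∃ v, g = L.ι v * L.rep (L.cl g) :=
  (L.cl_eq _ _).1 (L.cl_rep _)

theorem ρ_rep (g : G) : L.ρ (L.rep (L.cl g)) = L.ρ g := L.ρ_of_cl (L.cl_rep _)

theorem eq_of_cl_P {g h : G} (e : L.cl g = L.cl h) (e' : L.P g = L.P h) : g = h := by
  obtain ⟨v, rfl⟩ := (L.cl_eq _ _).1 e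
  rw [P_ι_mul] at e'
  have : L.N • v = L.N • (0 : Zn n) := by
    rw [smul_zero]; exact left_eq_add.1 (by rw [add_comm] at e'; exact e')
  rw [L.nsmul_inj this, ι_zero, one_mul]

theorem finite_P {S : Set (Zn n)} (hS : S.Finite) : {g | L.P g ∈ S}.Finite := by
  have : Function.Injective fun g => (L.cl g, L.P g) := fun g h e =>
    L.eq_of_cl_P (congrArg Prod.fst e) (congrArg Prod.snd e)
  exact ((Set.finite_univ.prod hS).preimage this.injOn).subset fun g hg => ⟨trivial, hg⟩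

/-- class functions have finite range -/
theorem finite_range {X : Type*} (F : G → X) (hF : ∀ v g, F (L.ι v * g) = F g) :
    (Set.range F).Finite := by
  refine (Set.finite_range fun f => F (L.rep f)).subset ?_
  rintro _ ⟨g, rfl⟩
  obtain ⟨v, hv⟩ := L.exists_rep g
  exact ⟨L.cl g, (hF v _).symm.trans (congrArg F hv.symm)⟩

theorem finite_ρ : (Set.range L.ρ).Finite := L.finite_range _ L.ρ_ι_mul

theorem finite_orbit (x : Zn n) : (Set.range fun g => L.ρ g x).Finite :=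
  L.finite_range _ fun v g => by rw [ρ_ι_mul]

/-- commuting in the kernel of the action can be read off from the classes -/
theorem comm_of_cl {a b : G} (ha : L.ρ a = 1) (hb : L.ρ b = 1)
    (e : L.cl (a * b) = L.cl (b * a)) : a * b = b * a := by
  refine L.eq_of_cl_P e ?_
  rw [L.P_mul, L.P_mul, ha, hb, add_comm]; rfl

theorem infinite (L : Lat G n) (hn : 0 < n) : Infinite G := by
  have : Nonempty (Fin n) := ⟨⟨0, hn⟩⟩
  exact Infinite.of_injective L.ι fun _ _ h => L.ι_inj h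

end Lat

theorem mem_pow_iff_list {T : Set G} {k : ℕ} {g : G} :
    g ∈ T ^ k ↔ ∃ l : List G, l.length = k ∧ (∀ s ∈ l, s ∈ T) ∧ l.prod = g := by
  induction k generalizing g with
  | zero =>
    simp only [pow_zero, Set.mem_one, List.length_eq_zero_iff]
    constructor
    · rintro rfl; exact ⟨[], rfl, by simp, rfl⟩
    · rintro ⟨l, rfl, -, h⟩; simpa using h.symm
  | succ k ih =>
    rw [pow_succ']
    constructor
    · rintro ⟨a, ha, b, hb, rfl⟩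
      obtain ⟨l, h1, h2, rfl⟩ := ih.1 hb
      refine ⟨a :: l, by simp [h1], ?_, by simp⟩
      intro s hs
      rcases List.mem_cons.1 hs with rfl | hs
      exacts [ha, h2 s hs]
    · rintro ⟨l, h1, h2, rfl⟩
      cases l with
      | nil => simp at h1
      | cons a l =>
        exact ⟨a, h2 a (by simp), l.prod,
          ih.2 ⟨l, by simpa using h1, fun s hs => h2 s (by simp [hs]), rfl⟩, by simp⟩

theorem prod_mem_pow {T : Set G} {l : List G} (h : ∀ s ∈ l, s ∈ T) : l.prod ∈ T ^ l.length :=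
  mem_pow_iff_list.2 ⟨l, rfl, h, rfl⟩

theorem mul_mem_pow {T : Set G} {a b : ℕ} {x y : G} (hx : x ∈ T ^ a) (hy : y ∈ T ^ b) :
    x * y ∈ T ^ (a + b) := by
  rw [pow_add]; exact Set.mul_mem_mul hx hy

theorem pow_mem_pow' {T : Set G} {a : ℕ} {x : G} (hx : x ∈ T ^ a) (k : ℕ) :
    x ^ k ∈ T ^ (k * a) := by
  induction k with
  | zero => simp
  | succ k ih => rw [pow_succ, Nat.succ_mul]; exact mul_mem_pow ih hx

theorem mem_pow_add {T : Set G} {a b : ℕ} {g : G} (h : g ∈ T ^ (a + b)) :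
    ∃ x ∈ T ^ a, ∃ y ∈ T ^ b, x * y = g := by
  rw [pow_add] at h; exact h

theorem mem_pow_mono {T : Set G} (h1 : (1 : G) ∈ T) {a b : ℕ} (hab : a ≤ b) {g : G}
    (h : g ∈ T ^ a) : g ∈ T ^ b := Set.pow_subset_pow_right h1 hab h

theorem inv_mem_pow {T : Set G} (hi : ∀ s ∈ T, s⁻¹ ∈ T) {k : ℕ} {g : G} (h : g ∈ T ^ k) :
    g⁻¹ ∈ T ^ k := by
  induction k generalizing g with
  | zero => simpa using h
  | succ k ih =>
    rw [pow_succ] at h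
    obtain ⟨a, ha, b, hb, rfl⟩ := h
    rw [pow_succ']
    exact ⟨b⁻¹, hi b hb, a⁻¹, ih ha, by simp⟩

theorem finite_pow {T : Set G} (hT : T.Finite) (k : ℕ) : (T ^ k).Finite := by
  induction k with
  | zero => simp
  | succ k ih => rw [pow_succ]; exact ih.mul hT

theorem len_le {T : Set G} {k : ℕ} {g : G} (h : g ∈ T ^ k) : len T g ≤ k := Nat.sInf_le h

theorem mem_pow_len {T : Set G} {g : G} (h : ∃ k, g ∈ T ^ k) : g ∈ T ^ len T g :=
  Nat.sInf_mem (s := {k | g ∈ T ^ k}) h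

namespace Gen

variable {T : Set G} (hT : Gen T)
include hT

theorem mem_len (g : G) : g ∈ T ^ len T g := mem_pow_len (hT.all g)

theorem mem_pow_iff {k : ℕ} {g : G} : g ∈ T ^ k ↔ len T g ≤ k :=
  ⟨len_le, fun h => mem_pow_mono hT.one h (hT.mem_len g)⟩

theorem len_mul_le (g h : G) : len T (g * h) ≤ len T g + len T h :=
  len_le (mul_mem_pow (hT.mem_len g) (hT.mem_len h))

theorem len_inv (g : G) : len T g⁻¹ = len T g := by
  have : ∀ g : G, len T g⁻¹ ≤ len T g := fun g => len_le (inv_mem_pow hT.inv (hT.mem_len g))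
  exact le_antisymm (this g) (by simpa using this g⁻¹)

theorem len_le_one {s : G} (hs : s ∈ T) : len T s ≤ 1 := len_le (by simpa using hs)

theorem len_mul_letter (g : G) {s : G} (hs : s ∈ T) : len T (g * s) ≤ len T g + 1 :=
  (hT.len_mul_le g s).trans (Nat.add_le_add_left (hT.len_le_one hs) _)

theorem len_letter_mul (g : G) {s : G} (hs : s ∈ T) : len T (s * g) ≤ len T g + 1 :=
  (hT.len_mul_le s g).trans (by have := hT.len_le_one hs; omega)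

theorem ball_eq (k : ℕ) : {g | g ∈ Set.univ ∧ len T g ≤ k} = T ^ k := by
  ext g; simp [hT.mem_pow_iff]

theorem finite_ball (k : ℕ) : {g | len T g ≤ k}.Finite :=
  (finite_pow hT.fin k).subset fun _ hg => hT.mem_pow_iff.2 hg

end Gen

/-- the symmetric set attached to a finite set -/
def TS (S : Finset G) : Set G := {x | x = 1 ∨ x ∈ S ∨ x⁻¹ ∈ S}

theorem gen_TS {S : Finset G} (hS : Subgroup.closure (S : Set G) = ⊤) : Gen (TS S) where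
  fin := by
    refine (((Set.finite_singleton (1 : G)).union S.finite_toSet).union
      S.finite_toSet.inv).subset ?_
    rintro x (h | h | h)
    · exact Or.inl (Or.inl h)
    · exact Or.inl (Or.inr h)
    · exact Or.inr h
  one := Or.inl rfl
  inv := by
    rintro x (h | h | h)
    · exact Or.inl (by simp [h])
    · exact Or.inr (Or.inr (by simpa using h))
    · exact Or.inr (Or.inl h)
  all := by
    intro g
    have hg : g ∈ Subgroup.closure (S : Set G) := by rw [hS]; trivial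
    induction hg using Subgroup.closure_induction'' with
    | one => exact ⟨0, by simp⟩
    | mem x hx => exact ⟨1, by rw [pow_one]; exact Or.inr (Or.inl hx)⟩
    | inv_mem x hx => exact ⟨1, by rw [pow_one]; exact Or.inr (Or.inr (by simpa using hx))⟩
    | mul x y _ _ hx hy =>
      obtain ⟨a, ha⟩ := hx
      obtain ⟨b, hb⟩ := hy
      exact ⟨a + b, mul_mem_pow ha hb⟩

theorem growth_eq_cnt {S : Finset G} (hS : Subgroup.closure (S : Set G) = ⊤) (k : ℕ) :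
    growth S k = cnt Set.univ (len (TS S)) k := by
  classical
  unfold growth cnt
  rw [(gen_TS hS).ball_eq]
  congr 1
  ext g
  constructor
  · rintro ⟨l, h1, h2, rfl⟩
    exact mem_pow_mono (gen_TS hS).one h1 (prod_mem_pow (T := TS S) fun s hs => Or.inr (h2 s hs))
  · intro h
    obtain ⟨l, h1, h2, rfl⟩ := mem_pow_iff_list.1 h
    refine ⟨l.filter (· ≠ 1), (List.length_filter_le _ _).trans h1.le, ?_, ?_⟩
    · intro x hx
      rw [List.mem_filter] at hx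
      rcases h2 x hx.1 with h | h
      · simp [h] at hx
      · exact h
    · clear h h1 h2
      induction l with
      | nil => simp
      | cons a l ih =>
        by_cases ha : a = 1
        · simpa [List.filter_cons, ha] using ih
        · simpa [List.filter_cons, ha] using ih

theorem Gen.exists_finset {T : Set G} (hT : Gen T) :
    ∃ S : Finset G, Subgroup.closure (S : Set G) = ⊤ ∧ TS S = T := by
  refine ⟨hT.fin.toFinset, ?_, ?_⟩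
  · rw [eq_top_iff]
    intro g _
    obtain ⟨l, -, h2, rfl⟩ := mem_pow_iff_list.1 (hT.mem_len g)
    exact Subgroup.list_prod_mem _ fun s hs => Subgroup.subset_closure (by simpa using h2 s hs)
  · ext x
    simp only [TS, Set.Finite.mem_toFinset, Set.mem_ofPred_eq]
    constructor
    · rintro (rfl | h | h)
      exacts [hT.one, h, by simpa using hT.inv _ h]
    · exact fun h => Or.inr (Or.inl h)

theorem finite_Cyc (L : Lat G n) {T : Set G} (hT : T.Finite) (U : Set G) : (Cyc L T U).Finite := by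
  have h1 : ∀ k : ℕ, {v | L.ι v ∈ T ^ k}.Finite := fun k =>
    (finite_pow hT k).preimage fun _ _ _ _ h => L.ι_inj h
  have h2 : (⋃ k ∈ Set.Iic (2 * L.N), ⋃ v ∈ {v | L.ι v ∈ T ^ k},
      (fun x => (x, k)) '' (Set.range fun g => L.ρ g v)).Finite :=
    (Set.finite_Iic _).biUnion fun k _ => (h1 k).biUnion fun v _ => (L.finite_orbit v).image _
  refine h2.subset ?_
  rintro ⟨x, k⟩ ⟨-, hk, u, -, v, hx, hv⟩
  simp only [Set.mem_iUnion]
  exact ⟨k, hk, v, hv, x, ⟨u, hx.symm⟩, rfl⟩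

/-- removal of cycles from a word -/
theorem cyc_remove (L : Lat G n) {T U : Set G}
    (hU : ∀ k, ∀ x ∈ T ^ k, ∃ u ∈ U, L.ρ u = L.ρ x) (k : ℕ) (g : G) (hg : g ∈ T ^ k) :
    ∃ j < L.N, ∃ b ∈ T ^ j, ∃ x ∈ AddSubmonoid.closure (Cyc L T U),
      g = L.ι x.1 * b ∧ x.2 + j = k := by
  induction k using Nat.strong_induction_on generalizing g with
  | _ k ih =>
  by_cases hk : k < L.N
  · exact ⟨k, hk, g, hg, 0, zero_mem _, by simp, by simp⟩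
  obtain ⟨l, hl, hT, rfl⟩ := mem_pow_iff_list.1 hg
  obtain ⟨i, j, hij, e⟩ := Fintype.exists_ne_map_eq_of_card_lt
    (fun i : Fin (L.N + 1) => L.cl (l.take i).prod) (by simp)
  wlog h : (i : ℕ) < j generalizing i j
  · exact this j i hij.symm e.symm (by
      have : (i : ℕ) ≠ j := fun h => hij (Fin.ext h)
      omega)
  have hj : (j : ℕ) ≤ L.N := Nat.lt_succ_iff.1 j.2
  set A := l.take i
  set M := (l.drop i).take (j - i)
  set Z := l.drop j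
  have hAM : l.take j = A ++ M := by
    have : (j : ℕ) = i + (j - i) := by omega
    rw [this, List.take_add]
  have hl' : l = A ++ M ++ Z := by rw [← hAM, List.take_append_drop]
  have lA : A.length = i := by simp [A]; omega
  have lM : M.length = j - i := by simp [M]; omega
  have lZ : Z.length = k - j := by simp [Z, hl]
  have mA : ∀ s ∈ A, s ∈ T := fun s hs => hT s (List.mem_of_mem_take hs)
  have mM : ∀ s ∈ M, s ∈ T := fun s hs => hT s (List.mem_of_mem_drop (List.mem_of_mem_take hs))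
  have mZ : ∀ s ∈ Z, s ∈ T := fun s hs => hT s (List.mem_of_mem_drop hs)
  have e' : L.cl (A.prod * M.prod) = L.cl (A.prod * 1) := by
    rw [mul_one, ← List.prod_append, ← hAM]; exact e.symm
  obtain ⟨v, hv⟩ := L.cl_eq_one.1 ((L.cl_mul_left_iff _ _ _).1 e')
  obtain ⟨u, hu, hρ⟩ := hU _ _ (prod_mem_pow mA)
  obtain ⟨j', hj', b, hb, x, hx, h1, h2⟩ := ih (i + (k - j)) (by omega) (A.prod * Z.prod)
    (by rw [← lA, ← lZ]; exact mul_mem_pow (prod_mem_pow mA) (prod_mem_pow mZ))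
  refine ⟨j', hj', b, hb, (L.ρ u v, (j : ℕ) - (i : ℕ)) + x, add_mem (AddSubmonoid.subset_closure
    ⟨by simp; omega, by simp; omega, u, hu, v, rfl, ?_⟩) hx, ?_, ?_⟩
  · rw [← hv, ← lM]; exact prod_mem_pow mM
  · rw [hl', List.prod_append, List.prod_append, hv, mul_assoc, L.mul_ι_mul, h1, hρ,
      L.ι_mul_ι_mul]
    rfl
  · simp only [Prod.snd_add]; omega

theorem Feas.closure {C : Set (Zn n × ℕ)} {φ : Zn n →+ ℝ} (h : Feas C φ) {x : Zn n × ℕ}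
    (hx : x ∈ AddSubmonoid.closure C) : φ x.1 ≤ x.2 := by
  induction hx using AddSubmonoid.closure_induction with
  | mem c hc => exact h c hc
  | zero => simp
  | add x y _ _ hx hy => simp only [Prod.fst_add, Prod.snd_add, map_add, Nat.cast_add]; linarith

theorem Cyc_ρ (L : Lat G n) {T : Set G} {c : Zn n × ℕ} (h : c ∈ Cyc L T Set.univ) (g : G) :
    (L.ρ g c.1, c.2) ∈ Cyc L T Set.univ := by
  obtain ⟨h1, h2, u, -, v, h3, h4⟩ := h
  exact ⟨h1, h2, g * u, trivial, v, by rw [L.ρ_mul_apply, ← h3], h4⟩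

theorem Cyc_neg (L : Lat G n) {T U : Set G} (hi : ∀ s ∈ T, s⁻¹ ∈ T) {c : Zn n × ℕ}
    (h : c ∈ Cyc L T U) : (-c.1, c.2) ∈ Cyc L T U := by
  obtain ⟨h1, h2, u, hu, v, h3, h4⟩ := h
  exact ⟨h1, h2, u, hu, -v, by rw [map_neg, ← h3], by rw [L.ι_neg]; exact inv_mem_pow hi h4⟩

theorem Rep.mem_Reg {L : Lat G n} {T : Set G} {φ : Zn n →+ ℝ} {g : G}
    (h : Rep (Cyc L T Set.univ) φ (L.P g)) : g ∈ Reg L T φ := by
  obtain ⟨s, x, h1, h2⟩ := h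
  intro η hη
  rw [h2 η, h2 φ]
  refine Finset.sum_le_sum fun c hc => ?_
  obtain ⟨a, b, d⟩ := h1 c hc
  exact mul_le_mul_of_nonneg_left (by rw [b]; exact hη c a) d

theorem Path_append (L : Lat G n) (Tp : G → Zn n → Prop) (c : Zn n) (l l' : List G) :
    Path L Tp c (l ++ l') ↔ Path L Tp c l ∧ Path L Tp (L.ρ l.prod⁻¹ c) l' := by
  induction l generalizing c with
  | nil => simp [Path]
  | cons a l ih => simp [Path, ih, and_assoc]

theorem cost_append (L : Lat G n) (d : G → Zn n → ℕ) (c : Zn n) (l l' : List G) :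
    cost L d c (l ++ l') = cost L d c l + cost L d (L.ρ l.prod⁻¹ c) l' := by
  induction l generalizing c with
  | nil => simp [cost]
  | cons a l ih => simp [cost, ih, add_assoc]

end Pool.Agent.MP_b3b911_al.VA

end

section

/-! Virtually abelian groups: basic facts on means, invariant forms and expansions. -/

namespace Pool.Agent.MP_b3b911_al.VA

open Filter Topology Pointwise

variable {G : Type*} [Group G] {n : ℕ}

namespace Mean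

variable (μ : Mean G)

theorem ae_iff {p : G → Prop} : (∀ᶠ g in μ.ae, p g) ↔ μ.D {g | ¬ p g} = 0 := Iff.rfl

theorem ae_not_mem {X : Set G} (h : μ.D X = 0) : ∀ᶠ g in μ.ae, g ∉ X := by
  rw [ae_iff]; simpa using h

theorem null_of_ae {X : Set G} (h : ∀ᶠ g in μ.ae, g ∉ X) : μ.D X = 0 := by
  rw [ae_iff] at h; simpa using h

theorem mono_ae {X Y : Set G} (h : ∀ᶠ g in μ.ae, g ∈ X → g ∈ Y) : μ.D X ≤ μ.D Y := by
  rw [ae_iff] at h
  have h1 : X ⊆ Y ∪ {g | ¬ (g ∈ X → g ∈ Y)} := fun g hg => by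
    by_cases hy : g ∈ Y
    · exact Or.inl hy
    · exact Or.inr fun h => hy (h hg)
  linarith [μ.mono h1, μ.union_le Y {g | ¬ (g ∈ X → g ∈ Y)}]

theorem congr_ae {X Y : Set G} (h : ∀ᶠ g in μ.ae, g ∈ X ↔ g ∈ Y) : μ.D X = μ.D Y :=
  le_antisymm (μ.mono_ae (h.mono fun _ h => h.1)) (μ.mono_ae (h.mono fun _ h => h.2))

theorem le_one (X : Set G) : μ.D X ≤ 1 := μ.univ ▸ μ.mono (Set.subset_univ X)

theorem inter_add_diff (X Y : Set G) : μ.D (X ∩ Y) + μ.D (X \ Y) = μ.D X := by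
  rw [← μ.add _ _ (Set.disjoint_sdiff_inter.symm), Set.inter_union_sdiff]

theorem ae_left {p : G → Prop} (h : ∀ᶠ g in μ.ae, p g) (a : G) : ∀ᶠ g in μ.ae, p (a * g) := by
  rw [ae_iff] at h ⊢; exact (μ.left a {g | ¬ p g}).trans h

theorem ae_right {p : G → Prop} (h : ∀ᶠ g in μ.ae, p g) (a : G) : ∀ᶠ g in μ.ae, p (g * a) := by
  rw [ae_iff] at h ⊢; exact (μ.right a {g | ¬ p g}).trans h

theorem ae_inv {p : G → Prop} (h : ∀ᶠ g in μ.ae, p g) : ∀ᶠ g in μ.ae, p g⁻¹ := by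
  rw [ae_iff] at h ⊢; exact (μ.inv {g | ¬ p g}).trans h

theorem add_ae {X Y : Set G} (h : ∀ᶠ g in μ.ae, g ∈ X → g ∉ Y) :
    μ.D (X ∪ Y) = μ.D X + μ.D Y := by
  have h1 : μ.D (Y \ X) = μ.D Y := μ.congr_ae (h.mono fun g hg =>
    ⟨fun h => h.1, fun h => ⟨h, fun hx => hg hx h⟩⟩)
  rw [← h1, ← μ.add X (Y \ X) Set.disjoint_sdiff_right, Set.union_sdiff_self]

theorem biUnion_ae {κ : Type*} (s : Finset κ) (X : κ → Set G)
    (h : ∀ i ∈ s, ∀ j ∈ s, i ≠ j → ∀ᶠ g in μ.ae, g ∈ X i → g ∉ X j) :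
    μ.D (⋃ i ∈ s, X i) = ∑ i ∈ s, μ.D (X i) := by
  classical
  induction s using Finset.induction_on with
  | empty => simpa using μ.empty
  | insert a s ha ih =>
    rw [Finset.set_biUnion_insert, Finset.sum_insert ha, μ.add_ae, ih]
    · exact fun i hi j hj => h i (by simp [hi]) j (by simp [hj])
    · have : ∀ᶠ g in μ.ae, ∀ j ∈ s, g ∈ X a → g ∉ X j :=
        (Filter.eventually_all_finset s).2 fun j hj =>
          h a (by simp) j (by simp [hj]) (fun e => ha (e ▸ hj))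
      exact this.mono fun g hg hx hy => by
        simp only [Set.mem_iUnion] at hy
        obtain ⟨j, hj, hy⟩ := hy
        exact hg j hj hx hy

/-- decomposition along the fibres of a map with finitely many values -/
theorem sum_fiber {κ : Type*} (s : Finset κ) (f : G → κ) (Y : Set G) (h : ∀ g ∈ Y, f g ∈ s) :
    μ.D Y = ∑ i ∈ s, μ.D (Y ∩ {g | f g = i}) := by
  rw [← μ.biUnion_ae s]
  · congr 1
    ext g
    simp only [Set.mem_iUnion]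
    exact ⟨fun hg => ⟨f g, h g hg, hg, rfl⟩, fun ⟨_, _, hg⟩ => hg.1⟩
  · exact fun i _ j _ hij => Eventually.of_forall fun g hi hj => hij (hi.2.symm.trans hj.2)

end Mean

namespace Geo

variable {L : Lat G n} (Γ : Geo L)

theorem c0_mem : Γ.c0 ∈ Γ.O := ⟨1, Or.inl (by simp)⟩

theorem neg_mem {c : Zn n} (h : c ∈ Γ.O) : -c ∈ Γ.O := by
  obtain ⟨g, h | h⟩ := h
  · exact ⟨g, Or.inr (by rw [h])⟩
  · exact ⟨g, Or.inl (by rw [h, neg_neg])⟩

theorem ρ_mem {c : Zn n} (h : c ∈ Γ.O) (u : G) : L.ρ u c ∈ Γ.O := by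
  obtain ⟨g, h | h⟩ := h
  · exact ⟨u * g, Or.inl (by rw [h, L.ρ_mul_apply])⟩
  · exact ⟨u * g, Or.inr (by rw [h, L.ρ_mul_apply, map_neg])⟩

theorem B_self {c : Zn n} (h : c ∈ Γ.O) : Γ.B c c = Γ.B Γ.c0 Γ.c0 := by
  obtain ⟨g, h | h⟩ := h <;> simp [h, Γ.inv]

theorem β_pos : 0 < Γ.B Γ.c0 Γ.c0 := Γ.pos _ Γ.ne

theorem nonneg (x : Zn n) : 0 ≤ Γ.B x x := by
  by_cases h : x = 0
  · simp [h]
  · exact (Γ.pos x h).le

theorem finite_O : Γ.O.Finite := (Γ.fin (Γ.B Γ.c0 Γ.c0)).subset fun _ h => (Γ.B_self h).le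

theorem ne_zero {c : Zn n} (h : c ∈ Γ.O) : c ≠ 0 := by
  rintro rfl
  have := Γ.B_self h
  have := Γ.β_pos
  simp_all

theorem ne_neg {c : Zn n} (h : c ∈ Γ.O) : c ≠ -c := by
  intro e
  apply Γ.ne_zero h
  funext i
  have := congrFun e i
  simp only [Pi.neg_apply] at this
  simp only [Pi.zero_apply]
  omega

theorem B_lt {c c' : Zn n} (h : c ∈ Γ.O) (h' : c' ∈ Γ.O) (hne : c ≠ c') :
    Γ.B c c' ≤ Γ.B Γ.c0 Γ.c0 - 1 := by
  have := Γ.pos (c - c') (sub_ne_zero.2 hne)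
  simp only [map_sub, AddMonoidHom.sub_apply, Γ.B_self h, Γ.B_self h', Γ.symm c' c] at this
  omega

theorem B_le {c c' : Zn n} (h : c ∈ Γ.O) (h' : c' ∈ Γ.O) : Γ.B c c' ≤ Γ.B Γ.c0 Γ.c0 := by
  by_cases e : c = c'
  · rw [e, Γ.B_self h']
  · have := Γ.B_lt h h' e; omega

theorem B_ρ (g : G) (x y : Zn n) : Γ.B x (L.ρ g y) = Γ.B (L.ρ g⁻¹ x) y := by
  rw [← Γ.inv g⁻¹, L.ρ_inv_apply]

theorem n_pos (Γ : Geo L) : 0 < n := by
  rcases Nat.eq_zero_or_pos n with rfl | h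
  · exact absurd (Subsingleton.elim _ _) Γ.ne
  · exact h

end Geo

theorem Two.add {d : ℕ} {f g : ℕ → ℝ} {c e c' e' : ℝ} (h : Two d f c e) (h' : Two d g c' e') :
    Two d (fun k => f k + g k) (c + c') (e + e') :=
  (Tendsto.add h h').congr fun k => by ring

theorem Two.sub {d : ℕ} {f g : ℕ → ℝ} {c e c' e' : ℝ} (h : Two d f c e) (h' : Two d g c' e') :
    Two d (fun k => f k - g k) (c - c') (e - e') :=
  (Tendsto.sub h h').congr fun k => by ring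

theorem Two.ratio {d : ℕ} {f : ℕ → ℝ} {c e : ℝ} (h : Two d f c e) :
    Tendsto (fun k : ℕ => f k / (k : ℝ) ^ d) atTop (𝓝 c) := by
  have h1 := (Tendsto.mul h tendsto_inv_atTop_nhds_zero_nat).add_const c
  rw [mul_zero, zero_add] at h1
  refine h1.congr' ?_
  filter_upwards [eventually_gt_atTop 0] with k hk
  have hk' : (k : ℝ) ≠ 0 := by exact_mod_cast hk.ne'
  rw [zpow_sub_one₀ hk', zpow_natCast]
  field_simp
  ring

theorem QP.mono {q r r' : ℕ} {f : ℕ → ℝ} (h : QP q r f) (hr : r ≤ r') : QP q r' f := fun a =>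
  let ⟨p, h1, h2⟩ := h a
  ⟨p, h1.trans hr, h2⟩

theorem QP.zero (q r : ℕ) : QP q r fun _ => 0 := fun _ => ⟨0, by simp, by simp⟩

theorem QP.add {q r : ℕ} {f g : ℕ → ℝ} (h : QP q r f) (h' : QP q r g) :
    QP q r fun k => f k + g k := fun a => by
  obtain ⟨p, h1, h2⟩ := h a
  obtain ⟨p', h1', h2'⟩ := h' a
  refine ⟨p + p', (Polynomial.natDegree_add_le _ _).trans (max_le h1 h1'), ?_⟩
  filter_upwards [h2, h2'] with k a b hk
  rw [Polynomial.eval_add, a hk, b hk]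

theorem QP.sum {κ : Type*} {q r : ℕ} (s : Finset κ) (f : κ → ℕ → ℝ) (h : ∀ i ∈ s, QP q r (f i)) :
    QP q r fun k => ∑ i ∈ s, f i k := by
  classical
  induction s using Finset.induction_on with
  | empty => simpa using QP.zero q r
  | insert a s ha ih =>
    simp only [Finset.sum_insert ha]
    exact (h a (by simp)).add (ih fun i hi => h i (by simp [hi]))

end Pool.Agent.MP_b3b911_al.VA

end

section

/-! Virtually abelian groups: equidistribution, words with an acting letter, tables. -/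

namespace Pool.Agent.MP_b3b911_al.VA

open Filter Topology Pointwise

variable {G : Type*} [Group G] {n : ℕ}

namespace Mean

variable {μ : Mean G} {l : G → ℕ} {p : ℕ}

theorem Eqd.congr {X Y : Set G} (h : μ.Eqd l p X) (e : ∀ᶠ g in μ.ae, g ∈ X ↔ g ∈ Y) :
    μ.Eqd l p Y := fun r hr => by
  rw [← μ.congr_ae e, ← h r hr]
  congr 1
  exact μ.congr_ae (e.mono fun g hg => ⟨fun h => ⟨hg.2 h.1, h.2⟩, fun h => ⟨hg.1 h.1, h.2⟩⟩)

theorem Eqd.union {X Y : Set G} (h : μ.Eqd l p X) (h' : μ.Eqd l p Y)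
    (e : ∀ᶠ g in μ.ae, g ∈ X → g ∉ Y) : μ.Eqd l p (X ∪ Y) := fun r hr => by
  rw [Set.union_inter_distrib_right, μ.add_ae e, μ.add_ae (e.mono fun g hg a b => hg a.1 b.1),
    mul_add, h r hr, h' r hr]

theorem Eqd.biUnion {κ : Type*} (s : Finset κ) (X : κ → Set G) (h : ∀ i ∈ s, μ.Eqd l p (X i))
    (e : ∀ i ∈ s, ∀ j ∈ s, i ≠ j → ∀ᶠ g in μ.ae, g ∈ X i → g ∉ X j) :
    μ.Eqd l p (⋃ i ∈ s, X i) := fun r hr => by
  rw [Set.iUnion₂_inter, μ.biUnion_ae s _ e, μ.biUnion_ae s, Finset.mul_sum]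
  · exact Finset.sum_congr rfl fun i hi => h i hi r hr
  · exact fun i hi j hj hij => (e i hi j hj hij).mono fun g hg a b => hg a.1 b.1

theorem Eqd.compl {X : Set G} (hu : μ.Eqd l p Set.univ) (h : μ.Eqd l p X) : μ.Eqd l p Xᶜ :=
  fun r hr => by
  have h1 := μ.add X Xᶜ disjoint_compl_right
  have h2 := μ.add (X ∩ {g | l g % p = r}) (Xᶜ ∩ {g | l g % p = r})
    (disjoint_compl_right.mono Set.inter_subset_left Set.inter_subset_left)
  rw [← Set.union_inter_distrib_right] at h2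
  rw [Set.union_compl_self] at h1 h2
  have h3 := hu r hr
  have h4 := h r hr
  rw [h2, mul_add] at h3
  linarith

theorem Eqd.inv {X : Set G} (h : μ.Eqd l p X) (hl : ∀ g, l g⁻¹ = l g) :
    μ.Eqd l p ((fun x => x⁻¹) ⁻¹' X) := fun r hr => by
  rw [μ.inv X, ← h r hr, ← μ.inv (X ∩ _)]
  congr 2
  ext g
  simp [hl]

end Mean

theorem Gen.exists_letter {L : Lat G n} {T : Set G} (hT : Gen T) (h : ∃ g, L.ρ g ≠ 1) :
    ∃ s ∈ T, L.ρ s ≠ 1 := by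
  by_contra hc
  push Not at hc
  obtain ⟨g, hg⟩ := h
  obtain ⟨l, -, h2, rfl⟩ := mem_pow_iff_list.1 (hT.mem_len g)
  apply hg
  rw [map_list_prod]
  exact List.prod_eq_one fun x hx => by
    obtain ⟨s, hs, rfl⟩ := List.mem_map.1 hx
    exact hc s (h2 s hs)

theorem W1_sub {L : Lat G n} {T : Set G} {k : ℕ} {g : G} (h : g ∈ W1 L T k) : g ∈ T ^ k := by
  obtain ⟨a, b, x, s, y, rfl, hx, hs, -, hy, rfl⟩ := h
  exact mul_mem_pow (mul_mem_pow hx (by simpa using hs)) hy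

theorem len1_le {L : Lat G n} {T : Set G} {k : ℕ} {g : G} (h : g ∈ W1 L T k) : len1 L T g ≤ k :=
  Nat.sInf_le h

theorem Gen.mem_W1 {L : Lat G n} {T : Set G} (hT : Gen T) (h : ∃ g, L.ρ g ≠ 1) (g : G) :
    g ∈ W1 L T (len1 L T g) := by
  obtain ⟨s, hs, h1⟩ := hT.exists_letter h
  exact Nat.sInf_mem (s := {k | g ∈ W1 L T k})
    ⟨_, 0, _, 1, s, s⁻¹ * g, rfl, by simp, hs, h1, hT.mem_len _, by simp⟩

namespace Des

variable {L : Lat G n} {Γ : Geo L} {Δ : Des Γ}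

theorem Pi_mul_ι (α : Zn n) (u : G) (v : Zn n) (t : G) :
    Δ.Pi α (u * (L.ι v * t)) = Δ.Pi α (u * t) := by
  rw [L.mul_ι_mul, Δ.Pi_cl]

theorem path_P {α : Zn n} {u : G} {l : List G} (h : Path L Δ.Tp (L.ρ u⁻¹ α) l) :
    L.ρ u (L.P l.prod) = l.length • Δ.Z α + Δ.Pi α (u * l.prod) - Δ.Pi α u := by
  induction l generalizing u with
  | nil => simp
  | cons t l ih =>
    have h1 := Δ.coc t _ u h.1
    rw [L.ρ_apply_inv] at h1
    have h2 := ih (u := u * t) (by rw [mul_inv_rev, L.ρ_mul_apply]; exact h.2)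
    rw [List.prod_cons, L.P_mul, map_add, ← L.ρ_mul_apply, h1, h2, List.length_cons, succ_nsmul,
      mul_assoc]
    abel

/-- the set of nodes with a free letter is finite -/
theorem finite_tight : {c | ∃ t, Δ.Tp t c}.Finite :=
  Γ.finite_O.subset fun c ⟨t, h⟩ => Δ.tO t c h

theorem tight_neg {t : G} {c : Zn n} (h : Δ.Tp t c) : ∃ t', Δ.Tp t' (-c) := by
  have hm : Set.MapsTo (fun c => L.ρ (Δ.nx c)⁻¹ c) {c | ∃ t, Δ.Tp t c} {c | ∃ t, Δ.Tp t c} :=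
    fun c ⟨t, h⟩ => (Δ.nx_tp t c h).2
  have hi : Set.InjOn (fun c => L.ρ (Δ.nx c)⁻¹ c) {c | ∃ t, Δ.Tp t c} :=
    fun c ⟨t, h⟩ c' ⟨t', h'⟩ e => Δ.nx_inj t c t' c' h h' e
  obtain ⟨c', ⟨t', h'⟩, e⟩ := ((finite_tight.injOn_iff_bijOn_of_mapsTo hm).1 hi).surjOn ⟨t, h⟩
  exact ⟨_, by rw [← e]; exact Δ.tinv _ _ (Δ.nx_tp t' c' h').1⟩

theorem Out.m_pos {T : Set G} {K m ω e : ℤ} {φ : Zn n → Zn n →+ ℝ} (h : Δ.Out T K m ω e φ) :
    0 < ω ∧ 0 < m := by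
  have h1 := h.ω0
  have h2 := h.m0
  have h3 : (0 : ℤ) ≤ 4 * L.N * (e + L.N * Γ.B Γ.c0 Γ.c0) := by
    have := h.e0
    have := Γ.β_pos
    positivity
  omega

theorem Out.φ_inj {T : Set G} {K m ω e : ℤ} {φ : Zn n → Zn n →+ ℝ} (h : Δ.Out T K m ω e φ)
    {α α' : Zn n} (ha : α ∈ Γ.O) (ha' : α' ∈ Γ.O) (e' : φ α = φ α') : α = α' := by
  by_contra hne
  have h1 := Γ.B_lt ha' ha (Ne.symm hne)
  have h2 : φ α α = φ α' α := by rw [e']
  have hm : (0 : ℝ) < m := by exact_mod_cast h.m_pos.2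
  have hN : (0 : ℝ) < L.N := by exact_mod_cast L.N_pos
  rw [h.hφ, h.hφ, div_left_inj' hm.ne', mul_right_inj' hN.ne', Int.cast_inj, Γ.B_self ha] at h2
  omega

namespace Par

variable (π : Δ.Par)

theorem E3_nonneg : 0 ≤ π.E3 := by
  simpa using π.h3 _ Γ.c0_mem 0 (by simpa using π.h10.trans π.h12)

theorem abs_z : |Δ.z| ≤ π.E3 := by
  rw [← Δ.hz _ Γ.c0_mem]; exact π.h3 _ Γ.c0_mem _ (π.h2Z _ Γ.c0_mem)

theorem abs_Pi {α : Zn n} (h : α ∈ Γ.O) (u : G) : |Γ.B α (Δ.Pi α u)| ≤ π.E3 :=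
  π.h3 _ h _ (π.h2P _ h u)

theorem K1_ge : (10 : ℤ) ≤ π.K1 := by
  have := π.hK; have := π.E3_nonneg; have := Γ.β_pos; omega

theorem κ_pos : (0 : ℤ) < π.κ := by
  have := π.hκ; omega

theorem K_pos : 0 < π.K := by
  have := π.K1_ge; have := π.κ_pos; unfold Par.K; positivity

theorem ω0 : 4 * L.N * (31 * π.E3 + L.N * Γ.B Γ.c0 Γ.c0) < π.ω := by
  have h1 := π.hκ'
  have h2 := π.E3_nonneg
  have h3 := Γ.β_pos
  have h4 : (1 : ℤ) ≤ L.N := by exact_mod_cast L.N_pos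
  have h5 := π.κ_pos
  have h6 : (π.κ : ℤ) ≤ L.N * π.κ * Γ.B Γ.c0 Γ.c0 := by
    have : (1 : ℤ) ≤ L.N * Γ.B Γ.c0 Γ.c0 := by nlinarith
    nlinarith
  have h7 : π.E3 ≤ L.N * π.E3 := by nlinarith
  have h8 : (0 : ℤ) ≤ L.N * (L.N * Γ.B Γ.c0 Γ.c0) := by positivity
  unfold Par.ω
  nlinarith

theorem ω_pos : 0 < π.ω := by
  have h1 := π.ω0
  have h2 := π.E3_nonneg
  have h3 := Γ.β_pos
  have : (0 : ℤ) ≤ 4 * L.N * (31 * π.E3 + L.N * Γ.B Γ.c0 Γ.c0) := by positivity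
  omega

theorem m0 : 8 * π.ω ≤ π.m := by
  have h1 := π.K1_ge
  have h2 := π.E3_nonneg
  have h3 := Γ.β_pos
  have h4 := abs_le.1 π.abs_z
  have h5 := π.κ_pos
  have h6 : (0 : ℤ) ≤ L.N * π.κ * Γ.B Γ.c0 Γ.c0 := by positivity
  unfold Par.ω Par.m Par.K
  nlinarith

theorem m_pos : 0 < π.m := by
  have := π.m0; have := π.ω_pos; omega

theorem K_mem_th (c : Zn n) : π.K • c ∈ π.th c := ⟨0, by simpa using π.h10, by simp, by simp⟩

theorem th_ρ {c v : Zn n} (h : v ∈ π.th c) (g : G) : L.ρ g v ∈ π.th (L.ρ g c) := by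
  obtain ⟨w, h1, h2, rfl⟩ := h
  exact ⟨L.ρ g w, by rwa [Γ.inv], by rwa [Γ.inv], by rw [map_add, map_zsmul]⟩

theorem th'_ρ {c v : Zn n} (h : v ∈ π.th' c) (g : G) : L.ρ g v ∈ π.th' (L.ρ g c) := by
  rcases h with h | ⟨i, h1, h2, rfl⟩
  · exact Or.inl (π.th_ρ h g)
  · exact Or.inr ⟨i, h1, h2, by rw [map_zsmul]⟩

theorem B_th {c v : Zn n} (hc : c ∈ Γ.O) (h : v ∈ π.th c) :
    Γ.B c v = π.K * Γ.B Γ.c0 Γ.c0 := by
  obtain ⟨w, -, h2, rfl⟩ := h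
  rw [map_add, map_zsmul, h2, Γ.B_self hc, add_zero, smul_eq_mul]

theorem loops_ρ {v : Zn n} (h : v ∈ π.loops) (g : G) : L.ρ g v ∈ π.loops := by
  rcases h with h | ⟨x, h, rfl⟩ | ⟨c, hc, c', hc', hne, rfl⟩
  · exact Or.inl (by rwa [Γ.inv])
  · exact Or.inr (Or.inl ⟨L.ρ g x, by rwa [Γ.inv], by rw [map_nsmul]⟩)
  · refine Or.inr (Or.inr ⟨_, Γ.ρ_mem hc g, _, Γ.ρ_mem hc' g, fun e => hne ?_, by
      rw [map_nsmul, map_add]⟩)
    simpa using congrArg (L.ρ g⁻¹) e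

theorem top {t : G} {c : Zn n} (h : Δ.Tp t c) : L.ι (π.K • c) * t ∈ π.T :=
  Or.inr (Or.inl ⟨t, c, h, _, Or.inl (π.K_mem_th c), rfl⟩)

/-- the letter `s`, read after `u`, is a top letter in the direction `α` -/
def Top (α : Zn n) (u s : G) : Prop :=
  ∃ t c v, Δ.Tp t c ∧ v ∈ π.th c ∧ s = L.ι v * t ∧ L.ρ u c = α

theorem Top.P {π : Δ.Par} {α : Zn n} {u s : G} (h : π.Top α u s) :
    ∃ v ∈ π.th α, L.ρ u (L.P s) = L.N • v + Δ.Z α + Δ.Pi α (u * s) - Δ.Pi α u := by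
  obtain ⟨t, c, v, h1, h2, rfl, rfl⟩ := h
  refine ⟨_, π.th_ρ h2 u, ?_⟩
  rw [L.P_ι_mul, map_add, map_nsmul, Δ.coc t c u h1, Pi_mul_ι]
  abel

/-- a path of free letters can be decorated with vectors from the bump -/
theorem path_lift {α : Zn n} {u : G} {l : List G} (h : Path L Δ.Tp (L.ρ u⁻¹ α) l)
    (vs : List (Zn n)) (hl : vs.length = l.length) (hv : ∀ v ∈ vs, v ∈ π.th' α) :
    ∃ g ∈ π.T ^ l.length, u * g = L.ι vs.sum * (u * l.prod) := by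
  induction l generalizing u vs with
  | nil =>
    obtain rfl := List.length_eq_zero_iff.1 hl
    exact ⟨1, by simp, by simp⟩
  | cons t l ih =>
    obtain _ | ⟨v, vs⟩ := vs
    · simp at hl
    obtain ⟨g, hg, e⟩ := ih (u := u * t) (by rw [mul_inv_rev, L.ρ_mul_apply]; exact h.2) vs
      (by simpa using hl) (fun w hw => hv w (by simp [hw]))
    refine ⟨L.ι (L.ρ u⁻¹ v) * t * g, ?_, ?_⟩
    · rw [List.length_cons, pow_succ']
      exact Set.mul_mem_mul (Or.inr (Or.inl ⟨t, _, h.1, _, π.th'_ρ (hv v (by simp)) _, rfl⟩)) hg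
    · rw [mul_assoc, L.mul_ι_mul, L.ρ_apply_inv, ← mul_assoc u, e, L.ι_mul_ι_mul, List.sum_cons,
        List.prod_cons, mul_assoc]

/-- cycles of top letters -/
theorem top_cycle {α : Zn n} (h : α ∈ Γ.O) : ∃ (k : ℕ) (x : Zn n), 0 < k ∧ L.N • x = k • Δ.Z α ∧
    ∀ v ∈ π.th α, (k • v + x, k) ∈ Cyc L π.T Set.univ := by
  obtain ⟨u, l, y, h1, h2, h3, h4⟩ := Δ.cyc α h
  refine ⟨l.length, L.ρ u y, h1, ?_, fun v hv => ?_⟩
  · have := path_P h3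
    rw [h4, L.P_ι, map_nsmul, L.conj, Δ.Pi_cl] at this
    rw [this]; abel
  · obtain ⟨g, hg, e⟩ := π.path_lift h3 (List.replicate l.length v) (by simp)
      (fun w hw => by rw [List.eq_of_mem_replicate hw]; exact Or.inl hv)
    refine ⟨h1, h2, u, trivial, L.ρ u⁻¹ (l.length • v) + y, by simp, ?_⟩
    rw [h4, List.sum_replicate, ← mul_assoc, L.conj', mul_assoc, ← L.ι_add] at e
    rw [← mul_left_cancel e]
    exact hg

theorem Sum.φ {π : Δ.Par} {α a : Zn n} {k : ℕ} (hα : α ∈ Γ.O) (h : π.Sum α a k) :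
    π.φ α a = k := by
  obtain ⟨l, rfl, h2, h3⟩ := h
  have h4 : Γ.B α (l.map fun v => L.N • v + Δ.Z α).sum = l.length * π.m := by
    clear h3
    induction l with
    | nil => simp
    | cons v l ih =>
      rw [List.map_cons, List.sum_cons, map_add, ih fun w hw => h2 w (by simp [hw]), map_add,
        map_nsmul, π.B_th hα (h2 v (by simp)), Δ.hz α hα]
      simp only [List.length_cons, Par.m, nsmul_eq_mul]
      push_cast
      ring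
  rw [← h3, map_nsmul, nsmul_eq_mul] at h4
  have hm : (π.m : ℝ) ≠ 0 := by exact_mod_cast π.m_pos.ne'
  change (L.N : ℝ) * Γ.B α a / π.m = _
  rw [div_eq_iff hm]
  exact_mod_cast h4

theorem word_Sum {α : Zn n} (θ : Zn n →+ ℝ)
    (h : ∀ u : G, ∀ s ∈ π.T,
      θ (L.ρ u (L.P s)) ≤ L.N + θ (Δ.Pi α (u * s)) - θ (Δ.Pi α u) ∧
      (θ (L.ρ u (L.P s)) = L.N + θ (Δ.Pi α (u * s)) - θ (Δ.Pi α u) → π.Top α u s))
    (l : List G) (hl : ∀ s ∈ l, s ∈ π.T) (u : G) :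
    θ (L.ρ u (L.P l.prod)) ≤ l.length * L.N + θ (Δ.Pi α (u * l.prod)) - θ (Δ.Pi α u) ∧
    (θ (L.ρ u (L.P l.prod)) = l.length * L.N + θ (Δ.Pi α (u * l.prod)) - θ (Δ.Pi α u) →
      ∃ vs : List (Zn n), vs.length = l.length ∧ (∀ v ∈ vs, v ∈ π.th α) ∧
        L.ρ u (L.P l.prod) =
          (vs.map fun v => L.N • v + Δ.Z α).sum + Δ.Pi α (u * l.prod) - Δ.Pi α u) := by
  induction l generalizing u with
  | nil => simp
  | cons s l ih =>
    obtain ⟨a1, a2⟩ := h u s (hl s (by simp))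
    obtain ⟨b1, b2⟩ := ih (fun t ht => hl t (by simp [ht])) (u * s)
    have e : L.ρ u (L.P (s :: l).prod) = L.ρ u (L.P s) + L.ρ (u * s) (L.P l.prod) := by
      rw [List.prod_cons, L.P_mul, map_add, ← L.ρ_mul_apply]
    rw [e, map_add, List.prod_cons, ← mul_assoc, List.length_cons]
    push_cast
    refine ⟨by linarith, fun h' => ?_⟩
    obtain ⟨v, hv, e1⟩ := (a2 (by linarith)).P
    obtain ⟨vs, h1, h2, e2⟩ := b2 (by linarith)
    refine ⟨v :: vs, by simp [h1], ?_, ?_⟩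
    · intro w hw
      rcases List.mem_cons.1 hw with rfl | hw
      exacts [hv, h2 w hw]
    · rw [e1, e2, List.map_cons, List.sum_cons]; abel

/-- from a bound for letters to a bound for cycles -/
theorem tight_Sum {α : Zn n} (θ : Zn n →+ ℝ)
    (h : ∀ u : G, ∀ s ∈ π.T,
      θ (L.ρ u (L.P s)) ≤ L.N + θ (Δ.Pi α (u * s)) - θ (Δ.Pi α u) ∧
      (θ (L.ρ u (L.P s)) = L.N + θ (Δ.Pi α (u * s)) - θ (Δ.Pi α u) → π.Top α u s))
    {c : Zn n × ℕ} (hc : c ∈ Cyc L π.T Set.univ) :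
    θ c.1 ≤ c.2 ∧ (θ c.1 = c.2 → π.Sum α c.1 c.2) := by
  obtain ⟨-, -, u, -, v, h1, h2⟩ := hc
  obtain ⟨l, e1, hl, e2⟩ := mem_pow_iff_list.1 h2
  obtain ⟨a, b⟩ := π.word_Sum θ h l hl u
  rw [e2, L.P_ι, map_nsmul, L.conj, Δ.Pi_cl, ← h1, e1] at a b
  rw [map_nsmul, nsmul_eq_mul] at a b
  have hN : (0 : ℝ) < L.N := by exact_mod_cast L.N_pos
  refine ⟨by nlinarith, fun e => ?_⟩
  obtain ⟨vs, k1, k2, k3⟩ := b (by rw [e]; ring)
  exact ⟨vs, k1, k2, by rw [k3]; abel⟩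

end Par

end Des

end Pool.Agent.MP_b3b911_al.VA

end

section

/-! Virtually abelian groups: the statements of the modules. -/

namespace Pool.Agent.MP_b3b911_al.VA

open Filter Topology Pointwise

variable (G : Type*) [Group G]

/-! ### the lattice -/

def Lat1Stmt : Prop :=
  Group.FG G → (∃ A : Subgroup G, A.FiniteIndex ∧ ∀ a ∈ A, ∀ b ∈ A, a * b = b * a) →
    ∃ (n : ℕ) (ι : Zn n → G), (∀ v w, ι (v + w) = ι v * ι w) ∧ Function.Injective ι ∧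
      (∀ g v, ∃ w, g * ι v = ι w * g) ∧ ∃ F : Finset G, ∀ g, ∃ f ∈ F, ∃ v, g = ι v * f

def Lat2Stmt : Prop :=
  ∀ (n : ℕ) (ι : Zn n → G), (∀ v w, ι (v + w) = ι v * ι w) → Function.Injective ι →
    (∀ g v, ∃ w, g * ι v = ι w * g) → (∃ F : Finset G, ∀ g, ∃ f ∈ F, ∃ v, g = ι v * f) →
    Nonempty (Lat G n)

def GoodStmt : Prop :=
  ∀ (n : ℕ) (L : Lat G n), Good L ↔
    ((∃ B : Subgroup G, B.index = 2 ∧ ∀ a ∈ B, ∀ b ∈ B, a * b = b * a) ∨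
      ∃ A : Subgroup G, A.FiniteIndex ∧
        ∀ g : G, (∀ a ∈ A, g * a * g⁻¹ = a) ∨ ∀ a ∈ A, g * a * g⁻¹ = a⁻¹)

/-! ### convergence -/

def RedStmt : Prop :=
  ∀ (n : ℕ) (L : Lat G n) (E : Set G) (l : G → ℕ) (C : Set (Zn n × ℕ)), Sys L E l C →
    ∃ (m : ℕ) (c : Fin m → Zn n) (q : ℕ) (B : Finset G), Pres L E l c q B

def DownStmt : Prop :=
  ∀ (n : ℕ) (L : Lat G n) (E : Set G) (l : G → ℕ) (m : ℕ) (c : Fin m → Zn n) (q : ℕ)
    (B : Finset G), Pres L E l c q B → ∃ D R, Norm L E l c q B D R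

def CountStmt : Prop :=
  ∀ (m : ℕ) (D : Set (Fin m → ℕ)) (R r q a : ℕ), 0 < q → Trunc D R →
    (∀ y ∈ D, (Finset.univ.filter fun i => R ≤ y i).card ≤ r) →
    QP q r fun k => ({y | y ∈ D ∧ a + q * ∑ i, y i ≤ k}.ncard : ℝ)

def AnaStmt : Prop :=
  (∀ (q : ℕ) (f : ℕ → ℝ), 0 < q → QP q 0 f → Monotone f → ∃ c e, Two 0 f c e) ∧
  ∀ (q r : ℕ) (f h : ℕ → ℝ), 0 < q → QP q (r + 1) f → Monotone f → QP q r h → Monotone h →
    (∀ k, f (k + 1) - f k - (h (k + 1) - h k) ≤ f (k + 2) - f (k + 1)) →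
    ∃ c e, Two (r + 1) f c e

variable {G} in
/-- elements whose normal form has `n` coordinates above `R` -/
def Deep {n : ℕ} (L : Lat G n) {m : ℕ} (c : Fin m → Zn n) (B : Finset G)
    (D : G → Set (Fin m → ℕ)) (R : ℕ) : Set G :=
  {g | ∃ b ∈ B, ∃ y ∈ D b, g = L.ι (∑ i, y i • c i) * b ∧
    n ≤ (Finset.univ.filter fun i => R ≤ y i).card}

def KeyStmt : Prop :=
  ∀ (n : ℕ) (L : Lat G n) (E : Set G) (l : G → ℕ) (m : ℕ) (c : Fin m → Zn n) (q : ℕ)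
    (B : Finset G) (D : G → Set (Fin m → ℕ)) (R : ℕ), Pres L E l c q B → Norm L E l c q B D R →
    (∀ b ∈ B, ∀ y ∈ D b, (Finset.univ.filter fun i => R ≤ y i).card ≤ n) ∧
    (0 < n → ∃ R', R ≤ R' ∧ ∃ F : G → G, Set.InjOn F (Deep L c B D R') ∧
      ∀ g ∈ Deep L c B D R', F g ∈ E ∧ l (F g) = l g + 1)

def SysStmt : Prop :=
  ∀ (n : ℕ) (L : Lat G n) (E : Set G) (l : G → ℕ) (C : Set (Zn n × ℕ)), Sys L E l C →
    ∃ c e, Two n (fun k => (cnt E l k : ℝ)) c e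

def Sys0Stmt : Prop :=
  ∀ (n : ℕ) (L : Lat G n) (T : Set G), Gen T →
    Sys L (E0 L T) (len (T0 L T)) (Cyc L (T0 L T) {1}) ∧
    ((∃ g, L.ρ g ≠ 1) →
      Sys L (E0 L T) (fun g => max (len (T0 L T) g) (len1 L T g)) (Cyc L (T0 L T) {1}))

def Sys1Stmt : Prop :=
  ∀ (n : ℕ) (L : Lat G n) (T : Set G), Gen T → Good L → (∃ g, L.ρ g ≠ 1) →
    Sys L Set.univ (len1 L T) (Cyc L T Set.univ)

/-- `W` spans the real span of the lattice -/
def Span {n : ℕ} (W : Set (Zn n)) : Prop := ∀ η : Zn n →+ ℝ, (∀ w ∈ W, η w = 0) → η = 0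

def BoxStmt : Prop :=
  ∀ (n : ℕ) (L : Lat G n) (T : Set G), Gen T →
    (∃ A : ℝ, 0 < A ∧ ∀ᶠ k : ℕ in atTop, (cnt Set.univ (len T) k : ℝ) ≤ A * (k : ℝ) ^ n) ∧
    ∀ (W : Set (Zn n)) (X : Set G), Span W → (∀ v ∈ AddSubmonoid.closure W, L.ι v ∈ X) →
      ∃ ε : ℝ, 0 < ε ∧ ∀ᶠ k : ℕ in atTop, ε * (k : ℝ) ^ n ≤ cnt X (len T) k

def IfStmt : Prop :=
  ∀ (n : ℕ) (L : Lat G n) (T : Set G), Gen T → Good L →
    ∃ c e, 0 < c ∧ Two n (fun k => (cnt Set.univ (len T) k : ℝ)) c e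

/-! ### means -/

def MeanStmt : Prop :=
  ∀ (T : Set G) (d : ℕ) (c e : ℝ), Gen T → Infinite G → 0 < c →
    Two d (fun k => (cnt Set.univ (len T) k : ℝ)) c e →
    ∃ μ : Mean G, (∀ p, 0 < p → μ.Eqd (len T) p Set.univ) ∧
      ∀ (X : Set G) (ε : ℝ),
        (∀ᶠ k : ℕ in atTop, ε * (cnt Set.univ (len T) k : ℝ) ≤ cnt X (len T) k) → ε ≤ μ.D X

def SlabStmt : Prop :=
  ∀ (n : ℕ) (L : Lat G n) (μ : Mean G) (η : Zn n →+ ℝ) (M : ℝ), η ≠ 0 →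
    ∀ᶠ g in μ.ae, M < |η (L.P g)|

def TLemStmt : Prop :=
  ∀ (μ : Mean G) (l : G → ℕ) (Y : Set G) (F : G → G) (pot : G → ℝ) (A : ℝ) (p : ℕ), 0 < p →
    (∀ X, μ.D (Y ∩ F ⁻¹' X) = μ.D (Y ∩ X)) →
    (∀ᶠ g in μ.ae, g ∈ Y →
      l (F g) ≤ l g + 1 ∧ pot (F g) = pot g + 1 ∧ |(l g : ℝ) - pot g| ≤ A) → μ.Eqd l p Y

def PermStmt : Prop :=
  ∀ (n : ℕ) (μ : Mean G) (R : Set G) (ν : G → Zn n) (s : Set (Zn n)) (σ : Zn n → Zn n)
    (h : Zn n → G), s.Finite → Set.MapsTo σ s s → Set.InjOn σ s →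
    (∀ c ∈ s, ∀ g, ν (g * h c) = σ c ↔ ν g = c) → (∀ a, ∀ᶠ g in μ.ae, g ∈ R ↔ g * a ∈ R) →
    ∀ X, μ.D ((R ∩ {g | ν g ∈ s}) ∩ (fun g => g * h (ν g)) ⁻¹' X) =
      μ.D ((R ∩ {g | ν g ∈ s}) ∩ X)

def WinStmt : Prop :=
  ∀ (μ : Mean G) (Y : Set G) (a : G) (Φ : G → ℤ) (σ M A b : ℤ), 0 < σ → 0 < M → b ≤ M →
    (∀ g, Φ (a * g) = Φ g + σ) → (∀ᶠ g in μ.ae, g ∈ Y ↔ a * g ∈ Y) →
    ((b : ℝ) - σ) * μ.D Y ≤
      ((M : ℝ) + σ) * μ.D (Y ∩ {g | ∃ k : ℤ, A + k * M < Φ g ∧ Φ g ≤ A + b + k * M})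

/-! ### regions -/

def LPStmt : Prop :=
  ∀ (n : ℕ) (C : Set (Zn n × ℕ)), C.Finite → (∀ c ∈ C, 0 < c.2) → (∀ c ∈ C, (-c.1, c.2) ∈ C) →
    Span (Prod.fst '' C) → (Vert C).Finite ∧ ∀ a, ∃ φ ∈ Vert C, Rep C φ a

def LenStmt : Prop :=
  ∀ (n : ℕ) (L : Lat G n) (T : Set G), Gen T → Span (Prod.fst '' Cyc L T Set.univ) ∧
    ∀ ψ, Feas (Cyc L T Set.univ) ψ → ∃ A : ℝ, ∀ g, Rep (Cyc L T Set.univ) ψ (L.P g) →
      |(len T g : ℝ) - ψ (L.P g) / L.N| ≤ A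

variable {G} in
/-- sets that contain a cone of the lattice have positive mean -/
def Pos {n : ℕ} (L : Lat G n) (μ : Mean G) : Prop :=
  ∀ (W : Set (Zn n)) (X : Set G), Span W → (∀ v ∈ AddSubmonoid.closure W, L.ι v ∈ X) → 0 < μ.D X

variable {G} in
/-- what is used of the regions -/
structure RegF {n : ℕ} (L : Lat G n) (T : Set G) (μ : Mean G) : Prop where
  fin : (Vert (Cyc L T Set.univ)).Finite
  ex : ∀ g, ∃ ψ ∈ Vert (Cyc L T Set.univ), g ∈ Reg L T ψ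
  disj : ∀ ψ ∈ Vert (Cyc L T Set.univ), ∀ ψ' ∈ Vert (Cyc L T Set.univ), ψ ≠ ψ' →
    ∀ᶠ g in μ.ae, g ∈ Reg L T ψ → g ∉ Reg L T ψ'
  rep : ∀ ψ ∈ Vert (Cyc L T Set.univ), ∀ w, ∀ᶠ g in μ.ae, g ∈ Reg L T ψ →
    Rep (Cyc L T Set.univ) ψ (w + L.P g)
  right : ∀ ψ ∈ Vert (Cyc L T Set.univ), ∀ a, ∀ᶠ g in μ.ae, g ∈ Reg L T ψ ↔ g * a ∈ Reg L T ψ
  left : ∀ ψ ∈ Vert (Cyc L T Set.univ), ∀ v, ∀ᶠ g in μ.ae,
    g ∈ Reg L T ψ ↔ L.ι v * g ∈ Reg L T ψ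
  near : ∀ ψ ∈ Vert (Cyc L T Set.univ), ∃ A : ℝ, ∀ᶠ g in μ.ae, g ∈ Reg L T ψ →
    |(len T g : ℝ) - ψ (L.P g) / L.N| ≤ A
  pos : Pos L μ → ∀ ψ ∈ Vert (Cyc L T Set.univ), 0 < μ.D (Reg L T ψ)
  loop : ∀ ψ ∈ Vert (Cyc L T Set.univ), (∃ v, L.ι v ∈ T ∧ ψ v = 1) → ∀ p, 0 < p →
    μ.Eqd (len T) p (Reg L T ψ)

def RegStmt : Prop :=
  ∀ (n : ℕ) (L : Lat G n) (T : Set G) (μ : Mean G), Gen T → RegF L T μ

/-! ### the generating set attached to a table -/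

def GeoStmt : Prop := ∀ (n : ℕ) (L : Lat G n), 0 < n → Nonempty (Geo L)

def ParStmt : Prop := ∀ (n : ℕ) (L : Lat G n) (Γ : Geo L) (Δ : Des Γ), Nonempty Δ.Par

def GenStmt : Prop := ∀ (n : ℕ) (L : Lat G n) (Γ : Geo L) (Δ : Des Γ) (π : Δ.Par), Gen π.T

def LetterStmt : Prop :=
  ∀ (n : ℕ) (L : Lat G n) (Γ : Geo L) (Δ : Des Γ) (π : Δ.Par), ∀ α ∈ Γ.O, ∀ u : G, ∀ s ∈ π.T,
    Γ.B α (L.ρ u (L.P s)) ≤ π.m - π.ω * Δ.dT s (L.ρ u⁻¹ α) +
      Γ.B α (Δ.Pi α (u * s)) - Γ.B α (Δ.Pi α u) ∧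
    (Γ.B α (L.ρ u (L.P s)) = π.m + Γ.B α (Δ.Pi α (u * s)) - Γ.B α (Δ.Pi α u) → π.Top α u s)

def VertStmt : Prop :=
  ∀ (n : ℕ) (L : Lat G n) (Γ : Geo L) (Δ : Des Γ) (π : Δ.Par), ∀ α ∈ Γ.O,
    (∀ l : List G, (∀ s ∈ l, s ∈ π.T) →
      Γ.B α (L.P l.prod) ≤ l.length * π.m - π.ω * cost L Δ.dT α l + 31 * π.E3) ∧
    π.φ α ∈ Vert (Cyc L π.T Set.univ) ∧
    ∀ c ∈ Cyc L π.T Set.univ, π.φ α c.1 = c.2 → π.Sum α c.1 c.2

def ClsStmt : Prop :=
  ∀ (n : ℕ) (L : Lat G n) (Γ : Geo L) (Δ : Des Γ) (π : Δ.Par),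
    ∀ ψ ∈ Vert (Cyc L π.T Set.univ), (∃ v, L.ι v ∈ π.T ∧ ψ v = 1) ∨ ∃ α ∈ Γ.O, ψ = π.φ α

/-- rounding: the vector part of the upper bound -/
def RoundStmt : Prop :=
  ∀ (n : ℕ) (L : Lat G n) (Γ : Geo L) (Δ : Des Γ) (π : Δ.Par), ∀ α ∈ Γ.O,
    ∀ (C : Set (Zn n × ℕ)) (a : Zn n) (j D : ℕ), (∀ c ∈ C, π.φ α c.1 = c.2 → π.Sum α c.1 c.2) →
    Rep C (π.φ α) a → D ≤ 6 → ((j : ℤ) - 5) * π.m ≤ Γ.B α a →
    π.m * (D * π.κ) ≤ π.K * (j * π.m - Γ.B α a) →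
    ∃ vs : List (Zn n), vs.length = j ∧ (∀ v ∈ vs, v ∈ π.th' α) ∧ ∀ i,
      |(a + (L.N * D * π.κ) • α - (L.N • vs.sum + j • Δ.Z α)) i| ≤
        L.N * (∑ w ∈ (Γ.fin π.E1).toFinset, |w i| + |α i|) + 5 * |Δ.Z α i|

def UpStmt : Prop :=
  ∀ (n : ℕ) (L : Lat G n) (Γ : Geo L) (Δ : Des Γ) (π : Δ.Par), ∀ α ∈ Γ.O, ∀ (g r₁ r₂ : G)
    (l : List G), Rep (Cyc L π.T Set.univ) (π.φ α) (L.P (L.ι (-(2 * π.K) • α) * g)) →
    Path L Δ.Tp (L.ρ r₁⁻¹ α) l → L.cl (r₁ * l.prod * r₂) = L.cl g →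
    ((l.length : ℤ) - 2) * π.m ≤ Γ.B α (L.P g) →
    Γ.B α (L.P g) ≤ (l.length + 2) * π.m -
      π.ω * (Δ.df r₁ α + Δ.df r₂ (L.ρ (r₁ * l.prod)⁻¹ α) : ℕ) - 31 * π.E3 →
    g ∈ π.T ^ (l.length + 2)

/-! ### the bias -/

def BiasAStmt : Prop :=
  ∀ (n : ℕ) (L : Lat G n) (Γ : Geo L) (Δ : Des Γ) (T : Set G) (K m ω e : ℤ)
    (φ : Zn n → Zn n →+ ℝ) (μ : Mean G) (p : ℕ), Δ.Out T K m ω e φ → RegF L T μ → 0 < p →
    μ.Eqd (len T) p Set.univ →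
    μ.Eqd (len T) p {g | ∃ α ∈ Γ.O, Δ.NT α ∧ g ∈ Reg L T (φ α) ∧ Δ.NT (L.ρ g⁻¹ α)}

def BiasBStmt : Prop :=
  ∀ (n : ℕ) (L : Lat G n) (Γ : Geo L) (Δ : Des Γ) (T : Set G) (K m ω e : ℤ)
    (φ : Zn n → Zn n →+ ℝ) (μ : Mean G) (p r : ℕ), Δ.Out T K m ω e φ → RegF L T μ → Pos L μ →
    Δ.Osc p r → ∀ α ∈ Γ.O, Δ.NT α →
    μ.D {g | g ∈ Reg L T (φ α) ∧ Δ.NT (L.ρ g⁻¹ α)} <
      p * μ.D ({g | g ∈ Reg L T (φ α) ∧ Δ.NT (L.ρ g⁻¹ α)} ∩ {g | len T g % p = r})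

def Case1Stmt : Prop :=
  ∀ (n : ℕ) (L : Lat G n) (Γ : Geo L), (∃ g h, L.ρ g ≠ 1 ∧ L.ρ h ≠ 1 ∧ L.ρ (g * h) ≠ 1) →
    ∃ Δ : Des Γ, Δ.Osc 2 1

def Case2Stmt : Prop :=
  ∀ (n : ℕ) (L : Lat G n) (Γ : Geo L), (∀ g h, L.ρ g ≠ 1 → L.ρ h ≠ 1 → L.ρ (g * h) = 1) →
    (∃ t, L.ρ t ≠ 1 ∧ L.ρ t ≠ -1) → (∃ a b, L.ρ a = 1 ∧ L.ρ b = 1 ∧ a * b ≠ b * a) →
    ∃ Δ : Des Γ, Δ.Osc (4 * L.N) 3

end Pool.Agent.MP_b3b911_al.VA

end

section

namespace Pool.Agent.MP_b3b911_al.VA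

open Filter Topology Pointwise

variable {G : Type*} [Group G]

/-- the powers of a finitely generated commutative group form a lattice -/
theorem lat1_comm (H : Type*) [CommGroup H] [Group.FG H] :
    ∃ (n e : ℕ) (j : Zn n → H), e ≠ 0 ∧ (∀ v w, j (v + w) = j v * j w) ∧ Function.Injective j ∧
      (∀ v, ∃ x, j v = x ^ e) ∧ ∀ x, ∃ v, j v = x ^ e := by
  obtain ⟨n, ι, fι, p, hp, e, ⟨f⟩⟩ := AddCommGroup.equiv_free_prod_directSum_zmod (Additive H)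
  let E : ℕ := ∏ i, p i ^ e i
  have hE : E ≠ 0 := Finset.prod_ne_zero_iff.2 fun i _ => pow_ne_zero _ (hp i).ne_zero
  have hT : ∀ t : DirectSum ι fun i => ZMod (p i ^ e i), E • t = 0 := fun t => by
    ext i
    obtain ⟨c, hc⟩ : p i ^ e i ∣ E := Finset.dvd_prod_of_mem _ (Finset.mem_univ i)
    rw [DirectSum.smul_apply, DirectSum.zero_apply, nsmul_eq_mul, hc, Nat.cast_mul,
      ZMod.natCast_self, zero_mul, zero_mul]
  let s : Zn n ≃+ (Fin n →₀ ℤ) := Finsupp.addEquivFunOnFinite.symm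
  let k : Zn n →+ Additive H := f.symm.toAddMonoidHom.comp
    ((AddMonoidHom.inl _ _).comp s.toAddMonoidHom)
  have hk : ∀ v, k v = f.symm (s v, 0) := fun _ => rfl
  refine ⟨n, E, fun v => (E • k v).toMul, hE, fun v w => ?_, fun v w h => ?_, fun v => ?_,
    fun x => ?_⟩
  · beta_reduce
    rw [map_add, smul_add, toMul_add]
  · have h1 : E • k v = E • k w := Additive.toMul.injective h
    rw [← map_nsmul, ← map_nsmul, hk, hk] at h1
    have h2 := s.injective (Prod.mk.inj (f.symm.injective h1)).1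
    exact smul_right_injective _ hE h2
  · exact ⟨(k v).toMul, toMul_nsmul _ _⟩
  · refine ⟨s.symm (f (Additive.ofMul x)).1, ?_⟩
    have h1 : E • k (s.symm (f (Additive.ofMul x)).1) = E • Additive.ofMul x := by
      apply f.injective
      rw [hk, map_nsmul, map_nsmul, f.apply_symm_apply, s.apply_symm_apply]
      exact Prod.ext rfl ((hT _).trans (hT _).symm)
    change (E • k (s.symm (f (Additive.ofMul x)).1)).toMul = _
    rw [h1, toMul_nsmul, toMul_ofMul]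

theorem lat1_stmt : Lat1Stmt G := by
  classical
  rintro hG ⟨A, hA, hc⟩
  let A0 : Subgroup G := A.normalCore
  have hn : A0.Normal := A.normalCore_normal
  have hf : A0.FiniteIndex := A.finiteIndex_normalCore
  let cg : CommGroup A0 :=
    { (inferInstance : Group A0) with
      mul_comm := fun a b => Subtype.ext (hc _ (A.normalCore_le a.2) _ (A.normalCore_le b.2)) }
  have fg : Group.FG A0 := Subgroup.fg_of_index_ne_zero A0
  obtain ⟨n, e, j, he, h1, h2, h3, h4⟩ := @lat1_comm A0 cg fg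
  have hp := @Subgroup.finiteIndex_range_powMonoidHom_of_fg A0 cg fg e he
  let K : Subgroup G := (powMonoidHom (α := A0) e).range.map A0.subtype
  have hK : K.FiniteIndex := ⟨by
    rw [Subgroup.index_map_subtype]
    exact mul_ne_zero hp.index_ne_zero hf.index_ne_zero⟩
  have hK' : ∀ g ∈ K, ∃ v, g = (j v : G) := by
    rintro _ ⟨_, ⟨x, rfl⟩, rfl⟩
    obtain ⟨v, hv⟩ := h4 x
    exact ⟨v, congrArg Subtype.val hv.symm⟩
  refine ⟨n, fun v => (j v : G), fun v w => congrArg Subtype.val (h1 v w),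
    Subtype.val_injective.comp h2, fun g v => ?_, ?_⟩
  · obtain ⟨x, hx⟩ := h3 v
    obtain ⟨w, hw⟩ := h4 ⟨g * x * g⁻¹, hn.conj_mem _ x.2 g⟩
    refine ⟨w, ?_⟩
    have e1 : (j v : G) = (x : G) ^ e := congrArg Subtype.val hx
    have e2 : (j w : G) = (g * x * g⁻¹) ^ e := congrArg Subtype.val hw
    change g * (j v : G) = (j w : G) * g
    rw [e1, e2, conj_pow, inv_mul_cancel_right]
  · have : Fintype (G ⧸ K) := Fintype.ofFinite _
    refine ⟨Finset.univ.image fun q : G ⧸ K => (q.out)⁻¹, fun g => ?_⟩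
    obtain ⟨x, hx⟩ := QuotientGroup.mk_out_eq_mul K g⁻¹
    obtain ⟨v, hv⟩ := hK' _ x.2
    refine ⟨_, Finset.mem_image_of_mem _ (Finset.mem_univ (QuotientGroup.mk g⁻¹)), v, ?_⟩
    change g = (j v : G) * _
    rw [hx, ← hv, mul_inv_rev, inv_inv, mul_inv_cancel_left]

end Pool.Agent.MP_b3b911_al.VA

end

section

/-! Virtually abelian groups: the invariant form, the generic vector and the parameters. -/

namespace Pool.Agent.MP_b3b911_al.VA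

open Filter Topology Pointwise

variable {G : Type*} [Group G]

/-- the averaged form -/
def parB {n : ℕ} (L : Lat G n) : Zn n →+ Zn n →+ ℤ :=
  AddMonoidHom.mk' (fun x => AddMonoidHom.mk'
    (fun y => ∑ f, ∑ i, L.ρ (L.rep f) x i * L.ρ (L.rep f) y i) fun y z => by
      simp only [map_add, Pi.add_apply, mul_add, Finset.sum_add_distrib]) fun x z => by
    refine AddMonoidHom.ext fun y => ?_
    simp only [map_add, Pi.add_apply, add_mul, Finset.sum_add_distrib, AddMonoidHom.mk'_apply,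
      AddMonoidHom.add_apply]

theorem parB_apply {n : ℕ} (L : Lat G n) (x y : Zn n) :
    parB L x y = ∑ f, ∑ i, L.ρ (L.rep f) x i * L.ρ (L.rep f) y i := rfl

theorem parB_inv {n : ℕ} (L : Lat G n) (g : G) (x y : Zn n) :
    parB L (L.ρ g x) (L.ρ g y) = parB L x y := by
  have hi : Function.Injective fun f => L.cl (L.rep f * g) := fun f f' e => by
    have := (L.cl_mul_right_iff _ _ _).1 e
    rwa [L.cl_rep, L.cl_rep] at this
  rw [parB_apply, parB_apply]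
  refine Fintype.sum_bijective _ (Finite.injective_iff_bijective.1 hi) _ _ fun f => ?_
  rw [L.ρ_rep, L.ρ_mul_apply, L.ρ_mul_apply]

theorem parB_ge {n : ℕ} (L : Lat G n) (x : Zn n) (i : Fin n) : x i * x i ≤ parB L x x := by
  rw [parB_apply]
  refine le_trans ?_ (Finset.single_le_sum
    (f := fun f => ∑ i, L.ρ (L.rep f) x i * L.ρ (L.rep f) x i)
    (fun f _ => Finset.sum_nonneg fun i _ => mul_self_nonneg _) (Finset.mem_univ (L.cl 1)))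
  simp only [L.ρ_rep, L.ρ_one_apply]
  exact Finset.single_le_sum (f := fun i => x i * x i) (fun i _ => mul_self_nonneg _)
    (Finset.mem_univ i)

theorem par_box {n : ℕ} (E : ℤ) : {x : Zn n | ∀ i, |x i| ≤ E}.Finite :=
  (Set.Finite.pi' fun _ : Fin n => Set.finite_Icc (-E) E).subset fun _ hx i => abs_le.1 (hx i)

theorem par_generic {n : ℕ} (S : Set (Module.End ℤ (Zn n))) (hS : S.Finite) (h0 : 0 ∉ S) :
    ∃ x, ∀ φ ∈ S, φ x ≠ 0 := by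
  induction S, hS using Set.Finite.induction_on with
  | empty => exact ⟨0, by simp⟩
  | @insert φ S _ hS ih =>
    obtain ⟨x, hx⟩ := ih fun h => h0 (Set.mem_insert_of_mem _ h)
    obtain ⟨y, hy⟩ : ∃ y, φ y ≠ 0 := by
      by_contra h
      push Not at h
      exact h0 (Or.inl (LinearMap.ext h).symm)
    have h1 : (⋃ ψ ∈ insert φ S, {t : ℤ | ψ (x + t • y) = 0}).Finite := by
      refine (hS.insert φ).biUnion fun ψ hψ => Set.Subsingleton.finite fun t ht t' ht' => ?_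
      by_contra hne
      have e : ψ x + t • ψ y = 0 := by rw [← map_zsmul, ← map_add]; exact ht
      have e' : ψ x + t' • ψ y = 0 := by rw [← map_zsmul, ← map_add]; exact ht'
      have e1 : (t - t') • ψ y = 0 := by
        rw [sub_smul, sub_eq_zero]
        exact add_left_cancel (e.trans e'.symm)
      have e2 : ψ y = 0 := (smul_eq_zero.1 e1).resolve_left (sub_ne_zero.2 hne)
      rcases hψ with rfl | hψ
      · exact hy e2
      · rw [e2, smul_zero, add_zero] at e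
        exact hx ψ hψ e
    obtain ⟨t, ht⟩ := h1.exists_notMem
    exact ⟨x + t • y, fun ψ hψ e => ht (Set.mem_biUnion hψ e)⟩

theorem geo_stmt : GeoStmt G := by
  intro n L hn
  have hf : (insert 1 ((fun φ => φ - 1) '' Set.range L.ρ ∪ (fun φ => φ + 1) '' Set.range L.ρ) \
      {0}).Finite := (((L.finite_ρ.image _).union (L.finite_ρ.image _)).insert 1).sdiff
  obtain ⟨c, hc⟩ := par_generic _ hf fun h => h.2 rfl
  have h1 : (1 : Module.End ℤ (Zn n)) ≠ 0 := fun h => by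
    have := congrFun (LinearMap.congr_fun h 1) ⟨0, hn⟩
    simp at this
  refine ⟨⟨parB L, c, fun x y => ?_, parB_inv L, fun x hx => ?_, fun E => ?_,
    hc 1 ⟨Or.inl rfl, h1⟩, fun g hg => ?_, fun g hg => ?_⟩⟩
  · simp only [parB_apply, mul_comm]
  · obtain ⟨i, hi⟩ := Function.ne_iff.1 hx
    exact (mul_self_pos.2 hi).trans_le (parB_ge L x i)
  · refine (par_box E).subset fun x hx i => ?_
    have h2 := (parB_ge L x i).trans hx
    rw [← abs_mul_abs_self] at h2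
    have h3 := abs_nonneg (x i)
    nlinarith [Int.le_self_sq |x i|]
  · by_contra h
    refine hc _ ⟨Or.inr (Or.inl ⟨_, ⟨g, rfl⟩, rfl⟩), fun e => h (sub_eq_zero.1 e)⟩ ?_
    simp [hg]
  · by_contra h
    refine hc _ ⟨Or.inr (Or.inr ⟨_, ⟨g, rfl⟩, rfl⟩), fun e => h (eq_neg_of_add_eq_zero_left e)⟩ ?_
    simp [hg]

theorem par_bd {X : Type*} {S : Set X} (hS : S.Finite) (F : X → ℤ) : ∃ E, ∀ x ∈ S, F x ≤ E :=
  let ⟨E, hE⟩ := (hS.image F).bddAbove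
  ⟨E, fun x hx => hE ⟨x, hx, rfl⟩⟩

theorem par_stmt : ParStmt G := by
  intro n L Γ Δ
  have hO := Γ.finite_O
  have hP : (⋃ α ∈ Γ.O, Set.range (Δ.Pi α)).Finite :=
    hO.biUnion fun α _ => L.finite_range _ (Δ.Pi_cl α)
  have hP' : ∀ α ∈ Γ.O, ∀ u, Δ.Pi α u ∈ ⋃ α ∈ Γ.O, Set.range (Δ.Pi α) := fun α h u =>
    Set.mem_biUnion h ⟨u, rfl⟩
  have hR : (⋃ f, Set.range fun u => L.ρ u (L.P (L.rep f))).Finite :=
    Set.finite_iUnion fun f => L.finite_orbit _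
  obtain ⟨E1, h1⟩ := par_bd (hO.prod (Set.finite_univ (α := Fin n))) fun x =>
    Γ.B (Γ.B Γ.c0 Γ.c0 • Pi.single x.2 1 - Γ.B x.1 (Pi.single x.2 1) • x.1)
      (Γ.B Γ.c0 Γ.c0 • Pi.single x.2 1 - Γ.B x.1 (Pi.single x.2 1) • x.1)
  obtain ⟨E4, h4⟩ := par_bd (hO.prod ((Set.finite_univ (α := Fin n)).prod
    (hP.prod (hP.prod ((Set.finite_univ (α := Fin L.N)).prod hR))))) fun x =>
      ∑ w ∈ (Γ.fin (max E1 0)).toFinset, |w x.2.1| + |x.1 x.2.1| + 5 * |Δ.Z x.1 x.2.1| +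
        |x.2.2.1 x.2.1| + |x.2.2.2.1 x.2.1| + |L.P (L.rep x.2.2.2.2.1) x.2.1| +
        |x.2.2.2.2.2 x.2.1|
  have hS : ((((Set.range fun i : Fin n => (Pi.single i 1 : Zn n)) ∪
      L.P '' {t | ∃ c, Δ.Tp t c}) ∪ Δ.Z '' Γ.O) ∪ (⋃ α ∈ Γ.O, Set.range (Δ.Pi α)) ∪
      (fun x : Zn n × Fin L.N => L.P (L.ι x.1 * L.rep x.2)) ''
        ({x | ∀ i, |x i| ≤ E4} ×ˢ Set.univ)).Finite :=
    ((((Set.finite_range _).union (Δ.tfin.image _)).union (hO.image _)).union hP).union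
      (((par_box E4).prod Set.finite_univ).image _)
  obtain ⟨E2, h2⟩ := par_bd hS fun x => Γ.B x x
  obtain ⟨E3, h3⟩ := par_bd (hO.prod (Γ.fin (max E2 (max E1 0)))) fun x => |Γ.B x.1 x.2|
  refine ⟨⟨max E1 0, max E2 (max E1 0), E3, E4, (5 * Γ.B Γ.c0 Γ.c0 + 5 * E3 + 5).toNat,
    20 * ((5 * Γ.B Γ.c0 Γ.c0 + 5 * E3 + 5).toNat + 1) +
      (200 * L.N * (E3 + L.N * Γ.B Γ.c0 Γ.c0)).toNat,
    fun α h i => (h1 (α, i) ⟨h, trivial⟩).trans (le_max_left _ _), le_max_right _ _,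
    le_max_right _ _, fun i => ?_, fun t c h => ?_, fun α h => ?_, fun α h u => ?_,
    fun x f h => ?_, fun α h x hx => h3 (α, x) ⟨h, hx⟩, fun α h i u u' u'' f f' => ?_,
    Int.self_le_toNat _, Nat.le_add_right _ _, ?_⟩⟩
  · exact (h2 _ (Or.inl (Or.inl (Or.inl (Or.inl ⟨i, rfl⟩))))).trans (le_max_left _ _)
  · exact (h2 _ (Or.inl (Or.inl (Or.inl (Or.inr ⟨t, ⟨c, h⟩, rfl⟩))))).trans (le_max_left _ _)
  · exact (h2 _ (Or.inl (Or.inl (Or.inr ⟨α, h, rfl⟩)))).trans (le_max_left _ _)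
  · exact (h2 _ (Or.inl (Or.inr (hP' α h u)))).trans (le_max_left _ _)
  · exact (h2 _ (Or.inr ⟨(x, f), ⟨h, trivial⟩, rfl⟩)).trans (le_max_left _ _)
  · exact h4 (α, i, Δ.Pi α u, Δ.Pi α u', f, L.ρ u'' (L.P (L.rep f')))
      ⟨h, trivial, hP' α h u, hP' α h u', trivial, Set.mem_iUnion.2 ⟨f', u'', rfl⟩⟩
  · have := Int.self_le_toNat (200 * L.N * (E3 + L.N * Γ.B Γ.c0 Γ.c0))
    push_cast
    omega

end Pool.Agent.MP_b3b911_al.VA

end
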