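import Pool.Agent.Mg.Fb3b911a.G1879f9

section

/-! Virtually abelian groups: the table for actions with at least three values. -/

namespace Pool.Agent.MP_b3b911_al.VA

open Filter Topology Pointwise

variable {G : Type*} [Group G] {n : ℕ} {L : Lat G n}

/-- first half of the tight nodes -/
def case1A (Γ : Geo L) (t : G) (c : Zn n) : Prop := c = Γ.c0 ∨ c = -L.ρ t⁻¹ Γ.c0

/-- second half of the tight nodes -/
def case1B (Γ : Geo L) (t : G) (c : Zn n) : Prop := c = L.ρ t⁻¹ Γ.c0 ∨ c = -Γ.c0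

/-- free letters -/
def case1Tp (Γ : Geo L) (t s : G) (c : Zn n) : Prop :=
  (s = t ∧ (c = Γ.c0 ∨ c = -Γ.c0)) ∨ (s = t⁻¹ ∧ (c = L.ρ t⁻¹ Γ.c0 ∨ c = -L.ρ t⁻¹ Γ.c0))

/-- nodes with a correction term -/
def case1J (Γ : Geo L) (t : G) (c : Zn n) : Prop :=
  c = L.ρ t⁻¹ Γ.c0 ∨ (c = -L.ρ t⁻¹ Γ.c0 ∧ L.ρ t⁻¹ Γ.c0 ≠ -Γ.c0)

/-- letters of cost one -/
def case1C (Γ : Geo L) (t : G) (c c' : Zn n) : Prop :=
  (¬ (case1A Γ t c ∨ case1B Γ t c) ∧ case1A Γ t c') ∨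
    (case1B Γ t c ∧ ¬ (case1A Γ t c' ∨ case1B Γ t c'))

theorem case1_ne (Γ : Geo L) {t : G} (ht : L.ρ t ≠ 1) : L.ρ t⁻¹ Γ.c0 ≠ Γ.c0 := fun h =>
  ht (L.ρ_inv_eq_one.1 (Γ.gen1 _ h))

theorem case1_disj (Γ : Geo L) {t : G} (ht : L.ρ t ≠ 1) {c : Zn n} (h : case1A Γ t c)
    (h' : case1B Γ t c) : False := by
  have h1 := case1_ne Γ ht
  have h2 := Γ.ne_neg Γ.c0_mem
  have h3 := Γ.ne_neg (Γ.ρ_mem Γ.c0_mem t⁻¹)
  rcases h with h | h <;> rcases h' with h' | h'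
  · exact h1 (h'.symm.trans h)
  · exact h2 (h.symm.trans h')
  · exact h3 (h'.symm.trans h)
  · exact h1 (neg_injective (h.symm.trans h'))

theorem case1_negA (Γ : Geo L) (t : G) (c : Zn n) : case1A Γ t (-c) ↔ case1B Γ t c := by
  unfold case1A case1B
  rw [neg_inj, neg_eq_iff_eq_neg, or_comm]

theorem case1_negB (Γ : Geo L) (t : G) (c : Zn n) : case1B Γ t (-c) ↔ case1A Γ t c := by
  rw [← case1_negA, neg_neg]

theorem case1_tight (Γ : Geo L) (t : G) (c : Zn n) :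
    (∃ s, case1Tp Γ t s c) ↔ case1A Γ t c ∨ case1B Γ t c := by
  unfold case1A case1B case1Tp
  constructor
  · rintro ⟨s, ⟨-, h | h⟩ | ⟨-, h | h⟩⟩ <;> simp only [h, true_or, or_true]
  · rintro ((h | h) | h | h)
    · exact ⟨t, Or.inl ⟨rfl, Or.inl h⟩⟩
    · exact ⟨t⁻¹, Or.inr ⟨rfl, Or.inr h⟩⟩
    · exact ⟨t⁻¹, Or.inr ⟨rfl, Or.inl h⟩⟩
    · exact ⟨t, Or.inl ⟨rfl, Or.inr h⟩⟩

theorem case1_move (Γ : Geo L) {t s : G} {c : Zn n} (h : case1Tp Γ t s c) :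
    (case1A Γ t c ∧ case1B Γ t (L.ρ s⁻¹ c)) ∨ (case1B Γ t c ∧ case1A Γ t (L.ρ s⁻¹ c)) := by
  rcases h with ⟨rfl, rfl | rfl⟩ | ⟨rfl, rfl | rfl⟩
  · exact Or.inl ⟨Or.inl rfl, Or.inl rfl⟩
  · exact Or.inr ⟨Or.inr rfl, Or.inr (map_neg _ _)⟩
  · exact Or.inr ⟨Or.inl rfl, Or.inl (by simp)⟩
  · exact Or.inl ⟨Or.inr rfl, Or.inr (by simp)⟩

theorem case1_J0 (Γ : Geo L) {t : G} (ht : L.ρ t ≠ 1) : ¬ case1J Γ t Γ.c0 := by
  rintro (h | ⟨h, h'⟩)
  · exact case1_ne Γ ht h.symm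
  · exact h' (by rw [eq_neg_iff_add_eq_zero] at h ⊢; rwa [add_comm])

theorem case1_J1 (Γ : Geo L) {t : G} (ht : L.ρ t ≠ 1) (e : L.ρ t⁻¹ Γ.c0 ≠ -Γ.c0) :
    ¬ case1J Γ t (-Γ.c0) := by
  rintro (h | ⟨h, -⟩)
  · exact e h.symm
  · exact case1_ne Γ ht (neg_injective h).symm

theorem case1_J2 (Γ : Geo L) {t : G} (e : L.ρ t⁻¹ Γ.c0 = -Γ.c0) :
    ¬ case1J Γ t (-L.ρ t⁻¹ Γ.c0) := by
  rintro (h | ⟨-, h⟩)
  · exact Γ.ne_neg (Γ.ρ_mem Γ.c0_mem t⁻¹) h.symm
  · exact h e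

open Classical in
/-- the correction term -/
noncomputable def case1Pi (Γ : Geo L) (t : G) (α : Zn n) (u : G) : Zn n :=
  if case1J Γ t (L.ρ u⁻¹ α) then L.ρ (u * t⁻¹) (L.P t) else 0

theorem case1_Pi_pos (Γ : Geo L) {t u : G} {α : Zn n} (h : case1J Γ t (L.ρ u⁻¹ α)) :
    case1Pi Γ t α u = L.ρ (u * t⁻¹) (L.P t) := if_pos h

theorem case1_Pi_neg (Γ : Geo L) {t u : G} {α : Zn n} (h : ¬ case1J Γ t (L.ρ u⁻¹ α)) :
    case1Pi Γ t α u = 0 := if_neg h

theorem case1_coc (Γ : Geo L) {t : G} (ht : L.ρ t ≠ 1) (s : G) (c : Zn n) (u : G)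
    (h : case1Tp Γ t s c) :
    L.ρ u (L.P s) = 0 + case1Pi Γ t (L.ρ u c) (u * s) - case1Pi Γ t (L.ρ u c) u := by
  have e1 : L.ρ (u * s)⁻¹ (L.ρ u c) = L.ρ s⁻¹ c := by
    rw [mul_inv_rev, L.ρ_mul_apply, L.ρ_inv_apply]
  have e2 : L.ρ u⁻¹ (L.ρ u c) = c := L.ρ_inv_apply _ _
  rcases h with ⟨rfl, rfl | rfl⟩ | ⟨rfl, rfl | rfl⟩
  · rw [case1_Pi_pos Γ (by rw [e1]; exact Or.inl rfl),
      case1_Pi_neg Γ (by rw [e2]; exact case1_J0 Γ ht)]
    simp
  · by_cases e : L.ρ s⁻¹ Γ.c0 = -Γ.c0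
    · rw [case1_Pi_neg Γ (by rw [e1, map_neg]; exact case1_J2 Γ e),
        case1_Pi_pos Γ (by rw [e2]; exact Or.inl e.symm), L.ρ_mul_apply, Γ.gen2 _ e]
      simp
    · rw [case1_Pi_pos Γ (by rw [e1]; exact Or.inr ⟨map_neg _ _, e⟩),
        case1_Pi_neg Γ (by rw [e2]; exact case1_J1 Γ ht e)]
      simp
  · rw [case1_Pi_neg Γ (by rw [e1, inv_inv, L.ρ_apply_inv]; exact case1_J0 Γ ht),
      case1_Pi_pos Γ (by rw [e2]; exact Or.inl rfl), L.P_inv, L.ρ_mul_apply]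
    simp
  · by_cases e : L.ρ t⁻¹ Γ.c0 = -Γ.c0
    · rw [case1_Pi_pos Γ (by rw [e1, inv_inv, map_neg, L.ρ_apply_inv]; exact Or.inl e.symm),
        case1_Pi_neg Γ (by rw [e2]; exact case1_J2 Γ e), L.P_inv, L.ρ_mul_apply, L.ρ_mul_apply,
        Γ.gen2 _ e]
      simp
    · rw [case1_Pi_neg Γ (by rw [e1, inv_inv, map_neg, L.ρ_apply_inv]; exact case1_J1 Γ ht e),
        case1_Pi_pos Γ (by rw [e2]; exact Or.inr ⟨rfl, e⟩), L.P_inv, L.ρ_mul_apply]
      simp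

open Classical in
/-- the next free letter -/
noncomputable def case1nx (Γ : Geo L) (t : G) (c : Zn n) : G :=
  if c = Γ.c0 ∨ c = -Γ.c0 then t else t⁻¹

theorem case1_nx_tp (Γ : Geo L) {t s : G} {c : Zn n} (h : case1Tp Γ t s c) :
    case1Tp Γ t (case1nx Γ t c) c := by
  unfold case1nx
  split_ifs with e
  · exact Or.inl ⟨rfl, e⟩
  · rcases h with ⟨-, h⟩ | ⟨-, h⟩
    · exact absurd h e
    · exact Or.inr ⟨rfl, h⟩

theorem case1_nx_mix (Γ : Geo L) {t s' : G} {c c' : Zn n} (h : c = Γ.c0 ∨ c = -Γ.c0)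
    (h' : case1Tp Γ t s' c') (e' : ¬ (c' = Γ.c0 ∨ c' = -Γ.c0))
    (e : L.ρ t⁻¹ c = L.ρ t⁻¹⁻¹ c') : False := by
  rcases h' with ⟨-, h'⟩ | ⟨-, h'⟩
  · exact e' h'
  · apply e'
    rcases h with rfl | rfl <;> rcases h' with rfl | rfl <;>
      simp only [inv_inv, map_neg, L.ρ_apply_inv] at e
    · exact Or.inl e
    · exact Or.inl (by rw [e, neg_neg])
    · exact Or.inr (neg_eq_iff_eq_neg.1 e)
    · exact Or.inr e

theorem case1_nx_inj (Γ : Geo L) {t s s' : G} {c c' : Zn n} (h : case1Tp Γ t s c)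
    (h' : case1Tp Γ t s' c')
    (e : L.ρ (case1nx Γ t c)⁻¹ c = L.ρ (case1nx Γ t c')⁻¹ c') : c = c' := by
  unfold case1nx at e
  split_ifs at e with a b b
  · simpa using congrArg (L.ρ t) e
  · exact (case1_nx_mix Γ a h' b e).elim
  · exact (case1_nx_mix Γ b h a e.symm).elim
  · simpa using congrArg (L.ρ t⁻¹) e

open Classical in
/-- the table -/
noncomputable def case1Des (Γ : Geo L) {t : G} (ht : L.ρ t ≠ 1) : Des Γ where
  Tp := case1Tp Γ t
  Z := fun _ => 0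
  Pi := case1Pi Γ t
  z := 0
  df := fun g c => if case1C Γ t c (L.ρ g⁻¹ c) then 1 else 2
  nx := case1nx Γ t
  tfin := (Set.toFinite ({t, t⁻¹} : Set G)).subset (by
    rintro s ⟨c, ⟨h, -⟩ | ⟨h, -⟩⟩
    · exact Or.inl h
    · exact Or.inr h)
  tO := by
    rintro s c (⟨-, rfl | rfl⟩ | ⟨-, rfl | rfl⟩)
    · exact Γ.c0_mem
    · exact Γ.neg_mem Γ.c0_mem
    · exact Γ.ρ_mem Γ.c0_mem _
    · exact Γ.neg_mem (Γ.ρ_mem Γ.c0_mem _)
  tinv := by
    rintro s c (⟨rfl, rfl | rfl⟩ | ⟨rfl, rfl | rfl⟩)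
    · exact Or.inr ⟨rfl, Or.inr rfl⟩
    · exact Or.inr ⟨rfl, Or.inl (by simp)⟩
    · exact Or.inl ⟨inv_inv _, Or.inr (by simp)⟩
    · exact Or.inl ⟨inv_inv _, Or.inl (by simp)⟩
  hz := fun _ _ => map_zero _
  coc := case1_coc Γ ht
  Pi_cl := fun α v u => by
    unfold case1Pi
    rw [L.ρ_inv_congr (L.ρ_ι_mul v u), mul_assoc, L.ρ_ι_mul]
  cyc := by
    rintro α ⟨g, rfl | rfl⟩
    · refine ⟨g, [t, t⁻¹], 0, by simp, by have := L.N_pos; simp; omega, ?_, by simp⟩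
      rw [L.ρ_inv_apply]
      exact ⟨Or.inl ⟨rfl, Or.inl rfl⟩, Or.inr ⟨rfl, Or.inl rfl⟩, trivial⟩
    · refine ⟨g, [t, t⁻¹], 0, by simp, by have := L.N_pos; simp; omega, ?_, by simp⟩
      rw [map_neg, L.ρ_inv_apply]
      exact ⟨Or.inl ⟨rfl, Or.inr rfl⟩, Or.inr ⟨rfl, Or.inr (map_neg _ _)⟩, trivial⟩
  df_cl := fun v g c => by rw [L.ρ_inv_congr (L.ρ_ι_mul v g)]
  df_pos := fun g c => by split_ifs <;> omega
  df_le := fun g c => by split_ifs <;> omega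
  df_inv := fun g c => by
    refine if_congr ?_ rfl rfl
    rw [inv_inv, map_neg, L.ρ_apply_inv]
    unfold case1C
    simp only [case1_negA, case1_negB]
    tauto
  nx_tp := fun s c h => ⟨case1_nx_tp Γ h, (case1_tight Γ t _).2 (by
    rcases case1_move Γ (case1_nx_tp Γ h) with h | h
    · exact Or.inr h.2
    · exact Or.inl h.2)⟩
  nx_inj := fun s c s' c' h h' e => case1_nx_inj Γ h h' e

theorem case1_NT (Γ : Geo L) {t : G} (ht : L.ρ t ≠ 1) (c : Zn n) :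
    (case1Des Γ ht).NT c ↔ ¬ (case1A Γ t c ∨ case1B Γ t c) := by
  rw [← case1_tight, not_exists]; rfl

theorem case1_dT (Γ : Geo L) {t : G} (ht : L.ρ t ≠ 1) (s : G) (c : Zn n) :
    ((case1Des Γ ht).dT s c = 0 ∧
      ((case1A Γ t c ∧ case1B Γ t (L.ρ s⁻¹ c)) ∨ (case1B Γ t c ∧ case1A Γ t (L.ρ s⁻¹ c)))) ∨
    ((case1Des Γ ht).dT s c = 1 ∧ case1C Γ t c (L.ρ s⁻¹ c)) ∨ (case1Des Γ ht).dT s c = 2 := by
  unfold Des.dT
  split_ifs with h
  · obtain ⟨s', h1, h2⟩ := h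
    refine Or.inl ⟨rfl, ?_⟩
    rw [L.ρ_inv_congr (L.ρ_of_cl h2)]
    exact case1_move Γ h1
  · by_cases e : case1C Γ t c (L.ρ s⁻¹ c)
    · exact Or.inr (Or.inl ⟨if_pos e, e⟩)
    · exact Or.inr (Or.inr (if_neg e))

theorem case1_low (Γ : Geo L) {t : G} (ht : L.ρ t ≠ 1) (l : List G) (c : Zn n)
    (h : ¬ (case1A Γ t (L.ρ l.prod⁻¹ c) ∨ case1B Γ t (L.ρ l.prod⁻¹ c))) :
    (0 < l.length → 1 ≤ cost L (case1Des Γ ht).dT c l) ∧
    (case1B Γ t c → l.length % 2 = 0 → 0 < l.length → 2 ≤ cost L (case1Des Γ ht).dT c l) ∧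
    (case1A Γ t c → l.length % 2 = 1 → 2 ≤ cost L (case1Des Γ ht).dT c l) ∧
    (¬ (case1A Γ t c ∨ case1B Γ t c) → l.length % 2 = 0 → 0 < l.length →
      3 ≤ cost L (case1Des Γ ht).dT c l) := by
  induction l generalizing c with
  | nil => simp
  | cons s l ih =>
    rw [List.prod_cons, mul_inv_rev, L.ρ_mul_apply] at h
    obtain ⟨i1, i2, i3, i4⟩ := ih _ h
    have d1 := @case1_disj _ _ _ _ Γ t ht c
    have d2 := @case1_disj _ _ _ _ Γ t ht (L.ρ s⁻¹ c)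
    have hd := case1_dT Γ ht s c
    unfold case1C at hd
    have h0 : l.length = 0 → ¬ (case1A Γ t (L.ρ s⁻¹ c) ∨ case1B Γ t (L.ρ s⁻¹ c)) := fun e => by
      obtain rfl := List.length_eq_zero_iff.1 e
      simpa using h
    simp only [cost, List.length_cons]
    generalize (case1Des Γ ht).dT s c = d at *
    generalize cost L (case1Des Γ ht).dT (L.ρ s⁻¹ c) l = k at *
    generalize l.length = m at *
    generalize case1A Γ t c = A at *
    generalize case1B Γ t c = B at *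
    generalize case1A Γ t (L.ρ s⁻¹ c) = A' at *
    generalize case1B Γ t (L.ρ s⁻¹ c) = B' at *
    by_cases A <;> by_cases B <;> by_cases A' <;> by_cases B' <;> simp_all <;> omega

theorem case1_path (Γ : Geo L) {t : G} (ht : L.ρ t ≠ 1) (j : ℕ) (c : Zn n) :
    (case1A Γ t c → j % 2 = 1 →
      ∃ l : List G, l.length = j ∧ Path L (case1Tp Γ t) c l ∧ case1B Γ t (L.ρ l.prod⁻¹ c)) ∧
    (case1B Γ t c → j % 2 = 0 →
      ∃ l : List G, l.length = j ∧ Path L (case1Tp Γ t) c l ∧ case1B Γ t (L.ρ l.prod⁻¹ c)) := by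
  induction j generalizing c with
  | zero => exact ⟨fun _ h => by omega, fun h _ => ⟨[], rfl, trivial, by simpa using h⟩⟩
  | succ j ih =>
    constructor
    · intro h hj
      obtain ⟨s, hs⟩ := (case1_tight Γ t c).2 (Or.inl h)
      rcases case1_move Γ hs with h' | h'
      · obtain ⟨l, h1, h2, h3⟩ := (ih _).2 h'.2 (by omega)
        exact ⟨s :: l, by simp [h1], ⟨hs, h2⟩, by
          rwa [List.prod_cons, mul_inv_rev, L.ρ_mul_apply]⟩
      · exact (case1_disj Γ ht h h'.1).elim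
    · intro h hj
      obtain ⟨s, hs⟩ := (case1_tight Γ t c).2 (Or.inr h)
      rcases case1_move Γ hs with h' | h'
      · exact (case1_disj Γ ht h'.1 h).elim
      · obtain ⟨l, h1, h2, h3⟩ := (ih _).1 h'.2 (by omega)
        exact ⟨s :: l, by simp [h1], ⟨hs, h2⟩, by
          rwa [List.prod_cons, mul_inv_rev, L.ρ_mul_apply]⟩

theorem case1_osc (Γ : Geo L) {t : G} (ht : L.ρ t ≠ 1)
    (hx : ∃ α ∈ Γ.O, ¬ (case1A Γ t α ∨ case1B Γ t α)) : (case1Des Γ ht).Osc 2 1 := by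
  classical
  refine ⟨le_rfl, by omega, ?_, fun α hα hn =>
    ⟨fun _ => 3, fun _ => 2, fun _ => by norm_num, ?_, ?_, ?_⟩⟩
  · obtain ⟨α, h1, h2⟩ := hx
    exact ⟨α, h1, (case1_NT Γ ht α).2 h2⟩
  · intro l h1 h2 h3
    exact (case1_low Γ ht l α ((case1_NT Γ ht _).1 h3)).2.2.2 ((case1_NT Γ ht _).1 hn)
      (by omega) (by omega)
  · intro j g h1 h2 h3
    have hr : ∃ r : G, case1A Γ t (L.ρ r⁻¹ α) := by
      obtain ⟨x, rfl | rfl⟩ := hα
      · exact ⟨x, Or.inl (L.ρ_inv_apply _ _)⟩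
      · exact ⟨x * t, Or.inr (by rw [mul_inv_rev, L.ρ_mul_apply, map_neg, L.ρ_inv_apply, map_neg])⟩
    obtain ⟨r, hr⟩ := hr
    obtain ⟨l, a1, a2, a3⟩ := (case1_path Γ ht j _).1 hr (by omega)
    refine ⟨r, (r * l.prod)⁻¹ * g, l, a1, a2, by rw [mul_inv_cancel_left], ?_⟩
    have e1 : (case1Des Γ ht).df r α = 1 := if_pos (Or.inl ⟨(case1_NT Γ ht _).1 hn, hr⟩)
    have e2 : (case1Des Γ ht).df ((r * l.prod)⁻¹ * g) (L.ρ (r * l.prod)⁻¹ α) = 1 := by
      refine if_pos (Or.inr ⟨?_, ?_⟩)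
      · rwa [mul_inv_rev, L.ρ_mul_apply]
      · rw [mul_inv_rev, inv_inv, L.ρ_mul_apply, L.ρ_apply_inv]
        exact (case1_NT Γ ht _).1 h3
    rw [e1, e2]
  · refine Finset.sum_lt_sum_of_nonempty ⟨L.cl 1, ?_⟩ fun _ _ => by omega
    rw [Finset.mem_filter, L.ρ_inv_congr (L.ρ_rep 1)]
    exact ⟨Finset.mem_univ _, by simpa using hn⟩

theorem case1_stmt : Case1Stmt G := by
  rintro n L Γ ⟨g, h, hg, hh, hgh⟩
  by_cases e : ∃ t, L.ρ t = -1
  · obtain ⟨t, ht⟩ := e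
    have hi : ∀ v, L.ρ t⁻¹ v = -v := fun v => by
      have := L.ρ_apply_inv t v
      rw [ht] at this
      exact neg_eq_iff_eq_neg.1 this
    have h1 : L.ρ t ≠ 1 := fun e => Γ.ne_neg Γ.c0_mem (by
      have := hi Γ.c0
      rwa [L.ρ_inv_eq_one.2 e] at this)
    have hx : ∃ x, L.ρ x ≠ 1 ∧ L.ρ x ≠ -1 := by
      by_contra hc
      push Not at hc
      apply hgh
      rw [map_mul, hc g hg, hc h hh]
      simp
    obtain ⟨x, x1, x2⟩ := hx
    refine ⟨_, case1_osc Γ h1 ⟨L.ρ x Γ.c0, Γ.ρ_mem Γ.c0_mem x, ?_⟩⟩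
    unfold case1A case1B
    rw [hi, neg_neg]
    rintro ((a | a) | a | a)
    exacts [x1 (Γ.gen1 _ a), x1 (Γ.gen1 _ a), x2 (Γ.gen2 _ a), x2 (Γ.gen2 _ a)]
  · push Not at e
    refine ⟨_, case1_osc Γ hg ⟨L.ρ h Γ.c0, Γ.ρ_mem Γ.c0_mem h, ?_⟩⟩
    rintro ((a | a) | a | a)
    · exact hh (Γ.gen1 _ a)
    · exact e (g * h) (Γ.gen2 _ (by rw [L.ρ_mul_apply, a, map_neg, L.ρ_apply_inv]))
    · exact hgh (Γ.gen1 _ (by rw [L.ρ_mul_apply, a, L.ρ_apply_inv]))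
    · exact e h (Γ.gen2 _ a)

end Pool.Agent.MP_b3b911_al.VA

end

section

/-! Virtually abelian groups: the table in the case of an action of order two. -/

namespace Pool.Agent.MP_b3b911_al.VA

open Filter Topology Pointwise

variable {G : Type*} [Group G]

theorem case2_sum {F : Type*} [DecidableEq F] (S : Finset F) {p1 p2 p3 : F} (m1 m2 : F)
    (h1 : p1 ∈ S) (h2 : p2 ∈ S) (h3 : p3 ∈ S) (h12 : p1 ≠ p2) (h13 : p1 ≠ p3) (h23 : p2 ≠ p3) :
    ∑ f ∈ S, (if f = p1 then 2 else if f = p2 ∨ f = p3 then 3 else 4 : ℕ) <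
      ∑ f ∈ S, (if f = m1 then 2 else if f = m2 then 3 else 4 : ℕ) := by
  have e1 : ∑ f ∈ S, ((if f = p1 then 2 else if f = p2 ∨ f = p3 then 3 else 4 : ℕ) +
      (if f = p1 then 2 else 0) + (if f = p2 then 1 else 0) + (if f = p3 then 1 else 0)) =
      ∑ _f ∈ S, 4 := Finset.sum_congr rfl fun f _ => by
    by_cases a : f = p1
    · subst a; simp [h12, h13]
    · by_cases b : f = p2
      · subst b; simp [a, h23]
      · by_cases c : f = p3
        · subst c; simp [a, b]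
        · simp [a, b, c]
  have e2 : ∑ _f ∈ S, 4 ≤ ∑ f ∈ S, ((if f = m1 then 2 else if f = m2 then 3 else 4 : ℕ) +
      (if f = m1 then 2 else 0) + (if f = m2 then 1 else 0)) := Finset.sum_le_sum fun f _ => by
    split_ifs <;> omega
  simp only [Finset.sum_add_distrib, Finset.sum_ite_eq', h1, h2, h3, if_true] at e1 e2
  split_ifs at e2 <;> omega

variable {n : ℕ} {L : Lat G n} {Γ : Geo L}

theorem case2_fix {g : G} (h : L.ρ g = 1) (v : Zn n) : L.ρ g⁻¹ v = v := by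
  rw [L.ρ_inv_eq_one.2 h]; rfl

theorem case2_path {Tp : G → Zn n → Prop} {x : G} {c : Zn n} (hx : L.ρ x = 1) (h : Tp x c)
    (j : ℕ) : Path L Tp c (List.replicate j x) := by
  induction j with
  | zero => trivial
  | succ j ih => exact ⟨h, by rwa [case2_fix hx]⟩

/-- the data at a node without free letters -/
structure case2_Dat (Δ : Des Γ) (α c : Zn n) (x u1 u2 : G) : Prop where
  nt : Δ.NT α
  tp : ∀ s, Δ.Tp s c ↔ s = x
  hx : L.ρ x = 1
  h1 : L.ρ u1 ≠ 1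
  h2 : L.ρ u2 ≠ 1
  two : ∀ g h, L.ρ g ≠ 1 → L.ρ h ≠ 1 → L.ρ (g * h) = 1
  sw : ∀ g, L.ρ g ≠ 1 → L.ρ g⁻¹ α = c ∧ L.ρ g⁻¹ c = α
  dα : ∀ g, Δ.df g α = if L.cl g = L.cl u1 then 1 else if L.cl g = L.cl u2 then 2 else 3
  dc : ∀ g, Δ.df g c = if L.cl g = L.cl u2⁻¹ then 1 else if L.cl g = L.cl u1⁻¹ then 2 else 3
  ne : L.cl u1 ≠ L.cl u2
  ne' : L.cl (u1 * x * u1⁻¹) ≠ L.cl (u2 * x * u2⁻¹)

namespace case2_Dat

variable {Δ : Des Γ} {α c : Zn n} {x u1 u2 : G} (h : case2_Dat Δ α c x u1 u2)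
include h

theorem dTα (s : G) : Δ.dT s α = Δ.df s α := by
  unfold Des.dT
  rw [if_neg]
  rintro ⟨t, ht, -⟩
  exact h.nt t ht

theorem dTc (s : G) : Δ.dT s c = if L.cl s = L.cl x then 0 else Δ.df s c := by
  unfold Des.dT
  simp [h.tp]

theorem d3α {s : G} (hs : L.ρ s = 1) : Δ.df s α = 3 := by
  rw [h.dα, if_neg fun e => h.h1 ((L.ρ_of_cl e).symm.trans hs),
    if_neg fun e => h.h2 ((L.ρ_of_cl e).symm.trans hs)]

theorem d3c {s : G} (hs : L.ρ s = 1) : Δ.df s c = 3 := by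
  rw [h.dc, if_neg fun e => h.h2 (L.ρ_inv_eq_one.1 ((L.ρ_of_cl e).symm.trans hs)),
    if_neg fun e => h.h1 (L.ρ_inv_eq_one.1 ((L.ρ_of_cl e).symm.trans hs))]

theorem nt_iff (g : G) : Δ.NT (L.ρ g⁻¹ α) ↔ L.ρ g = 1 := by
  refine ⟨fun e => ?_, fun e => by rw [case2_fix e]; exact h.nt⟩
  by_contra hg
  rw [(h.sw g hg).1] at e
  exact e x ((h.tp x).2 rfl)

theorem low (l : List G) :
    (L.ρ l.prod = 1 → l ≠ [] → 2 ≤ cost L Δ.dT α l) ∧
    (L.ρ l.prod ≠ 1 → 3 ≤ cost L Δ.dT c l ∨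
      (2 ≤ cost L Δ.dT c l ∧ L.cl l.prod = L.cl (x ^ (l.length - 1) * u1⁻¹)) ∨
      (1 ≤ cost L Δ.dT c l ∧ L.cl l.prod = L.cl (x ^ (l.length - 1) * u2⁻¹))) := by
  induction l with
  | nil => simp
  | cons s l ih =>
    rw [List.prod_cons, cost, cost, h.dTα, h.dTc, List.length_cons, Nat.add_sub_cancel]
    by_cases hs : L.ρ s = 1
    · rw [h.d3α hs, h.d3c hs, case2_fix hs, case2_fix hs, map_mul, hs, one_mul]
      refine ⟨fun _ _ => by omega, fun hl => ?_⟩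
      split_ifs with e
      · obtain ⟨k, hk⟩ : ∃ k, l.length = k + 1 := by
          cases l with
          | nil => simp at hl
          | cons _ l => exact ⟨_, rfl⟩
        have h3 := ih.2 hl
        rw [hk, Nat.add_sub_cancel] at h3
        rw [hk, pow_succ', mul_assoc, mul_assoc, zero_add]
        exact h3.imp id (Or.imp (fun h4 => ⟨h4.1, L.cl_mul e h4.2⟩)
          fun h4 => ⟨h4.1, L.cl_mul e h4.2⟩)
      · exact Or.inl (by omega)
    · rw [(h.sw s hs).1, (h.sw s hs).2, if_neg fun e => hs ((L.ρ_of_cl e).trans h.hx)]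
      have p1 := Δ.df_pos s α
      have p2 := Δ.df_pos s c
      refine ⟨fun hl _ => ?_, fun hl => ?_⟩
      · have h3 := ih.2 fun e => hs (by rwa [map_mul, e, mul_one] at hl)
        omega
      · by_cases e : l = []
        · subst e
          rw [h.dc]
          split_ifs with e1 e2
          · exact Or.inr (Or.inr ⟨by omega, by simpa using e1⟩)
          · exact Or.inr (Or.inl ⟨by omega, by simpa using e2⟩)
          · exact Or.inl (by omega)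
        · have h3 := ih.1 (by_contra fun e => hl (h.two _ _ hs e)) e
          exact Or.inl (by omega)

theorem lower (l : List G) (v : Zn n) (h2 : 2 ≤ l.length) (hv : x ^ (l.length - 2) = L.ι v)
    (hl : L.ρ l.prod = 1) :
    (if L.cl l.prod = L.cl (u1 * u2⁻¹) then 2 else if L.cl l.prod = L.cl 1 then 3 else 4) ≤
      cost L Δ.dT α l := by
  obtain _ | ⟨s, l⟩ := l
  · simp at h2
  have h0 : l ≠ [] := by
    rintro rfl
    simp at h2
  rw [List.prod_cons] at hl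
  rw [List.prod_cons, cost, h.dTα]
  by_cases hs : L.ρ s = 1
  · rw [map_mul, hs, one_mul] at hl
    have := (h.low l).1 hl h0
    rw [h.d3α hs, case2_fix hs]
    split_ifs <;> omega
  · have h3 := (h.low l).2 fun e => hs (by rwa [map_mul, e, mul_one] at hl)
    rw [show l.length - 1 = (s :: l).length - 2 from rfl, hv, L.cl_ι_mul, L.cl_ι_mul] at h3
    rw [(h.sw s hs).1, h.dα]
    have k1 : ∀ u : G, L.cl s = L.cl u → L.cl l.prod = L.cl u⁻¹ → L.cl (s * l.prod) = L.cl 1 :=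
      fun u a b => by simpa using L.cl_mul a b
    have k2 := k1 u1
    have k3 := k1 u2
    have k4 := L.cl_mul (g := s) (h := l.prod) (g' := u1) (h' := u2⁻¹)
    split_ifs <;> omega

theorem upper (j : ℕ) (v : Zn n) (g : G) (hv : x ^ j = L.ι v * x) :
    ∃ (r₁ r₂ : G) (l : List G), l.length = j ∧ Path L Δ.Tp (L.ρ r₁⁻¹ α) l ∧
      L.cl (r₁ * l.prod * r₂) = L.cl g ∧ Δ.df r₁ α + Δ.df r₂ (L.ρ (r₁ * l.prod)⁻¹ α) ≤
        if L.cl g = L.cl (u1 * x * u2⁻¹) then 2 else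
          if L.cl g = L.cl (u1 * x * u1⁻¹) ∨ L.cl g = L.cl (u2 * x * u2⁻¹) then 3 else 4 := by
  have key : ∀ u : G, L.ρ u ≠ 1 → ∀ D, (∀ r, (∀ w, L.cl g = L.cl (u * x * w) → L.cl r = L.cl w) →
      Δ.df u α + Δ.df r c ≤ D) → ∃ (r₁ r₂ : G) (l : List G), l.length = j ∧
      Path L Δ.Tp (L.ρ r₁⁻¹ α) l ∧ L.cl (r₁ * l.prod * r₂) = L.cl g ∧
      Δ.df r₁ α + Δ.df r₂ (L.ρ (r₁ * l.prod)⁻¹ α) ≤ D := fun u hu D hD => by
    refine ⟨u, (u * x ^ j)⁻¹ * g, List.replicate j x, by simp, ?_,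
      by rw [List.prod_replicate, mul_inv_cancel_left], ?_⟩
    · rw [(h.sw u hu).1]
      exact case2_path h.hx ((h.tp x).2 rfl) j
    · rw [List.prod_replicate, (h.sw (u * x ^ j) (by rwa [map_mul, map_pow, h.hx, one_pow,
        mul_one])).1]
      refine hD _ fun w hw => ?_
      rw [← L.cl_mul_left_iff (u * x ^ j), mul_inv_cancel_left, hw, hv, L.mul_ι_mul,
        mul_assoc (L.ι _), L.cl_ι_mul]
  have d1 : Δ.df u1 α = 1 := by rw [h.dα, if_pos rfl]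
  have d2 : Δ.df u2 α = 2 := by rw [h.dα, if_neg h.ne.symm, if_pos rfl]
  split_ifs with e1 e2
  · exact key u1 h.h1 _ fun r hr => by rw [d1, h.dc, if_pos (hr _ e1)]
  · rcases e2 with e2 | e2
    · refine key u1 h.h1 _ fun r hr => ?_
      rw [d1, h.dc, if_pos (hr _ e2)]
      split_ifs <;> omega
    · exact key u2 h.h2 _ fun r hr => by rw [d2, h.dc, if_pos (hr _ e2)]
  · refine key u1 h.h1 _ fun r _ => ?_
    have := Δ.df_le r c
    omega

end case2_Dat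

open Classical in
theorem case2_osc (Δ : Des Γ) (h0 : ∃ α ∈ Γ.O, Δ.NT α)
    (H : ∀ α ∈ Γ.O, Δ.NT α → ∃ c x u1 u2, case2_Dat Δ α c x u1 u2) : Δ.Osc (4 * L.N) 3 := by
  have hN := L.N_pos
  refine ⟨by omega, by omega, h0, fun α hα hn => ?_⟩
  obtain ⟨c, x, u1, u2, h⟩ := H α hα hn
  obtain ⟨v, hv⟩ := L.pow_N x
  have hq : ∀ q, x ^ (4 * L.N * q) = L.ι ((4 * q) • v) := fun q => by
    rw [L.ι_nsmul, ← hv, ← pow_mul]
    congr 1
    ring
  have hm : ∀ u w : G, L.ρ u ≠ 1 → L.ρ w ≠ 1 →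
      Δ.NT (L.ρ (L.rep (L.cl (u * x * w⁻¹)))⁻¹ α) := fun u w hu hw => by
    rw [h.nt_iff, L.ρ_rep]
    exact h.two _ _ (by rwa [map_mul, h.hx, mul_one]) (mt L.ρ_inv_eq_one.1 hw)
  refine ⟨fun f => if f = L.cl (u1 * u2⁻¹) then 2 else if f = L.cl 1 then 3 else 4,
    fun f => if f = L.cl (u1 * x * u2⁻¹) then 2 else
      if f = L.cl (u1 * x * u1⁻¹) ∨ f = L.cl (u2 * x * u2⁻¹) then 3 else 4,
    fun f => ?_, fun l h6 hr he => ?_, fun j g h6 hr _ => ?_, case2_sum _ _ _ ?_ ?_ ?_ ?_ ?_ h.ne'⟩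
  · beta_reduce
    split_ifs <;> omega
  · have := Nat.div_add_mod (l.length + 1) (4 * L.N)
    refine h.lower l _ (by omega) ((congrArg _ ?_).trans (hq ((l.length + 1) / (4 * L.N))))
      ((h.nt_iff _).1 he)
    omega
  · have := Nat.div_add_mod (j + 2) (4 * L.N)
    refine h.upper j ((4 * ((j + 2) / (4 * L.N))) • v) g ?_
    rw [← hq, ← pow_succ]
    congr 1
    omega
  · exact Finset.mem_filter.2 ⟨Finset.mem_univ _, hm _ _ h.h1 h.h2⟩
  · exact Finset.mem_filter.2 ⟨Finset.mem_univ _, hm _ _ h.h1 h.h1⟩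
  · exact Finset.mem_filter.2 ⟨Finset.mem_univ _, hm _ _ h.h2 h.h2⟩
  · exact fun e => h.ne.symm ((L.cl_inv_iff _ _).1 ((L.cl_mul_left_iff _ _ _).1 e))
  · exact fun e => h.ne ((L.cl_mul_right_iff _ _ _).1 ((L.cl_mul_right_iff _ _ _).1 e))

/-- the cheap letters -/
def case2_D (L : Lat G n) (a0 a1 : Zn n) (u w g : G) (c : Zn n) : Prop :=
  (c = a1 ∧ L.cl g = L.cl u) ∨ (c = -a1 ∧ L.cl g = L.cl w) ∨ (c = a0 ∧ L.cl g = L.cl w⁻¹) ∨
    (c = -a0 ∧ L.cl g = L.cl u⁻¹)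

theorem case2_D_cl {a0 a1 : Zn n} {u w : G} (v : Zn n) (g : G) (c : Zn n) :
    case2_D L a0 a1 u w (L.ι v * g) c ↔ case2_D L a0 a1 u w g c := by
  simp only [case2_D, L.cl_ι_mul]

theorem case2_D_inv {a0 a1 : Zn n} {u w : G} (hu : L.ρ u ≠ 1) (hw : L.ρ w ≠ 1)
    (sw : ∀ g, L.ρ g ≠ 1 → L.ρ g⁻¹ a1 = a0 ∧ L.ρ g⁻¹ a0 = a1) (g : G) (c : Zn n) :
    case2_D L a0 a1 u w g⁻¹ (-L.ρ g⁻¹ c) ↔ case2_D L a0 a1 u w g c := by
  have key : ∀ g c, case2_D L a0 a1 u w g c → case2_D L a0 a1 u w g⁻¹ (-L.ρ g⁻¹ c) := by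
    rintro g c (⟨rfl, e⟩ | ⟨rfl, e⟩ | ⟨rfl, e⟩ | ⟨rfl, e⟩)
    · exact Or.inr (Or.inr (Or.inr ⟨by rw [(sw g (L.ρ_of_cl e ▸ hu)).1], L.cl_inv e⟩))
    · exact Or.inr (Or.inr (Or.inl
        ⟨by rw [map_neg, neg_neg, (sw g (L.ρ_of_cl e ▸ hw)).1], L.cl_inv e⟩))
    · exact Or.inr (Or.inl ⟨by rw [(sw g (L.ρ_of_cl e ▸ mt L.ρ_inv_eq_one.1 hw)).2],
        by simpa using L.cl_inv e⟩)
    · exact Or.inl ⟨by rw [map_neg, neg_neg, (sw g (L.ρ_of_cl e ▸ mt L.ρ_inv_eq_one.1 hu)).2],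
        by simpa using L.cl_inv e⟩
  exact ⟨fun h => by simpa using key _ _ h, key g c⟩

open Classical in
theorem case2_stmt : Case2Stmt G := by
  rintro n L Γ two ⟨t, t1, t2⟩ ⟨a, b, ha, hb, hab⟩
  have hρ : ∀ g, L.ρ g ≠ 1 → L.ρ g = L.ρ t := fun g hg => by
    have e := two g⁻¹ t (mt L.ρ_inv_eq_one.1 hg) t1
    rw [← mul_one (L.ρ g), ← e, ← map_mul, mul_inv_cancel_left]
  obtain ⟨a0, h0⟩ : ∃ a0, a0 = Γ.c0 := ⟨_, rfl⟩
  obtain ⟨a1, h1⟩ : ∃ a1, a1 = L.ρ t a0 := ⟨_, rfl⟩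
  have m0 : a0 ∈ Γ.O := h0 ▸ Γ.c0_mem
  have m1 : a1 ∈ Γ.O := h1 ▸ Γ.ρ_mem m0 t
  have n00 : a0 ≠ -a0 := Γ.ne_neg m0
  have n11 : a1 ≠ -a1 := Γ.ne_neg m1
  have n10 : a1 ≠ a0 := fun e => t1 (Γ.gen1 t (by rw [← h0, ← h1, e]))
  have n10' : a1 ≠ -a0 := fun e => t2 (Γ.gen2 t (by rw [← h0, ← h1, e]))
  have n01' : a0 ≠ -a1 := fun e => n10' (by rw [e, neg_neg])
  have sw : ∀ g, L.ρ g ≠ 1 → L.ρ g⁻¹ a1 = a0 ∧ L.ρ g⁻¹ a0 = a1 := fun g hg =>
    ⟨by rw [h1, ← hρ g hg, L.ρ_inv_apply], by rw [hρ g⁻¹ (mt L.ρ_inv_eq_one.1 hg), h1]⟩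
  have hO : ∀ α ∈ Γ.O, α = a0 ∨ α = a1 ∨ α = -a0 ∨ α = -a1 := by
    rintro α ⟨g, e⟩
    rw [← h0] at e
    by_cases hg : L.ρ g = 1
    · rw [hg, Module.End.one_apply] at e
      tauto
    · rw [hρ g hg, ← h1] at e
      tauto
  have ha' : L.ρ a⁻¹ = 1 := L.ρ_inv_eq_one.2 ha
  have tb : L.ρ (t * b) ≠ 1 := by rwa [map_mul, hb, mul_one]
  have hc : ∀ y : G, L.ρ y = 1 → L.cl (t * y * t⁻¹) = L.cl (t * b * y * (t * b)⁻¹) →
      y * b = b * y := fun y hy e => by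
    rw [mul_inv_rev, ← mul_assoc, L.cl_mul_right_iff, mul_assoc, mul_assoc,
      L.cl_mul_left_iff] at e
    exact L.comm_of_cl hy hb (by simpa [mul_assoc] using L.cl_mul_right e b)
  have ntb : L.cl t ≠ L.cl (t * b) := fun e => hab (hc a ha
    (L.cl_mul (L.cl_mul_right e a) (L.cl_inv e)))
  have hc' : L.cl (t * b * a⁻¹ * (t * b)⁻¹) ≠ L.cl (t * a⁻¹ * t⁻¹) := fun e =>
    hab (Commute.inv_left_iff.1 (hc a⁻¹ ha' e.symm))
  have ntb' : L.cl t⁻¹ ≠ L.cl (t * b)⁻¹ := fun e => ntb ((L.cl_inv_iff _ _).1 e)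
  obtain ⟨v, hv⟩ := L.pow_N a
  obtain ⟨v', hv'⟩ := L.pow_N a⁻¹
  have hN := L.N_pos
  let Δ : Des Γ :=
    { Tp := fun s c => (s = a ∧ c = a0) ∨ (s = a⁻¹ ∧ c = -a0)
      Z := fun c => if c = a0 then L.P a else if c = a1 then L.ρ t (L.P a) else
        if c = -a0 then -L.P a else -L.ρ t (L.P a)
      Pi := fun _ _ => 0
      z := Γ.B a0 (L.P a)
      df := fun g c => if case2_D L a0 a1 t (t * b) g c then 1 else
        if case2_D L a0 a1 (t * b) t g c then 2 else 3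
      nx := fun c => if c = a0 then a else a⁻¹
      tfin := (Set.toFinite {a, a⁻¹}).subset fun s ⟨_, hs⟩ => hs.imp And.left And.left
      tO := by
        rintro s c (⟨-, rfl⟩ | ⟨-, rfl⟩)
        exacts [m0, Γ.neg_mem m0]
      tinv := by
        rintro s c (⟨rfl, rfl⟩ | ⟨rfl, rfl⟩)
        · exact Or.inr ⟨rfl, by rw [case2_fix ha]⟩
        · exact Or.inl ⟨inv_inv _, by rw [case2_fix ha', neg_neg]⟩
      hz := fun α hα => by
        have e : Γ.B a1 (L.ρ t (L.P a)) = Γ.B a0 (L.P a) := by rw [h1, Γ.inv]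
        rcases hO α hα with rfl | rfl | rfl | rfl <;>
          simp [n00.symm, n11.symm, n10, n10.symm, n10'.symm, n01'.symm, e]
      coc := by
        rintro s c u (⟨rfl, rfl⟩ | ⟨rfl, rfl⟩) <;> by_cases hu : L.ρ u = 1
        · simp [hu]
        · simp [hρ u hu, ← h1, n10]
        · simp [hu, L.P_inv, ha', n00.symm, n10'.symm]
        · simp [hρ u hu, ← h1, L.P_inv, ha', n11.symm, n10, n01'.symm]
      Pi_cl := fun _ _ _ => rfl
      cyc := by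
        rintro α ⟨g, rfl | rfl⟩
        · exact ⟨g, List.replicate L.N a, v, by simpa using hN, by simp; omega,
            case2_path ha (Or.inl ⟨rfl, by simp [h0]⟩) _, by simpa using hv⟩
        · exact ⟨g, List.replicate L.N a⁻¹, v', by simpa using hN, by simp; omega,
            case2_path ha' (Or.inr ⟨rfl, by simp [h0]⟩) _, by simpa using hv'⟩
      df_cl := fun v g c => by simp only [case2_D_cl]
      df_pos := fun g c => by split_ifs <;> omega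
      df_le := fun g c => by split_ifs <;> omega
      df_inv := fun g c => by
        simp only [case2_D_inv t1 tb sw, case2_D_inv tb t1 sw]
      nx_tp := by
        rintro s c (⟨rfl, rfl⟩ | ⟨rfl, rfl⟩)
        · simp [case2_fix ha]
        · simp [n00.symm, ha]
      nx_inj := by
        rintro s c s' c' (⟨-, rfl⟩ | ⟨-, rfl⟩) (⟨-, rfl⟩ | ⟨-, rfl⟩) <;>
          simp [n00.symm, ha, ha'] }
  have T1 : Δ.NT a1 := by
    rintro s (⟨-, e⟩ | ⟨-, e⟩)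
    exacts [n10 e, n10' e]
  refine ⟨Δ, case2_osc Δ ⟨a1, m1, T1⟩ fun α hα hn => ?_⟩
  rcases hO α hα with rfl | rfl | rfl | rfl
  · exact absurd (Or.inl ⟨rfl, rfl⟩) (hn a)
  · refine ⟨a0, a, t, t * b, hn, fun s => ?_, ha, t1, tb, two, sw, fun g => ?_, fun g => ?_, ntb,
      fun e => hab (hc a ha e)⟩
    · simp [Δ, n00]
    · simp [Δ, case2_D, n11, n10, n10']
    · simp [Δ, case2_D, n00, n10.symm, n01']
  · exact absurd (Or.inr ⟨rfl, rfl⟩) (hn a⁻¹)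
  · refine ⟨-a0, a⁻¹, t * b, t, hn, fun s => ?_, ha', tb, t1, two, fun g hg => ?_, fun g => ?_,
      fun g => ?_, ntb.symm, hc'⟩
    · simp [Δ, n00.symm]
    · simp [sw g hg]
    · simp [Δ, case2_D, n11.symm, n10, n01'.symm]
    · simp [Δ, case2_D, n00.symm, n10.symm, n10'.symm]

end Pool.Agent.MP_b3b911_al.VA

end

section

/-! Virtually abelian groups: the word length is a piecewise linear function up to a constant. -/

namespace Pool.Agent.MP_b3b911_al.VA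

open Filter Topology Pointwise

variable {G : Type*} [Group G]

theorem len_dec {n : ℕ} (L : Lat G n) {T : Set G} (hT : Gen T) :
    ∃ B : Set G, B.Finite ∧ ∀ g, ∃ b ∈ B, ∃ x ∈ AddSubmonoid.closure (Cyc L T Set.univ),
      g = L.ι x.1 * b ∧ x.2 ≤ len T g := by
  refine ⟨T ^ L.N, finite_pow hT.fin _, fun g => ?_⟩
  obtain ⟨j, hj, b, hb, x, hx, h1, h2⟩ :=
    cyc_remove L (U := Set.univ) (fun _ y _ => ⟨y, trivial, rfl⟩) _ g (hT.mem_len g)
  exact ⟨b, mem_pow_mono hT.one hj.le hb, x, hx, h1, by omega⟩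

theorem len_bdd {X : Type*} {B : Set X} (hB : B.Finite) (f : X → ℝ) :
    ∃ M : ℝ, ∀ b ∈ B, f b ≤ M := by
  obtain ⟨M, hM⟩ := (hB.image f).bddAbove
  exact ⟨M, fun b hb => hM ⟨b, hb, rfl⟩⟩

theorem len_span {n : ℕ} (L : Lat G n) {T : Set G} (hT : Gen T) :
    Span (Prod.fst '' Cyc L T Set.univ) := by
  intro η hη
  obtain ⟨B, hB, hdec⟩ := len_dec L hT
  obtain ⟨M, hM⟩ := len_bdd hB fun b => η (L.P b)
  have hF : ∀ x ∈ AddSubmonoid.closure (Cyc L T Set.univ), η x.1 = 0 := by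
    intro x hx
    induction hx using AddSubmonoid.closure_induction with
    | mem c hc => exact hη _ ⟨c, hc, rfl⟩
    | zero => simp
    | add x y _ _ hx hy => rw [Prod.fst_add, map_add, hx, hy, add_zero]
  have key : ∀ v, η v ≤ 0 := by
    intro v
    by_contra hv
    push Not at hv
    obtain ⟨k, hk⟩ := exists_nat_gt (M / η v)
    obtain ⟨b, hb, x, hx, h1, -⟩ := hdec (L.ι (k • v))
    have h2 := congrArg (fun g => η (L.P g)) h1
    simp only [L.P_ι_mul, L.P_ι, map_add, map_nsmul, hF x hx, smul_zero, zero_add] at h2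
    simp only [nsmul_eq_mul] at h2
    have h3 := hM b hb
    have hN : (1 : ℝ) ≤ L.N := by exact_mod_cast L.N_pos
    rw [div_lt_iff₀ hv] at hk
    have h4 : 0 ≤ (k : ℝ) * η v := by positivity
    nlinarith
  refine AddMonoidHom.ext fun v => ?_
  have h1 := key v
  have h2 := key (-v)
  rw [map_neg] at h2
  rw [AddMonoidHom.zero_apply]
  linarith

theorem len_cyc {n : ℕ} (L : Lat G n) {T : Set G} (hT : Gen T) :
    ∃ A : ℝ, 0 ≤ A ∧ ∀ c ∈ Cyc L T Set.univ, ∀ y : ℕ,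
      (len T (L.ι (y • c.1)) : ℝ) ≤ y * c.2 + A := by
  have h : ∀ c : Zn n × ℕ, ∃ a : ℝ, c ∈ Cyc L T Set.univ → ∀ y : ℕ,
      (len T (L.ι (y • c.1)) : ℝ) ≤ y * c.2 + a := by
    intro c
    by_cases hc : c ∈ Cyc L T Set.univ
    · obtain ⟨-, -, u, -, v, h3, h4⟩ := hc
      refine ⟨2 * len T u, fun _ y => ?_⟩
      have e : L.ι (y • c.1) = u * L.ι v ^ y * u⁻¹ := by
        rw [← L.ι_nsmul, L.conj, map_nsmul, h3, mul_inv_cancel_right]
      have h5 := hT.len_mul_le (u * L.ι v ^ y) u⁻¹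
      have h6 := hT.len_mul_le u (L.ι v ^ y)
      have h7 := len_le (pow_mem_pow' h4 y)
      rw [hT.len_inv] at h5
      have h8 : len T (u * L.ι v ^ y * u⁻¹) ≤ y * c.2 + 2 * len T u := by omega
      rw [e]
      exact_mod_cast h8
    · exact ⟨0, fun h => absurd h hc⟩
  choose a ha using h
  obtain ⟨M, hM⟩ := len_bdd (finite_Cyc L hT.fin Set.univ) a
  refine ⟨max M 0, le_max_right _ _, fun c hc y => (ha c hc y).trans ?_⟩
  linarith [hM c hc, le_max_left M 0]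

theorem len_sum {n : ℕ} (L : Lat G n) {T : Set G} (hT : Gen T) {κ : Type*} (s : Finset κ)
    (f : κ → Zn n) : (len T (L.ι (∑ c ∈ s, f c)) : ℝ) ≤ ∑ c ∈ s, (len T (L.ι (f c)) : ℝ) := by
  classical
  induction s using Finset.induction_on with
  | empty =>
    have : len T (1 : G) ≤ 0 := len_le (by simp)
    simpa using this
  | insert a s ha ih =>
    rw [Finset.sum_insert ha, Finset.sum_insert ha, L.ι_add]
    have : (len T (L.ι (f a) * L.ι (∑ c ∈ s, f c)) : ℝ) ≤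
        len T (L.ι (f a)) + len T (L.ι (∑ c ∈ s, f c)) := by exact_mod_cast hT.len_mul_le _ _
    linarith

/-- a coordinate as a real functional -/
def len_coord {n : ℕ} (i : Fin n) : Zn n →+ ℝ where
  toFun v := (v i : ℝ)
  map_zero' := by simp
  map_add' x y := by simp

theorem len_up {n : ℕ} (L : Lat G n) {T : Set G} (hT : Gen T) :
    ∃ A : ℝ, ∀ ψ g, Rep (Cyc L T Set.univ) ψ (L.P g) → (len T g : ℝ) ≤ ψ (L.P g) / L.N + A := by
  classical
  have hC := finite_Cyc L hT.fin Set.univ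
  obtain ⟨A0, hA0, h0⟩ := len_cyc L hT
  set K : Zn n := fun i => ∑ c ∈ hC.toFinset, |c.1 i| + ∑ f, |L.P (L.rep f) i| with hK
  obtain ⟨A1, h1⟩ := len_bdd (Set.finite_Icc (-K) K) fun v => (len T (L.ι v) : ℝ)
  obtain ⟨A2, h2⟩ := len_bdd (Set.finite_univ (α := Fin L.N)) fun f => (len T (L.rep f) : ℝ)
  refine ⟨A1 + hC.toFinset.card * A0 + A2, fun ψ g hg => ?_⟩
  obtain ⟨s, x, hs, hx⟩ := hg
  obtain ⟨a, ha⟩ := L.exists_rep g
  have hN : (1 : ℝ) ≤ L.N := by exact_mod_cast L.N_pos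
  have hN0 : (0 : ℝ) < L.N := by linarith
  have hsub : s ⊆ hC.toFinset := fun c hc => hC.mem_toFinset.2 (hs c hc).1
  set y : Zn n × ℕ → ℕ := fun c => ⌊x c / L.N⌋₊ with hy
  have hy1 : ∀ c ∈ s, (y c : ℝ) ≤ x c / L.N := fun c hc =>
    Nat.floor_le (div_nonneg (hs c hc).2.2 hN0.le)
  have hy2 : ∀ c ∈ s, x c / L.N < y c + 1 := fun c _ => Nat.lt_floor_add_one _
  set r : Zn n := a - ∑ c ∈ s, y c • c.1 with hr
  have hP : L.P g = L.N • a + L.P (L.rep (L.cl g)) := by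
    conv_lhs => rw [ha]
    exact L.P_ι_mul _ _
  have hrK : ∀ i, |r i| ≤ K i := by
    intro i
    have e1 := hx (len_coord i)
    rw [hP] at e1
    simp only [len_coord, AddMonoidHom.coe_mk, ZeroHom.coe_mk, Pi.add_apply, Pi.smul_apply] at e1
    rw [nsmul_eq_mul] at e1
    push_cast at e1
    have e2 : (r i : ℝ) = ∑ c ∈ s, (x c / L.N - y c) * (c.1 i : ℝ) -
        (L.P (L.rep (L.cl g)) i : ℝ) / L.N := by
      have e3 : (r i : ℝ) = a i - ∑ c ∈ s, (y c : ℝ) * (c.1 i : ℝ) := by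
        simp [hr, Finset.sum_apply]
      have e4 : ∑ c ∈ s, (x c / L.N - y c) * (c.1 i : ℝ) =
          (∑ c ∈ s, x c * (c.1 i : ℝ)) / L.N - ∑ c ∈ s, (y c : ℝ) * (c.1 i : ℝ) := by
        rw [Finset.sum_div, ← Finset.sum_sub_distrib]
        exact Finset.sum_congr rfl fun c _ => by ring
      rw [e3, e4, ← e1]
      field_simp
      ring
    have e5 : |∑ c ∈ s, (x c / L.N - y c) * (c.1 i : ℝ)| ≤ ∑ c ∈ hC.toFinset, |(c.1 i : ℝ)| := by
      refine (Finset.abs_sum_le_sum_abs _ _).trans ((Finset.sum_le_sum fun c hc => ?_).trans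
        (Finset.sum_le_sum_of_subset_of_nonneg hsub fun _ _ _ => abs_nonneg _))
      rw [abs_mul]
      refine mul_le_of_le_one_left (abs_nonneg _) (abs_le.2 ⟨?_, ?_⟩)
      · linarith [hy1 c hc]
      · linarith [hy2 c hc]
    have e6 : |(L.P (L.rep (L.cl g)) i : ℝ) / L.N| ≤ ∑ f, |(L.P (L.rep f) i : ℝ)| := by
      rw [abs_div, abs_of_pos hN0]
      exact (div_le_self (abs_nonneg _) hN).trans
        (Finset.single_le_sum (f := fun f => |(L.P (L.rep f) i : ℝ)|)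
          (fun _ _ => abs_nonneg _) (Finset.mem_univ _))
    have e7 : |(r i : ℝ)| ≤ ∑ c ∈ hC.toFinset, |(c.1 i : ℝ)| + ∑ f, |(L.P (L.rep f) i : ℝ)| := by
      rw [e2]
      exact (abs_sub _ _).trans (add_le_add e5 e6)
    simp only [hK]
    exact_mod_cast e7
  have hr1 := h1 r ⟨fun i => (abs_le.1 (hrK i)).1, fun i => (abs_le.1 (hrK i)).2⟩
  have hr2 := h2 (L.cl g) trivial
  have hg : g = L.ι r * (L.ι (∑ c ∈ s, y c • c.1) * L.rep (L.cl g)) := by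
    rw [L.ι_mul_ι_mul, hr, sub_add_cancel]
    exact ha
  have hl : (len T g : ℝ) ≤ len T (L.ι r) + (len T (L.ι (∑ c ∈ s, y c • c.1)) +
      len T (L.rep (L.cl g))) := by
    have a1 := hT.len_mul_le (L.ι r) (L.ι (∑ c ∈ s, y c • c.1) * L.rep (L.cl g))
    have a2 := hT.len_mul_le (L.ι (∑ c ∈ s, y c • c.1)) (L.rep (L.cl g))
    rw [← hg] at a1
    exact_mod_cast a1.trans (Nat.add_le_add_left a2 _)
  have hm : (len T (L.ι (∑ c ∈ s, y c • c.1)) : ℝ) ≤ ψ (L.P g) / L.N + hC.toFinset.card * A0 := by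
    refine (len_sum L hT s _).trans ((Finset.sum_le_sum fun c hc => h0 c (hs c hc).1 (y c)).trans ?_)
    rw [Finset.sum_add_distrib, Finset.sum_const, nsmul_eq_mul, hx ψ, Finset.sum_div]
    refine add_le_add (Finset.sum_le_sum fun c hc => ?_)
      (mul_le_mul_of_nonneg_right (by exact_mod_cast Finset.card_le_card hsub) hA0)
    rw [(hs c hc).2.1, mul_div_right_comm]
    exact mul_le_mul_of_nonneg_right (hy1 c hc) (Nat.cast_nonneg _)
  linarith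

theorem len_stmt : LenStmt G := by
  intro n L T hT
  refine ⟨len_span L hT, fun ψ hψ => ?_⟩
  obtain ⟨A, hA⟩ := len_up L hT
  obtain ⟨B, hB, hdec⟩ := len_dec L hT
  obtain ⟨M, hM⟩ := len_bdd hB fun b => ψ (L.P b) / L.N
  refine ⟨max A M, fun g hg => abs_le.2 ⟨?_, ?_⟩⟩
  · obtain ⟨b, hb, x, hx, h1, h2⟩ := hdec g
    have hN0 : (0 : ℝ) < L.N := by exact_mod_cast L.N_pos
    have h3 : ψ (L.P g) / L.N = ψ x.1 + ψ (L.P b) / L.N := by
      rw [h1, L.P_ι_mul, map_add, map_nsmul, nsmul_eq_mul]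
      field_simp
    have h4 := hψ.closure hx
    have h5 : (x.2 : ℝ) ≤ len T g := by exact_mod_cast h2
    linarith [hM b hb, le_max_right A M]
  · linarith [hA ψ g hg, le_max_left A M]

end Pool.Agent.MP_b3b911_al.VA

end

section

/-! Virtually abelian groups: rounding a point of the cone to a sum of bump vectors. -/

namespace Pool.Agent.MP_b3b911_al.VA

open Filter Topology Pointwise

variable {G : Type*} [Group G]

/-- functionals that are nonnegative combinations of evaluations -/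
def roundCone {n : ℕ} (W : Finset (Zn n)) (u : Zn n → Zn n) (f : (Zn n →+ ℝ) → ℝ) : Prop :=
  ∃ μ : Zn n → ℝ, (∀ w, 0 ≤ μ w) ∧ ∀ η : Zn n →+ ℝ, f η = ∑ w ∈ W, μ w * η (u w)

theorem roundCone_zero {n : ℕ} (W : Finset (Zn n)) (u : Zn n → Zn n) :
    roundCone W u fun _ => 0 := ⟨fun _ => 0, fun _ => le_rfl, fun _ => by simp⟩

theorem roundCone_add {n : ℕ} {W : Finset (Zn n)} {u : Zn n → Zn n} {f g : (Zn n →+ ℝ) → ℝ}
    (hf : roundCone W u f) (hg : roundCone W u g) : roundCone W u fun η => f η + g η := by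
  obtain ⟨μ, h1, h2⟩ := hf
  obtain ⟨ν, h3, h4⟩ := hg
  refine ⟨fun w => μ w + ν w, fun w => add_nonneg (h1 w) (h3 w), fun η => ?_⟩
  simp only [h2, h4, add_mul, Finset.sum_add_distrib]

theorem roundCone_smul {n : ℕ} {W : Finset (Zn n)} {u : Zn n → Zn n} {f : (Zn n →+ ℝ) → ℝ}
    (hf : roundCone W u f) {x : ℝ} (hx : 0 ≤ x) : roundCone W u fun η => x * f η := by
  obtain ⟨μ, h1, h2⟩ := hf
  refine ⟨fun w => x * μ w, fun w => mul_nonneg hx (h1 w), fun η => ?_⟩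
  simp only [h2, Finset.mul_sum, mul_assoc]

theorem roundCone_single {n : ℕ} {W : Finset (Zn n)} (u : Zn n → Zn n) {w : Zn n} (hw : w ∈ W) :
    roundCone W u fun η => η (u w) := by
  classical
  refine ⟨fun w' => if w' = w then 1 else 0, fun w' => ite_nonneg zero_le_one le_rfl, fun η => ?_⟩
  simp [hw]

theorem roundCone_congr {n : ℕ} {W : Finset (Zn n)} {u : Zn n → Zn n} {f g : (Zn n →+ ℝ) → ℝ}
    (hf : roundCone W u f) (e : ∀ η, g η = f η) : roundCone W u g := by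
  obtain ⟨μ, h1, h2⟩ := hf
  exact ⟨μ, h1, fun η => (e η).trans (h2 η)⟩

theorem roundCone_list {n : ℕ} {W : Finset (Zn n)} (u g : Zn n → Zn n) (l : List (Zn n))
    (hl : ∀ v ∈ l, ∃ w ∈ W, g v = u w) : roundCone W u fun η => η (l.map g).sum := by
  induction l with
  | nil => exact roundCone_congr (roundCone_zero W u) fun η => by simp
  | cons v l ih =>
    obtain ⟨w, hw, e⟩ := hl v (by simp)
    refine roundCone_congr (roundCone_add (roundCone_single u hw)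
      (ih fun x hx => hl x (by simp [hx]))) fun η => ?_
    rw [List.map_cons, List.sum_cons, map_add, e]

theorem roundCone_sum {n : ℕ} {W : Finset (Zn n)} {u : Zn n → Zn n} {κ : Type*} (s : Finset κ)
    (f : κ → (Zn n →+ ℝ) → ℝ) (h : ∀ c ∈ s, roundCone W u (f c)) :
    roundCone W u fun η => ∑ c ∈ s, f c η := by
  classical
  induction s using Finset.induction_on with
  | empty => exact roundCone_congr (roundCone_zero W u) fun η => by simp
  | insert a s ha ih =>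
    exact roundCone_congr (roundCone_add (h a (by simp)) (ih fun c hc => h c (by simp [hc])))
      fun η => Finset.sum_insert ha

theorem round_rep {n : ℕ} (W : Finset (Zn n)) (g : Zn n → Zn n) (k : Zn n → ℕ) :
    ∃ l : List (Zn n), l.length = ∑ w ∈ W, k w ∧ (∀ v ∈ l, ∃ w ∈ W, v = g w) ∧
      l.sum = ∑ w ∈ W, k w • g w := by
  classical
  induction W using Finset.induction_on with
  | empty => exact ⟨[], by simp, by simp, by simp⟩
  | insert a s ha ih =>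
    obtain ⟨l, h1, h2, h3⟩ := ih
    refine ⟨List.replicate (k a) (g a) ++ l, ?_, ?_, ?_⟩
    · rw [List.length_append, List.length_replicate, Finset.sum_insert ha, h1]
    · intro v hv
      rcases List.mem_append.1 hv with hv | hv
      · exact ⟨a, by simp, List.eq_of_mem_replicate hv⟩
      · obtain ⟨w, hw, e⟩ := h2 v hv
        exact ⟨w, by simp [hw], e⟩
    · rw [List.sum_append, List.sum_replicate, Finset.sum_insert ha, h3]

theorem round_axis {n : ℕ} (α : Zn n) {K : ℤ} (hK : 0 ≤ K) (r : ℕ) :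
    ∀ t : ℤ, 0 ≤ t → t ≤ K * r → ∃ l : List (Zn n), l.length = r ∧
      (∀ v ∈ l, ∃ i : ℤ, 0 ≤ i ∧ i ≤ K ∧ v = i • α) ∧ l.sum = t • α := by
  induction r with
  | zero =>
    intro t h0 h1
    obtain rfl : t = 0 := by simpa using le_antisymm (by simpa using h1) h0
    exact ⟨[], rfl, by simp, by simp⟩
  | succ r ih =>
    intro t h0 h1
    have h2 : 0 ≤ K * r := by positivity
    push_cast at h1
    obtain ⟨l, e1, e2, e3⟩ := ih (t - min t K) (by omega) (by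
      rcases le_total t K with h | h
      · rw [min_eq_left h]; omega
      · rw [min_eq_right h]; linarith)
    refine ⟨(min t K) • α :: l, by simp [e1], ?_, ?_⟩
    · intro v hv
      rcases List.mem_cons.1 hv with rfl | hv
      · exact ⟨_, le_min h0 hK, min_le_right _ _, rfl⟩
      · exact e2 v hv
    · rw [List.sum_cons, e3, ← add_smul]
      congr 1
      ring

theorem round_stmt : RoundStmt G := by
  classical
  intro n L Γ Δ π α hα C a j D hC hR _ h1 h2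
  set W0 := (Γ.fin π.E1).toFinset with hW0
  set W := W0.filter fun w => Γ.B α w = 0 with hW
  have hN : (0 : ℝ) < L.N := by exact_mod_cast L.N_pos
  have hm : (0 : ℝ) < π.m := by exact_mod_cast π.m_pos
  have hK : (0 : ℝ) < π.K := by exact_mod_cast π.K_pos
  have hth : ∀ w ∈ W, π.K • α + w ∈ π.th α := fun w hw => by
    obtain ⟨a1, a2⟩ := Finset.mem_filter.1 hw
    exact ⟨w, (Γ.fin π.E1).mem_toFinset.1 a1, a2, rfl⟩
  obtain ⟨μ, hμ, hμa⟩ : roundCone W (fun w => L.N • (π.K • α + w) + Δ.Z α) fun η => η a := by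
    obtain ⟨s, x, hs, hx⟩ := hR
    refine roundCone_congr (roundCone_sum s (fun c η => x c * η c.1) fun c hc => ?_) hx
    obtain ⟨a1, a2, a3⟩ := hs c hc
    obtain ⟨l, -, b2, b3⟩ := hC c a1 a2
    refine roundCone_smul (roundCone_congr (roundCone_smul (roundCone_list _
      (fun v => L.N • v + Δ.Z α) l fun v hv => ?_) (inv_nonneg.2 hN.le)) fun η => ?_) a3
    · obtain ⟨w, c1, c2, rfl⟩ := b2 v hv
      exact ⟨w, Finset.mem_filter.2 ⟨(Γ.fin π.E1).mem_toFinset.2 c1, c2⟩, rfl⟩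
    · rw [← b3, map_nsmul, nsmul_eq_mul, ← mul_assoc, inv_mul_cancel₀ hN.ne', one_mul]
  obtain ⟨S, hS⟩ : ∃ S, S = ∑ w ∈ W, μ w := ⟨_, rfl⟩
  have hB : ((Γ.B α a : ℤ) : ℝ) = S * π.m := by
    have := hμa ((Int.castAddHom ℝ).comp (Γ.B α))
    simp only [AddMonoidHom.comp_apply, Int.coe_castAddHom] at this
    rw [this, hS, Finset.sum_mul]
    refine Finset.sum_congr rfl fun w hw => ?_
    rw [map_add, map_nsmul, π.B_th hα (hth w hw), Δ.hz α hα]
    simp only [Des.Par.m, nsmul_eq_mul]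
    push_cast
    ring
  have g1 : (j : ℝ) - 5 ≤ S := by
    have : ((j : ℝ) - 5) * π.m ≤ S * π.m := by rw [← hB]; exact_mod_cast h1
    exact le_of_mul_le_mul_right this hm
  have g2 : (D : ℝ) * π.κ ≤ π.K * (j - S) := by
    have : (π.m : ℝ) * (D * π.κ) ≤ π.K * (j * π.m - S * π.m) := by rw [← hB]; exact_mod_cast h2
    refine le_of_mul_le_mul_left (this.trans_eq ?_) hm
    ring
  have g0 : (0 : ℝ) ≤ (D : ℝ) * π.κ := by positivity
  have g3 : S ≤ j := by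
    have := nonneg_of_mul_nonneg_right (g0.trans g2) hK
    linarith
  obtain ⟨M, hM⟩ : ∃ M, M = ∑ w ∈ W, ⌊μ w⌋₊ := ⟨_, rfl⟩
  have g4 : (M : ℝ) ≤ S := by
    rw [hM, hS, Nat.cast_sum]
    exact Finset.sum_le_sum fun w _ => Nat.floor_le (hμ w)
  have g5 : M ≤ j := by exact_mod_cast g4.trans g3
  obtain ⟨r, rfl⟩ := Nat.exists_eq_add_of_le g5
  obtain ⟨δ, hδ⟩ : ∃ δ : ℤ, δ = ⌊(π.K : ℝ) * ((M + r : ℕ) - S) - D * π.κ⌋ := ⟨_, rfl⟩
  have d1 : (δ : ℝ) ≤ (π.K : ℝ) * ((M + r : ℕ) - S) - D * π.κ := hδ ▸ Int.floor_le _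
  have d2 : (π.K : ℝ) * ((M + r : ℕ) - S) - D * π.κ < δ + 1 := hδ ▸ Int.lt_floor_add_one _
  have d3 : 0 ≤ δ := hδ ▸ Int.floor_nonneg.2 (sub_nonneg.2 g2)
  have d4 : δ ≤ π.K * r := by
    have : (δ : ℝ) ≤ π.K * r := by
      push_cast at d1
      nlinarith [mul_nonneg hK.le (sub_nonneg.2 g4)]
    exact_mod_cast this
  obtain ⟨l₁, e1, e2, e3⟩ := round_rep W (fun w => π.K • α + w) fun w => ⌊μ w⌋₊
  obtain ⟨l₂, f1, f2, f3⟩ := round_axis α π.K_pos.le r (π.K * r - δ) (by omega) (by omega)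
  refine ⟨l₁ ++ l₂, by rw [List.length_append, e1, f1, hM], ?_, fun i => ?_⟩
  · intro v hv
    rcases List.mem_append.1 hv with hv | hv
    · obtain ⟨w, hw, rfl⟩ := e2 v hv
      exact Or.inl (hth w hw)
    · exact Or.inr (f2 v hv)
  · have k1 := hμa ((Int.castAddHom ℝ).comp (Pi.evalAddMonoidHom (fun _ => ℤ) i))
    simp only [AddMonoidHom.comp_apply, Int.coe_castAddHom, Pi.evalAddMonoidHom_apply,
      Pi.add_apply, Pi.smul_apply, nsmul_eq_mul, smul_eq_mul, Pi.mul_apply, Pi.natCast_apply] at k1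
    push_cast at k1
    have k2 : (a i : ℝ) = S * (L.N * (π.K * α i) + Δ.Z α i) + L.N * ∑ w ∈ W, μ w * w i := by
      rw [k1, hS, Finset.sum_mul, Finset.mul_sum, ← Finset.sum_add_distrib]
      exact Finset.sum_congr rfl fun w _ => by ring
    have k3 : (((l₁ ++ l₂).sum i : ℤ) : ℝ) =
        M * (π.K * α i) + ∑ w ∈ W, (⌊μ w⌋₊ : ℝ) * w i + (π.K * r - δ) * α i := by
      rw [List.sum_append, e3, f3, hM, Pi.add_apply, Finset.sum_apply]
      simp only [Pi.add_apply, Pi.smul_apply, nsmul_eq_mul, smul_eq_mul]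
      push_cast
      rw [Finset.sum_mul, ← Finset.sum_add_distrib]
      congr 1
      exact Finset.sum_congr rfl fun w _ => by ring
    have k4 : |∑ w ∈ W, (μ w - ⌊μ w⌋₊) * w i| ≤ ∑ w ∈ W0, |(w i : ℝ)| := by
      refine (Finset.abs_sum_le_sum_abs _ _).trans ((Finset.sum_le_sum fun w _ => ?_).trans
        (Finset.sum_le_sum_of_subset_of_nonneg (Finset.filter_subset _ _)
          fun _ _ _ => abs_nonneg _))
      rw [abs_mul]
      refine mul_le_of_le_one_left (abs_nonneg _) (abs_le.2 ⟨?_, ?_⟩)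
      · linarith [Nat.floor_le (hμ w)]
      · linarith [Nat.lt_floor_add_one (μ w)]
    have k5 : (((a + (L.N * D * π.κ) • α - (L.N • (l₁ ++ l₂).sum + (M + r) • Δ.Z α)) i : ℤ) : ℝ) =
        L.N * (∑ w ∈ W, (μ w - ⌊μ w⌋₊) * w i +
          (δ - ((π.K : ℝ) * ((M + r : ℕ) - S) - D * π.κ)) * α i) +
          (S - (M + r : ℕ)) * Δ.Z α i := by
      simp only [Pi.add_apply, Pi.sub_apply, nsmul_eq_mul, Pi.mul_apply,
        Pi.natCast_apply, sub_mul, Finset.sum_sub_distrib]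
      push_cast
      rw [k2, k3]
      ring
    have k6 : |(δ - ((π.K : ℝ) * ((M + r : ℕ) - S) - D * π.κ)) * α i| ≤ |(α i : ℝ)| := by
      rw [abs_mul]
      exact mul_le_of_le_one_left (abs_nonneg _) (abs_le.2 ⟨by linarith, by linarith⟩)
    have k7 : |(S - (M + r : ℕ)) * Δ.Z α i| ≤ 5 * |(Δ.Z α i : ℝ)| := by
      rw [abs_mul]
      exact mul_le_mul_of_nonneg_right (abs_le.2 ⟨by linarith, by linarith⟩) (abs_nonneg _)
    rw [← Int.cast_le (R := ℝ), Int.cast_abs, k5]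
    simp only [Int.cast_add, Int.cast_mul, Int.cast_sum, Int.cast_abs, Int.cast_natCast,
      Int.cast_ofNat]
    refine (abs_add_le _ _).trans (add_le_add ?_ k7)
    rw [abs_mul, abs_of_pos hN]
    exact mul_le_mul_of_nonneg_left ((abs_add_le _ _).trans (add_le_add k4 k6)) hN.le

end Pool.Agent.MP_b3b911_al.VA

end
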