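import Pool.Agent.Mg.Fb3b911a.G1879f9
import Pool.Agent.Mg.Fb3b911a.G041f03
import Pool.Agent.Mg.Fb3b911a.Gb0789f
import Pool.Agent.Mg.Fb3b911a.G0e6857

section

/-! Virtually abelian groups: assembly of the modules. -/

namespace Pool.Agent.MP_b3b911_al.VA

open Filter Topology Pointwise

variable {G : Type*} [Group G]

theorem log_of_ratio' {β : ℕ → ℝ} {d : ℕ} {c : ℝ} (hc : 0 < c)
    (h : Tendsto (fun k : ℕ => β k / (k : ℝ) ^ d) atTop (𝓝 c)) :
    Tendsto (fun k : ℕ => Real.log (β k) / Real.log k) atTop (𝓝 d) := by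
  have h1 : Tendsto (fun k : ℕ => Real.log (β k / (k : ℝ) ^ d)) atTop (𝓝 (Real.log c)) :=
    h.log hc.ne'
  have h2 : Tendsto (fun k : ℕ => Real.log k) atTop atTop :=
    Real.tendsto_log_atTop.comp tendsto_natCast_atTop_atTop
  have h3 := (h1.div_atTop h2).add_const (d : ℝ)
  rw [zero_add] at h3
  refine h3.congr' ?_
  filter_upwards [eventually_gt_atTop 1, h.eventually (lt_mem_nhds hc)] with k hk hp
  have hk0 : (0 : ℝ) < k := by exact_mod_cast (by omega : 0 < k)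
  have hl : Real.log k ≠ 0 := (Real.log_pos (by exact_mod_cast hk)).ne'
  have hb : β k ≠ 0 := fun e => by simp [e] at hp
  rw [Real.log_div hb (pow_pos hk0 d).ne', Real.log_pow]
  field_simp
  ring

theorem out_of (hG : GenStmt G) (hV : VertStmt G) (hC : ClsStmt G) (hU : UpStmt G) {n : ℕ}
    {L : Lat G n} {Γ : Geo L} {Δ : Des Γ} (π : Δ.Par) :
    Δ.Out π.T π.K π.m π.ω (31 * π.E3) π.φ where
  gen := hG n L Γ Δ π
  hm := rfl
  e0 := by have := π.E3_nonneg; omega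
  ω0 := π.ω0
  m0 := π.m0
  hφ := fun _ _ => rfl
  vert := fun α h => (hV n L Γ Δ π α h).2.1
  cls := hC n L Γ Δ π
  top := fun _ _ h => π.top h
  low := fun α h => (hV n L Γ Δ π α h).1
  up := hU n L Γ Δ π

theorem bias_of (hA : BiasAStmt G) (hB : BiasBStmt G) {n : ℕ} {L : Lat G n} {Γ : Geo L}
    {Δ : Des Γ} {T : Set G} {K m ω e : ℤ} {φ : Zn n → Zn n →+ ℝ} {μ : Mean G} {p r : ℕ}
    (ho : Δ.Out T K m ω e φ) (hr : RegF L T μ) (hp : Pos L μ) (hO : Δ.Osc p r)
    (hu : μ.Eqd (len T) p Set.univ) : False := by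
  classical
  have h1 := hA n L Γ Δ T K m ω e φ μ p ho hr (by have := hO.1; omega) hu r hO.2.1
  set s := Γ.finite_O.toFinset.filter Δ.NT with hs
  have hmem : ∀ α, α ∈ s ↔ α ∈ Γ.O ∧ Δ.NT α := fun α => by simp [hs]
  set Y : Zn n → Set G := fun α => {g | g ∈ Reg L T (φ α) ∧ Δ.NT (L.ρ g⁻¹ α)} with hY
  have e1 : {g | ∃ α ∈ Γ.O, Δ.NT α ∧ g ∈ Reg L T (φ α) ∧ Δ.NT (L.ρ g⁻¹ α)} = ⋃ α ∈ s, Y α := by
    ext g
    simp only [Set.mem_iUnion, hmem]
    exact ⟨fun ⟨α, a, b, c⟩ => ⟨α, ⟨a, b⟩, c⟩, fun ⟨α, ⟨a, b⟩, c⟩ => ⟨α, a, b, c⟩⟩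
  have hd : ∀ i ∈ s, ∀ j ∈ s, i ≠ j → ∀ᶠ g in μ.ae, g ∈ Y i → g ∉ Y j := fun i hi j hj hij =>
    (hr.disj _ (ho.vert i ((hmem i).1 hi).1) _ (ho.vert j ((hmem j).1 hj).1)
      fun e => hij (ho.φ_inj ((hmem i).1 hi).1 ((hmem j).1 hj).1 e)).mono
      fun g hg a b => hg a.1 b.1
  rw [e1, Set.iUnion₂_inter, μ.biUnion_ae s _ hd, μ.biUnion_ae s _
    (fun i hi j hj hij => (hd i hi j hj hij).mono fun g hg a b => hg a.1 b.1),
    Finset.mul_sum] at h1
  obtain ⟨α, ha, hb⟩ := hO.2.2.1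
  refine absurd h1 (ne_of_gt (Finset.sum_lt_sum_of_nonempty ⟨α, (hmem α).2 ⟨ha, hb⟩⟩ ?_))
  intro i hi
  exact hB n L Γ Δ T K m ω e φ μ p r ho hr hp hO i ((hmem i).1 hi).1 ((hmem i).1 hi).2

theorem only_if (hBox : BoxStmt G) (hM : MeanStmt G) (hR : RegStmt G) (hGeo : GeoStmt G)
    (hP : ParStmt G) (hG : GenStmt G) (hV : VertStmt G) (hC : ClsStmt G) (hU : UpStmt G)
    (hA : BiasAStmt G) (hB : BiasBStmt G) (h1 : Case1Stmt G) (h2 : Case2Stmt G) {n : ℕ}
    (L : Lat G n) (h : ∀ T : Set G, Gen T → ∃ (d : ℕ) (c e : ℝ), 0 < c ∧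
      Two d (fun k => (cnt Set.univ (len T) k : ℝ)) c e) : Good L := by
  by_contra hg
  have hn : 0 < n := by
    rcases Nat.eq_zero_or_pos n with rfl | h
    · have : ∀ g, L.ρ g = 1 := fun g => LinearMap.ext fun v => Subsingleton.elim _ _
      exact absurd ⟨fun g _ a _ => absurd (this g) a, Or.inl fun g a => absurd (this g) a⟩ hg
    · exact h
  obtain ⟨Γ⟩ := hGeo n L hn
  obtain ⟨Δ, p, r, hO⟩ : ∃ (Δ : Des Γ) (p r : ℕ), Δ.Osc p r := by
    by_cases ha : ∀ g h, L.ρ g ≠ 1 → L.ρ h ≠ 1 → L.ρ (g * h) = 1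
    · have hb : ¬ ((∀ g, L.ρ g ≠ 1 → L.ρ g = -1) ∨
          ∀ g h, L.ρ g = 1 → L.ρ h = 1 → g * h = h * g) := fun hb => hg ⟨ha, hb⟩
      push Not at hb
      obtain ⟨Δ, hΔ⟩ := h2 n L Γ ha hb.1 hb.2
      exact ⟨Δ, _, _, hΔ⟩
    · push Not at ha
      obtain ⟨Δ, hΔ⟩ := h1 n L Γ ha
      exact ⟨Δ, _, _, hΔ⟩
  obtain ⟨π⟩ := hP n L Γ Δ
  have ho := out_of hG hV hC hU π
  obtain ⟨d, c, e, hc, ht⟩ := h π.T ho.gen
  obtain ⟨μ, hu, hl⟩ := hM π.T d c e ho.gen (L.infinite hn) hc ht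
  obtain ⟨⟨A, hA0, hA1⟩, hb⟩ := hBox n L π.T ho.gen
  refine bias_of hA hB ho (hR n L π.T μ ho.gen) ?_ hO (hu p (by have := hO.1; omega))
  intro W X hW hX
  obtain ⟨ε, h0, hε⟩ := hb W X hW hX
  refine lt_of_lt_of_le (div_pos h0 hA0) (hl X (ε / A) ?_)
  filter_upwards [hA1, hε] with k a b
  calc ε / A * (cnt Set.univ (len π.T) k : ℝ) ≤ ε / A * (A * (k : ℝ) ^ n) :=
        mul_le_mul_of_nonneg_left a (div_pos h0 hA0).le
    _ = ε * (k : ℝ) ^ n := by field_simp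
    _ ≤ _ := b

theorem main_of (hL1 : Lat1Stmt G) (hL2 : Lat2Stmt G) (hGood : GoodStmt G) (hIf : IfStmt G)
    (hOnly : ∀ {n : ℕ} (L : Lat G n), (∀ T : Set G, Gen T → ∃ (d : ℕ) (c e : ℝ), 0 < c ∧
      Two d (fun k => (cnt Set.univ (len T) k : ℝ)) c e) → Good L) (hfg : Group.FG G)
    (hA : ∃ A : Subgroup G, A.FiniteIndex ∧ ∀ a ∈ A, ∀ b ∈ A, a * b = b * a) :
    (∀ S : Finset G, Subgroup.closure (S : Set G) = ⊤ → ∃ (d : ℕ) (c L : ℝ),
      Tendsto (fun k : ℕ => Real.log (growth S k) / Real.log k) atTop (𝓝 d) ∧ 0 < c ∧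
      Tendsto (fun k : ℕ => (growth S k : ℝ) / (k : ℝ) ^ d) atTop (𝓝 c) ∧
      Tendsto (fun k : ℕ => ((growth S k : ℝ) - c * (k : ℝ) ^ d) / (k : ℝ) ^ ((d : ℤ) - 1))
        atTop (𝓝 L)) ↔
    ((∃ B : Subgroup G, B.index = 2 ∧ ∀ a ∈ B, ∀ b ∈ B, a * b = b * a) ∨
      ∃ A : Subgroup G, A.FiniteIndex ∧
        ∀ g : G, (∀ a ∈ A, g * a * g⁻¹ = a) ∨ ∀ a ∈ A, g * a * g⁻¹ = a⁻¹) := by
  obtain ⟨n, ι, a1, a2, a3, a4⟩ := hL1 hfg hA
  obtain ⟨L⟩ := hL2 n ι a1 a2 a3 a4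
  rw [← hGood n L]
  constructor
  · intro h
    refine hOnly L fun T hT => ?_
    obtain ⟨S, hS, rfl⟩ := hT.exists_finset
    obtain ⟨d, c, e, -, hc, -, h3⟩ := h S hS
    simp only [growth_eq_cnt hS] at h3
    exact ⟨d, c, e, hc, h3⟩
  · intro h S hS
    obtain ⟨c, e, hc, ht⟩ := hIf n L _ (gen_TS hS) h
    simp only [growth_eq_cnt hS]
    exact ⟨n, c, e, log_of_ratio' hc ht.ratio, hc, ht.ratio, ht⟩

end Pool.Agent.MP_b3b911_al.VA

end

section

/-! Virtually abelian groups: two term expansions of convex quasi-polynomials. -/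

namespace Pool.Agent.MP_b3b911_al.VA

open Filter Topology Pointwise Polynomial

theorem ana_lim {p : ℝ[X]} {r : ℕ} (hp : p.natDegree ≤ r) :
    Tendsto (fun x : ℝ => p.eval x / x ^ r) atTop (𝓝 (p.coeff r)) := by
  have h1 : Tendsto (fun x : ℝ => ∑ i ∈ Finset.range r, p.coeff i * (x ^ i / x ^ r) + p.coeff r)
      atTop (𝓝 (∑ i ∈ Finset.range r, p.coeff i * 0 + p.coeff r)) := by
    refine Tendsto.add_const _ (tendsto_finsetSum _ fun i hi => Tendsto.const_mul _ ?_)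
    exact tendsto_pow_div_pow_atTop_zero (Finset.mem_range.1 hi)
  simp only [mul_zero, Finset.sum_const_zero, zero_add] at h1
  refine h1.congr' ?_
  filter_upwards [eventually_gt_atTop (0 : ℝ)] with x hx
  have hx' : x ^ r ≠ 0 := pow_ne_zero _ hx.ne'
  rw [eval_eq_sum_range' (Nat.lt_succ_of_le hp), Finset.sum_range_succ, add_div, Finset.sum_div,
    mul_div_assoc, div_self hx', mul_one]
  congr 1
  exact Finset.sum_congr rfl fun i _ => (mul_div_assoc _ _ _).symm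

theorem ana_prog {q : ℕ} (hq : 0 < q) (a : ℕ) : Tendsto (fun j : ℕ => a + q * j) atTop atTop :=
  tendsto_atTop_mono (fun j => by
    have : j ≤ q * j := Nat.le_mul_of_pos_left _ hq
    simp only [id]
    omega) tendsto_id

theorem ana_nonneg {p : ℝ[X]} {r q : ℕ} (hp : p.natDegree ≤ r) (hq : 0 < q) (a : ℕ)
    (h : ∀ᶠ j : ℕ in atTop, 0 ≤ p.eval ((a + q * j : ℕ) : ℝ)) : 0 ≤ p.coeff r := by
  have h1 := (ana_lim hp).comp (tendsto_natCast_atTop_atTop.comp (ana_prog hq a))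
  refine ge_of_tendsto h1 ?_
  filter_upwards [h] with j hj
  exact div_nonneg hj (pow_nonneg (Nat.cast_nonneg _) _)

theorem ana_const {s : ℕ → ℝ} {q : ℕ} (hq : 0 < q) (hper : ∀ a j, s (a + q * j) = s a)
    (h : ∀ a, s a ≤ s (a + 1)) (a : ℕ) : s a = s 0 := by
  have hm := monotone_nat_of_le_succ h
  refine le_antisymm ?_ (hm (Nat.zero_le _))
  rw [← hper 0 a]
  refine hm ?_
  have : a ≤ q * a := Nat.le_mul_of_pos_left _ hq
  omega

theorem ana_top {p : ℝ[X]} {r : ℕ} (hp : p.natDegree ≤ r) :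
    (taylor 1 p).coeff r = p.coeff r := by
  have h : (hasseDeriv r p).natDegree < 1 := by
    have := natDegree_hasseDeriv_le p r
    omega
  rw [taylor_coeff, eval_eq_sum_range' h]
  simp [hasseDeriv_coeff]

theorem ana_sub {p : ℝ[X]} {r : ℕ} (hp : p.natDegree ≤ r + 1) :
    (taylor 1 p).coeff r = p.coeff r + (r + 1) * p.coeff (r + 1) := by
  have h : (hasseDeriv r p).natDegree < 2 := by
    have := natDegree_hasseDeriv_le p r
    omega
  rw [taylor_coeff, eval_eq_sum_range' h]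
  simp [Finset.sum_range_succ, hasseDeriv_coeff, add_comm 1 r]

theorem ana_drop {p : ℝ[X]} {r : ℕ} (hp : p.natDegree ≤ r + 1) (h : p.coeff (r + 1) = 0) :
    p.natDegree ≤ r := by
  rw [natDegree_le_iff_coeff_eq_zero] at hp ⊢
  intro N hN
  rcases (Nat.succ_le_of_lt hN).eq_or_lt with h1 | h1
  · rw [← h1]
    exact h
  · exact hp N h1

theorem ana_qp {q r : ℕ} {f : ℕ → ℝ} (hq : 0 < q) (h : QP q r f) :
    ∃ P : ℕ → ℝ[X], (∀ a, (P a).natDegree ≤ r) ∧ (∀ a, P (a % q) = P a) ∧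
      ∀ᶠ k : ℕ in atTop, f k = (P k).eval (k : ℝ) := by
  choose p hp using h
  refine ⟨fun a => p (a % q), fun a => (hp _).1, fun a => by simp, ?_⟩
  have h1 : ∀ᶠ k : ℕ in atTop, ∀ a ∈ Finset.range q, k % q = a → f k = (p a).eval (k : ℝ) :=
    (eventually_all_finset _).2 fun a _ => (hp a).2
  filter_upwards [h1] with k hk
  exact hk _ (Finset.mem_range.2 (Nat.mod_lt _ hq)) rfl

theorem ana_per {q : ℕ} {P : ℕ → ℝ[X]} (h : ∀ a, P (a % q) = P a) (a j : ℕ) :
    P (a + q * j) = P a := by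
  rw [← h, Nat.add_mul_mod_self_left, h]

theorem ana_vals {q : ℕ} {f : ℕ → ℝ} {P : ℕ → ℝ[X]} (hq : 0 < q) (h : ∀ a, P (a % q) = P a)
    (hf : ∀ᶠ k : ℕ in atTop, f k = (P k).eval (k : ℝ)) (a : ℕ) :
    ∀ᶠ j : ℕ in atTop, f (a + q * j) = (P a).eval ((a + q * j : ℕ) : ℝ) ∧
      f (a + q * j + 1) = (taylor 1 (P (a + 1))).eval ((a + q * j : ℕ) : ℝ) ∧
      f (a + q * j + 2) = (taylor 1 (taylor 1 (P (a + 2)))).eval ((a + q * j : ℕ) : ℝ) := by
  filter_upwards [(ana_prog hq a).eventually hf, (ana_prog hq (a + 1)).eventually hf,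
    (ana_prog hq (a + 2)).eventually hf] with j h0 h1 h2
  rw [ana_per h] at h0 h1 h2
  refine ⟨h0, ?_, ?_⟩
  · rw [show a + q * j + 1 = a + 1 + q * j by ring, h1, taylor_eval]
    congr 1
    push_cast
    ring
  · rw [show a + q * j + 2 = a + 2 + q * j by ring, h2, taylor_eval, taylor_eval]
    congr 1
    push_cast
    ring

theorem ana_lead {q r : ℕ} {f : ℕ → ℝ} {P : ℕ → ℝ[X]} (hq : 0 < q)
    (hd : ∀ a, (P a).natDegree ≤ r) (h : ∀ a, P (a % q) = P a)
    (hf : ∀ᶠ k : ℕ in atTop, f k = (P k).eval (k : ℝ)) (hm : Monotone f) (a : ℕ) :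
    (P a).coeff r = (P 0).coeff r := by
  refine ana_const (s := fun a => (P a).coeff r) hq (fun a j => by rw [ana_per h]) (fun a => ?_) a
  have h1 : (taylor 1 (P (a + 1)) - P a).natDegree ≤ r :=
    (natDegree_sub_le _ _).trans (max_le (by rw [natDegree_taylor]; exact hd _) (hd _))
  have h2 := ana_nonneg h1 hq a (by
    filter_upwards [ana_vals hq h hf a] with j hj
    rw [eval_sub, ← hj.1, ← hj.2.1]
    exact sub_nonneg.2 (hm (Nat.le_succ _)))
  rw [coeff_sub, ana_top (hd _)] at h2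
  exact sub_nonneg.1 h2

theorem ana_zero (q : ℕ) (f : ℕ → ℝ) (hq : 0 < q) (h : QP q 0 f) (hm : Monotone f) :
    ∃ c e, Two 0 f c e := by
  obtain ⟨P, hd, hP, hf⟩ := ana_qp hq h
  refine ⟨(P 0).coeff 0, 0, tendsto_const_nhds.congr' ?_⟩
  filter_upwards [hf] with k hk
  rw [hk, eq_C_of_natDegree_le_zero (hd k), ana_lead hq hd hP hf hm k]
  simp

theorem ana_succ (q r : ℕ) (f h : ℕ → ℝ) (hq : 0 < q) (hf : QP q (r + 1) f) (mf : Monotone f)
    (hh : QP q r h) (mh : Monotone h)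
    (hc : ∀ k, f (k + 1) - f k - (h (k + 1) - h k) ≤ f (k + 2) - f (k + 1)) :
    ∃ c e, Two (r + 1) f c e := by
  obtain ⟨P, hd, hP, hf⟩ := ana_qp hq hf
  obtain ⟨H, hd', hH, hh⟩ := ana_qp hq hh
  have lf := ana_lead hq hd hP hf mf
  have lh := ana_lead hq hd' hH hh mh
  have dT : ∀ p : ℝ[X], p.natDegree ≤ r + 1 → (taylor 1 p).natDegree ≤ r + 1 := fun p hp => by
    rw [natDegree_taylor]
    exact hp
  have dS : ∀ p p' : ℝ[X], p.natDegree ≤ r + 1 → p'.natDegree ≤ r + 1 →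
      (p - p').natDegree ≤ r + 1 := fun p p' hp hp' => (natDegree_sub_le _ _).trans (max_le hp hp')
  have dH : ∀ a, (H a).natDegree ≤ r + 1 := fun a => (hd' a).trans (Nat.le_succ _)
  have cH : ∀ a, (H a).coeff (r + 1) = 0 := fun a =>
    coeff_eq_zero_of_natDegree_lt (Nat.lt_succ_of_le (hd' a))
  have key : ∀ a, (P (a + 1)).coeff r - (P a).coeff r ≤
      (P (a + 1 + 1)).coeff r - (P (a + 1)).coeff r := fun a => by
    have h1 : (taylor 1 (taylor 1 (P (a + 2))) - taylor 1 (P (a + 1)) -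
        (taylor 1 (P (a + 1)) - P a - (taylor 1 (H (a + 1)) - H a))).natDegree ≤ r := by
      refine ana_drop (dS _ _ (dS _ _ (dT _ (dT _ (hd _))) (dT _ (hd _)))
        (dS _ _ (dS _ _ (dT _ (hd _)) (hd _)) (dS _ _ (dT _ (dH _)) (dH _)))) ?_
      simp only [coeff_sub]
      rw [ana_top (dT _ (hd _)), ana_top (hd _), ana_top (hd _), ana_top (dH _), cH, cH,
        lf (a + 2), lf (a + 1), lf a]
      ring
    have h2 := ana_nonneg h1 hq a (by
      filter_upwards [ana_vals hq hP hf a, ana_vals hq hH hh a] with j hj hj'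
      simp only [eval_sub]
      rw [← hj.1, ← hj.2.1, ← hj.2.2, ← hj'.1, ← hj'.2.1]
      exact sub_nonneg.2 (hc _))
    simp only [coeff_sub] at h2
    rw [ana_sub (dT _ (hd _)), ana_top (hd _), ana_sub (hd _), ana_sub (hd _), ana_top (hd' _),
      lf (a + 2), lf (a + 1), lh (a + 1), lh a] at h2
    show (P (a + 1)).coeff r - (P a).coeff r ≤ (P (a + 2)).coeff r - (P (a + 1)).coeff r
    linarith
  have hs := ana_const (s := fun a => (P (a + 1)).coeff r - (P a).coeff r) hq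
    (fun a j => by
      show (P (a + q * j + 1)).coeff r - (P (a + q * j)).coeff r = _
      rw [show a + q * j + 1 = a + 1 + q * j by ring, ana_per hP, ana_per hP]) key
  have he : ∀ a, (P a).coeff r = (P 0).coeff r := by
    rcases le_total 0 ((P (0 + 1)).coeff r - (P 0).coeff r) with h0 | h0
    · exact ana_const (s := fun a => (P a).coeff r) hq (fun a j => by rw [ana_per hP])
        fun a => by
          have := hs a
          linarith
    · intro a
      have := ana_const (s := fun a => -(P a).coeff r) hq (fun a j => by rw [ana_per hP])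
        (fun a => by
          have := hs a
          linarith) a
      exact neg_injective this
  refine ⟨(P 0).coeff (r + 1), (P 0).coeff r, ?_⟩
  have hl : ∀ a, Tendsto (fun k : ℕ => ((P a).eval (k : ℝ) - (P 0).coeff (r + 1) * (k : ℝ) ^ (r + 1)) /
      (k : ℝ) ^ r) atTop (𝓝 ((P 0).coeff r)) := fun a => by
    have h1 : (P a - C ((P 0).coeff (r + 1)) * X ^ (r + 1)).natDegree ≤ r :=
      ana_drop (dS _ _ (hd a) (natDegree_C_mul_X_pow_le _ _)) (by simp [lf a])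
    have h2 := (ana_lim h1).comp tendsto_natCast_atTop_atTop
    have h3 : (P a - C ((P 0).coeff (r + 1)) * X ^ (r + 1)).coeff r = (P 0).coeff r := by
      simp [he a, coeff_X_pow]
    rw [h3] at h2
    refine h2.congr fun k => ?_
    simp
  unfold Two
  rw [tendsto_def]
  intro s hs
  have h1 : ∀ᶠ k : ℕ in atTop, ∀ a ∈ Finset.range q,
      ((P a).eval (k : ℝ) - (P 0).coeff (r + 1) * (k : ℝ) ^ (r + 1)) / (k : ℝ) ^ r ∈ s :=
    (eventually_all_finset _).2 fun a _ => (hl a).eventually hs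
  filter_upwards [h1, hf] with k hk hk'
  have h2 := hk _ (Finset.mem_range.2 (Nat.mod_lt k hq))
  rw [hP, ← hk'] at h2
  have h3 : (((r + 1 : ℕ) : ℤ) - 1) = (r : ℤ) := by push_cast; ring
  simpa only [Set.mem_preimage, h3, zpow_natCast] using h2

theorem ana_stmt : AnaStmt := ⟨ana_zero, ana_succ⟩

end Pool.Agent.MP_b3b911_al.VA

end

section

/-! Virtually abelian groups: equidistribution on the regions without free letters. -/

namespace Pool.Agent.MP_b3b911_al.VA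

open Filter Topology Pointwise

variable {G : Type*} [Group G] {n : ℕ} {L : Lat G n} {Γ : Geo L} {Δ : Des Γ} {T : Set G}
  {K m ω e : ℤ} {φ : Zn n → Zn n →+ ℝ} {μ : Mean G} {p : ℕ}

theorem biasa_piece (hT : TLemStmt G) (hP : PermStmt G) (hO : Δ.Out T K m ω e φ)
    (hR : RegF L T μ) (hp : 0 < p) {α : Zn n} (hα : α ∈ Γ.O) :
    μ.Eqd (len T) p (Reg L T (φ α) ∩ {g | L.ρ g⁻¹ α ∈ {c | ∃ t, Δ.Tp t c}}) := by
  obtain ⟨A, hA⟩ := hR.near _ (hO.vert α hα)
  obtain ⟨A', hA'⟩ := (L.finite_range (fun g => |(Γ.B α (Δ.Pi α g) : ℝ)|)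
    fun v g => by rw [Δ.Pi_cl]).bddAbove
  have hm : (0 : ℝ) < m := by exact_mod_cast hO.m_pos.2
  have hN : (0 : ℝ) < L.N := by exact_mod_cast L.N_pos
  refine hT μ (len T) _ (fun g => g * (L.ι (K • L.ρ g⁻¹ α) * Δ.nx (L.ρ g⁻¹ α)))
    (fun g => ((Γ.B α (L.P g) : ℝ) - Γ.B α (Δ.Pi α g)) / m) (A + A' / m) p hp
    (hP n μ _ (fun g => L.ρ g⁻¹ α) _ (fun c => L.ρ (Δ.nx c)⁻¹ c) (fun c => L.ι (K • c) * Δ.nx c)
      Des.finite_tight (fun c ⟨t, h⟩ => (Δ.nx_tp t c h).2)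
      (fun c ⟨t, h⟩ c' ⟨t', h'⟩ e => Δ.nx_inj t c t' c' h h' e) (fun c _ g => ?_)
      (hR.right _ (hO.vert α hα))) ?_
  · rw [mul_inv_rev, L.ρ_mul_apply, L.ρ_inv_congr (L.ρ_ι_mul _ _)]
    exact ⟨fun h => by simpa using congrArg (L.ρ (Δ.nx c)) h, fun h => by rw [h]⟩
  · filter_upwards [hA] with g hg ⟨h1, t, h2⟩
    have h3 := (Δ.nx_tp t _ h2).1
    refine ⟨hO.gen.len_mul_letter g (hO.top _ _ h3), ?_, ?_⟩
    · have h4 := Δ.coc _ _ g h3
      rw [L.ρ_apply_inv] at h4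
      have h5 : Γ.B α (L.P (g * (L.ι (K • L.ρ g⁻¹ α) * Δ.nx (L.ρ g⁻¹ α)))) -
          Γ.B α (Δ.Pi α (g * (L.ι (K • L.ρ g⁻¹ α) * Δ.nx (L.ρ g⁻¹ α)))) =
          Γ.B α (L.P g) - Γ.B α (Δ.Pi α g) + m := by
        rw [Des.Pi_mul_ι, L.P_mul, L.P_ι_mul, map_add (L.ρ g), h4, map_nsmul, map_zsmul,
          L.ρ_apply_inv, hO.hm]
        simp only [map_add, map_sub, map_nsmul, map_zsmul, Γ.B_self hα, Δ.hz α hα]
        simp only [smul_eq_mul, nsmul_eq_mul]
        ring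
      rw [← Int.cast_sub, h5]
      push_cast
      field_simp
    · have h4 := hg h1
      rw [hO.hφ] at h4
      have h5 : |(Γ.B α (Δ.Pi α g) : ℝ) / m| ≤ A' / m := by
        rw [abs_div, abs_of_pos hm]
        exact div_le_div_of_nonneg_right (hA' ⟨g, rfl⟩) hm.le
      have h6 : (len T g : ℝ) - ((Γ.B α (L.P g) : ℝ) - Γ.B α (Δ.Pi α g)) / m =
          ((len T g : ℝ) - L.N * (Γ.B α (L.P g) : ℝ) / m / L.N) + (Γ.B α (Δ.Pi α g) : ℝ) / m := by
        field_simp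
        ring
      rw [h6]
      exact (abs_add_le _ _).trans (add_le_add h4 h5)

theorem biasa_inv (hO : Δ.Out T K m ω e φ) {α : Zn n} {g : G} (h : g ∈ Reg L T (φ α)) :
    g⁻¹ ∈ Reg L T (φ (-L.ρ g⁻¹ α)) := by
  intro η hη
  have h1 := h (η.comp (-(L.ρ g⁻¹).toAddMonoidHom)) fun c hc =>
    hη _ (Cyc_neg L hO.gen.inv (Cyc_ρ L hc g⁻¹))
  rw [L.P_inv]
  refine le_trans h1 (le_of_eq ?_)
  rw [hO.hφ, hO.hφ]
  simp [Γ.inv]

theorem biasA_stmt (hT : TLemStmt G) (hP : PermStmt G) : BiasAStmt G := by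
  classical
  intro n L Γ Δ T K m ω e φ μ p hO hR hp hu
  have uq : ∀ᶠ g in μ.ae, ∀ ψ ∈ Vert (Cyc L T Set.univ), ∀ ψ' ∈ Vert (Cyc L T Set.univ),
      g ∈ Reg L T ψ → g ∈ Reg L T ψ' → ψ = ψ' := by
    refine (eventually_all_finite hR.fin).2 fun ψ h => (eventually_all_finite hR.fin).2
      fun ψ' h' => ?_
    by_cases e : ψ = ψ'
    · exact Eventually.of_forall fun _ _ _ => e
    · exact (hR.disj ψ h ψ' h' e).mono fun g hg a b => absurd b (hg a)
  have hU : ∀ s : Finset (Zn n), (∀ α ∈ s, α ∈ Γ.O) → μ.Eqd (len T) p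
      (⋃ α ∈ s, Reg L T (φ α) ∩ {g | L.ρ g⁻¹ α ∈ {c | ∃ t, Δ.Tp t c}}) := fun s hs =>
    Mean.Eqd.biUnion s _ (fun α h => biasa_piece hT hP hO hR hp (hs α h))
      fun α h α' h' hne => uq.mono fun g hg a b => hne (hO.φ_inj (hs α h) (hs α' h')
        (hg _ (hO.vert α (hs α h)) _ (hO.vert α' (hs α' h')) a.1 b.1))
  have h1 : μ.Eqd (len T) p {g | ∃ ψ ∈ Vert (Cyc L T Set.univ), (¬ ∃ α ∈ Γ.O, ψ = φ α) ∧
      g ∈ Reg L T ψ} := by
    refine (Mean.Eqd.biUnion (hR.fin.toFinset.filter fun ψ => ¬ ∃ α ∈ Γ.O, ψ = φ α)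
      (fun ψ => Reg L T ψ) (fun ψ h => ?_) fun ψ h ψ' h' hne => ?_).congr
      (Eventually.of_forall fun g => by simp [and_assoc])
    · rw [Finset.mem_filter, Set.Finite.mem_toFinset] at h
      exact hR.loop ψ h.1 ((hO.cls ψ h.1).resolve_right h.2) p hp
    · rw [Finset.mem_filter, Set.Finite.mem_toFinset] at h h'
      exact hR.disj ψ h.1 ψ' h'.1 hne
  have h2 : μ.Eqd (len T) p {g | ∃ α ∈ Γ.O, (∃ t, Δ.Tp t α) ∧ g ∈ Reg L T (φ α)} := by
    refine ((hU Γ.finite_O.toFinset fun α h => by simpa using h).inv hO.gen.len_inv).congr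
      (Eventually.of_forall fun g => ?_)
    simp only [Set.mem_preimage, Set.mem_iUnion, Set.Finite.mem_toFinset, Set.mem_inter_iff,
      Set.mem_ofPred_eq, exists_prop]
    constructor
    · rintro ⟨α, hα, a, t, b⟩
      refine ⟨_, Γ.neg_mem (Γ.ρ_mem hα g⁻¹⁻¹), Des.tight_neg b, ?_⟩
      have := biasa_inv hO a
      rwa [inv_inv g] at this ⊢
    · rintro ⟨α, hα, ⟨t, b⟩, a⟩
      refine ⟨_, Γ.neg_mem (Γ.ρ_mem hα g⁻¹), biasa_inv hO a, ?_⟩
      rw [map_neg, L.ρ_inv_apply]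
      exact Des.tight_neg b
  have h3 : μ.Eqd (len T) p {g | ∃ α ∈ Γ.O, Δ.NT α ∧ g ∈ Reg L T (φ α) ∧
      ∃ t, Δ.Tp t (L.ρ g⁻¹ α)} :=
    (hU (Γ.finite_O.toFinset.filter fun α => Δ.NT α) fun α h => by
      simpa using (Finset.mem_filter.1 h).1).congr
      (Eventually.of_forall fun g => by
        simp only [Set.mem_iUnion, Finset.mem_filter, Set.Finite.mem_toFinset, Set.mem_inter_iff,
          Set.mem_ofPred_eq, exists_prop, and_assoc])
  have h23 := h2.union h3 (uq.mono fun g hg ⟨α, a1, ⟨t, a2⟩, a3⟩ ⟨α', b1, b2, b3, _⟩ =>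
    b2 t (hO.φ_inj a1 b1 (hg _ (hO.vert α a1) _ (hO.vert α' b1) a3 b3) ▸ a2))
  have h123 := h1.union h23 (uq.mono fun g hg ⟨ψ, a1, a2, a3⟩ b => by
    rcases b with ⟨α, b1, -, b3⟩ | ⟨α, b1, -, b3, -⟩ <;>
      exact a2 ⟨α, b1, hg _ a1 _ (hO.vert α b1) a3 b3⟩)
  refine (Mean.Eqd.compl hu h123).congr (uq.mono fun g hg => ⟨fun h => ?_, ?_⟩)
  · obtain ⟨ψ, a1, a2⟩ := hR.ex g
    by_cases a3 : ∃ α ∈ Γ.O, ψ = φ α
    · obtain ⟨α, b1, rfl⟩ := a3
      have b2 : Δ.NT α := fun t ht => h (Or.inr (Or.inl ⟨α, b1, ⟨t, ht⟩, a2⟩))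
      exact ⟨α, b1, b2, a2, fun t ht => h (Or.inr (Or.inr ⟨α, b1, b2, a2, t, ht⟩))⟩
    · exact absurd (Or.inl ⟨ψ, a1, a3, a2⟩) h
  · rintro ⟨α, a1, a2, a3, a4⟩ (⟨ψ, b1, b2, b3⟩ | ⟨α', b1, ⟨t, b2⟩, b3⟩ | ⟨α', b1, -, b3, t, b4⟩)
    · exact b2 ⟨α, a1, hg _ b1 _ (hO.vert α a1) b3 a3⟩
    · exact a2 t (hO.φ_inj b1 a1 (hg _ (hO.vert α' b1) _ (hO.vert α a1) b3 a3) ▸ b2)
    · exact a4 t (hO.φ_inj b1 a1 (hg _ (hO.vert α' b1) _ (hO.vert α a1) b3 a3) ▸ b4)

end Pool.Agent.MP_b3b911_al.VA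

end

section

/-! Virtually abelian groups: the order of magnitude of the growth. -/

namespace Pool.Agent.MP_b3b911_al.VA

open Filter Topology Pointwise

variable {G : Type*} [Group G] {n : ℕ}

theorem box_P (L : Lat G n) {T : Set G} (hT : T.Finite) :
    ∃ C : ℕ, ∀ k : ℕ, ∀ g ∈ T ^ k, ∀ i, |L.P g i| ≤ (C * k : ℕ) := by
  have h1 : (⋃ s ∈ T, ⋃ i : Fin n, (fun x : Zn n => (x i).natAbs) ''
      Set.range fun u => L.ρ u (L.P s)).Finite :=
    hT.biUnion fun s _ => Set.finite_iUnion fun i => (L.finite_orbit _).image _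
  obtain ⟨C, hC⟩ := h1.bddAbove
  refine ⟨C, fun k => ?_⟩
  induction k with
  | zero =>
    intro g hg i
    rw [pow_zero, Set.mem_one] at hg
    simp [hg]
  | succ k ih =>
    rw [pow_succ]
    rintro _ ⟨g, hg, s, hs, rfl⟩ i
    have h2 : (L.ρ g (L.P s) i).natAbs ≤ C :=
      hC (Set.mem_iUnion₂.2 ⟨s, hs, Set.mem_iUnion.2 ⟨i, _, ⟨g, rfl⟩, rfl⟩⟩)
    have h3 := ih g hg i
    beta_reduce
    rw [L.P_mul, Pi.add_apply]
    refine (abs_add_le _ _).trans ?_
    rw [← Int.natCast_natAbs (L.ρ g (L.P s) i)]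
    push_cast at h3 ⊢
    have h4 : (((L.ρ g (L.P s) i).natAbs : ℕ) : ℤ) ≤ C := Int.ofNat_le.2 h2
    rw [Int.natCast_natAbs] at h4
    linarith

theorem box_up (L : Lat G n) {T : Set G} (hT : Gen T) :
    ∃ A : ℝ, 0 < A ∧ ∀ᶠ k : ℕ in atTop, (cnt Set.univ (len T) k : ℝ) ≤ A * (k : ℝ) ^ n := by
  obtain ⟨C, hC⟩ := box_P L hT.fin
  have hN : (0 : ℝ) < L.N := Nat.cast_pos.2 L.N_pos
  refine ⟨L.N * (2 * C + 1) ^ n, by positivity, (eventually_ge_atTop 1).mono fun k hk => ?_⟩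
  have h1 : cnt Set.univ (len T) k ≤ ((Finset.univ : Finset (Fin L.N)) ×ˢ
      Fintype.piFinset fun _ : Fin n => Finset.Icc (-(C * k : ℕ) : ℤ) (C * k : ℕ)).card := by
    rw [cnt, hT.ball_eq, ← Set.ncard_coe_finset]
    refine Set.ncard_le_ncard_of_injOn (fun g => (L.cl g, L.P g)) (fun g hg => ?_)
      (fun g _ h _ e => L.eq_of_cl_P (congrArg Prod.fst e) (congrArg Prod.snd e))
    exact Finset.mem_coe.2 (Finset.mem_product.2 ⟨Finset.mem_univ _,
      Fintype.mem_piFinset.2 fun i => Finset.mem_Icc.2 (abs_le.1 (hC k g hg i))⟩)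
  have h2 : (((C * k : ℕ) : ℤ) + 1 - -((C * k : ℕ) : ℤ)).toNat = 2 * (C * k) + 1 := by omega
  rw [Finset.card_product, Finset.card_univ, Fintype.card_fin, Fintype.card_piFinset_const,
    Int.card_Icc, h2] at h1
  have h3 : 2 * (C * k) + 1 ≤ (2 * C + 1) * k := by nlinarith
  have h4 := h1.trans (Nat.mul_le_mul_left _ (Nat.pow_le_pow_left h3 n))
  rw [mul_pow, ← mul_assoc] at h4
  exact_mod_cast h4

theorem box_ind {W : Set (Zn n)} (hW : Span W) : ∃ w : Fin n → Zn n, (∀ l, w l ∈ W) ∧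
    Function.Injective fun y : Fin n → ℕ => ∑ l, y l • w l := by
  let c : Zn n →+ (Fin n → ℝ) := (Int.castAddHom ℝ).compLeft (Fin n)
  have h1 : Submodule.span ℝ (Set.range fun w : W => c w.1) = ⊤ := by
    by_contra h
    obtain ⟨f, hf, h2⟩ := Submodule.exists_le_ker_of_lt_top _ (lt_top_iff_ne_top.2 h)
    have h3 := hW (f.toAddMonoidHom.comp c) fun w hw => h2 (Submodule.subset_span ⟨⟨w, hw⟩, rfl⟩)
    refine hf ((Pi.basisFun ℝ (Fin n)).ext fun i => ?_)
    have h4 : c (Pi.single i 1) = Pi.basisFun ℝ (Fin n) i := by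
      ext j
      simp [c, Pi.single_apply]
    rw [← h4]
    exact DFunLike.congr_fun h3 _
  obtain ⟨e, he⟩ : ∃ e : Fin n → W, (Pi.basisFun ℝ (Fin n)).det (fun l => c (e l).1) ≠ 0 := by
    by_contra h
    push Not at h
    exact (Pi.basisFun ℝ (Fin n)).det_ne_zero (AlternatingMap.coe_multilinearMap_injective
      (MultilinearMap.ext_of_span_eq_top (fun _ => h1) h))
  have h2 : LinearIndependent ℝ fun l => c (e l).1 := by
    by_contra h
    exact he (AlternatingMap.map_linearDependent _ _ h)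
  refine ⟨fun l => (e l).1, fun l => (e l).2, fun y y' h => funext fun l => ?_⟩
  have h3 := congrArg c h
  simp only [map_sum, map_nsmul, ← Nat.cast_smul_eq_nsmul ℝ] at h3
  exact Nat.cast_injective (Fintype.linearIndependent_iffₛ.1 h2 _ _ h3 l)

theorem box_len (L : Lat G n) {T : Set G} (hT : Gen T) {J : Type} (s : Finset J) (w : J → Zn n)
    (y : J → ℕ) : len T (L.ι (∑ l ∈ s, y l • w l)) ≤ ∑ l ∈ s, y l * len T (L.ι (w l)) := by
  classical
  induction s using Finset.induction_on with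
  | empty => exact len_le (by simp)
  | insert a s ha ih =>
    rw [Finset.sum_insert ha, Finset.sum_insert ha, L.ι_add, L.ι_nsmul]
    exact (hT.len_mul_le _ _).trans
      (Nat.add_le_add (len_le (pow_mem_pow' (hT.mem_len _) _)) ih)

theorem box_stmt : BoxStmt G := by
  intro n L T hT
  refine ⟨box_up L hT, fun W X hW hX => ?_⟩
  obtain ⟨w, hw, hi⟩ := box_ind hW
  obtain ⟨A, hA⟩ : ∃ A, A = ∑ l, len T (L.ι (w l)) + 1 := ⟨_, rfl⟩
  have A0 : 0 < A := hA ▸ Nat.succ_pos _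
  have A1 : (0 : ℝ) < A := Nat.cast_pos.2 A0
  refine ⟨((A : ℝ) ^ n)⁻¹, by positivity, Eventually.of_forall fun k => ?_⟩
  have h1 : (Fintype.piFinset fun _ : Fin n => Finset.range (k / A + 1)).card ≤
      cnt X (len T) k := by
    rw [cnt, ← Set.ncard_coe_finset]
    refine Set.ncard_le_ncard_of_injOn (fun y => L.ι (∑ l, y l • w l)) (fun y hy => ⟨hX _
      (sum_mem fun l _ => nsmul_mem (AddSubmonoid.subset_closure (hw l)) _), ?_⟩)
      (fun y _ y' _ e => hi (L.ι_inj e)) ((hT.finite_ball k).subset fun g hg => hg.2)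
    have h2 : ∀ l, y l ≤ k / A := fun l =>
      Nat.lt_succ_iff.1 (Finset.mem_range.1 (Fintype.mem_piFinset.1 (Finset.mem_coe.1 hy) l))
    refine (box_len L hT _ w y).trans ((Finset.sum_le_sum fun l _ =>
      Nat.mul_le_mul_right _ (h2 l)).trans ?_)
    rw [← Finset.mul_sum]
    exact (Nat.mul_le_mul_left _ (hA ▸ Nat.le_succ _)).trans (Nat.div_mul_le_self k A)
  rw [Fintype.card_piFinset_const, Finset.card_range] at h1
  have h2 : k ^ n ≤ A ^ n * cnt X (len T) k := by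
    refine le_trans ?_ (Nat.mul_le_mul_left _ h1)
    rw [← mul_pow]
    exact Nat.pow_le_pow_left (Nat.lt_mul_div_succ k A0).le n
  rw [inv_mul_le_iff₀ (by positivity)]
  exact_mod_cast h2

end Pool.Agent.MP_b3b911_al.VA

end

section

/-! Virtually abelian groups: counting normal forms. -/

namespace Pool.Agent.MP_b3b911_al.VA

open Filter Topology Pointwise

/-- eventually a polynomial of degree at most `d` -/
def countEP (d : ℕ) (f : ℕ → ℝ) : Prop :=
  ∃ p : Polynomial ℝ, p.natDegree ≤ d ∧ ∀ᶠ s : ℕ in atTop, f s = p.eval (s : ℝ)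

theorem count_pow (k : ℕ) : ∃ P : Polynomial ℝ, P.natDegree ≤ k + 1 ∧
    ∀ n : ℕ, ∑ u ∈ Finset.range n, (u : ℝ) ^ k = P.eval (n : ℝ) := by
  refine ⟨∑ i ∈ Finset.range (k + 1),
    Polynomial.C (((bernoulli i * ((k + 1).choose i) / (k + 1) : ℚ) : ℝ)) *
      Polynomial.X ^ (k + 1 - i), ?_, fun n => ?_⟩
  · refine Polynomial.natDegree_sum_le_of_forall_le _ _ fun i _ => ?_
    exact (Polynomial.natDegree_C_mul_X_pow_le _ _).trans (Nat.sub_le _ _)
  · have h := congrArg (fun x : ℚ => (x : ℝ)) (sum_range_pow n k)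
    push_cast at h
    rw [h, Polynomial.eval_finsetSum]
    refine Finset.sum_congr rfl fun i _ => ?_
    simp only [Polynomial.eval_mul, Polynomial.eval_C, Polynomial.eval_pow, Polynomial.eval_X]
    push_cast
    ring

theorem count_psum (d : ℕ) (p : Polynomial ℝ) (hp : p.natDegree ≤ d) :
    ∃ P : Polynomial ℝ, P.natDegree ≤ d + 1 ∧
      ∀ n : ℕ, ∑ u ∈ Finset.range n, p.eval (u : ℝ) = P.eval (n : ℝ) := by
  choose Q hQ hQ' using count_pow
  refine ⟨∑ k ∈ Finset.range (d + 1), Polynomial.C (p.coeff k) * Q k, ?_, fun n => ?_⟩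
  · refine Polynomial.natDegree_sum_le_of_forall_le _ _ fun k hk => ?_
    have := Finset.mem_range.1 hk
    exact (Polynomial.natDegree_C_mul_le _ _).trans ((hQ k).trans (by omega))
  · simp only [Polynomial.eval_eq_sum_range' (Nat.lt_succ_of_le hp)]
    rw [Finset.sum_comm, Polynomial.eval_finsetSum]
    refine Finset.sum_congr rfl fun k _ => ?_
    rw [← Finset.mul_sum, hQ' k n]
    simp

theorem countEP.add {d : ℕ} {f g : ℕ → ℝ} (hf : countEP d f) (hg : countEP d g) :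
    countEP d fun s => f s + g s := by
  obtain ⟨p, hp, hf⟩ := hf
  obtain ⟨p', hp', hg⟩ := hg
  refine ⟨p + p', (Polynomial.natDegree_add_le _ _).trans (max_le hp hp'), ?_⟩
  filter_upwards [hf, hg] with s h1 h2
  simp [h1, h2]

theorem countEP.sum {κ : Type*} {d : ℕ} (t : Finset κ) (f : κ → ℕ → ℝ)
    (h : ∀ i ∈ t, countEP d (f i)) : countEP d fun s => ∑ i ∈ t, f i s := by
  classical
  induction t using Finset.induction_on with
  | empty => exact ⟨0, by simp, by simp⟩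
  | insert a t ha ih =>
    have := (h a (Finset.mem_insert_self _ _)).add
      (ih fun i hi => h i (Finset.mem_insert_of_mem hi))
    simpa [Finset.sum_insert ha] using this

theorem countEP.congr {d : ℕ} {f g : ℕ → ℝ} (hf : countEP d f)
    (h : ∀ᶠ s : ℕ in atTop, g s = f s) : countEP d g := by
  obtain ⟨p, hp, hf⟩ := hf
  refine ⟨p, hp, ?_⟩
  filter_upwards [hf, h] with s h1 h2
  rw [h2, h1]

theorem countEP.shift {d : ℕ} {f : ℕ → ℝ} (hf : countEP d f) (j : ℕ) :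
    countEP d fun s => f (s - j) := by
  obtain ⟨p, hp, hf⟩ := hf
  refine ⟨p.comp (Polynomial.X - Polynomial.C (j : ℝ)), ?_, ?_⟩
  · refine Polynomial.natDegree_comp_le.trans ?_
    rw [Polynomial.natDegree_X_sub_C, mul_one]
    exact hp
  · have h1 := (tendsto_sub_atTop_nat j).eventually hf
    filter_upwards [h1, eventually_ge_atTop j] with s h2 h3
    rw [h2, Polynomial.eval_comp]
    simp [Nat.cast_sub h3]

theorem countEP.psum {d : ℕ} {f : ℕ → ℝ} (hf : countEP d f) :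
    countEP (d + 1) fun s => ∑ u ∈ Finset.range s, f u := by
  obtain ⟨p, hp, hf⟩ := hf
  obtain ⟨N, hN⟩ := eventually_atTop.1 hf
  obtain ⟨P, hP, hP'⟩ := count_psum d p hp
  refine ⟨P + Polynomial.C (∑ u ∈ Finset.range N, (f u - p.eval (u : ℝ))), ?_, ?_⟩
  · rw [Polynomial.natDegree_add_C]
    exact hP
  · filter_upwards [eventually_ge_atTop N] with s hs
    rw [Polynomial.eval_add, Polynomial.eval_C, ← hP' s]
    obtain ⟨t, rfl⟩ := Nat.exists_eq_add_of_le hs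
    rw [Finset.sum_range_add, Finset.sum_range_add, Finset.sum_sub_distrib]
    have : ∑ x ∈ Finset.range t, f (N + x) =
        ∑ x ∈ Finset.range t, p.eval ((N + x : ℕ) : ℝ) :=
      Finset.sum_congr rfl fun x _ => hN _ (Nat.le_add_right _ _)
    rw [this]
    ring

open Classical in
/-- the elements of `D` with coordinate sum at most `s` -/
noncomputable def countF {m : ℕ} (D : Set (Fin m → ℕ)) (s : ℕ) : Finset (Fin m → ℕ) :=
  (Fintype.piFinset fun _ => Finset.range (s + 1)).filter fun y => y ∈ D ∧ ∑ i, y i ≤ s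

theorem count_mem {m : ℕ} (D : Set (Fin m → ℕ)) (s : ℕ) (y : Fin m → ℕ) :
    y ∈ countF D s ↔ y ∈ D ∧ ∑ i, y i ≤ s := by
  classical
  unfold countF
  rw [Finset.mem_filter, Fintype.mem_piFinset]
  refine ⟨fun h => h.2, fun h => ⟨fun i => Finset.mem_range.2 (Nat.lt_succ_of_le ?_), h⟩⟩
  exact (Finset.single_le_sum (f := y) (fun _ _ => Nat.zero_le _) (Finset.mem_univ i)).trans h.2

theorem count_slice {m : ℕ} (D : Set (Fin (m + 1) → ℕ)) (s : ℕ) :
    (countF D s).card = ∑ j ∈ Finset.range (s + 1),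
      (countF {y : Fin m → ℕ | (Fin.cons j y : Fin (m + 1) → ℕ) ∈ D} (s - j)).card := by
  classical
  rw [Finset.card_eq_sum_card_fiberwise (f := fun y => y 0) (t := Finset.range (s + 1))]
  · refine Finset.sum_congr rfl fun j hj => ?_
    have hj' := Finset.mem_range.1 hj
    symm
    refine Finset.card_bij (fun y _ => (Fin.cons j y : Fin (m + 1) → ℕ)) ?_ ?_ ?_
    · intro y hy
      rw [count_mem] at hy
      rw [Finset.mem_filter, count_mem]
      refine ⟨⟨hy.1, ?_⟩, rfl⟩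
      rw [Fin.sum_univ_succ]
      simp only [Fin.cons_zero, Fin.cons_succ]
      have := hy.2
      omega
    · intro y _ y' _ h
      exact Fin.cons_right_injective (α := fun _ => ℕ) j h
    · intro y hy
      rw [Finset.mem_filter, count_mem] at hy
      obtain ⟨⟨h1, h2⟩, h3⟩ := hy
      have e : (Fin.cons j (Fin.tail y) : Fin (m + 1) → ℕ) = y := by
        rw [← h3]; exact Fin.cons_self_tail y
      refine ⟨Fin.tail y, ?_, e⟩
      rw [count_mem]
      refine ⟨by simpa [e] using h1, ?_⟩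
      rw [Fin.sum_univ_succ] at h2
      simp only [Fin.tail]
      omega
  · intro y hy
    have hy' := (count_mem D s y).1 (Finset.mem_coe.1 hy)
    refine Finset.mem_coe.2 (Finset.mem_range.2 (Nat.lt_succ_of_le ?_))
    exact (Finset.single_le_sum (f := y) (fun _ _ => Nat.zero_le _) (Finset.mem_univ 0)).trans hy'.2

theorem count_card_cons {m : ℕ} (R j : ℕ) (y : Fin m → ℕ) :
    (Finset.univ.filter fun i => R ≤ (Fin.cons j y : Fin (m + 1) → ℕ) i).card =
      (if R ≤ j then 1 else 0) + (Finset.univ.filter fun i => R ≤ y i).card := by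
  rw [Finset.card_filter, Finset.card_filter, Fin.sum_univ_succ]
  simp only [Fin.cons_zero, Fin.cons_succ]

theorem count_ep (R : ℕ) : ∀ (m : ℕ) (D : Set (Fin m → ℕ)) (r : ℕ), Trunc D R →
    (∀ y ∈ D, (Finset.univ.filter fun i => R ≤ y i).card ≤ r) →
    countEP r fun s => ((countF D s).card : ℝ) := by
  intro m
  induction m with
  | zero =>
    intro D r _ _
    refine ⟨Polynomial.C ((countF D 0).card : ℝ), by simp, Eventually.of_forall fun s => ?_⟩
    have : countF D s = countF D 0 := by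
      ext y
      simp [count_mem]
    simp [this]
  | succ m ih =>
    intro D r hT hr
    set S : ℕ → Set (Fin m → ℕ) := fun j => {y | (Fin.cons j y : Fin (m + 1) → ℕ) ∈ D} with hS
    have hST : ∀ j, Trunc (S j) R := by
      intro j y y' h hy
      refine hT _ _ (fun i => ?_) hy
      refine Fin.cases ?_ (fun i => ?_) i
      · rfl
      · simpa using h i
    have hSR : ∀ j, R ≤ j → S j = S R := by
      intro j hj
      ext y
      have key : ∀ i, min ((Fin.cons j y : Fin (m + 1) → ℕ) i) R =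
          min ((Fin.cons R y : Fin (m + 1) → ℕ) i) R := by
        intro i
        refine Fin.cases ?_ (fun i => ?_) i
        · simp [hj]
        · simp
      exact ⟨fun h => hT _ _ key h, fun h => hT _ _ (fun i => (key i).symm) h⟩
    have h1 : countEP r fun s => ∑ j ∈ Finset.range R, ((countF (S j) (s - j)).card : ℝ) := by
      refine countEP.sum _ (fun j s => ((countF (S j) (s - j)).card : ℝ)) fun j _ => ?_
      refine (ih (S j) r (hST j) fun y hy => ?_).shift j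
      have := hr _ hy
      rw [count_card_cons] at this
      omega
    have h2 : countEP r fun s => ∑ u ∈ Finset.range s, ((countF (S R) u).card : ℝ) := by
      rcases r with _ | r
      · refine ⟨0, by simp, Eventually.of_forall fun s => ?_⟩
        have : ∀ u, countF (S R) u = ∅ := by
          intro u
          refine Finset.eq_empty_of_forall_notMem fun y hy => ?_
          have := hr _ ((count_mem _ _ _).1 hy).1
          rw [count_card_cons] at this
          simp at this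
        simp [this]
      · refine (ih (S R) r (hST R) fun y hy => ?_).psum
        have := hr _ hy
        rw [count_card_cons] at this
        simp only [le_refl, if_true] at this
        omega
    have h3 : countEP r fun s => ∑ u ∈ Finset.range (s + 1 - R), ((countF (S R) u).card : ℝ) := by
      obtain ⟨p, hp, hf⟩ := h2.shift R
      refine ⟨p.comp (Polynomial.X + Polynomial.C (1 : ℝ)), ?_, ?_⟩
      · refine Polynomial.natDegree_comp_le.trans ?_
        rw [Polynomial.natDegree_X_add_C, mul_one]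
        exact hp
      · filter_upwards [(tendsto_add_atTop_nat 1).eventually hf] with s hs
        rw [hs, Polynomial.eval_comp]
        simp
    refine (h1.add h3).congr ?_
    filter_upwards [eventually_ge_atTop R] with s hs
    obtain ⟨t, rfl⟩ := Nat.exists_eq_add_of_le hs
    rw [count_slice, show R + t + 1 = R + (t + 1) from rfl, Finset.sum_range_add,
      Nat.add_sub_cancel_left]
    push_cast
    congr 1
    rw [← Finset.sum_range_reflect]
    refine Finset.sum_congr rfl fun u hu => ?_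
    have hu' := Finset.mem_range.1 hu
    have e := hSR (R + (t + 1 - 1 - u)) (Nat.le_add_right _ _)
    simp only [hS] at e ⊢
    rw [e]
    congr 3
    omega

theorem count_stmt : CountStmt := by
  intro m D R r q a hq hT hr b
  obtain ⟨p, hp, hf⟩ := count_ep R m D r hT hr
  have hq' : (q : ℝ) ≠ 0 := by positivity
  -- the residue of k - a
  set c0 : ℕ := (b + (q - 1) * a) % q with hc0
  refine ⟨p.comp (Polynomial.C (q : ℝ)⁻¹ * (Polynomial.X - Polynomial.C ((a + c0 : ℕ) : ℝ))),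
    ?_, ?_⟩
  · refine Polynomial.natDegree_comp_le.trans ?_
    have : (Polynomial.C (q : ℝ)⁻¹ *
        (Polynomial.X - Polynomial.C ((a + c0 : ℕ) : ℝ))).natDegree ≤ 1 :=
      (Polynomial.natDegree_C_mul_le _ _).trans (Polynomial.natDegree_X_sub_C_le _)
    exact (Nat.mul_le_mul hp this).trans (by simp)
  · have ht : Tendsto (fun k : ℕ => (k - a) / q) atTop atTop :=
      (Nat.tendsto_div_const_atTop hq.ne').comp (tendsto_sub_atTop_nat a)
    filter_upwards [ht.eventually hf, eventually_ge_atTop a] with k hk hka hb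
    obtain ⟨t, rfl⟩ := Nat.exists_eq_add_of_le hka
    rw [Nat.add_sub_cancel_left] at hk
    have e1 : {y | y ∈ D ∧ a + q * ∑ i, y i ≤ a + t} = (countF D (t / q) : Set (Fin m → ℕ)) := by
      ext y
      rw [Finset.mem_coe, count_mem, Set.mem_ofPred_eq, Nat.add_le_add_iff_left,
        Nat.le_div_iff_mul_le hq, mul_comm]
    have e2 : t % q = c0 := by
      rw [hc0, ← hb, Nat.mod_add_mod]
      obtain ⟨q', rfl⟩ := Nat.exists_eq_add_one_of_ne_zero hq.ne'
      rw [Nat.add_sub_cancel, show a + t + q' * a = t + (q' + 1) * a by ring,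
        Nat.add_mul_mod_self_left]
    have e3 : ((t / q : ℕ) : ℝ) = (q : ℝ)⁻¹ * (((a + t : ℕ) : ℝ) - ((a + c0 : ℕ) : ℝ)) := by
      have h := congrArg (fun x : ℕ => (x : ℝ)) (Nat.div_add_mod t q)
      rw [e2] at h
      push_cast at h ⊢
      field_simp
      linarith
    rw [e1, Set.ncard_coe_finset, hk, Polynomial.eval_comp, e3]
    simp

end Pool.Agent.MP_b3b911_al.VA

end

section

/-! Unique normal forms from an exact presentation. -/

namespace Pool.Agent.MP_b3b911_al.VA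

open Filter Topology Pointwise

variable {G : Type*} [Group G]

theorem down_trunc {m : ℕ} (D : Set (Fin m → ℕ)) (hD : ∀ y y', y' ≤ y → y ∈ D → y' ∈ D) :
    ∃ R, ∀ R', R ≤ R' → Trunc D R' := by
  have hf : {u : Fin m → ℕ | Minimal (· ∉ D) u}.Finite :=
    WellQuasiOrderedLE.finite_of_isAntichain (setOfPred_minimal_antichain _)
  obtain ⟨U, hU⟩ := hf.bddAbove
  obtain ⟨R, hR⟩ := (Set.finite_range U).bddAbove
  refine ⟨R, fun R' h y y' e hy => ?_⟩
  by_contra hn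
  obtain ⟨u, h1, h2⟩ := exists_minimal_le_of_wellFoundedLT (· ∉ D) y' hn
  refine h2.prop (hD y u (fun i => ?_) hy)
  have h3 : u i ≤ R' := ((hU h2 i).trans (hR ⟨i, rfl⟩)).trans h
  exact ((le_min (h1 i) h3).trans (e i).ge).trans (min_le_left _ _)

theorem down_sum {n m : ℕ} (c : Fin m → Zn n) (y d : Fin m → ℕ) :
    ∑ i, (y + d) i • c i = ∑ i, d i • c i + ∑ i, y i • c i := by
  simp only [Pi.add_apply, add_smul, Finset.sum_add_distrib]
  exact add_comm _ _

theorem down_iter {n : ℕ} {L : Lat G n} {E : Set G} {l : G → ℕ} {m : ℕ} {c : Fin m → Zn n} {q : ℕ}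
    {B : Finset G} (h : Pres L E l c q B) (y : Fin m → ℕ) :
    ∀ g ∈ E, L.ι (∑ i, y i • c i) * g ∈ E ∧ l (L.ι (∑ i, y i • c i) * g) ≤ l g + q * ∑ i, y i := by
  have hadd : ∀ y d : Fin m → ℕ,
      (∀ g ∈ E, L.ι (∑ i, y i • c i) * g ∈ E ∧
        l (L.ι (∑ i, y i • c i) * g) ≤ l g + q * ∑ i, y i) →
      (∀ g ∈ E, L.ι (∑ i, d i • c i) * g ∈ E ∧
        l (L.ι (∑ i, d i • c i) * g) ≤ l g + q * ∑ i, d i) →
      ∀ g ∈ E, L.ι (∑ i, (y + d) i • c i) * g ∈ E ∧
        l (L.ι (∑ i, (y + d) i • c i) * g) ≤ l g + q * ∑ i, (y + d) i := by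
    intro y d h1 h2 g hg
    obtain ⟨h3, h4⟩ := h1 g hg
    obtain ⟨h5, h6⟩ := h2 _ h3
    rw [down_sum, ← L.ι_mul_ι_mul]
    refine ⟨h5, ?_⟩
    simp only [Pi.add_apply, Finset.sum_add_distrib, mul_add]
    omega
  refine Pi.single_induction (fun y : Fin m → ℕ => ∀ g ∈ E, L.ι (∑ i, y i • c i) * g ∈ E ∧
    l (L.ι (∑ i, y i • c i) * g) ≤ l g + q * ∑ i, y i) y (fun g hg => by simpa using hg) hadd ?_
  intro i k
  induction k with
  | zero => intro g hg; simpa using hg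
  | succ k ih =>
    rw [Pi.single_add]
    refine hadd _ _ ih fun g hg => ?_
    have e : ∑ j, (Pi.single i 1 : Fin m → ℕ) j • c j = c i := by
      rw [Finset.sum_eq_single i (fun j _ hj => by simp [hj]) (by simp)]
      simp
    rw [e]
    simpa using h.step i g hg

theorem down_lex {m : ℕ} {y y' : Fin m → ℕ} (d : Fin m → ℕ) (h : toLex y < toLex y') :
    toLex (y + d) < toLex (y' + d) := by
  obtain ⟨i, h1, h2⟩ := h
  refine ⟨i, fun j hj => ?_, ?_⟩
  · have : y j = y' j := h1 j hj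
    show y j + d j = y' j + d j
    rw [this]
  · have : y i < y' i := h2
    show y i + d i < y' i + d i
    omega

theorem down_stmt : DownStmt G := by
  intro n L E l m c q B h
  obtain ⟨_, _⟩ := exists_wellFoundedLT (α := G)
  let key : G × (Fin m → ℕ) → G ×ₗ Lex (Fin m → ℕ) := fun p => toLex (p.1, toLex p.2)
  let X : G → Set (G × (Fin m → ℕ)) := fun g =>
    {p | p.1 ∈ B ∧ g = L.ι (∑ i, p.2 i • c i) * p.1 ∧ l g = l p.1 + q * ∑ i, p.2 i}
  let D : G → Set (Fin m → ℕ) := fun b =>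
    {y | (b, y) ∈ X (L.ι (∑ i, y i • c i) * b) ∧
      ∀ p ∈ X (L.ι (∑ i, y i • c i) * b), ¬ key p < key (b, y)}
  have hlow : ∀ b y y', y' ≤ y → y ∈ D b → y' ∈ D b := by
    intro b y y' hle hy
    obtain ⟨d, rfl⟩ := exists_add_of_le hle
    obtain ⟨⟨hb, -, h1⟩, h2⟩ := hy
    have h1' : l (L.ι (∑ i, (y' + d) i • c i) * b) = l b + q * ∑ i, (y' + d) i := h1
    obtain ⟨h3, h4⟩ := down_iter h y' b (h.sub b hb)
    obtain ⟨-, h6⟩ := down_iter h d _ h3
    rw [L.ι_mul_ι_mul, ← down_sum] at h6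
    have hs : ∀ z : Fin m → ℕ, q * ∑ i, (z + d) i = q * ∑ i, z i + q * ∑ i, d i := fun z => by
      simp only [Pi.add_apply, Finset.sum_add_distrib, mul_add]
    have h7 : l (L.ι (∑ i, y' i • c i) * b) = l b + q * ∑ i, y' i := by
      have := hs y'
      omega
    refine ⟨⟨hb, rfl, h7⟩, ?_⟩
    rintro ⟨b3, y3⟩ ⟨k1, k2, k3⟩ hlt
    have k2' : L.ι (∑ i, y' i • c i) * b = L.ι (∑ i, y3 i • c i) * b3 := k2
    have k3' : l (L.ι (∑ i, y' i • c i) * b) = l b3 + q * ∑ i, y3 i := k3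
    refine h2 (b3, y3 + d) ⟨k1, ?_, ?_⟩ ?_
    · show L.ι (∑ i, (y' + d) i • c i) * b = L.ι (∑ i, (y3 + d) i • c i) * b3
      rw [down_sum, down_sum, ← L.ι_mul_ι_mul, ← L.ι_mul_ι_mul, k2']
    · show l (L.ι (∑ i, (y' + d) i • c i) * b) = l b3 + q * ∑ i, (y3 + d) i
      have := hs y'
      have := hs y3
      omega
    · rcases Prod.Lex.toLex_lt_toLex.1 hlt with k | ⟨k, k'⟩
      · exact Prod.Lex.toLex_lt_toLex.2 (Or.inl k)
      · exact Prod.Lex.toLex_lt_toLex.2 (Or.inr ⟨k, down_lex d k'⟩)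
  choose R hR using fun b => down_trunc (D b) (hlow b)
  refine ⟨D, B.sup R, fun b => ?_, fun b hb y hy => ⟨(down_iter h y b (h.sub b hb)).1, hy.1.2.2⟩,
    fun g hg => ?_, fun b _ y hy b' _ y' hy' e => ?_⟩
  · by_cases hb : b ∈ B
    · exact hR b _ (Finset.le_sup hb)
    · exact fun y _ _ hy => absurd hy.1.1 hb
  · obtain ⟨b, hb, y, h1, h2⟩ := h.gen g hg
    obtain ⟨_, ⟨p, hp, rfl⟩, hm⟩ := wellFounded_lt.has_min (key '' X g) ⟨_, (b, y), ⟨hb, h1, h2⟩, rfl⟩
    refine ⟨p.1, hp.1, p.2, ?_, hp.2.1⟩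
    show (p.1, p.2) ∈ X (L.ι (∑ i, p.2 i • c i) * p.1) ∧
      ∀ p' ∈ X (L.ι (∑ i, p.2 i • c i) * p.1), ¬ key p' < key (p.1, p.2)
    rw [← hp.2.1]
    exact ⟨hp, fun p' hp' => hm _ ⟨p', hp', rfl⟩⟩
  · have h1 := hy.2 (b', y') (e ▸ hy'.1)
    have h2 := hy'.2 (b, y) (e ▸ hy.1)
    have h3 : key (b, y) = key (b', y') := le_antisymm (not_lt.1 h1) (not_lt.1 h2)
    have h4 : (b, toLex y) = (b', toLex y') := toLex.injective h3
    exact ⟨congrArg Prod.fst h4, toLex.injective (congrArg Prod.snd h4)⟩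

end Pool.Agent.MP_b3b911_al.VA

end

section

/-! Virtually abelian groups: the lattice data and the condition of the classification. -/

namespace Pool.Agent.MP_b3b911_al.VA

open Filter Topology Pointwise

variable {G : Type*} [Group G]

theorem lat2_zero {n : ℕ} {ι : Zn n → G} (h : ∀ v w, ι (v + w) = ι v * ι w) : ι 0 = 1 := by
  have := h 0 0
  rw [add_zero] at this
  exact mul_eq_left.1 this.symm

theorem lat2_neg {n : ℕ} {ι : Zn n → G} (h : ∀ v w, ι (v + w) = ι v * ι w) (v : Zn n) :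
    ι (-v) = (ι v)⁻¹ := by
  have := h (-v) v
  rw [neg_add_cancel, lat2_zero h] at this
  exact eq_inv_of_mul_eq_one_left this.symm

/-- the image of the lattice -/
def lat2H {n : ℕ} (ι : Zn n → G) (h : ∀ v w, ι (v + w) = ι v * ι w) : Subgroup G where
  carrier := Set.range ι
  mul_mem' := by
    rintro _ _ ⟨v, rfl⟩ ⟨w, rfl⟩
    exact ⟨v + w, h v w⟩
  one_mem' := ⟨0, lat2_zero h⟩
  inv_mem' := by
    rintro _ ⟨v, rfl⟩
    exact ⟨-v, lat2_neg h v⟩

theorem lat2_normal {n : ℕ} {ι : Zn n → G} (h : ∀ v w, ι (v + w) = ι v * ι w)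
    (hc : ∀ g v, ∃ w, g * ι v = ι w * g) : (lat2H ι h).Normal := by
  refine ⟨?_⟩
  rintro _ ⟨v, rfl⟩ g
  obtain ⟨w, hw⟩ := hc g v
  exact ⟨w, by rw [hw, mul_inv_cancel_right]⟩

theorem lat2_mk {n : ℕ} {ι : Zn n → G} (h : ∀ v w, ι (v + w) = ι v * ι w)
    (hc : ∀ g v, ∃ w, g * ι v = ι w * g) (g g' : G) :
    (QuotientGroup.mk g : G ⧸ lat2H ι h) = QuotientGroup.mk g' ↔ ∃ v, g' = ι v * g := by
  rw [QuotientGroup.eq]
  constructor
  · rintro ⟨v, hv⟩
    obtain ⟨w, hw⟩ := hc g v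
    exact ⟨w, by rw [← hw, hv, mul_inv_cancel_left]⟩
  · rintro ⟨v, rfl⟩
    obtain ⟨w, hw⟩ := hc g⁻¹ v
    exact ⟨w, by rw [← mul_assoc, hw, inv_mul_cancel_right]⟩

theorem lat2_finite {n : ℕ} {ι : Zn n → G} (h : ∀ v w, ι (v + w) = ι v * ι w)
    (hc : ∀ g v, ∃ w, g * ι v = ι w * g) {X : Type*} [Finite X] (r : X → G)
    (hr : ∀ g, ∃ f v, g = ι v * r f) : Finite (G ⧸ lat2H ι h) := by
  refine Finite.of_surjective (fun f => (QuotientGroup.mk (r f) : G ⧸ lat2H ι h)) fun q => ?_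
  obtain ⟨g, rfl⟩ := QuotientGroup.mk_surjective q
  obtain ⟨f, v, hv⟩ := hr g
  exact ⟨f, (lat2_mk h hc _ _).2 ⟨v, hv⟩⟩

theorem lat2_stmt : Lat2Stmt G := by
  rintro n ι h hinj hc ⟨F, hF⟩
  haveI hN := lat2_normal h hc
  haveI hfin : Finite (G ⧸ lat2H ι h) := lat2_finite h hc (fun f : F => (f : G)) fun g => by
    obtain ⟨f, hf, v, hv⟩ := hF g
    exact ⟨⟨f, hf⟩, v, hv⟩
  set N := Nat.card (G ⧸ lat2H ι h) with hNdef
  let e : (G ⧸ lat2H ι h) ≃ Fin N := Finite.equivFin _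
  let cl : G → Fin N := fun g => e (QuotientGroup.mk g)
  let rep : Fin N → G := fun f => (e.symm f).out
  have cl_eq : ∀ g g', cl g = cl g' ↔ ∃ v, g' = ι v * g := fun g g' => by
    rw [← lat2_mk h hc]
    exact e.apply_eq_iff_eq
  have cl_rep : ∀ f, cl (rep f) = f := fun f => by
    simp only [cl, rep, QuotientGroup.out_eq', Equiv.apply_symm_apply]
  choose r hr using hc
  have r_add : ∀ g v w, r g (v + w) = r g v + r g w := fun g v w => by
    apply hinj
    apply mul_right_cancel (b := g)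
    rw [← hr g (v + w), h, h, ← mul_assoc, hr g v, mul_assoc, hr g w, mul_assoc]
  have r_one : ∀ v, r 1 v = v := fun v => by
    apply hinj
    have := hr 1 v
    rw [one_mul, mul_one] at this
    exact this.symm
  have r_mul : ∀ g g' v, r (g * g') v = r g (r g' v) := fun g g' v => by
    apply hinj
    apply mul_right_cancel (b := g * g')
    rw [← hr, mul_assoc, hr, ← mul_assoc, hr, mul_assoc]
  have r_ι : ∀ v w, r (ι v) w = w := fun v w => by
    apply hinj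
    apply mul_right_cancel (b := ι v)
    rw [← hr, ← h, ← h, add_comm]
  let ρ : G →* Module.End ℤ (Zn n) :=
    { toFun := fun g => (AddMonoidHom.mk' (r g) (r_add g)).toIntLinearMap
      map_one' := LinearMap.ext r_one
      map_mul' := fun g g' => LinearMap.ext (r_mul g g') }
  have hρ : ∀ g v, ρ g v = r g v := fun _ _ => rfl
  have hlam : ∀ g f, ∃ v, g * rep f = ι v * rep (cl (g * rep f)) := fun g f =>
    (cl_eq _ _).1 (cl_rep _)
  choose lam hlam using hlam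
  have cl_mul : ∀ u g g', cl g = cl g' → cl (u * g) = cl (u * g') := fun u g g' e' => by
    obtain ⟨v, rfl⟩ := (cl_eq _ _).1 e'
    exact (cl_eq _ _).2 ⟨r u v, by rw [← mul_assoc, hr, mul_assoc]⟩
  have lam_mul : ∀ g g' f, lam (g * g') f = r g (lam g' f) + lam g (cl (g' * rep f)) :=
    fun g g' f => by
      have e1 : cl (g * rep (cl (g' * rep f))) = cl (g * g' * rep f) := by
        rw [mul_assoc]
        exact cl_mul _ _ _ (cl_rep _)
      apply hinj
      apply mul_right_cancel (b := rep (cl (g * g' * rep f)))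
      rw [← hlam, h, mul_assoc (ι _), ← e1, ← hlam, ← mul_assoc, ← hr, mul_assoc, mul_assoc,
        ← hlam]
  have lam_ι : ∀ v f, lam (ι v) f = v := fun v f => by
    have e1 : cl (ι v * rep f) = f := ((cl_eq _ _).2 ⟨v, rfl⟩).symm.trans (cl_rep f)
    have := hlam (ι v) f
    rw [e1] at this
    exact (hinj (mul_right_cancel this)).symm
  have hbij : ∀ g, Function.Bijective fun f => cl (g * rep f) := fun g => by
    refine Finite.injective_iff_bijective.1 fun f f' e' => ?_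
    have := cl_mul g⁻¹ _ _ e'
    simpa only [inv_mul_cancel_left, cl_rep] using this
  refine ⟨{ ι := ι, ρ := ρ, P := fun g => ∑ f, lam g f, N := N, cl := cl, rep := rep,
            ι_add := h, conj := hr, P_mul := ?_, P_ι := ?_, pow_N := ?_, cl_eq := cl_eq,
            cl_rep := cl_rep }⟩
  · intro g g'
    rw [map_sum]
    simp only [lam_mul, Finset.sum_add_distrib, hρ]
    rw [add_comm, (hbij g').sum_comp (fun f => lam g f)]
  · intro v
    simp only [lam_ι, Finset.sum_const, Finset.card_univ, Fintype.card_fin]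
  · intro g
    have : (QuotientGroup.mk (g ^ N) : G ⧸ lat2H ι h) = 1 := by
      rw [QuotientGroup.mk_pow, hNdef, pow_card_eq_one']
    obtain ⟨v, hv⟩ := (QuotientGroup.eq_one_iff _).1 this
    exact ⟨v, hv.symm⟩

theorem lat2_mult {n : ℕ} (L : Lat G n) (A : Subgroup G) (hA : A.index ≠ 0) (v : Zn n) :
    ∃ k : ℕ, 0 < k ∧ L.ι (k • v) ∈ A := by
  obtain ⟨k, hk, -, hk'⟩ := Subgroup.exists_pow_mem_of_index_ne_zero hA (L.ι v)
  exact ⟨k, hk, by rwa [L.ι_nsmul]⟩

theorem lat2_cancel {n k : ℕ} (hk : 0 < k) {v w : Zn n} (h : k • v = k • w) : v = w := by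
  funext i
  have := congrFun h i
  simp only [Pi.smul_apply, nsmul_eq_mul] at this
  exact mul_left_cancel₀ (by exact_mod_cast hk.ne') this

theorem lat2_cent {n : ℕ} (L : Lat G n) (A : Subgroup G) (hA : A.index ≠ 0) (g : G)
    (hg : ∀ a ∈ A, g * a * g⁻¹ = a) : L.ρ g = 1 := by
  refine LinearMap.ext fun v => ?_
  obtain ⟨k, hk, hv⟩ := lat2_mult L A hA v
  have := hg _ hv
  rw [L.conj, mul_inv_cancel_right] at this
  have := L.ι_inj this
  rw [map_nsmul] at this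
  exact lat2_cancel hk this

theorem lat2_invt {n : ℕ} (L : Lat G n) (A : Subgroup G) (hA : A.index ≠ 0) (g : G)
    (hg : ∀ a ∈ A, g * a * g⁻¹ = a⁻¹) : L.ρ g = -1 := by
  refine LinearMap.ext fun v => ?_
  obtain ⟨k, hk, hv⟩ := lat2_mult L A hA v
  have := hg _ hv
  rw [L.conj, mul_inv_cancel_right, ← L.ι_neg] at this
  have := L.ι_inj this
  rw [map_nsmul, ← smul_neg] at this
  exact lat2_cancel hk this

theorem lat2_pm {n : ℕ} (L : Lat G n) (h : ∀ g, L.ρ g ≠ 1 → L.ρ g = -1) :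
    ∃ A : Subgroup G, A.FiniteIndex ∧
      ∀ g : G, (∀ a ∈ A, g * a * g⁻¹ = a) ∨ ∀ a ∈ A, g * a * g⁻¹ = a⁻¹ := by
  have hc : ∀ g v, ∃ w, g * L.ι v = L.ι w * g := fun g v => ⟨_, L.conj g v⟩
  haveI : Finite (G ⧸ lat2H L.ι L.ι_add) := lat2_finite L.ι_add hc L.rep fun g => by
    obtain ⟨v, hv⟩ := L.exists_rep g
    exact ⟨_, v, hv⟩
  refine ⟨lat2H L.ι L.ι_add, Subgroup.finiteIndex_of_finite_quotient, fun g => ?_⟩
  by_cases hg : L.ρ g = 1
  · left
    rintro _ ⟨v, rfl⟩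
    rw [L.conj, mul_inv_cancel_right, hg]
    rfl
  · right
    rintro _ ⟨v, rfl⟩
    rw [L.conj, mul_inv_cancel_right, h g hg, ← L.ι_neg]
    rfl

theorem good_stmt : GoodStmt G := by
  intro n L
  constructor
  · rintro ⟨h1, h2 | h2⟩
    · exact Or.inr (lat2_pm L h2)
    · by_cases ht : ∃ t, L.ρ t ≠ 1
      · obtain ⟨t, ht⟩ := ht
        refine Or.inl ⟨L.ρ.ker, ?_, fun a ha b hb => h2 a b ha hb⟩
        rw [Subgroup.index_eq_two_iff]
        refine ⟨t, fun b => ?_⟩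
        by_cases hb : L.ρ b = 1
        · refine Or.inr ⟨hb, fun h => ht ?_⟩
          have h' : L.ρ (b * t) = 1 := h
          rwa [map_mul, hb, one_mul] at h'
        · exact Or.inl ⟨h1 b t hb ht, hb⟩
      · exact Or.inr (lat2_pm L fun g hg => absurd ⟨g, hg⟩ ht)
  · rintro (⟨B, hB, hc⟩ | ⟨A, hA, hg⟩)
    · have hk : ∀ b ∈ B, L.ρ b = 1 := fun b hb =>
        lat2_cent L B (by rw [hB]; norm_num) b fun a ha => by
          rw [hc b hb a ha, mul_inv_cancel_right]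
      have hm : ∀ g h, g ∉ B → h ∉ B → g * h ∈ B := fun g h hg hh =>
        (Subgroup.mul_mem_iff_of_index_two hB).2 (iff_of_false hg hh)
      refine ⟨fun g h hg hh => hk _ (hm g h (fun e => hg (hk g e)) fun e => hh (hk h e)), ?_⟩
      by_cases ht : ∃ t, L.ρ t ≠ 1
      · obtain ⟨t, ht⟩ := ht
        have hB' : ∀ g, L.ρ g = 1 → g ∈ B := fun g hg => by
          by_contra hn
          have := hk _ (hm g t hn fun e => ht (hk t e))
          rw [map_mul, hg, one_mul] at this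
          exact ht this
        exact Or.inr fun g h hg hh => hc g (hB' g hg) h (hB' h hh)
      · exact Or.inl fun g hg => absurd ⟨g, hg⟩ ht
    · have hpm : ∀ g, L.ρ g ≠ 1 → L.ρ g = -1 := fun g hn =>
        (hg g).elim (fun e => absurd (lat2_cent L A hA.index_ne_zero g e) hn)
          (lat2_invt L A hA.index_ne_zero g)
      refine ⟨fun g h hg' hh => ?_, Or.inl hpm⟩
      rw [map_mul, hpm g hg', hpm h hh, neg_mul_neg, one_mul]

end Pool.Agent.MP_b3b911_al.VA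

end

section

/-! Virtually abelian groups: three facts on invariant means. -/

namespace Pool.Agent.MP_b3b911_al.VA

open Filter Topology Pointwise

variable {G : Type*} [Group G]

theorem slab_stmt : SlabStmt G := by
  intro n L μ η M hη
  obtain ⟨v, hv⟩ : ∃ v, η v ≠ 0 := by
    by_contra hc
    push Not at hc
    exact hη (AddMonoidHom.ext hc)
  have hv' : 0 < |η v| := abs_pos.2 hv
  obtain ⟨t, ht⟩ := exists_nat_gt (2 * M / |η v|)
  rw [div_lt_iff₀ hv'] at ht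
  set X : Set G := {g | ¬ M < |η (L.P g)|} with hX
  rw [Mean.ae_iff]
  change μ.D X = 0
  have key : ∀ J : ℕ, (J : ℝ) * μ.D X ≤ 1 := by
    intro J
    have h1 := μ.biUnion_ae (Finset.range J)
      (fun j => (fun x => L.ι ((j * t) • v) * x) ⁻¹' X) (by
        intro i _ j _ hij
        refine Eventually.of_forall fun g hi hj => ?_
        simp only [hX, Set.mem_preimage, Set.mem_ofPred_eq, not_lt, L.P_ι_mul, map_add,
          map_nsmul] at hi hj
        simp only [nsmul_eq_mul, Nat.cast_mul] at hi hj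
        have hN : (1 : ℝ) ≤ L.N := by exact_mod_cast L.N_pos
        have hij' : (1 : ℝ) ≤ |(i : ℝ) - j| := by
          have : (1 : ℤ) ≤ |(i : ℤ) - j| := Int.one_le_abs (by omega)
          exact_mod_cast this
        have h2 : |(L.N : ℝ) * (i * t * η v) - L.N * (j * t * η v)| ≤ 2 * M := by
          have := abs_sub (L.N * (i * t * η v) + η (L.P g)) (L.N * (j * t * η v) + η (L.P g))
          rw [add_sub_add_right_eq_sub] at this
          linarith
        have h3 : |(L.N : ℝ) * (i * t * η v) - L.N * (j * t * η v)| =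
            L.N * (|(i : ℝ) - j| * (t * |η v|)) := by
          rw [show (L.N : ℝ) * (i * t * η v) - L.N * (j * t * η v) =
            L.N * (((i : ℝ) - j) * (t * η v)) by ring, abs_mul, abs_mul, abs_mul, Nat.abs_cast,
            Nat.abs_cast]
        have h4 : (0 : ℝ) ≤ t * |η v| := by positivity
        have h5 : t * |η v| ≤ |(i : ℝ) - j| * (t * |η v|) := le_mul_of_one_le_left h4 hij'
        have h6 : |(i : ℝ) - j| * (t * |η v|) ≤ L.N * (|(i : ℝ) - j| * (t * |η v|)) :=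
          le_mul_of_one_le_left (by positivity) hN
        linarith)
    simp only [μ.left, Finset.sum_const, Finset.card_range, nsmul_eq_mul] at h1
    rw [← h1]
    exact μ.le_one _
  by_contra hne
  have hpos : 0 < μ.D X := lt_of_le_of_ne (μ.nonneg X) (Ne.symm hne)
  obtain ⟨J, hJ⟩ := exists_nat_gt (1 / μ.D X)
  rw [div_lt_iff₀ hpos] at hJ
  linarith [key J]

theorem meant_const (μ : Mean G) (Y : Set G) (F : G → G) (h : G → ℤ) (B : ℤ)
    (hF : ∀ X, μ.D (Y ∩ F ⁻¹' X) = μ.D (Y ∩ X))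
    (h1 : ∀ᶠ g in μ.ae, g ∈ Y → h (F g) ≤ h g ∧ |h g| ≤ B) :
    ∀ᶠ g in μ.ae, g ∈ Y → h (F g) = h g := by
  have h2 : ∀ᶠ g in μ.ae, g ∉ Y ∩ F ⁻¹' {g | ¬ |h g| ≤ B} := by
    apply μ.ae_not_mem
    rw [hF]
    exact μ.null_of_ae (h1.mono fun g hg hm => hm.2 (hg hm.1).2)
  have h3 : ∀ t : ℤ, ∀ᶠ g in μ.ae, g ∉ (Y ∩ F ⁻¹' {g | h g ≤ t}) \ (Y ∩ {g | h g ≤ t}) := by
    intro t
    apply μ.ae_not_mem
    have a := μ.inter_add_diff (Y ∩ F ⁻¹' {g | h g ≤ t}) (Y ∩ {g | h g ≤ t})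
    have b : μ.D ((Y ∩ F ⁻¹' {g | h g ≤ t}) ∩ (Y ∩ {g | h g ≤ t})) = μ.D (Y ∩ {g | h g ≤ t}) :=
      μ.congr_ae (h1.mono fun g hg => ⟨fun hm => hm.2, fun hm =>
        ⟨⟨hm.1, le_trans (hg hm.1).1 hm.2⟩, hm⟩⟩)
    linarith [hF {g | h g ≤ t}]
  have h4 : ∀ᶠ g in μ.ae, ∀ t ∈ Finset.Icc (-B) B,
      g ∉ (Y ∩ F ⁻¹' {g | h g ≤ t}) \ (Y ∩ {g | h g ≤ t}) :=
    (Filter.eventually_all_finset _).2 fun t _ => h3 t
  filter_upwards [h1, h2, h4] with g a b c hg
  refine le_antisymm (a hg).1 ?_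
  have hb : |h (F g)| ≤ B := by
    by_contra hc
    exact b ⟨hg, hc⟩
  by_contra hc
  exact c (h (F g)) (Finset.mem_Icc.2 (abs_le.1 hb)) ⟨⟨hg, le_refl (h (F g))⟩, fun hm => hc hm.2⟩

theorem tlem_stmt : TLemStmt G := by
  intro μ l Y F pot A p hp hF h1
  have h2 := meant_const μ Y F (fun g => (l g : ℤ) - ⌊pot g⌋) (⌈A⌉ + 1) hF (h1.mono fun g hg hm => by
    obtain ⟨a, b, c⟩ := hg hm
    refine ⟨?_, ?_⟩
    · rw [b, Int.floor_add_one]; omega
    · have c' := abs_le.1 c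
      have d1 := Int.floor_le (pot g)
      have d2 := Int.lt_floor_add_one (pot g)
      have d3 := Int.le_ceil A
      have : |((l g : ℤ) : ℝ) - (⌊pot g⌋ : ℝ)| ≤ (⌈A⌉ : ℝ) + 1 := by
        rw [abs_le]; push_cast; constructor <;> linarith [c'.1, c'.2]
      exact_mod_cast this)
  have h3 : ∀ᶠ g in μ.ae, g ∈ Y → l (F g) = l g + 1 := by
    filter_upwards [h1, h2] with g a b hg
    have := b hg
    rw [(a hg).2.1, Int.floor_add_one] at this
    omega
  have h4 : ∀ r : ℕ, μ.D (Y ∩ {g | l g % p = (r + 1) % p}) = μ.D (Y ∩ {g | l g % p = r % p}) := by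
    intro r
    rw [← hF]
    refine μ.congr_ae (h3.mono fun g hg => ⟨fun hm => ⟨hm.1, ?_⟩, fun hm => ⟨hm.1, ?_⟩⟩)
    · have : l (F g) % p = (r + 1) % p := hm.2
      rw [hg hm.1] at this
      exact Nat.ModEq.add_right_cancel' 1 this
    · change l (F g) % p = (r + 1) % p
      rw [hg hm.1]
      exact Nat.ModEq.add_right 1 hm.2
  have h5 : ∀ r : ℕ, μ.D (Y ∩ {g | l g % p = r % p}) = μ.D (Y ∩ {g | l g % p = 0 % p}) := by
    intro r
    induction r with
    | zero => rfl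
    | succ r ih => rw [h4, ih]
  have h6 : ∀ r < p, μ.D (Y ∩ {g | l g % p = r}) = μ.D (Y ∩ {g | l g % p = 0 % p}) := by
    intro r hr
    rw [← h5 r, Nat.mod_eq_of_lt hr]
  intro r hr
  rw [μ.sum_fiber (Finset.range p) (fun g => l g % p) Y
    (fun g _ => Finset.mem_range.2 (Nat.mod_lt _ hp)), h6 r hr,
    Finset.sum_congr rfl fun i hi => h6 i (Finset.mem_range.1 hi)]
  simp

theorem perm_stmt : PermStmt G := by
  intro n μ R ν s σ h hs hm hi hν hR X
  rw [μ.sum_fiber hs.toFinset ν _ (fun g hg => hs.mem_toFinset.2 hg.1.2),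
    μ.sum_fiber hs.toFinset ν ((R ∩ {g | ν g ∈ s}) ∩ X) (fun g hg => hs.mem_toFinset.2 hg.1.2)]
  have hb : Set.BijOn σ s s := (hs.injOn_iff_bijOn_of_mapsTo hm).1 hi
  refine Finset.sum_bij (fun c _ => σ c) (fun c hc => hs.mem_toFinset.2 (hm (hs.mem_toFinset.1 hc)))
    (fun a ha b hb' e => hi (hs.mem_toFinset.1 ha) (hs.mem_toFinset.1 hb') e)
    (fun b hb' => ?_) (fun c hc => ?_)
  · obtain ⟨a, ha, e⟩ := hb.surjOn (hs.mem_toFinset.1 hb')
    exact ⟨a, hs.mem_toFinset.2 ha, e⟩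
  · have hc' := hs.mem_toFinset.1 hc
    rw [← μ.right (h c) (R ∩ {g | ν g ∈ s} ∩ X ∩ {g | ν g = σ c})]
    refine μ.congr_ae ((hR (h c)).mono fun g hg => ⟨?_, ?_⟩)
    · rintro ⟨⟨⟨a, -⟩, b⟩, e⟩
      have e' : ν g = c := e
      have e2 : ν (g * h c) = σ c := (hν c hc' g).2 e'
      have b' : g * h (ν g) ∈ X := b
      rw [e'] at b'
      refine ⟨⟨⟨hg.1 a, ?_⟩, b'⟩, e2⟩
      change ν (g * h c) ∈ s
      rw [e2]; exact hm hc'
    · rintro ⟨⟨⟨a, -⟩, b⟩, e⟩
      have e' : ν g = c := (hν c hc' g).1 e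
      refine ⟨⟨⟨hg.2 a, ?_⟩, ?_⟩, e'⟩
      · change ν g ∈ s
        rw [e']; exact hc'
      · change g * h (ν g) ∈ X
        rw [e']; exact b

end Pool.Agent.MP_b3b911_al.VA

end

section

/-! Virtually abelian groups: reduction to translations of equal weight. -/

namespace Pool.Agent.MP_b3b911_al.VA

open Filter Topology Pointwise

variable {G : Type*} [Group G]

theorem red_iter {n : ℕ} (L : Lat G n) {E : Set G} {l : G → ℕ} {v : Zn n} {w : ℕ}
    (h : ∀ g ∈ E, L.ι v * g ∈ E ∧ l (L.ι v * g) ≤ l g + w) (k : ℕ) :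
    ∀ g ∈ E, L.ι (k • v) * g ∈ E ∧ l (L.ι (k • v) * g) ≤ l g + k * w := by
  induction k with
  | zero => intro g hg; simpa using hg
  | succ k ih =>
    intro g hg
    obtain ⟨h1, h2⟩ := ih g hg
    obtain ⟨h3, h4⟩ := h _ h1
    rw [succ_nsmul', ← L.ι_mul_ι_mul]
    refine ⟨h3, ?_⟩
    rw [Nat.succ_mul]
    omega

theorem red_sum {n m : ℕ} (L : Lat G n) {E : Set G} {l : G → ℕ} {c : Fin m → Zn n} {q : ℕ}
    (h : ∀ i, ∀ g ∈ E, L.ι (c i) * g ∈ E ∧ l (L.ι (c i) * g) ≤ l g + q) (y : Fin m → ℕ)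
    (s : Finset (Fin m)) :
    ∀ g ∈ E, L.ι (∑ i ∈ s, y i • c i) * g ∈ E ∧
      l (L.ι (∑ i ∈ s, y i • c i) * g) ≤ l g + q * ∑ i ∈ s, y i := by
  classical
  induction s using Finset.induction_on with
  | empty => intro g hg; simpa using hg
  | insert a s ha ih =>
    intro g hg
    obtain ⟨h1, h2⟩ := ih g hg
    obtain ⟨h3, h4⟩ := red_iter L (h a) (y a) _ h1
    rw [Finset.sum_insert ha, Finset.sum_insert ha, ← L.ι_mul_ι_mul]
    refine ⟨h3, ?_⟩
    rw [mul_add, mul_comm q (y a)]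
    omega

/-- irreducible elements -/
def redIrr {n m : ℕ} (L : Lat G n) (E : Set G) (l : G → ℕ) (c : Fin m → Zn n) (q : ℕ) : Set G :=
  {g | g ∈ E ∧ ∀ i, ¬ (L.ι (-c i) * g ∈ E ∧ l (L.ι (-c i) * g) + q ≤ l g)}

theorem red_gen {n m : ℕ} (L : Lat G n) {E : Set G} {l : G → ℕ} {c : Fin m → Zn n} {q : ℕ}
    (hq : 0 < q) (h : ∀ i, ∀ g ∈ E, L.ι (c i) * g ∈ E ∧ l (L.ι (c i) * g) ≤ l g + q) (k : ℕ) :
    ∀ g ∈ E, l g = k → ∃ b ∈ redIrr L E l c q, ∃ y : Fin m → ℕ,
      g = L.ι (∑ i, y i • c i) * b ∧ l g = l b + q * ∑ i, y i := by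
  classical
  induction k using Nat.strong_induction_on with
  | _ k ih =>
  intro g hg hk
  by_cases hI : g ∈ redIrr L E l c q
  · exact ⟨g, hI, 0, by simp, by simp⟩
  have : ∃ i, L.ι (-c i) * g ∈ E ∧ l (L.ι (-c i) * g) + q ≤ l g := by
    by_contra hh
    exact hI ⟨hg, fun i hi => hh ⟨i, hi⟩⟩
  obtain ⟨i, h1, h2⟩ := this
  obtain ⟨b, hb, y, e1, e2⟩ := ih _ (by omega) _ h1 rfl
  have e3 : g = L.ι (c i) * (L.ι (-c i) * g) := by
    rw [L.ι_mul_ι_mul]; simp
  have h3 := (h i _ h1).2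
  rw [← e3] at h3
  refine ⟨b, hb, y + Pi.single i 1, ?_, ?_⟩
  · have : ∑ j, (y + Pi.single i 1 : Fin m → ℕ) j • c j = c i + ∑ j, y j • c j := by
      simp only [Pi.add_apply, add_smul, Finset.sum_add_distrib]
      rw [add_comm]
      congr 1
      rw [Finset.sum_eq_single i]
      · simp
      · intro j _ hj; simp [hj]
      · simp
    rw [this, ← L.ι_mul_ι_mul, ← e1]
    exact e3
  · have : ∑ j, (y + Pi.single i 1 : Fin m → ℕ) j = ∑ j, y j + 1 := by
      simp only [Pi.add_apply, Finset.sum_add_distrib]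
      congr 1
      simp
    rw [this, mul_add]
    omega

theorem red_anti {n m : ℕ} (L : Lat G n) {E : Set G} {l : G → ℕ} {c : Fin m → Zn n} {q : ℕ}
    (h : ∀ i, ∀ g ∈ E, L.ι (c i) * g ∈ E ∧ l (L.ι (c i) * g) ≤ l g + q) (b : G) :
    {p : (Fin m → ℕ) × ℕ | L.ι (∑ i, p.1 i • c i) * b ∈ redIrr L E l c q ∧
      l (L.ι (∑ i, p.1 i • c i) * b) = q * ∑ i, p.1 i + p.2}.Finite := by
  classical
  refine WellQuasiOrderedLE.finite_of_isAntichain ?_
  rintro ⟨y, j⟩ ⟨h1, h2⟩ ⟨y', j'⟩ ⟨h3, h4⟩ hne ⟨hy, hj⟩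
  simp only at h1 h2 h3 h4 hy hj
  by_cases e : y = y'
  · subst e
    exact hne (by rw [show j = j' by omega])
  obtain ⟨i, hi⟩ : ∃ i, y i ≠ y' i := Function.ne_iff.1 e
  have hi' : y i < y' i := lt_of_le_of_ne (hy i) hi
  obtain ⟨z, hz⟩ : ∃ z : Fin m → ℕ, y' = z + y + Pi.single i 1 := by
    refine ⟨fun k => y' k - y k - (Pi.single i 1 : Fin m → ℕ) k, funext fun k => ?_⟩
    have : y k ≤ y' k := hy k
    by_cases hk : k = i
    · subst hk; simp only [Pi.add_apply, Pi.single_eq_same]; omega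
    · simp only [Pi.add_apply, Pi.single_eq_of_ne hk]; omega
  have s1 : ∑ k, y' k • c k = c i + (∑ k, z k • c k + ∑ k, y k • c k) := by
    rw [hz]
    simp only [Pi.add_apply, add_smul, Finset.sum_add_distrib]
    rw [add_comm]
    congr 1
    rw [Finset.sum_eq_single i]
    · simp
    · intro j _ hj; simp [hj]
    · simp
  have s2 : ∑ k, y' k = ∑ k, z k + ∑ k, y k + 1 := by
    rw [hz]
    simp only [Pi.add_apply, Finset.sum_add_distrib]
    congr 1
    simp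
  obtain ⟨h5, h6⟩ := red_sum L h z Finset.univ _ h1.1
  have e1 : L.ι (-c i) * (L.ι (∑ k, y' k • c k) * b) =
      L.ι (∑ k, z k • c k) * (L.ι (∑ k, y k • c k) * b) := by
    rw [L.ι_mul_ι_mul, L.ι_mul_ι_mul, s1, neg_add_cancel_left]
  refine h3.2 i ⟨e1 ▸ h5, ?_⟩
  rw [e1, h4, s2, mul_add, mul_add]
  omega

theorem red_stmt : RedStmt G := by
  classical
  intro n L E l C hS
  obtain ⟨m, e, -, rfl⟩ := hS.fin.fin_param
  have hpos : ∀ i, 0 < (e i).2 := fun i => hS.pos _ ⟨i, rfl⟩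
  set q : ℕ := ∏ i, (e i).2 with hqdef
  have hq : 0 < q := Finset.prod_pos fun i _ => hpos i
  have hd : ∀ i, ∃ d : ℕ, d * (e i).2 = q := fun i => by
    obtain ⟨d, hd⟩ := Finset.dvd_prod_of_mem (fun i => (e i).2) (Finset.mem_univ i)
    exact ⟨d, by rw [mul_comm]; exact hd.symm⟩
  choose d hd using hd
  have dpos : ∀ i, 0 < d i := fun i => Nat.pos_of_ne_zero fun h0 => by
    have := hd i
    rw [h0] at this
    omega
  set c : Fin m → Zn n := fun i => d i • (e i).1 with hc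
  have hstep : ∀ i, ∀ g ∈ E, L.ι (c i) * g ∈ E ∧ l (L.ι (c i) * g) ≤ l g + q := fun i g hg => by
    have := red_iter L (hS.step _ ⟨i, rfl⟩) (d i) g hg
    rwa [hd i] at this
  obtain ⟨B, hB, hgen⟩ := hS.gen
  have hR : {r : Fin m → ℕ | ∀ i, r i < d i}.Finite :=
    Set.Finite.pi' (t := fun i => Set.Iio (d i)) fun i => Set.finite_Iio _
  have hfin : (redIrr L E l c q).Finite := by
    refine (hB.biUnion fun b _ => hR.biUnion fun r _ =>
      (red_anti L hstep (L.ι (∑ i, r i • (e i).1) * b)).image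
        fun p => L.ι (∑ i, p.1 i • c i) * (L.ι (∑ i, r i • (e i).1) * b)).subset ?_
    intro g hg
    obtain ⟨b, hb, x, hx, e1, e2⟩ := hgen g hg.1
    obtain ⟨a, rfl⟩ := AddSubmonoid.mem_closure_range_iff_of_fintype.1 hx
    have e3 : g = L.ι (∑ i, (a i / d i) • c i) * (L.ι (∑ i, (a i % d i) • (e i).1) * b) := by
      rw [L.ι_mul_ι_mul, e1, Prod.fst_sum, ← Finset.sum_add_distrib]
      congr 2
      refine Finset.sum_congr rfl fun i _ => ?_
      simp only [hc]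
      rw [smul_smul, ← add_smul, Nat.div_add_mod']
      rfl
    have e4 : q * ∑ i, a i / d i ≤ l g := by
      refine le_trans ?_ e2
      rw [Prod.snd_sum, Finset.mul_sum]
      refine Finset.sum_le_sum fun i _ => ?_
      have : (a i • e i).2 = a i * (e i).2 := rfl
      rw [this, ← hd i, mul_comm, ← mul_assoc]
      exact Nat.mul_le_mul_right _ (Nat.div_mul_le_self _ _)
    simp only [Set.mem_iUnion]
    refine ⟨b, hb, fun i => a i % d i, fun i => Nat.mod_lt _ (dpos i),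
      (fun i => a i / d i, l g - q * ∑ i, a i / d i), ⟨?_, ?_⟩, e3.symm⟩
    · exact e3 ▸ hg
    · simp only
      rw [← e3]
      omega
  refine ⟨m, c, q, hfin.toFinset, hq, fun b hb => (hfin.mem_toFinset.1 hb).1, hstep, ?_, ?_⟩
  · intro g hg
    obtain ⟨b, hb, y, h⟩ := red_gen L hq hstep _ g hg rfl
    exact ⟨b, hfin.mem_toFinset.2 hb, y, h⟩
  · intro φ h1 ⟨i, h2⟩
    have key : ∀ i, φ (c i) = d i * φ (e i).1 := fun i => by
      simp only [hc]
      rw [map_nsmul, nsmul_eq_mul]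
    have keyq : ∀ i, (q : ℝ) = d i * ((e i).2 : ℝ) := fun i => by
      rw [← hd i]; push_cast; ring
    have dp : ∀ i, (0 : ℝ) < d i := fun i => by exact_mod_cast dpos i
    refine hS.shift φ ?_ ⟨e i, ⟨i, rfl⟩, ?_⟩
    · rintro _ ⟨j, rfl⟩
      have := h1 j
      rw [key, keyq j] at this
      exact le_of_mul_le_mul_left this (dp j)
    · rw [key, keyq i] at h2
      exact mul_left_cancel₀ (dp i).ne' h2

end Pool.Agent.MP_b3b911_al.VA

end

section

/-! Virtually abelian groups: the regions of the vertices. -/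

namespace Pool.Agent.MP_b3b911_al.VA

open Filter Topology Pointwise

variable {G : Type*} [Group G]

theorem reg2_le {n : ℕ} {C : Set (Zn n × ℕ)} {φ η : Zn n →+ ℝ} {a : Zn n} (h : Rep C φ a)
    (hη : Feas C η) : η a ≤ φ a := by
  obtain ⟨s, x, h1, h2⟩ := h
  rw [h2 η, h2 φ]
  refine Finset.sum_le_sum fun c hc => ?_
  obtain ⟨a, b, d⟩ := h1 c hc
  exact mul_le_mul_of_nonneg_left (by rw [b]; exact hη c a) d

theorem reg2_stmt (hL : LPStmt) (hLen : LenStmt G) (hS : SlabStmt G) (hT : TLemStmt G) :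
    RegStmt G := by
  intro n L T μ hG
  obtain ⟨hspan, hlen⟩ := hLen n L T hG
  obtain ⟨hfin, hex⟩ := hL n _ (finite_Cyc L hG.fin Set.univ) (fun c hc => hc.1)
    (fun c hc => Cyc_neg L hG.inv hc) hspan
  have hrep : ∀ ψ ∈ Vert (Cyc L T Set.univ), ∀ w, ∀ᶠ g in μ.ae, g ∈ Reg L T ψ →
      Rep (Cyc L T Set.univ) ψ (w + L.P g) := by
    intro ψ hψ w
    have : ∀ᶠ g in μ.ae, ∀ χ ∈ Vert (Cyc L T Set.univ), χ ≠ ψ →
        |(ψ - χ) w| < |(ψ - χ) (L.P g)| :=
      (eventually_all_finite hfin).2 fun χ _ => by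
        by_cases e : χ = ψ
        · exact Eventually.of_forall fun g h => absurd e h
        · exact (hS n L μ (ψ - χ) _ (sub_ne_zero.2 (Ne.symm e))).mono fun g h _ => h
    filter_upwards [this] with g hg hr
    obtain ⟨χ, hχ, h1⟩ := hex (w + L.P g)
    by_cases e : χ = ψ
    · exact e ▸ h1
    · exfalso
      have h2 := hg χ hχ e
      have h3 := reg2_le h1 hψ.1
      have h4 := hr χ hχ.1
      simp only [AddMonoidHom.sub_apply, map_add] at h2 h3
      rw [abs_of_nonneg (sub_nonneg.2 h4)] at h2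
      have := neg_abs_le (ψ w - χ w)
      linarith
  have hr1 : ∀ ψ ∈ Vert (Cyc L T Set.univ), ∀ a, ∀ᶠ g in μ.ae,
      g ∈ Reg L T ψ → g * a ∈ Reg L T ψ := by
    intro ψ hψ a
    filter_upwards [(eventually_all_finite (L.finite_orbit (L.P a))).2 fun w _ => hrep ψ hψ w]
      with g hg hr
    apply Rep.mem_Reg
    rw [L.P_mul, add_comm]
    exact hg _ ⟨g, rfl⟩ hr
  have hl1 : ∀ ψ ∈ Vert (Cyc L T Set.univ), ∀ v, ∀ᶠ g in μ.ae,
      g ∈ Reg L T ψ → L.ι v * g ∈ Reg L T ψ := by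
    intro ψ hψ v
    filter_upwards [hrep ψ hψ (L.N • v)] with g hg hr
    apply Rep.mem_Reg
    rw [L.P_ι_mul]
    exact hg hr
  have hl : ∀ ψ ∈ Vert (Cyc L T Set.univ), ∀ v, ∀ᶠ g in μ.ae,
      g ∈ Reg L T ψ ↔ L.ι v * g ∈ Reg L T ψ := by
    intro ψ hψ v
    filter_upwards [hl1 ψ hψ v, μ.ae_left (hl1 ψ hψ (-v)) (L.ι v)] with g h1 h2
    exact ⟨h1, fun h => by simpa [L.ι_neg] using h2 h⟩
  have hnear : ∀ ψ ∈ Vert (Cyc L T Set.univ), ∃ A : ℝ, ∀ᶠ g in μ.ae, g ∈ Reg L T ψ →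
      |(len T g : ℝ) - ψ (L.P g) / L.N| ≤ A := by
    intro ψ hψ
    obtain ⟨A, hA⟩ := hlen ψ hψ.1
    exact ⟨A, (hrep ψ hψ 0).mono fun g hg hr => hA g (by simpa using hg hr)⟩
  refine ⟨hfin, fun g => ?_, fun ψ hψ χ hχ hne => ?_, hrep, fun ψ hψ a => ?_, hl, hnear,
    fun hp ψ hψ => ?_, fun ψ hψ ⟨v, hv, h1⟩ p hp => ?_⟩
  · obtain ⟨ψ, h1, h2⟩ := hex (L.P g)
    exact ⟨ψ, h1, h2.mem_Reg⟩
  · filter_upwards [hS n L μ (ψ - χ) 0 (sub_ne_zero.2 hne)] with g hg h1 h2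
    have := le_antisymm (h1 χ hχ.1) (h2 ψ hψ.1)
    simp [this] at hg
  · filter_upwards [hr1 ψ hψ a, μ.ae_right (hr1 ψ hψ a⁻¹) a] with g h1 h2
    exact ⟨h1, fun h => by simpa using h2 h⟩
  · refine hp {w | ∃ c ∈ Cyc L T Set.univ, ψ c.1 = c.2 ∧ w = c.1} _
      (fun η hη => hψ.2 η fun c hc e => hη _ ⟨c, hc, e, rfl⟩) fun v hv η hη => ?_
    have : η v ≤ ψ v := by
      induction hv using AddSubmonoid.closure_induction with
      | mem w hw =>
        obtain ⟨c, hc, e, rfl⟩ := hw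
        rw [e]; exact hη c hc
      | zero => simp
      | add x y _ _ hx hy => rw [map_add, map_add]; linarith
    rw [L.P_ι, map_nsmul, map_nsmul]
    exact nsmul_le_nsmul_right this _
  · obtain ⟨A, hA⟩ := hnear ψ hψ
    refine hT μ (len T) _ (fun g => L.ι v * g) (fun g => ψ (L.P g) / L.N) A p hp (fun X => ?_) ?_
    · rw [← μ.left (L.ι v) (Reg L T ψ ∩ X)]
      exact μ.congr_ae ((hl ψ hψ v).mono fun g hg =>
        ⟨fun h => ⟨hg.1 h.1, h.2⟩, fun h => ⟨hg.2 h.1, h.2⟩⟩)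
    · filter_upwards [hA] with g hg hr
      refine ⟨hG.len_letter_mul g hv, ?_, hg hr⟩
      have hN : (L.N : ℝ) ≠ 0 := by exact_mod_cast L.N_pos.ne'
      rw [L.P_ι_mul, map_add, map_nsmul, h1]
      field_simp
      simp [add_comm]

end Pool.Agent.MP_b3b911_al.VA

end

section

/-! Virtually abelian groups: words in letters that act trivially, and the convergence theorem. -/

namespace Pool.Agent.MP_b3b911_al.VA

open Filter Topology Pointwise

variable {G : Type*} [Group G]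

theorem sys0_sub {n : ℕ} (L : Lat G n) (T : Set G) (k : ℕ) : T0 L T ^ k ⊆ T ^ k :=
  Set.pow_subset_pow_left fun _ h => h.1

theorem sys0_rho {n : ℕ} {L : Lat G n} {T : Set G} {k : ℕ} {x : G} (hx : x ∈ T0 L T ^ k) :
    L.ρ x = 1 := by
  induction k generalizing x with
  | zero => rw [pow_zero, Set.mem_one] at hx; rw [hx, map_one]
  | succ k ih =>
    rw [pow_succ'] at hx
    obtain ⟨s, hs, y, hy, rfl⟩ := hx
    rw [map_mul, hs.2, ih hy, one_mul]

theorem sys0_letter {n : ℕ} {L : Lat G n} {T : Set G} {φ : Zn n →+ ℝ}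
    (hφ : Feas (Cyc L (T0 L T) {1}) φ) (ht : ∃ c ∈ Cyc L (T0 L T) {1}, φ c.1 = c.2) :
    ∃ s ∈ T0 L T, φ (L.P s) = L.N := by
  have h1 : ∀ s ∈ T0 L T, φ (L.P s) ≤ L.N := fun s hs =>
    hφ (L.P s, L.N) ⟨L.N_pos, by simp only; omega, 1, rfl, L.P s, by simp, by
      rw [← L.pow_N_eq hs.2]; exact Set.pow_mem_pow hs⟩
  have h2 : ∀ k : ℕ, ∀ x ∈ T0 L T ^ k, φ (L.P x) ≤ k * L.N := by
    intro k
    induction k with
    | zero => intro x hx; rw [pow_zero, Set.mem_one] at hx; simp [hx]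
    | succ k ih =>
      intro x hx
      rw [pow_succ'] at hx
      obtain ⟨s, hs, y, hy, rfl⟩ := hx
      have e : L.P (s * y) = L.P s + L.P y := by rw [L.P_mul, hs.2]; rfl
      have := h1 s hs
      have := ih y hy
      rw [e, map_add]
      push_cast
      linarith
  obtain ⟨⟨w, k⟩, ⟨h0, -, u, rfl, v, rfl, hv⟩, e⟩ := ht
  obtain ⟨k, rfl⟩ : ∃ k', k = k' + 1 := ⟨k - 1, by simp only at h0; omega⟩
  simp only [Lat.ρ_one_apply] at e hv
  rw [pow_succ'] at hv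
  obtain ⟨s, hs, y, hy, e'⟩ := hv
  have e1 : L.P (s * y) = L.P s + L.P y := by rw [L.P_mul, hs.2]; rfl
  have e2 : φ (L.P (s * y)) = L.N * φ v := by
    rw [show s * y = L.ι v from e', L.P_ι, map_nsmul, nsmul_eq_mul]
  refine ⟨s, hs, le_antisymm (h1 s hs) ?_⟩
  have := h2 k y hy
  rw [e1, map_add, e] at e2
  push_cast at e2
  linarith

theorem sys0_gen {n : ℕ} (L : Lat G n) {T : Set G} (hT : Gen T) (l : G → ℕ)
    (ha : ∀ g ∈ E0 L T, len (T0 L T) g ≤ l g)
    (hb : ∀ k, ∀ x ∈ T0 L T ^ k, ∀ g ∈ E0 L T, l (x * g) ≤ l g + k) :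
    Sys L (E0 L T) l (Cyc L (T0 L T) {1}) := by
  have hf : (T0 L T).Finite := hT.fin.subset fun _ h => h.1
  have hE : ∀ k, ∀ x ∈ T0 L T ^ k, ∀ g ∈ E0 L T, x * g ∈ E0 L T := fun k x hx g ⟨j, hj⟩ =>
    ⟨_, mul_mem_pow hx hj⟩
  refine ⟨finite_Cyc L hf _, fun c hc => hc.1, ?_, ?_, ?_⟩
  · rintro ⟨w, k⟩ ⟨-, -, u, rfl, v, rfl, hv⟩ g hg
    simp only [Lat.ρ_one_apply] at hv ⊢
    exact ⟨hE _ _ hv g hg, hb _ _ hv g hg⟩
  · refine ⟨⋃ j ∈ Set.Iio L.N, T0 L T ^ j,
      (Set.finite_Iio _).biUnion fun j _ => finite_pow hf j, fun g hg => ?_⟩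
    obtain ⟨j, hj, b, hb', x, hx, e1, e2⟩ := cyc_remove L (T := T0 L T) (U := {1})
      (fun k x hx => ⟨1, rfl, by rw [map_one, sys0_rho hx]⟩) _ g (mem_pow_len hg)
    refine ⟨b, ?_, x, hx, e1, ?_⟩
    · simp only [Set.mem_iUnion]
      exact ⟨j, hj, hb'⟩
    · have := ha g hg
      omega
  · intro φ hφ ht
    obtain ⟨s, hs, e⟩ := sys0_letter hφ ht
    have hs1 : s ∈ T0 L T ^ 1 := by rwa [pow_one]
    refine ⟨fun g => s * g, L.N, L.P s, mul_right_injective s, L.N_pos, e, fun w g => ?_,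
      fun g hg => ⟨hE _ _ hs1 g hg, hb _ _ hs1 g hg⟩, fun g _ => ?_⟩
    · exact (L.mul_ι_mul s w g).trans (by rw [hs.2]; rfl)
    · rw [mul_left_iterate, L.pow_N_eq hs.2]

theorem sys0_len {n : ℕ} (L : Lat G n) (T : Set G) (k : ℕ) (x : G) (hx : x ∈ T0 L T ^ k) (g : G)
    (hg : g ∈ E0 L T) : len (T0 L T) (x * g) ≤ len (T0 L T) g + k :=
  (len_le (mul_mem_pow hx (mem_pow_len hg))).trans_eq (add_comm _ _)

theorem sys0_stmt : Sys0Stmt G := by
  intro n L T hT
  refine ⟨sys0_gen L hT _ (fun _ _ => le_rfl) (sys0_len L T), fun h =>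
    sys0_gen L hT _ (fun _ _ => le_max_left _ _) fun k x hx g hg => ?_⟩
  have h1 := sys0_len L T k x hx g hg
  have h2 : len1 L T (x * g) ≤ len1 L T g + k := by
    obtain ⟨a, b, x', s, y, e1, a1, a2, a3, a4, e2⟩ := hT.mem_W1 h g
    refine len1_le ⟨k + a, b, x * x', s, y, by omega, mul_mem_pow (sys0_sub L T k hx) a1, a2, a3,
      a4, ?_⟩
    conv_lhs => rw [e2]
    simp only [mul_assoc]
  omega

theorem sys0_split {n : ℕ} (L : Lat G n) {T : Set G} (hT : Gen T) (h : ∃ g, L.ρ g ≠ 1) (k : ℕ) :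
    cnt Set.univ (len T) k + cnt (E0 L T) (fun g => max (len (T0 L T) g) (len1 L T g)) k =
      cnt Set.univ (len1 L T) k + cnt (E0 L T) (len (T0 L T)) k := by
  have e1 : {g | g ∈ Set.univ ∧ len T g ≤ k} =
      {g | g ∈ Set.univ ∧ len1 L T g ≤ k} ∪ {g | g ∈ E0 L T ∧ len (T0 L T) g ≤ k} := by
    ext g
    constructor
    · rintro ⟨-, hg⟩
      obtain ⟨l, a1, a2, a3⟩ := mem_pow_iff_list.1 (hT.mem_len g)
      by_cases hl : ∀ s ∈ l, L.ρ s = 1
      · have : g ∈ T0 L T ^ len T g :=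
          mem_pow_iff_list.2 ⟨l, a1, fun s hs => ⟨a2 s hs, hl s hs⟩, a3⟩
        exact Or.inr ⟨⟨_, this⟩, (len_le this).trans hg⟩
      · push Not at hl
        obtain ⟨s, hs, h1⟩ := hl
        obtain ⟨a, b, rfl⟩ := List.append_of_mem hs
        refine Or.inl ⟨trivial, (len1_le ⟨a.length, b.length, a.prod, s, b.prod, ?_,
          prod_mem_pow fun t ht => a2 t (by simp [ht]), a2 s hs, h1,
          prod_mem_pow fun t ht => a2 t (by simp [ht]), ?_⟩).trans hg⟩
        · rw [← a1, List.length_append, List.length_cons]; omega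
        · rw [← a3, List.prod_append, List.prod_cons, mul_assoc]
    · rintro (⟨-, hg⟩ | ⟨h1, hg⟩)
      · exact ⟨trivial, (len_le (W1_sub (hT.mem_W1 h g))).trans hg⟩
      · exact ⟨trivial, (len_le (sys0_sub L T _ (mem_pow_len h1))).trans hg⟩
  have e2 : {g | g ∈ E0 L T ∧ max (len (T0 L T) g) (len1 L T g) ≤ k} =
      {g | g ∈ Set.univ ∧ len1 L T g ≤ k} ∩ {g | g ∈ E0 L T ∧ len (T0 L T) g ≤ k} := by
    ext g
    simp only [Set.mem_ofPred_eq, max_le_iff, Set.mem_inter_iff, Set.mem_univ, true_and]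
    tauto
  have hf : {g | g ∈ Set.univ ∧ len T g ≤ k}.Finite := (hT.finite_ball k).subset fun _ h => h.2
  unfold cnt
  rw [e2]
  rw [e1] at hf ⊢
  exact Set.ncard_union_add_ncard_inter _ _ (hf.subset Set.subset_union_left)
    (hf.subset Set.subset_union_right)

theorem if_stmt (hS : SysStmt G) (h0 : Sys0Stmt G) (h1 : Sys1Stmt G) (hB : BoxStmt G) :
    IfStmt G := by
  intro n L T hT hG
  have key : ∃ c e, Two n (fun k => (cnt Set.univ (len T) k : ℝ)) c e := by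
    by_cases h : ∃ g, L.ρ g ≠ 1
    · obtain ⟨c₁, e₁, a1⟩ := hS n L _ _ _ (h1 n L T hT hG h)
      obtain ⟨c₂, e₂, a2⟩ := hS n L _ _ _ (h0 n L T hT).1
      obtain ⟨c₃, e₃, a3⟩ := hS n L _ _ _ ((h0 n L T hT).2 h)
      refine ⟨c₁ + c₂ - c₃, e₁ + e₂ - e₃,
        (congrArg (fun f => Two n f (c₁ + c₂ - c₃) (e₁ + e₂ - e₃)) ?_).mp ((a1.add a2).sub a3)⟩
      funext k
      have := sys0_split L hT h k
      rw [sub_eq_iff_eq_add]
      exact_mod_cast this.symm
    · push Not at h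
      have e1 : T0 L T = T := Set.ext fun s => ⟨fun a => a.1, fun a => ⟨a, h s⟩⟩
      have e2 : E0 L T = Set.univ := Set.eq_univ_of_forall fun g => by
        unfold E0
        rw [e1]
        exact hT.all g
      have := hS n L _ _ _ (h0 n L T hT).1
      rwa [e1, e2] at this
  obtain ⟨c, e, hc⟩ := key
  obtain ⟨ε, hε, h2⟩ := (hB n L T hT).2 Set.univ Set.univ
    (fun η hη => AddMonoidHom.ext fun w => hη w trivial) fun _ _ => trivial
  refine ⟨c, e, hε.trans_le (ge_of_tendsto hc.ratio ?_), hc⟩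
  filter_upwards [h2, eventually_gt_atTop 0] with k a hk
  have : (0 : ℝ) < (k : ℝ) ^ n := by positivity
  rwa [le_div_iff₀ this]

end Pool.Agent.MP_b3b911_al.VA

end

section

/-! Virtually abelian groups: the system of the words with an acting letter. -/

namespace Pool.Agent.MP_b3b911_al.VA

open Filter Topology Pointwise

variable {G : Type*} [Group G]

section

variable {n : ℕ} {L : Lat G n} {T : Set G}

theorem sys1_tau (hG : Good L) {g h : G} (hg : L.ρ g ≠ 1) (hh : L.ρ h ≠ 1) : L.ρ g = L.ρ h := by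
  have h1 := hG.1 g⁻¹ h (fun e => hg (L.ρ_inv_eq_one.1 e)) hh
  have h2 : L.ρ h = L.ρ g * L.ρ (g⁻¹ * h) := by rw [← map_mul, mul_inv_cancel_left]
  rw [h2, h1, mul_one]

theorem sys1_left {k : ℕ} {g s : G} (h : g ∈ W1 L T k) (hs : s ∈ T) :
    s * g ∈ W1 L T (k + 1) := by
  obtain ⟨a, b, x, t, y, rfl, hx, ht, h1, hy, rfl⟩ := h
  exact ⟨1 + a, b, s * x, t, y, by omega, mul_mem_pow (by simpa using hs) hx, ht, h1, hy,
    by simp only [mul_assoc]⟩

theorem sys1_right {k : ℕ} {g s : G} (h : g ∈ W1 L T k) (hs : s ∈ T) :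
    g * s ∈ W1 L T (k + 1) := by
  obtain ⟨a, b, x, t, y, rfl, hx, ht, h1, hy, rfl⟩ := h
  exact ⟨a, b + 1, x, t, y * s, by omega, hx, ht, h1, mul_mem_pow hy (by simpa using hs),
    by simp only [mul_assoc]⟩

theorem sys1_ins (hG : Good L) {k : ℕ} {g : G} (h : g ∈ W1 L T k) (u : G) :
    ∃ p q, g = p * q ∧ L.ρ p = L.ρ u ∧ ∀ j, ∀ w ∈ T ^ j, p * w * q ∈ W1 L T (k + j) := by
  obtain ⟨a, b, x, t, y, rfl, hx, ht, h1, hy, rfl⟩ := h
  have key : L.ρ x = L.ρ u ∨ L.ρ (x * t) = L.ρ u := by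
    by_cases e : L.ρ x = 1
    · by_cases e' : L.ρ u = 1
      · exact Or.inl (e.trans e'.symm)
      · exact Or.inr (by rw [map_mul, e, one_mul]; exact sys1_tau hG h1 e')
    · by_cases e' : L.ρ u = 1
      · exact Or.inr ((hG.1 x t e h1).trans e'.symm)
      · exact Or.inl (sys1_tau hG e e')
  rcases key with e | e
  · exact ⟨x, t * y, by simp only [mul_assoc], e, fun j w hw =>
      ⟨a + j, b, x * w, t, y, by omega, mul_mem_pow hx hw, ht, h1, hy, by simp only [mul_assoc]⟩⟩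
  · exact ⟨x * t, y, rfl, e, fun j w hw =>
      ⟨a, j + b, x, t, w * y, by omega, hx, ht, h1, mul_mem_pow hw hy, by simp only [mul_assoc]⟩⟩

theorem sys1_shift_left {l : G → ℕ} {φ : Zn n →+ ℝ} {a : G} (ha : L.ρ a = 1)
    (hφ : φ (L.P a) = L.N) (hl : ∀ g, l (a * g) ≤ l g + 1) : Shift L Set.univ l φ := by
  refine ⟨fun g => a * g, L.N, L.P a, mul_right_injective a, L.N_pos, hφ, fun w g => ?_,
    fun g _ => ⟨trivial, hl g⟩, fun g _ => ?_⟩
  · simp only []
    rw [L.mul_ι_mul, ha]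
    rfl
  · rw [mul_left_iterate, L.pow_N_eq ha]

theorem sys1_shift_right (hG : Good L) {l : G → ℕ} {φ : Zn n →+ ℝ} {s t : G} (hs : L.ρ s ≠ 1)
    (ht : L.ρ t ≠ 1) (hφ : φ (L.P (s * t)) = (2 * L.N : ℕ)) (hls : ∀ g, l (g * s) ≤ l g + 1)
    (hlt : ∀ g, l (g * t) ≤ l g + 1) : Shift L Set.univ l φ := by
  classical
  set F : G → G := fun g => if L.ρ g = 1 then g * s else g * t with hF
  have h1 : ∀ g, L.ρ g = 1 → F g = g * s := fun g h => if_pos h
  have h2 : ∀ g, L.ρ g ≠ 1 → F g = g * t := fun g h => if_neg h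
  have h3 : ∀ g, L.ρ g = 1 → L.ρ (g * s) ≠ 1 := fun g h => by rwa [map_mul, h, one_mul]
  have hst := hG.1 s t hs ht
  have hts := hG.1 t s ht hs
  have i1 : ∀ k g, L.ρ g = 1 → F^[2 * k] g = g * (s * t) ^ k := by
    intro k
    induction k with
    | zero => simp
    | succ k ih =>
      intro g hg
      rw [show 2 * (k + 1) = 2 * k + 1 + 1 by ring, Function.iterate_succ_apply,
        Function.iterate_succ_apply, h1 g hg, h2 _ (h3 g hg), mul_assoc,
        ih _ (by rw [map_mul, hg, hst, one_mul]), pow_succ', mul_assoc]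
  have i2 : ∀ k g, L.ρ g ≠ 1 → F^[2 * k] g = g * (t * s) ^ k := by
    intro k
    induction k with
    | zero => simp
    | succ k ih =>
      intro g hg
      rw [show 2 * (k + 1) = 2 * k + 1 + 1 by ring, Function.iterate_succ_apply,
        Function.iterate_succ_apply, h2 g hg, h1 _ (hG.1 g t hg ht), mul_assoc,
        ih _ (by rwa [map_mul, hts, mul_one]), pow_succ', mul_assoc]
  refine ⟨F, 2 * L.N, L.P (s * t), fun g h e => ?_, by have := L.N_pos; omega, hφ,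
    fun w g => ?_, fun g _ => ⟨trivial, ?_⟩, fun g _ => ?_⟩
  · by_cases hg : L.ρ g = 1 <;> by_cases hh : L.ρ h = 1
    · rw [h1 g hg, h1 h hh] at e
      exact mul_right_cancel e
    · rw [h1 g hg, h2 h hh] at e
      exact absurd (e ▸ hG.1 h t hh ht) (h3 g hg)
    · rw [h2 g hg, h1 h hh] at e
      exact absurd (e ▸ hG.1 g t hg ht) (h3 h hh)
    · rw [h2 g hg, h2 h hh] at e
      exact mul_right_cancel e
  · by_cases hg : L.ρ g = 1
    · rw [h1 g hg, h1 _ (by rwa [L.ρ_ι_mul]), mul_assoc]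
    · rw [h2 g hg, h2 _ (by rwa [L.ρ_ι_mul]), mul_assoc]
  · by_cases hg : L.ρ g = 1
    · rw [h1 g hg]; exact hls g
    · rw [h2 g hg]; exact hlt g
  · by_cases hg : L.ρ g = 1
    · rw [i1 _ g hg, L.pow_N_eq hst, L.conj, hg]
      rfl
    · rw [i2 _ g hg, L.pow_N_eq hts, L.conj]
      congr 2
      rw [L.P_mul, L.P_mul, map_add, ← L.ρ_mul_apply, hG.1 g t hg ht, sys1_tau hG hg hs, add_comm]
      rfl

theorem sys1_word {φ : Zn n →+ ℝ} {θ : G → ℝ}
    (h : ∀ u, ∀ s ∈ T, φ (L.ρ u (L.P s)) < L.N + θ (u * s) - θ u) (l : List G)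
    (hl : ∀ s ∈ l, s ∈ T) (u : G) :
    φ (L.ρ u (L.P l.prod)) ≤ l.length * L.N + θ (u * l.prod) - θ u ∧
    (0 < l.length → φ (L.ρ u (L.P l.prod)) < l.length * L.N + θ (u * l.prod) - θ u) := by
  induction l generalizing u with
  | nil => simp
  | cons s l ih =>
    have a := h u s (hl s (by simp))
    have b := (ih (fun t ht => hl t (by simp [ht])) (u * s)).1
    have e : L.ρ u (L.P (s :: l).prod) = L.ρ u (L.P s) + L.ρ (u * s) (L.P l.prod) := by
      rw [List.prod_cons, L.P_mul, map_add, ← L.ρ_mul_apply]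
    rw [e, map_add, List.prod_cons, ← mul_assoc, List.length_cons]
    push_cast
    exact ⟨by linarith, fun _ => by linarith⟩

theorem sys1_shift (hT : Gen T) (hG : Good L) (hρ : ∃ g, L.ρ g ≠ 1) (φ : Zn n →+ ℝ)
    (hφ : Feas (Cyc L T Set.univ) φ) (ht : ∃ c ∈ Cyc L T Set.univ, φ c.1 = c.2) :
    Shift L Set.univ (len1 L T) φ := by
  classical
  by_contra hc
  have hN := L.N_pos
  have ca : ∀ s ∈ T, L.ρ s = 1 → φ (L.P s) ≠ L.N := fun s hs h1 e =>
    hc (sys1_shift_left h1 e fun g => len1_le (sys1_left (hT.mem_W1 hρ g) hs))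
  have c1 : ∀ u, ∀ s ∈ T, L.ρ s = 1 → φ (L.ρ u (L.P s)) < L.N := by
    intro u s hs h1
    refine lt_of_le_of_ne (hφ (L.ρ u (L.P s), L.N) ⟨hN, by simp only []; omega, u, trivial,
      L.P s, rfl, ?_⟩) fun e => ?_
    · rw [← L.pow_N_eq h1]
      exact Set.pow_mem_pow hs
    by_cases hu : L.ρ u = 1
    · rw [hu] at e
      exact ca s hs h1 e
    rcases hG.2 with h2 | h2
    · refine ca s⁻¹ (hT.inv s hs) (L.ρ_inv_eq_one.2 h1) ?_
      rw [L.P_inv, L.ρ_inv_eq_one.2 h1]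
      rw [h2 u hu] at e
      exact e
    · have r1 : L.ρ (u * s * u⁻¹) = 1 := by
        rw [map_mul, map_mul, h1, mul_one, ← map_mul, mul_inv_cancel, map_one]
      have r2 : L.P (u * s * u⁻¹) = L.ρ u (L.P s) := by
        rw [L.P_mul, L.P_mul, L.P_inv, map_mul, h1, mul_one, map_neg, L.ρ_apply_inv]
        abel
      refine hc (sys1_shift_left r1 (by rw [r2]; exact e) fun g => ?_)
      obtain ⟨p, q, e1, e2, e3⟩ := sys1_ins hG (hT.mem_W1 hρ g) u
      have r3 : L.ρ (u⁻¹ * p) = 1 := by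
        rw [map_mul, e2, ← map_mul, inv_mul_cancel, map_one]
      have r4 := h2 _ _ r3 h1
      have r5 : u * s * u⁻¹ * g = p * s * q := by
        calc u * s * u⁻¹ * g = u * (s * (u⁻¹ * p)) * q := by rw [e1]; simp only [mul_assoc]
          _ = p * s * q := by rw [← r4]; simp only [mul_assoc, mul_inv_cancel_left]
      rw [r5]
      exact len1_le (e3 1 s (by simpa using hs))
  have c2 : ∀ s ∈ T, L.ρ s ≠ 1 → ∀ t ∈ T, L.ρ t ≠ 1 →
      φ (L.P s) + φ (L.ρ s (L.P t)) < 2 * L.N := by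
    intro s hs h1 t ht' h2
    rw [← map_add, ← L.P_mul]
    have hst := hG.1 s t h1 h2
    have : φ (L.P (s * t)) < (2 * L.N : ℕ) := by
      refine lt_of_le_of_ne (hφ (L.P (s * t), 2 * L.N) ⟨by simp only []; omega, le_rfl, 1, trivial,
        L.P (s * t), by simp, ?_⟩) fun e => ?_
      · rw [← L.pow_N_eq hst]
        have := pow_mem_pow' (mul_mem_pow (T := T) (a := 1) (b := 1) (x := s) (y := t)
          (by simpa using hs) (by simpa using ht')) L.N
        rwa [mul_comm] at this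
      · exact hc (sys1_shift_right hG h1 h2 e
          (fun g => len1_le (sys1_right (hT.mem_W1 hρ g) hs))
          (fun g => len1_le (sys1_right (hT.mem_W1 hρ g) ht')))
    exact_mod_cast this
  obtain ⟨t0, ht0, h0⟩ := hT.exists_letter hρ
  have hfin : {s | s ∈ T ∧ L.ρ s ≠ 1}.Finite := hT.fin.subset fun _ h => h.1
  obtain ⟨sa, ⟨ha1, ha2⟩, ha⟩ := Set.exists_max_image _ (fun s => φ (L.P s)) hfin ⟨t0, ht0, h0⟩
  obtain ⟨sb, ⟨hb1, hb2⟩, hb⟩ :=
    Set.exists_max_image _ (fun s => φ (L.ρ sa (L.P s))) hfin ⟨t0, ht0, h0⟩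
  have hab := c2 sa ha1 ha2 sb hb1 hb2
  set θ : G → ℝ := fun u => if L.ρ u = 1 then 0 else (φ (L.P sa) - φ (L.ρ sa (L.P sb))) / 2
    with hθ
  have hlet : ∀ u, ∀ s ∈ T, φ (L.ρ u (L.P s)) < L.N + θ (u * s) - θ u := by
    intro u s hs
    by_cases h1 : L.ρ s = 1
    · have : θ (u * s) = θ u := by simp only [hθ, map_mul, h1, mul_one]
      have := c1 u s hs h1
      linarith
    by_cases hu : L.ρ u = 1
    · have e1 : θ u = 0 := if_pos hu
      have e2 : θ (u * s) = (φ (L.P sa) - φ (L.ρ sa (L.P sb))) / 2 :=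
        if_neg (by rwa [map_mul, hu, one_mul])
      have e3 : φ (L.ρ u (L.P s)) = φ (L.P s) := by rw [hu]; rfl
      have := ha s ⟨hs, h1⟩
      linarith
    · have e1 : θ (u * s) = 0 := if_pos (hG.1 u s hu h1)
      have e2 : θ u = (φ (L.P sa) - φ (L.ρ sa (L.P sb))) / 2 := if_neg hu
      have := hb s ⟨hs, h1⟩
      rw [sys1_tau hG hu ha2]
      linarith
  obtain ⟨c, ⟨hc0, -, u, -, v, e1, e2⟩, e3⟩ := ht
  obtain ⟨l, k1, k2, k3⟩ := mem_pow_iff_list.1 e2
  have := (sys1_word hlet l k2 u).2 (by omega)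
  have e4 : θ (u * L.ι v) = θ u := by simp only [hθ, L.ρ_mul_ι]
  rw [k3, L.P_ι, map_nsmul, map_nsmul, ← e1, e3, k1, e4, nsmul_eq_mul] at this
  linarith

end

theorem sys1_stmt : Sys1Stmt G := by
  intro n L T hT hG hρ
  refine ⟨finite_Cyc L hT.fin _, fun c hc => hc.1, ?_, ?_, sys1_shift hT hG hρ⟩
  · rintro c ⟨-, -, u, -, v, e1, e2⟩ g -
    refine ⟨trivial, ?_⟩
    obtain ⟨p, q, k1, k2, k3⟩ := sys1_ins hG (hT.mem_W1 hρ g) u
    have : L.ι c.1 * g = p * L.ι v * q := by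
      rw [L.conj, k2, ← e1, mul_assoc, ← k1]
    rw [this]
    exact len1_le (k3 _ _ e2)
  · refine ⟨⋃ j ∈ Set.Iio L.N, T ^ j,
      (Set.finite_Iio _).biUnion fun j _ => finite_pow hT.fin j, fun g _ => ?_⟩
    obtain ⟨j, hj, b, hb, x, hx, e1, e2⟩ := cyc_remove L (U := Set.univ)
      (fun _ x _ => ⟨x, trivial, rfl⟩) _ g (W1_sub (hT.mem_W1 hρ g))
    exact ⟨b, Set.mem_biUnion hj hb, x, hx, e1, by omega⟩

end Pool.Agent.MP_b3b911_al.VA

end

section

/-! Virtually abelian groups: the two term expansion for systems. -/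

namespace Pool.Agent.MP_b3b911_al.VA

open Filter Topology Pointwise

variable {G : Type*} [Group G]

theorem sysm_fin {m q : ℕ} (hq : 0 < q) (D : Set (Fin m → ℕ)) (a k : ℕ) :
    {y | y ∈ D ∧ a + q * ∑ i, y i ≤ k}.Finite := by
  refine (Set.finite_Iic fun _ : Fin m => k).subset fun y hy i => ?_
  have h1 : y i ≤ ∑ i, y i := Finset.single_le_sum (fun j _ => Nat.zero_le (y j)) (Finset.mem_univ i)
  have h2 : ∑ i, y i ≤ q * ∑ i, y i := Nat.le_mul_of_pos_left _ hq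
  have h3 := hy.2
  change y i ≤ k
  omega

theorem sysm_cnt {n m q R : ℕ} {L : Lat G n} {E : Set G} {l : G → ℕ} {c : Fin m → Zn n}
    {B : Finset G} {D : G → Set (Fin m → ℕ)} (hq : 0 < q) (hN : Norm L E l c q B D R)
    (D' : G → Set (Fin m → ℕ)) (hD : ∀ b, D' b ⊆ D b) (X : Set G)
    (hX : ∀ g, g ∈ X ↔ ∃ b ∈ B, ∃ y ∈ D' b, g = L.ι (∑ i, y i • c i) * b) (k : ℕ) :
    {g | g ∈ X ∧ l g ≤ k}.Finite ∧
      cnt X l k = ∑ b ∈ B, {y | y ∈ D' b ∧ l b + q * ∑ i, y i ≤ k}.ncard := by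
  have h1 : {g | g ∈ X ∧ l g ≤ k} = ⋃ b ∈ (B : Set G), (fun y : Fin m → ℕ =>
      L.ι (∑ i, y i • c i) * b) '' {y | y ∈ D' b ∧ l b + q * ∑ i, y i ≤ k} := by
    ext g
    simp only [Set.mem_iUnion, Set.mem_ofPred_eq, hX, Set.mem_image, Finset.mem_coe]
    constructor
    · rintro ⟨⟨b, hb, y, hy, rfl⟩, h⟩
      exact ⟨b, hb, y, ⟨hy, (hN.val b hb y (hD b hy)).2 ▸ h⟩, rfl⟩
    · rintro ⟨b, hb, y, ⟨hy, h⟩, rfl⟩
      exact ⟨⟨b, hb, y, hy, rfl⟩, (hN.val b hb y (hD b hy)).2.symm ▸ h⟩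
  refine ⟨h1 ▸ B.finite_toSet.biUnion fun b _ => (sysm_fin hq _ _ _).image _, ?_⟩
  rw [cnt, h1, B.finite_toSet.ncard_biUnion (fun b _ => (sysm_fin hq _ _ _).image _),
    finsum_mem_coe_finset]
  · refine Finset.sum_congr rfl fun b hb => Set.InjOn.ncard_image fun y hy y' hy' e => ?_
    exact (hN.uniq b hb y (hD b hy.1) b hb y' (hD b hy'.1) e).2
  · intro b hb b' hb' hne
    refine Set.disjoint_left.2 ?_
    rintro g ⟨y, hy, rfl⟩ ⟨y', hy', e⟩
    exact hne (hN.uniq b hb y (hD b hy.1) b' hb' y' (hD b' hy'.1) e.symm).1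

omit [Group G] in
theorem sysm_mono {X : Set G} {l : G → ℕ} (h : ∀ k, {g | g ∈ X ∧ l g ≤ k}.Finite) :
    Monotone fun k => (cnt X l k : ℝ) := fun _ k' hk =>
  Nat.cast_le.2 (Set.ncard_le_ncard (fun _ hg => ⟨hg.1, hg.2.trans hk⟩) (h k'))

omit [Group G] in
theorem sysm_succ {X : Set G} {l : G → ℕ} (h : ∀ k, {g | g ∈ X ∧ l g ≤ k}.Finite) (k : ℕ) :
    cnt X l (k + 1) = cnt X l k + {g | g ∈ X ∧ l g = k + 1}.ncard := by
  rw [cnt, cnt, ← Set.ncard_union_eq _ (h k) ((h (k + 1)).subset fun g hg => ⟨hg.1, hg.2.le⟩)]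
  · refine congrArg Set.ncard (Set.ext fun g => ?_)
    simp only [Set.mem_ofPred_eq, Set.mem_union, ← and_or_left]
    exact and_congr_right fun _ => by omega
  · exact Set.disjoint_left.2 fun g h1 h2 => by
      have h3 := h1.2
      have h4 := h2.2
      omega

theorem sys_stmt (hR : RedStmt G) (hD : DownStmt G) (hC : CountStmt) (hA : AnaStmt)
    (hK : KeyStmt G) : SysStmt G := by
  intro n L E l C hS
  obtain ⟨m, c, q, B, hP⟩ := hR n L E l C hS
  obtain ⟨D, R, hN⟩ := hD n L E l m c q B hP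
  obtain ⟨hK1, hK2⟩ := hK n L E l m c q B D R hP hN
  have hq := hP.pos
  have hE := sysm_cnt hq hN D (fun _ => subset_rfl) E fun g =>
    ⟨hN.ex g, fun ⟨b, hb, y, hy, e⟩ => e ▸ (hN.val b hb y hy).1⟩
  have hf : QP q n fun k => (cnt E l k : ℝ) := by
    simp only [fun k => (hE k).2, Nat.cast_sum]
    exact QP.sum B _ fun b hb => hC m (D b) R n q (l b) hq (hN.trunc b) (hK1 b hb)
  have hm := sysm_mono fun k => (hE k).1
  cases n with
  | zero => exact hA.1 q _ hq hf hm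
  | succ r =>
    obtain ⟨R', hR', F, hF1, hF2⟩ := hK2 (Nat.succ_pos r)
    have hX := sysm_cnt hq hN
      (fun b => {y | y ∈ D b ∧ (Finset.univ.filter fun i => R' ≤ y i).card ≤ r})
      (fun _ _ hy => hy.1) (E \ Deep L c B D R') fun g => by
        constructor
        · rintro ⟨h1, h2⟩
          obtain ⟨b, hb, y, hy, e⟩ := hN.ex g h1
          refine ⟨b, hb, y, ⟨hy, ?_⟩, e⟩
          by_contra h3
          exact h2 ⟨b, hb, y, hy, e, not_le.1 h3⟩
        · rintro ⟨b, hb, y, hy, rfl⟩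
          refine ⟨(hN.val b hb y hy.1).1, ?_⟩
          rintro ⟨b', hb', y', hy', e, h3⟩
          obtain ⟨rfl, rfl⟩ := hN.uniq b hb y hy.1 b' hb' y' hy' e
          exact absurd hy.2 (not_le.2 h3)
    have hh : QP q r fun k => (cnt (E \ Deep L c B D R') l k : ℝ) := by
      simp only [fun k => (hX k).2, Nat.cast_sum]
      refine QP.sum B _ fun b _ => hC m _ R' r q (l b) hq (fun y y' h hy => ⟨?_, ?_⟩) fun y hy => hy.2
      · refine hN.trunc b y y' (fun i => ?_) hy.1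
        have := h i
        omega
      · refine le_of_eq_of_le (congrArg Finset.card (Finset.filter_congr fun i _ => ?_)) hy.2
        have := h i
        omega
    refine hA.2 q r _ _ hq hf hm hh (sysm_mono fun k => (hX k).1) fun k => ?_
    have e1 := sysm_succ (fun k => (hE k).1) k
    have e2 := sysm_succ (fun k => (hE k).1) (k + 1)
    have e3 := sysm_succ (fun k => (hX k).1) k
    have hfin : ∀ j, {g | g ∈ E ∧ l g = j}.Finite := fun j =>
      (hE j).1.subset fun g hg => ⟨hg.1, hg.2.le⟩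
    have e4 : {g | g ∈ Deep L c B D R' ∧ l g = k + 1}.ncard ≤
        {g | g ∈ E ∧ l g = k + 1 + 1}.ncard :=
      Set.ncard_le_ncard_of_injOn F (fun g hg => ⟨(hF2 g hg.1).1, by rw [(hF2 g hg.1).2, hg.2]⟩)
        (hF1.mono fun g hg => hg.1) (hfin _)
    have e5 : {g | g ∈ E ∧ l g = k + 1}.ncard ≤
        {g | g ∈ E \ Deep L c B D R' ∧ l g = k + 1}.ncard +
          {g | g ∈ Deep L c B D R' ∧ l g = k + 1}.ncard := by
      refine le_trans (le_of_eq (congrArg Set.ncard (Set.ext fun g => ?_))) (Set.ncard_union_le _ _)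
      constructor
      · intro hg
        by_cases h : g ∈ Deep L c B D R'
        · exact Or.inr ⟨h, hg.2⟩
        · exact Or.inl ⟨⟨hg.1, h⟩, hg.2⟩
      · rintro (hg | ⟨⟨b, hb, y, hy, e, -⟩, hg⟩)
        · exact ⟨hg.1.1, hg.2⟩
        · exact ⟨e ▸ (hN.val b hb y hy).1, hg⟩
    have e6 : cnt E l (k + 1) + cnt (E \ Deep L c B D R') l k + cnt E l (k + 1) ≤
        cnt E l (k + 2) + cnt E l k + cnt (E \ Deep L c B D R') l (k + 1) := by
      rw [show k + 2 = k + 1 + 1 from rfl]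
      omega
    have e7 := (Nat.cast_le (α := ℝ)).2 e6
    push_cast at e7
    linarith

end Pool.Agent.MP_b3b911_al.VA

end

section

/-! Virtually abelian groups: the classification. -/

namespace Pool.Agent.MP_b3b911_al.VA

open Filter Topology Pointwise

variable {G : Type*} [Group G]

theorem sys_all : SysStmt G := sys_stmt red_stmt down_stmt count_stmt ana_stmt key_stmt

theorem reg_all : RegStmt G := reg2_stmt lp_stmt len_stmt slab_stmt tlem_stmt

theorem classification (hfg : Group.FG G)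
    (hA : ∃ A : Subgroup G, A.FiniteIndex ∧ ∀ a ∈ A, ∀ b ∈ A, a * b = b * a) :
    (∀ S : Finset G, Subgroup.closure (S : Set G) = ⊤ → ∃ (d : ℕ) (c L : ℝ),
      Tendsto (fun k : ℕ => Real.log (growth S k) / Real.log k) atTop (𝓝 d) ∧ 0 < c ∧
      Tendsto (fun k : ℕ => (growth S k : ℝ) / (k : ℝ) ^ d) atTop (𝓝 c) ∧
      Tendsto (fun k : ℕ => ((growth S k : ℝ) - c * (k : ℝ) ^ d) / (k : ℝ) ^ ((d : ℤ) - 1))
        atTop (𝓝 L)) ↔
    ((∃ B : Subgroup G, B.index = 2 ∧ ∀ a ∈ B, ∀ b ∈ B, a * b = b * a) ∨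
      ∃ A : Subgroup G, A.FiniteIndex ∧
        ∀ g : G, (∀ a ∈ A, g * a * g⁻¹ = a) ∨ ∀ a ∈ A, g * a * g⁻¹ = a⁻¹) :=
  main_of lat1_stmt lat2_stmt good_stmt (if_stmt sys_all sys0_stmt sys1_stmt box_stmt)
    (fun L h => only_if box_stmt mean_stmt reg_all geo_stmt par_stmt gen_stmt
      (vert_stmt letter_stmt) cls_stmt (up_stmt (vert_stmt letter_stmt) round_stmt)
      (biasA_stmt tlem_stmt perm_stmt) (biasB_stmt slab_stmt win_stmt) case1_stmt case2_stmt L h)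
    hfg hA

end Pool.Agent.MP_b3b911_al.VA

end
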